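import Pool.Agent.Lib.TWN1.Base
import Pool.Agent.Lib.TWLM.Fib

/-!
# TANK W, Theorem N1: the arc of the closure of `C(w)`

* `Set0.exists_arc`: a strict overconvergent arc of `C` extends to a strict arc `Ψ` of the closure
  of `C(w)`, `Ψ n (f(w)) = Ph Φ w Z n f`;
* `Set0.trunc`: if `Z n` is not visible for `n ≥ n₀`, the truncation `Sn Z n₀` has the same
  properties;
* `Set0.exists_trunc`: then `Ψ` can be chosen overconvergent.
-/

set_option autoImplicit false

open Polynomial Finset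

namespace Pool.Agent.TWN1

open Pool.Agent.H15JM (RVal)
open Pool.Agent.TWM
open Pool.Agent.TWLM (HSd Oi Arc eq_zero_of_ge exists_ge eval_mem_cadj)

universe u

variable {k Ω : Type u} [Field k] [Field Ω] [Algebra k Ω] {v : RVal Ω}
  {C : IntermediateField k Ω} {Φ : ℕ → Ω → Ω} {w : Ω} {Z : PowerSeries Ω} {κ : ℕ → ℝ} {ρ σ : ℝ}

theorem coeff_Sn (Z : PowerSeries Ω) (n' n : ℕ) :
    PowerSeries.coeff n (Sn Z n') = if n < n' then PowerSeries.coeff n Z else 0 :=
  PowerSeries.coeff_mk n _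

/-- **The truncation.** -/
theorem Set0.trunc (h : Set0 v C Φ w Z κ ρ σ) {n₀ : ℕ}
    (hfin : ∀ n : ℕ, n₀ ≤ n → Gt v (ρ - n * σ) (PowerSeries.coeff n Z)) :
    ∃ κ' : ℕ → ℝ, Set0 v C Φ w (Sn Z n₀) κ' ρ σ := by
  classical
  have h1 : ∀ n : ℕ, ∃ μ : ℝ, 0 < μ ∧ (n₀ ≤ n → v.Ge (ρ - n * σ + μ) (PowerSeries.coeff n Z)) := by
    intro n
    by_cases hn : n₀ ≤ n
    · obtain ⟨μ, hμ, h2⟩ := TWLM.exists_ge_of_gt (hfin n hn)
      exact ⟨μ, hμ, fun _ => h2⟩
    · exact ⟨1, one_pos, fun h2 => absurd h2 hn⟩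
  choose μ hμ0 hμ using h1
  refine ⟨fun n => min (κ n) (2 * μ n), ?_⟩
  refine
    { hsd := h.hsd
      oi := h.oi
      tl := h.tl
      z0 := ?_
      zmem := ?_
      kpos := fun n => lt_min (h.kpos n) (by linarith [hμ0 n])
      str := fun n hn x hx b hb => (h.str n hn x hx b hb).mono (by
        linarith [min_le_left (κ n) (2 * μ n)])
      near := ?_ }
  · rw [coeff_Sn, h.z0, ite_self]
  · intro n
    rw [coeff_Sn]
    split_ifs
    exacts [h.zmem n, C.zero_mem]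
  · intro n hn c hc b hb
    have h2 := h.near n hn c hc b hb
    have h3 := min_le_left (κ n) (2 * μ n)
    have h4 := min_le_right (κ n) (2 * μ n)
    have h5 : min (b + min (κ n) (2 * μ n)) (ρ + min (κ n) (2 * μ n) / 2) ≤
        min (b + κ n) (ρ + κ n / 2) := by
      refine le_min ((min_le_left _ _).trans (by linarith)) ((min_le_right _ _).trans (by linarith))
    rw [coeff_Sn]
    split_ifs with hlt
    · exact h2.mono (by linarith)
    · have h6 := hμ n (by omega)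
      have e : (0 : Ω) - Φ n c = (PowerSeries.coeff n Z - Φ n c) - PowerSeries.coeff n Z := by ring
      rw [e]
      refine (h2.mono (by linarith)).sub (h6.mono ?_)
      have h7 := min_le_right (b + min (κ n) (2 * μ n)) (ρ + min (κ n) (2 * μ n) / 2)
      linarith

/-- Overconvergence on the polynomials. -/
theorem ph_oi (hoi : Oi v C σ Φ) {S : PowerSeries Ω} {n₀ : ℕ}
    (hS : ∀ n, n₀ ≤ n → PowerSeries.coeff n S = 0) {f : Polynomial Ω} (hf : f ∈ PI C) (B : ℝ) :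
    ∃ L : ℕ, ∀ l : ℕ, L ≤ l → v.Ge (B - l * σ) (Ph Φ w S l f) := by
  classical
  -- the powers
  have hpow : ∀ i n : ℕ, i * n₀ < n → PowerSeries.coeff n ((PowerSeries.C w + S) ^ i) = 0 := by
    intro i
    induction i with
    | zero =>
      intro n hn
      rw [pow_zero, PowerSeries.coeff_one, if_neg (by omega)]
    | succ i ih =>
      intro n hn
      rw [pow_succ, PowerSeries.coeff_mul]
      refine sum_eq_zero fun j hj => ?_
      have h1 : j.1 + j.2 = n := by simpa using hj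
      rw [add_mul, one_mul] at hn
      by_cases h2 : i * n₀ < j.1
      · rw [ih _ h2, zero_mul]
      · have h3 : n₀ < j.2 := by omega
        rw [map_add, PowerSeries.coeff_C, if_neg (by omega), hS _ h3.le, add_zero, mul_zero]
  have hpow' : ∀ i n : ℕ, ∃ M : ℝ, v.Ge (-M) (PowerSeries.coeff n ((PowerSeries.C w + S) ^ i)) := by
    intro i n
    obtain ⟨c, hc⟩ := exists_ge v (PowerSeries.coeff n ((PowerSeries.C w + S) ^ i))
    exact ⟨-c, by rwa [neg_neg]⟩
  choose M hM using hpow'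
  set d := f.natDegree with hd
  obtain ⟨R, hR⟩ : ∃ R : ℝ, ∀ i ≤ d, ∀ n ≤ d * n₀, M i n + abs ((n : ℝ) * σ) ≤ R := by
    refine ⟨∑ i ∈ range (d + 1), ∑ n ∈ range (d * n₀ + 1), abs (M i n + abs ((n : ℝ) * σ)), ?_⟩
    intro i hi n hn
    refine (le_abs_self _).trans ?_
    refine le_trans ?_ (single_le_sum (f := fun i => ∑ n ∈ range (d * n₀ + 1),
      abs (M i n + abs ((n : ℝ) * σ))) (fun i _ => sum_nonneg fun n _ => abs_nonneg _)
      (mem_range.2 (Nat.lt_succ_of_le hi)))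
    exact single_le_sum (f := fun n : ℕ => abs (M i n + abs ((n : ℝ) * σ)))
      (fun n _ => abs_nonneg _) (mem_range.2 (Nat.lt_succ_of_le hn))
  choose L hL using fun i => hoi (f.coeff i) (hf i) (B + R)
  refine ⟨(∑ i ∈ range (d + 1), L i) + d * n₀, fun l hl => ?_⟩
  have hterm : ∀ i ≤ d, v.Ge (B - l * σ)
      (PowerSeries.coeff l (ser Φ (f.coeff i) * (PowerSeries.C w + S) ^ i)) := by
    intro i hi
    rw [PowerSeries.coeff_mul]
    refine RVal.Ge.sum _ _ fun j hj => ?_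
    have h1 : j.1 + j.2 = l := by simpa using hj
    by_cases h2 : i * n₀ < j.2
    · rw [hpow i _ h2, mul_zero]
      exact RVal.Ge.zero
    have h3 : j.2 ≤ d * n₀ := (not_lt.1 h2).trans (Nat.mul_le_mul_right n₀ hi)
    have h4 : L i ≤ ∑ i ∈ range (d + 1), L i :=
      single_le_sum (fun _ _ => Nat.zero_le _) (mem_range.2 (Nat.lt_succ_of_le hi))
    have h5 := hL i j.1 (by omega)
    rw [coeff_ser]
    refine (h5.mul (hM i j.2)).mono ?_
    have h6 := hR i hi j.2 h3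
    have h7 := neg_abs_le ((j.2 : ℝ) * σ)
    have h8 : (l : ℝ) = j.1 + j.2 := by rw [← h1]; push_cast; ring
    rw [h8]
    linarith
  rw [Ph, EV, Polynomial.sum, map_sum]
  exact RVal.Ge.sum _ _ fun i hi => hterm i (le_natDegree_of_mem_supp i hi)

/-- **The arc of the closure of `C(w)`.** -/
theorem Set0.exists_arc [IsAlgClosed Ω] (hΩ : CompleteV v) (h : Set0 v C Φ w Z κ ρ σ) :
    ∃ Ψ : ℕ → Ω → Ω, Arc v (cadj v C w) σ Ψ ∧
      (∀ n : ℕ, ∀ f ∈ PI C, Ψ n (f.eval w) = Ph Φ w Z n f) ∧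
      (∀ n : ℕ, ∀ x ∈ C, Ψ n x = Φ n x) ∧
      (∀ n : ℕ, Ψ n w = if n = 0 then w else PowerSeries.coeff n Z) ∧
      (∀ n : ℕ, ∀ x ∈ cadj v C w, ∀ b : ℝ, ∀ f ∈ PI C, v.Ge b (x - f.eval w) →
        v.Ge (b - n * σ) (Ψ n x - Ph Φ w Z n f)) := by
  classical
  -- existence
  have h1 : ∀ (j : ℕ) (x : Ω), x ∈ cadj v C w → ∃ y : Ω, ∀ (b : ℝ), ∀ f ∈ PI C,
      v.Ge b (x - f.eval w) → v.Ge (b - j * σ) (y - Ph Φ w Z j f) := by
    intro j x hx
    choose f hf hxf using fun n : ℕ => h.tl.dense hx (n : ℝ)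
    have hdif : ∀ (g g' : Polynomial Ω) (b : ℝ), g ∈ PI C → g' ∈ PI C → v.Ge b (x - g.eval w) →
        v.Ge b (x - g'.eval w) →
        v.Ge (b - j * σ) (Ph Φ w Z j g - Ph Φ w Z j g') := by
      intro g g' b hg hg' h2 h3
      rw [← ph_sub h.hsd hg hg']
      refine h.ph_ge j (sub_mem hg hg') ?_
      rw [eval_sub]
      have e : g.eval w - g'.eval w = (x - g'.eval w) - (x - g.eval w) := by ring
      rw [e]
      exact h3.sub h2
    obtain ⟨y, hy⟩ := hΩ (fun n => Ph Φ w Z j (f n)) fun c => by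
      obtain ⟨N, hN⟩ := exists_nat_ge (c + j * σ)
      refine ⟨N, fun m n hm hn => ?_⟩
      refine (hdif (f m) (f n) N (hf m) (hf n) ((hxf m).mono (by exact_mod_cast hm))
        ((hxf n).mono (by exact_mod_cast hn))).mono (by linarith)
    refine ⟨y, fun b g hg hb => ?_⟩
    obtain ⟨N, hN⟩ := hy (b - j * σ)
    obtain ⟨N', hN'⟩ := exists_nat_ge b
    have e : y - Ph Φ w Z j g = (y - Ph Φ w Z j (f (max N N'))) +
        (Ph Φ w Z j (f (max N N')) - Ph Φ w Z j g) := by ring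
    rw [e]
    refine (hN _ (le_max_left _ _)).add (hdif _ _ b (hf _) hg ((hxf _).mono (hN'.trans ?_)) hb)
    exact_mod_cast le_max_right N N'
  choose! D hD using h1
  -- uniqueness
  have huniq : ∀ (j : ℕ) (x : Ω), x ∈ cadj v C w → ∀ y : Ω,
      (∀ b : ℝ, ∃ f ∈ PI C, v.Ge b (x - f.eval w) ∧ v.Ge b (y - Ph Φ w Z j f)) →
      D j x = y := by
    intro j x hx y h2
    refine sub_eq_zero.1 (eq_zero_of_ge (v := v) fun b => ?_)
    obtain ⟨f, hf, h3, h4⟩ := h2 (max b (b + j * σ))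
    have h5 := hD j x hx _ f hf h3
    have e : D j x - y = (D j x - Ph Φ w Z j f) - (y - Ph Φ w Z j f) := by
      ring
    rw [e]
    refine (h5.mono ?_).sub (h4.mono (le_max_left _ _))
    linarith [le_max_right b (b + j * σ)]
  have hpoly : ∀ j : ℕ, ∀ f ∈ PI C, D j (f.eval w) = Ph Φ w Z j f := by
    intro j f hf
    refine huniq j _ (eval_mem_cadj hf) _ fun b => ⟨f, hf, ?_, ?_⟩
    · rw [sub_self]
      exact RVal.Ge.zero
    · rw [sub_self]
      exact RVal.Ge.zero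
  -- simultaneous approximation
  have happ : ∀ j : ℕ, ∀ x ∈ cadj v C w, ∀ b : ℝ, ∃ f ∈ PI C, v.Ge b (x - f.eval w) ∧
      v.Ge b (D j x - Ph Φ w Z j f) := by
    intro j x hx b
    obtain ⟨f, hf, h2⟩ := h.tl.dense hx (max b (b + j * σ))
    refine ⟨f, hf, h2.mono (le_max_left _ _), (hD j x hx _ f hf h2).mono ?_⟩
    linarith [le_max_right b (b + j * σ)]
  have hmem : ∀ j : ℕ, ∀ x ∈ cadj v C w, D j x ∈ cadj v C w := by
    intro j x hx
    refine cld_cadj v C w fun b => ?_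
    obtain ⟨f, hf, h2, h3⟩ := happ j x hx b
    exact ⟨_, h.ph_mem hf j, h3⟩
  have hadd : ∀ j : ℕ, ∀ x ∈ cadj v C w, ∀ y ∈ cadj v C w, D j (x + y) = D j x + D j y := by
    intro j x hx y hy
    refine huniq j _ (add_mem hx hy) _ fun b => ?_
    obtain ⟨f, hf, h2, h3⟩ := happ j x hx b
    obtain ⟨g, hg, h4, h5⟩ := happ j y hy b
    refine ⟨f + g, add_mem hf hg, ?_, ?_⟩
    · rw [eval_add, add_sub_add_comm]
      exact h2.add h4
    · rw [ph_add h.hsd hf hg, add_sub_add_comm]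
      exact h3.add h5
  have hnorm : ∀ j : ℕ, ∀ x ∈ cadj v C w, ∀ b : ℝ, v.Ge b x → v.Ge (b - j * σ) (D j x) := by
    intro j x hx b hb
    have h2 := hD j x hx b 0 (zero_mem _) (by rwa [eval_zero, sub_zero])
    have h3 : Ph Φ w Z j 0 = 0 := by
      rw [Ph, EV_zero, map_zero]
    rwa [h3, sub_zero] at h2
  -- products
  have hmul : ∀ j : ℕ, ∀ x ∈ cadj v C w, ∀ y ∈ cadj v C w,
      D j (x * y) = ∑ i ∈ Finset.HasAntidiagonal.antidiagonal j, D i.1 x * D i.2 y := by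
    intro j x hx y hy
    -- bounds
    obtain ⟨R, hR0, hR⟩ : ∃ R : ℝ, 0 ≤ R ∧ (∀ i : ℕ, i ≤ j → |i * σ| ≤ R ∧ v.Ge (-R) (D i x) ∧
        v.Ge (-R) (D i y)) ∧ v.Ge (-R) x ∧ v.Ge (-R) y := by
      obtain ⟨c, hc⟩ := exists_ge v x
      obtain ⟨c', hc'⟩ := exists_ge v y
      refine ⟨|c| + |c'| + j * |σ|, by positivity, fun i hi => ⟨?_, ?_, ?_⟩, hc.mono ?_,
        hc'.mono ?_⟩
      · rw [abs_mul, Nat.abs_cast]
        have h2 : (i : ℝ) ≤ j := by exact_mod_cast hi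
        have h3 : (i : ℝ) * |σ| ≤ j * |σ| := mul_le_mul_of_nonneg_right h2 (abs_nonneg σ)
        linarith [abs_nonneg c, abs_nonneg c']
      · refine (hnorm i x hx c hc).mono ?_
        have h2 : (i : ℝ) ≤ j := by exact_mod_cast hi
        have h3 : (i : ℝ) * |σ| ≤ j * |σ| := mul_le_mul_of_nonneg_right h2 (abs_nonneg σ)
        have h4 : (i : ℝ) * σ ≤ i * |σ| := mul_le_mul_of_nonneg_left (le_abs_self σ) (by positivity)
        linarith [neg_abs_le c, abs_nonneg c']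
      · refine (hnorm i y hy c' hc').mono ?_
        have h2 : (i : ℝ) ≤ j := by exact_mod_cast hi
        have h3 : (i : ℝ) * |σ| ≤ j * |σ| := mul_le_mul_of_nonneg_right h2 (abs_nonneg σ)
        have h4 : (i : ℝ) * σ ≤ i * |σ| := mul_le_mul_of_nonneg_left (le_abs_self σ) (by positivity)
        linarith [neg_abs_le c', abs_nonneg c]
      · have h3 : (0 : ℝ) ≤ j * |σ| := by positivity
        linarith [neg_abs_le c, abs_nonneg c']
      · have h3 : (0 : ℝ) ≤ j * |σ| := by positivity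
        linarith [neg_abs_le c', abs_nonneg c]
    obtain ⟨hR1, hRx, hRy⟩ := hR
    refine huniq j _ (mul_mem hx hy) _ fun b => ?_
    set B : ℝ := |b| + 2 * R with hB
    have hB0 : 0 ≤ B := by positivity
    obtain ⟨f, hf, h2⟩ := h.tl.dense hx (B + R)
    obtain ⟨g, hg, h4⟩ := h.tl.dense hy (B + R)
    have h3 : ∀ i : ℕ, i ≤ j → v.Ge B (D i x - Ph Φ w Z i f) := fun i hi =>
      (hD i x hx _ f hf h2).mono (by linarith [(le_abs_self ((i : ℝ) * σ)).trans (hR1 i hi).1])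
    have h5 : ∀ i : ℕ, i ≤ j → v.Ge B (D i y - Ph Φ w Z i g) := fun i hi =>
      (hD i y hy _ g hg h4).mono (by linarith [(le_abs_self ((i : ℝ) * σ)).trans (hR1 i hi).1])
    have hmulb : ∀ a a' c c' : Ω, v.Ge (-R) a → v.Ge (-R) c → v.Ge B (a - a') → v.Ge B (c - c') →
        v.Ge b (a * c - a' * c') := by
      intro a a' c c' h6 h7 h8 h9
      have e : a * c - a' * c' = (a - a') * c + a * (c - c') - (a - a') * (c - c') := by ring
      rw [e]
      refine ((((h8.mul h7)).mono ?_).add ((h6.mul h9).mono ?_)).sub ((h8.mul h9).mono ?_)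
      · rw [hB]; linarith [le_abs_self b]
      · rw [hB]; linarith [le_abs_self b]
      · linarith [le_abs_self b]
    refine ⟨f * g, mul_mem hf hg, ?_, ?_⟩
    · rw [eval_mul]
      exact hmulb _ _ _ _ hRx hRy (h2.mono (by linarith)) (h4.mono (by linarith))
    · rw [ph_mul h.hsd hf hg, ← sum_sub_distrib]
      refine RVal.Ge.sum _ _ fun i hi => ?_
      have hi' : i.1 + i.2 = j := by simpa using hi
      exact hmulb _ _ _ _ (hR1 i.1 (by omega)).2.1 (hR1 i.2 (by omega)).2.2 (h3 i.1 (by omega))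
        (h5 i.2 (by omega))
  have hC : ∀ n : ℕ, ∀ x ∈ C, D n x = Φ n x := by
    intro n x hx
    have h2 := hpoly n (Polynomial.C x) (C_mem_PI hx)
    rwa [eval_C, ph_C h.hsd hx] at h2
  refine ⟨D, ?_, hpoly, hC, ?_, hD⟩
  · refine
      { mem := hmem
        c0 := ?_
        add := hadd
        mul := hmul
        con := ?_
        str := ?_ }
    · intro x hx
      refine huniq 0 x hx x fun b => ?_
      obtain ⟨f, hf, h2⟩ := h.tl.dense hx b
      exact ⟨f, hf, h2, by rwa [h.ph_zero hf]⟩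
    · intro l hl c
      rw [hC l _ (C.algebraMap_mem c)]
      exact h.hsd.con l hl c
    · intro l hl
      obtain ⟨η, hη, h2⟩ := h.ph_str hl
      refine ⟨l * σ - η, by linarith, fun x hx b hb => ?_⟩
      obtain ⟨f, hf, h3⟩ := h.tl.dense hx (b + η)
      have h4 := hD l x hx _ f hf h3
      have h5 : v.Ge b (f.eval w) := by
        have e : f.eval w = x - (x - f.eval w) := by ring
        rw [e]
        exact hb.sub (h3.mono (by linarith))
      have h6 := h2 f hf b h5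
      have e : D l x = (D l x - Ph Φ w Z l f) + Ph Φ w Z l f := by ring
      rw [e]
      exact (h4.mono (by linarith)).add (h6.mono (by linarith))
  · intro n
    have h2 := hpoly n X (X_mem_PI (A := C))
    rw [eval_X] at h2
    rw [h2, Ph, EV_X h.hsd, map_add, PowerSeries.coeff_C]
    split_ifs with hn
    · rw [hn, h.z0, add_zero]
    · rw [zero_add]

/-- **The overconvergent arc of the closure of `C(w)`**, `w` of finite visible shape. -/
theorem Set0.exists_trunc [IsAlgClosed Ω] (hΩ : CompleteV v) (h : Set0 v C Φ w Z κ ρ σ) {n₀ : ℕ}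
    (hfin : ∀ n : ℕ, n₀ ≤ n → Gt v (ρ - n * σ) (PowerSeries.coeff n Z)) :
    ∃ Ψ : ℕ → Ω → Ω, Arc v (cadj v C w) σ Ψ ∧ Oi v (cadj v C w) σ Ψ ∧
      (∀ n : ℕ, ∀ f ∈ PI C, Ψ n (f.eval w) = Ph Φ w (Sn Z n₀) n f) ∧
      (∀ n : ℕ, ∀ x ∈ C, Ψ n x = Φ n x) ∧
      (∀ n : ℕ, n ≠ 0 → Ψ n w = if n < n₀ then PowerSeries.coeff n Z else 0) := by
  obtain ⟨κ', h'⟩ := h.trunc hfin
  obtain ⟨Ψ, h1, h2, h3, h4, h5⟩ := h'.exists_arc hΩ
  refine ⟨Ψ, h1, ?_, h2, h3, fun n hn => ?_⟩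
  · intro x hx B
    obtain ⟨f, hf, h6⟩ := h.tl.dense hx B
    obtain ⟨L, hL⟩ := ph_oi (w := w) h.oi (S := Sn Z n₀) (n₀ := n₀)
      (fun n hn => by rw [coeff_Sn, if_neg (by omega)]) hf B
    refine ⟨L, fun l hl => ?_⟩
    have h7 := h5 l x hx B f hf h6
    have e : Ψ l x = (Ψ l x - Ph Φ w (Sn Z n₀) l f) + Ph Φ w (Sn Z n₀) l f := by ring
    rw [e]
    exact h7.add (hL l hl)
  · rw [h4, if_neg hn, coeff_Sn]

end Pool.Agent.TWN1
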