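import Pool.Agent.Lib.TWN1.RtB

/-!
# TANK W, Theorem N1, (G3): the top visible `w`-jet of `y` is attained

`Top`: the jets of index `> p ^ N * J` of `fth` are null. `rt_key`: the estimate of the top jet of
the difference of two approximants, with the correction `corr` (OC fails by finitely many terms).
`top_jet`: the coefficients of index `J` of the approximants converge to an element of `K`.
-/

set_option autoImplicit false

open Polynomial Finset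

namespace Pool.Agent.TWN1

open Pool.Agent.H15JM (RVal)
open Pool.Agent.TWM
open Pool.Agent.TWII (PG LP)
open Pool.Agent.TWLM (HSd Oi)

universe u

section C

variable {k Ω : Type u} [Field k] [Field Ω] [Algebra k Ω] [IsAlgClosed Ω] {v : RVal Ω}
  {K : IntermediateField k Ω} {Φ : ℕ → Ω → Ω} {w y ψ : Ω} {Z : PowerSeries Ω} {κ : ℕ → ℝ}
  {ρ σ : ℝ} {p : ℕ} [hp : Fact p.Prime] [CharP Ω p] {e : Ω} {A : ℕ → Ω} {N J : ℕ}
  {B R θ θ₀ Δ : Polynomial Ω} {s ν μ g e₀ ε b η δ : ℝ} {n' m₁ m₂ : ℕ}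

/-- The top is null: all the jets of index `> p ^ N * J` of `fth R`. They are the same for all `θ`
in `R + (degree ≤ J)`. -/
def Top (p : ℕ) (v : RVal Ω) (K : IntermediateField k Ω) (w : Ω) (ρ ν : ℝ) (e : Ω) (A : ℕ → Ω)
    (N : ℕ) (B : Polynomial Ω) (J : ℕ) (R : Polynomial Ω) : Prop :=
  ∀ l : ℕ, p ^ N * J < l → p ∣ l →
    PG p v (cadj v K w) (ν - l * ρ) ((hasseDeriv l (fth p e A N B R)).eval w)

omit [IsAlgClosed Ω] in
theorem rt_coset (h1 : ∀ i, J < i → θ.coeff i = θ₀.coeff i) : (θ - θ₀).natDegree ≤ J :=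
  natDegree_le_iff_coeff_eq_zero.2 fun i hi => by rw [coeff_sub, h1 i hi, sub_self]

omit [IsAlgClosed Ω] in
theorem rt_hasse_coeff (hJ : Δ.natDegree ≤ J) : hasseDeriv J Δ = C (Δ.coeff J) := by
  ext m
  rw [hasseDeriv_coeff, coeff_C]
  split_ifs with hm
  · rw [hm, zero_add, Nat.choose_self, Nat.cast_one, one_mul]
  · rw [coeff_eq_zero_of_natDegree_lt (by omega), mul_zero]

/-- Formula (1), the leading term. -/
theorem rt_lin (h : Set0 v K Φ w Z κ ρ σ) (hΔ : Δ ∈ PI K) (hJd : Δ.natDegree ≤ J)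
    (hb : v.Ge b (Δ.eval w)) (hg0 : 0 ≤ g)
    (hg : ∀ n : ℕ, n' ≤ n → v.Ge (ρ - n * σ - g) (PowerSeries.coeff n Z)) :
    v.Ge (b - (J * n' : ℕ) * σ - (J - 1) * g) (PhS Φ w Z n' (J * n') Δ -
      (-PowerSeries.coeff n' Z) ^ J * Δ.coeff J) := by
  obtain ⟨hY1, hY2, -, -⟩ := h.Y_pow hg J
  have e1 : ∑ i ∈ antidiagonal (J * n'), Ph Φ w Z i.1 (hasseDeriv J Δ) *
      PowerSeries.coeff i.2 ((-Yn Z n') ^ J) = (-PowerSeries.coeff n' Z) ^ J * Δ.coeff J := by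
    rw [sum_eq_single (0, J * n')]
    · rw [h.ph_zero (hasse_mem_PI hΔ J), rt_hasse_coeff hJd, eval_C, hY2, mul_comm]
    · intro i hi hne
      have hi' : i.1 + i.2 = J * n' := by simpa using hi
      rw [hY1 i.2, mul_zero]
      by_contra h2
      exact hne (Prod.ext (by simp only; omega) (by simp only; omega))
    · intro hh
      exact absurd (by simp) hh
  rw [h.phS_one hΔ hJd, sum_range_succ, e1, add_sub_cancel_right]
  refine RVal.Ge.sum _ _ fun j hj => RVal.Ge.sum _ _ fun i hi => ?_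
  have hi' : i.1 + i.2 = J * n' := by simpa using hi
  have hj' := mem_range.1 hj
  have h1 := h.ph_ge i.1 (hasse_mem_PI hΔ j) (TWLM.poly_norm h.tl hΔ j hb)
  obtain ⟨-, -, hY3, -⟩ := h.Y_pow hg j
  refine (h1.mul (hY3 i.2)).mono ?_
  have e2 : ((J * n' : ℕ) : ℝ) = i.1 + i.2 := by rw [← hi']; push_cast; ring
  rw [e2]
  have h3 : (j : ℝ) ≤ J - 1 := by
    have : (j : ℝ) + 1 ≤ J := by exact_mod_cast hj'
    linarith
  nlinarith

/-- The main estimate: the top jet of the difference. -/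
theorem rt_key (h : Set0 v K Φ w Z κ ρ σ) (hD : Dt p v K (cadj v K w) s ν e A N)
    (hM : Mar p v K Φ σ s ν e A N μ) (hθ : θ ∈ PI K) (hθ₀ : θ₀ ∈ PI K) (hB : B ∈ PI K)
    (hJd : (θ - θ₀).natDegree ≤ J) (hJ : J ≠ 0) (he₀0 : 0 ≤ e₀)
    (he₀ : v.Ge (s - e₀) ((θ - θ₀).eval w)) (hg0 : 0 ≤ g)
    (hg : ∀ n : ℕ, n' ≤ n → v.Ge (ρ - n * σ - g) (PowerSeries.coeff n Z))
    (hμ : p ^ N * (e₀ + J * g) < μ)
    (hX : ∀ l, 2 ≤ l → ¬ p ∣ l → hasseDeriv l (fth p e A N B θ) = 0)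
    (h1 : v.Ge (ν - ρ) ((hasseDeriv 1 (fth p e A N B θ)).eval w))
    (hlp : LP p v (cadj v K w) (ν - ε) ((fth p e A N B θ).eval w)) (hε : 0 < ε)
    (hhi : ∀ l : ℕ, p ^ N * J < l → p ∣ l → LP p v (cadj v K w) (ν - l * ρ + l * g)
      ((hasseDeriv l (fth p e A N B θ)).eval w))
    (hoc : ∀ i n : ℕ, n ≠ 0 → p ^ N * J * n' + m₂ ≤ p ^ N * n + p ^ N * i * n' →
      PG p v (cadj v K w) (ν - (p ^ N * i : ℕ) * ρ - (p ^ N * n : ℕ) * σ)
        (PhS Φ w Z n' (p ^ N * n) (hasseDeriv (p ^ N * i) (fth p e A N B θ₀))))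
    (hn' : m₂ ≤ n') (hn'0 : n' ≠ 0) (hψ : ψ ∈ K)
    (hocc : PG p v (cadj v K w) (ν - (p ^ N * (J * n') : ℕ) * σ)
      (PhS Φ w Z n' (p ^ N * (J * n')) (fth p e A N B θ₀) -
        ∑ x ∈ antidiagonal (p ^ N * (J * n')) with x.1 ≠ 0 ∧ x.1 < m₁,
          Φ x.1 ((hasseDeriv (p ^ N * J) (fth p e A N B θ₀)).eval ψ) *
            PowerSeries.coeff x.2 (Tn Φ w Z n' ψ ^ (p ^ N * J))))
    (hpt : PG p v (cadj v K w) (ν - (p ^ N * J : ℕ) * ρ)
      ((hasseDeriv (p ^ N * J) (fth p e A N B θ₀)).eval w -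
        (hasseDeriv (p ^ N * J) (fth p e A N B θ₀)).eval ψ))
    (hT : ∀ n : ℕ, v.Ge (ρ - δ - n * σ) (PowerSeries.coeff n (Tn Φ w Z n' ψ)))
    (hη : ∀ m : ℕ, m ≠ 0 → m < m₁ → η ≤ κ m) (hlt1 : ε + (p ^ N * J : ℕ) * δ < η)
    (hlt2 : p ^ N * e₀ + (p ^ N * J : ℕ) * δ < μ) :
    v.Ge (s - (J * n' : ℕ) * σ - J * g - ε / p ^ N)
      (PhS Φ w Z n' (J * n') (θ - θ₀) -
        corr p N m₁ Φ w Z n' ψ J (J * n') ((θ - θ₀).coeff J)) := by
  have hΔ : θ - θ₀ ∈ PI K := sub_mem hθ hθ₀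
  have hN1 := hD.N1
  have hNN : N ∈ Icc 1 N := mem_Icc.2 ⟨hN1, le_rfl⟩
  have hp0 : 0 < p := hp.out.pos
  have hQ0 : 0 < p ^ N := pow_pos hp0 N
  have hQr : (0 : ℝ) < (p : ℝ) ^ N := by
    have : (0 : ℝ) < p := by exact_mod_cast hp0
    positivity
  have hL0 : 0 < p ^ N * J := Nat.mul_pos hQ0 (by omega)
  have hLn : p ^ N * J * n' = p ^ N * (J * n') := mul_assoc _ _ _
  have hn0 : J * n' ≠ 0 := Nat.mul_ne_zero hJ hn'0
  have hf : fth p e A N B θ ∈ PI K := fth_mem hD hB hθ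
  have hf₀ : fth p e A N B θ₀ ∈ PI K := fth_mem hD hB hθ₀
  have hc : (θ - θ₀).coeff J ∈ K := hΔ J
  have hcb : v.Ge (s - e₀ - J * ρ) ((θ - θ₀).coeff J) := by
    have h2 := TWLM.poly_norm h.tl hΔ J he₀
    rwa [rt_hasse_coeff hJd, eval_C] at h2
  have htopeq := rt_fth_top (p := p) (e := e) (A := A) (B := B) hN1 hJd hJ
  have hbf : (hasseDeriv (p ^ N * J) (fth p e A N B θ)).eval ψ ∈ K :=
    eval_mem (hasse_mem_PI hf _) hψ
  have e0 : (hasseDeriv (p ^ N * J) (fth p e A N B θ₀)).eval ψ =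
      (hasseDeriv (p ^ N * J) (fth p e A N B θ)).eval ψ -
        A N * (θ - θ₀).coeff J ^ p ^ N := by
    rw [htopeq, eval_add, eval_C]
    ring
  have hbfl : LP p v K (ν - (p ^ N * J : ℕ) * ρ - ε)
      ((hasseDeriv (p ^ N * J) (fth p e A N B θ)).eval ψ) := by
    refine LP.down h.tl hbf ?_
    have h2 := LP.hjet h.tl hf hlp (p ^ N * J)
    have e1 : (hasseDeriv (p ^ N * J) (fth p e A N B θ)).eval ψ =
        (hasseDeriv (p ^ N * J) (fth p e A N B θ)).eval w -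
          ((hasseDeriv (p ^ N * J) (fth p e A N B θ₀)).eval w -
            (hasseDeriv (p ^ N * J) (fth p e A N B θ₀)).eval ψ) := by
      rw [htopeq, eval_add, eval_C, eval_add, eval_C]
      ring
    rw [e1]
    exact (h2.mono (by linarith)).sub ((LP.of_pg hpt).mono (by linarith))
  have hcorr := rt_corr_null (n := J * n') h hψ hc (hD.AC N hNN) hbf hN1 hbfl hcb (hM.Am N hNN)
    hT hη hlt1 hlt2
  rw [e0] at hocc
  have hA := hocc.add hcorr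
  have e5 : ∀ a c b : Ω, a - c + (c + b) = a + b := fun a c b => by ring
  rw [e5] at hA
  -- the relation
  have hrel := rel h hD hM hθ hθ₀ hB hJd he₀0 he₀ hg0 hg hμ 0 (p ^ N * (J * n'))
  have hg1 := fun (q : ℕ) (hq : 2 ≤ q) =>
    g1 (i := 0) (n := q * (J * n')) (L := p ^ N * J) (m₁ := m₂) h hD hM hθ hθ₀ hB hJd he₀0 he₀ hg0
      hg hμ hX h1 hlp hε hL0 hhi hoc (Nat.mul_ne_zero (by omega) hn0) (by
        have h3 : 2 * (p ^ N * (J * n')) ≤ q * (p ^ N * (J * n')) := Nat.mul_le_mul_right _ hq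
        have h4 : 1 * n' ≤ p ^ N * J * n' := Nat.mul_le_mul_right _ hL0
        have h5 : p ^ N * (q * (J * n')) = q * (p ^ N * (J * n')) := by ring
        rw [h5, mul_zero, zero_mul, add_zero, hLn] at *
        omega)
  have hshape := shape (i := 0) (L := p ^ N * J) h hf hX h1 hlp hε.le hL0 hhi hg0 hg (dvd_zero p)
    (p ^ N * (J * n'))
  simp only [hasseDeriv_zero', Nat.cast_zero, zero_mul, sub_zero, mul_zero, Nat.sub_zero]
    at hrel hg1 hshape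
  -- the terms of the relation
  have hlev : LP p v (cadj v K w) (ν - (p ^ N * (J * n') : ℕ) * σ - ((p ^ N * J : ℕ) * g + ε))
      (A N * (PhS Φ w Z n' (J * n') (θ - θ₀) -
        corr p N m₁ Φ w Z n' ψ J (J * n') ((θ - θ₀).coeff J)) ^ p ^ N) := by
    have hsplit : ∑ m ∈ Icc 1 N, A m * dl p Φ w Z n' (θ - θ₀) 0 (p ^ N * (J * n')) m ^ p ^ m =
        A N * PhS Φ w Z n' (J * n') (θ - θ₀) ^ p ^ N + ∑ m ∈ (Icc 1 N).erase N,
          A m * PhS Φ w Z n' (p ^ (N - m) * (J * n')) (θ - θ₀) ^ p ^ m := by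
      rw [← add_sum_erase _ _ hNN]
      congr 1
      · rw [dl, if_pos ⟨dvd_zero _, dvd_mul_right _ _⟩, Nat.zero_div, hasseDeriv_zero',
          Nat.mul_div_cancel_left _ hQ0]
      · refine sum_congr rfl fun m hm => ?_
        obtain ⟨hm1, hm2⟩ := mem_erase.1 hm
        have e6 : p ^ N * (J * n') = p ^ m * (p ^ (N - m) * (J * n')) := by
          rw [← mul_assoc (p ^ m), ← pow_add, Nat.add_sub_cancel' (mem_Icc.1 hm2).2]
        rw [dl, if_pos ⟨dvd_zero _, e6 ▸ dvd_mul_right _ _⟩, Nat.zero_div, hasseDeriv_zero', e6,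
          Nat.mul_div_cancel_left _ (pow_pos hp0 m)]
    rw [hsplit] at hrel
    have e7 : A N * (PhS Φ w Z n' (J * n') (θ - θ₀) -
        corr p N m₁ Φ w Z n' ψ J (J * n') ((θ - θ₀).coeff J)) ^ p ^ N =
        (e * PhS Φ w Z n' (p ^ N * (J * n')) (θ - θ₀) +
          (A N * PhS Φ w Z n' (J * n') (θ - θ₀) ^ p ^ N + ∑ m ∈ (Icc 1 N).erase N,
          A m * PhS Φ w Z n' (p ^ (N - m) * (J * n')) (θ - θ₀) ^ p ^ m) +
          PhS Φ w Z n' (p ^ N * (J * n')) (fth p e A N B θ₀) -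
          PhS Φ w Z n' (p ^ N * (J * n')) (fth p e A N B θ)) -
        (PhS Φ w Z n' (p ^ N * (J * n')) (fth p e A N B θ₀) + A N * corr p N m₁ Φ w Z n' ψ J
          (J * n') ((θ - θ₀).coeff J) ^ p ^ N) -
        e * PhS Φ w Z n' (p ^ N * (J * n')) (θ - θ₀) -
        ∑ m ∈ (Icc 1 N).erase N,
          A m * PhS Φ w Z n' (p ^ (N - m) * (J * n')) (θ - θ₀) ^ p ^ m +
        PhS Φ w Z n' (p ^ N * (J * n')) (fth p e A N B θ) := by
      rw [sub_pow_char_pow]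
      ring
    rw [e7]
    have hLg : 0 ≤ ((p ^ N * J : ℕ) : ℝ) * g := by positivity
    have hp1 : (1 : ℝ) ≤ (p : ℝ) ^ N := by
      have : 1 ≤ p ^ N := hQ0
      exact_mod_cast this
    have hpQ : 2 ≤ p ^ N := by
      calc 2 ≤ p := hp.out.two_le
        _ = p ^ 1 := (pow_one p).symm
        _ ≤ p ^ N := Nat.pow_le_pow_right hp0 hN1
    refine ((((LP.of_pg hrel).mono (by linarith)).sub ((LP.of_pg hA).mono (by linarith))).sub ?_ |>.sub
      (LP.sum _ _ fun m hm => ?_)).add hshape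
    · refine (PC.of_ge ((hD.ege.mul (hg1 _ hpQ)).mono ?_)).lp
      have h8 : (((p ^ N * J : ℕ) : ℝ) * g + ε) / (p : ℝ) ^ N ≤ ((p ^ N * J : ℕ) : ℝ) * g + ε :=
        div_le_self (by linarith) hp1
      linarith
    · obtain ⟨hm1, hm2⟩ := mem_erase.1 hm
      obtain ⟨hm3, hm4⟩ := mem_Icc.1 hm2
      have hq : 2 ≤ p ^ (N - m) := by
        calc 2 ≤ p := hp.out.two_le
          _ = p ^ 1 := (pow_one p).symm
          _ ≤ p ^ (N - m) := Nat.pow_le_pow_right hp0 (by omega)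
      have h9 := ge_pow (hg1 _ hq) (p ^ m)
      have e8 : PhS Φ w Z n' (p ^ (N - m) * (J * n')) (θ - θ₀) ^ p ^ m =
          (PhS Φ w Z n' (p ^ (N - m) * (J * n')) (θ - θ₀) ^ p ^ (m - 1)) ^ p := by
        rw [← pow_mul, ← pow_succ, Nat.sub_add_cancel hm3]
      rw [e8] at h9 ⊢
      refine LP.mono ((hD.Alp m hm2).mul_pow (pow_mem (h.phS_mem hΔ _ _) _) h9) ?_
      have h10 : (p : ℝ) ^ m / (p : ℝ) ^ N ≤ 1 := by
        rw [div_le_one hQr]
        exact pow_le_pow_right₀ (by exact_mod_cast hp.out.one_lt.le) hm4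
      have h11 : (p : ℝ) ^ m * ((((p ^ N * J : ℕ) : ℝ) * g + ε) / (p : ℝ) ^ N) ≤
          ((p ^ N * J : ℕ) : ℝ) * g + ε := by
        rw [mul_div_assoc', div_le_iff₀ hQr]
        have : (p : ℝ) ^ m ≤ (p : ℝ) ^ N := pow_le_pow_right₀ (by exact_mod_cast hp.out.one_lt.le) hm4
        nlinarith
      have e9 : ((p ^ N * (J * n') : ℕ) : ℝ) = (p : ℝ) ^ m * ((p ^ (N - m) * (J * n') : ℕ) : ℝ) := by
        have : p ^ N * (J * n') = p ^ m * (p ^ (N - m) * (J * n')) := by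
          rw [← mul_assoc (p ^ m), ← pow_add, Nat.add_sub_cancel' hm4]
        rw [this]
        push_cast
        ring
      rw [e9]
      push_cast at h11 ⊢
      nlinarith
  refine rt_dom (c := ν - p ^ N * s) hN1 hD.top (sub_mem (h.phS_mem hΔ _ _) ?_) ?_
  · obtain ⟨P, hP, hP1, -⟩ := rt_corr_poly (p := p) (N := N) (J := J) (m₁ := m₁) (n' := n')
      (n := J * n') h hψ hc
    rw [← hP1]
    exact TWLM.eval_mem_cadj hP
  · refine LP.mono hlev (le_of_eq ?_)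
    push_cast
    field_simp
    ring

omit [IsAlgClosed Ω] in
/-- The expansion at a point of `K` near `w`, from the jets. -/
theorem rt_point_ge {P : Polynomial Ω} {t u : ℝ} {ψ : Ω}
    (hj : ∀ i : ℕ, i ≠ 0 → v.Ge (t - i * u) ((hasseDeriv i P).eval w)) (hψ : v.Ge u (w - ψ)) :
    v.Ge t (P.eval w - P.eval ψ) := by
  rw [rt_taylor (le_refl P.natDegree) w ψ, sum_range_succ', hasseDeriv_zero', pow_zero, mul_one]
  have e1 : ∀ a b : Ω, b - (a + b) = -a := fun a b => by ring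
  rw [e1]
  refine (RVal.Ge.sum _ _ fun j _ => ?_).neg
  refine ((hj (j + 1) (Nat.succ_ne_zero j)).mul (ge_pow (ge_sub_comm hψ) (j + 1))).mono
    (le_of_eq ?_)
  push_cast
  ring

/-- (G3): the top visible jet is attained: the coefficients of index `J` of the approximants
converge, up to the radius, to a coefficient in `K`. -/
theorem top_jet (h : Set0 v K Φ w Z κ ρ σ)
    (hinf : ∀ n₀ : ℕ, ∃ n : ℕ, n₀ ≤ n ∧ ¬ v.Ge (ρ - n * σ) (PowerSeries.coeff n Z))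
    (hN : Nrm p v K w y ρ s ν e A N B J R) (hJ : J ≠ 0) (htop : Top p v K w ρ ν e A N B J R) :
    ∃ θ₀ ∈ PI K, (∀ i, J < i → θ₀.coeff i = R.coeff i) ∧
      (e ≠ 0 → ∀ l, ¬ p ∣ l → hasseDeriv l θ₀ = 0) ∧
      ∃ c ∈ K, ∃ ε₁ : ℝ, 0 < ε₁ ∧ ∀ ε : ℝ, 0 < ε → ε ≤ ε₁ → ∀ θ ∈ PI K,
        (∀ i, J < i → θ.coeff i = R.coeff i) → (e ≠ 0 → ∀ l, ¬ p ∣ l → hasseDeriv l θ = 0) →
        v.Ge (s - ε) (y - θ.eval w) →
        LP p v (cadj v K w) (ν - ε) ((fth p e A N B θ).eval w) →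
        v.Ge (s - J * ρ - ε) ((θ - θ₀).coeff J - c) := by
  have hN1 := hN.N1
  have hp0 : 0 < p := hp.out.pos
  have hQ0 : 0 < p ^ N := pow_pos hp0 N
  have hpr : (0 : ℝ) < p := by exact_mod_cast hp0
  have hQr : (0 : ℝ) < (p : ℝ) ^ N := by positivity
  have hQ1 : (1 : ℝ) ≤ (p : ℝ) ^ N := by
    have : 1 ≤ p ^ N := hQ0
    exact_mod_cast this
  have hJr : (1 : ℝ) ≤ J := by exact_mod_cast (Nat.one_le_iff_ne_zero.2 hJ)
  have hL : p ∣ p ^ N * J := (dvd_pow_self p (by omega)).trans (dvd_mul_right _ _)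
  have hL0 : 0 < p ^ N * J := Nat.mul_pos hQ0 (by omega)
  have hLr : (0 : ℝ) < (p ^ N * J : ℕ) := by exact_mod_cast hL0
  have hL2 : 2 ≤ p ^ N * J := hp.out.two_le.trans (Nat.le_of_dvd hL0 hL)
  have hLJ : (J : ℝ) ≤ (p ^ N * J : ℕ) := by
    have : 1 * J ≤ p ^ N * J := Nat.mul_le_mul_right J hQ0
    rw [one_mul] at this
    exact_mod_cast this
  obtain ⟨μ, hM⟩ := exists_mar h hN.toDt
  have hμ := hM.pos
  have he₀0 : 0 < μ / (4 * p ^ N) := by positivity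
  obtain ⟨e₀, he₀def⟩ : ∃ e₀, e₀ = μ / (4 * p ^ N) := ⟨_, rfl⟩
  rw [← he₀def] at he₀0
  have hQe₀ : (p : ℝ) ^ N * e₀ = μ / 4 := by
    rw [he₀def]
    field_simp
  obtain ⟨θ₀, hθ₀, hco₀, hE₀, hy₀, -⟩ := hN.fam e₀ he₀0
  refine ⟨θ₀, hθ₀, hco₀, hE₀, ?_⟩
  have hf₀ : fth p e A N B θ₀ ∈ PI K := fth_mem hN.toDt hN.BC hθ₀
  -- the class
  have hcls : ∀ θ : Polynomial Ω, (e ≠ 0 → ∀ l, ¬ p ∣ l → hasseDeriv l θ = 0) →
      (∀ l, 2 ≤ l → ¬ p ∣ l → hasseDeriv l (fth p e A N B θ) = 0) ∧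
      v.Ge (ν - ρ) ((hasseDeriv 1 (fth p e A N B θ)).eval w) := by
    intro θ hE
    have h1 : ∀ l, ¬ p ∣ l → C e * hasseDeriv l θ = 0 := by
      intro l hl
      by_cases he : e = 0
      · rw [he, C_0, zero_mul]
      · rw [hE he l hl, mul_zero]
    refine ⟨fun l hl hpl => ?_, ?_⟩
    · rw [rt_fth_hasse hpl, h1 l hpl, hN.BX l hl hpl, add_zero]
    · have h2 : ¬ p ∣ 1 := hp.out.one_lt.not_ge ∘ Nat.le_of_dvd one_pos
      rw [rt_fth_hasse h2, h1 1 h2, zero_add]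
      exact hN.B1
  have hcls₀ := (hcls θ₀ hE₀).1
  -- the same high jets
  have hsame : ∀ θ : Polynomial Ω, (∀ i, J < i → θ.coeff i = R.coeff i) → ∀ l, p ^ N * J < l →
      hasseDeriv l (fth p e A N B θ) = hasseDeriv l (fth p e A N B R) :=
    fun θ hco l hl => rt_fth_hi (rt_coset hco) hl
  have htop₀ : ∀ l : ℕ, p ^ N * J < l → p ∣ l →
      PG p v (cadj v K w) (ν - l * ρ) ((hasseDeriv l (fth p e A N B θ₀)).eval w) := by
    intro l hl hpl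
    rw [hsame θ₀ hco₀ l hl]
    exact htop l hl hpl
  obtain ⟨m₁, δ₁, -, hδ₁, hoc⟩ := h.oc hf₀ hL
    (fun l hl hpl => hcls₀ l (by omega) hpl) htop₀
  obtain ⟨m₂, hm₂⟩ := rt_hoc h hf₀ hL hL0.ne' hcls₀ htop₀
  obtain ⟨δ₂, hδ₂, hpt⟩ := rt_point (K := K) (v := v) (w := w) (ρ := ρ)
    (c := ν - (p ^ N * J : ℕ) * ρ)
    (f := hasseDeriv (p ^ N * J) (fth p e A N B θ₀))
    (fun j hj hpj => by
      rw [hasse_hasse, hcls₀ _ (by omega) (fun h2 => hpj ((Nat.dvd_add_left hL).1 h2)), mul_zero])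
    (fun j hj hpj => by
      rw [hasse_hasse, eval_mul, eval_C]
      refine PG.natCast_mul ((htop₀ (j + p ^ N * J) (by omega) (dvd_add hpj hL)).mono
        (le_of_eq ?_)) _
      push_cast
      ring)
  obtain ⟨η, hη, hηκ⟩ := rt_min (range m₁) (fun m η => η ≤ κ m) (fun _ _ _ h1 h2 => h1.trans h2)
    (fun m _ => ⟨κ m, h.kpos m, le_rfl⟩)
  have hmin : 0 < min η μ := lt_min hη hμ
  obtain ⟨δ, hδdef⟩ : ∃ δ, δ = min (min δ₁ δ₂) (min η μ / (8 * (p ^ N * J : ℕ))) := ⟨_, rfl⟩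
  have hδ0 : 0 < δ := by
    rw [hδdef]
    exact lt_min (lt_min hδ₁ hδ₂) (by positivity)
  have hLδ : ((p ^ N * J : ℕ) : ℝ) * δ ≤ min η μ / 8 := by
    have h1 : δ ≤ min η μ / (8 * (p ^ N * J : ℕ)) := hδdef.le.trans (min_le_right _ _)
    rw [le_div_iff₀ (by positivity)] at h1
    linarith
  obtain ⟨ψ, hψ, hwψ⟩ := h.tl.lim δ hδ0
  obtain ⟨n₀, hn₀⟩ := hoc ψ hψ (hwψ.mono (by
    linarith [hδdef.le.trans ((min_le_left _ _).trans (min_le_left _ _))]))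
  have hptψ := hpt ψ hψ (hwψ.mono (by
    linarith [hδdef.le.trans ((min_le_left _ _).trans (min_le_right _ _))]))
  obtain ⟨n₁, hT⟩ := h.T_ge hψ hδ0.le hwψ (e₀ + J * |ρ| + J * |ρ - δ|)
  obtain ⟨g₁, hg₁, hgm⟩ := rt_min (range ((fth p e A N B θ₀).natDegree + 1))
    (fun l g => p ^ N * J < l → p ∣ l → PC p v (cadj v K w) (ν - l * ρ + l * g)
      ((hasseDeriv l (fth p e A N B θ₀)).eval w))
    (fun l a b hab hb h1 h2 => (hb h1 h2).mono (by
      have : (l : ℝ) * a ≤ l * b := mul_le_mul_of_nonneg_left hab (Nat.cast_nonneg l)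
      linarith))
    (fun l _ => by
      by_cases hl : p ^ N * J < l ∧ p ∣ l
      · obtain ⟨m, hm, h1⟩ := PG.exists_pc (htop₀ l hl.1 hl.2)
        have hl0 : (0 : ℝ) < l := by
          have : 0 < l := by omega
          exact_mod_cast this
        refine ⟨m / l, by positivity, fun _ _ => ?_⟩
        rwa [mul_div_cancel₀ _ hl0.ne']
      · exact ⟨1, one_pos, fun h1 h2 => absurd ⟨h1, h2⟩ hl⟩)
  obtain ⟨n', g, hn', hn'0, hg0, hgη, hZ0, hZv, hgZ⟩ := h.record hinf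
    (η := min g₁ (μ / (8 * (p ^ N * J : ℕ)))) (lt_min hg₁ (by positivity))
    (max (max n₀ n₁) (max m₁ m₂))
  have hn'1 : n₀ ≤ n' := ((le_max_left _ _).trans (le_max_left _ _)).trans hn'
  have hn'2 : n₁ ≤ n' := ((le_max_right _ _).trans (le_max_left _ _)).trans hn'
  have hn'3 : m₁ ≤ n' := ((le_max_left _ _).trans (le_max_right _ _)).trans hn'
  have hn'4 : m₂ ≤ n' := ((le_max_right _ _).trans (le_max_right _ _)).trans hn'
  obtain ⟨hT1, hT2⟩ := hT n' hn'2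
  have hgg₁ : g ≤ g₁ := (hgη.le).trans (min_le_left _ _)
  have hLg : ((p ^ N * J : ℕ) : ℝ) * g ≤ μ / 8 := by
    have h1 : g ≤ μ / (8 * (p ^ N * J : ℕ)) := (hgη.le).trans (min_le_right _ _)
    rw [le_div_iff₀ (by positivity)] at h1
    linarith
  have hhi : ∀ θ : Polynomial Ω, (∀ i, J < i → θ.coeff i = R.coeff i) → ∀ l : ℕ, p ^ N * J < l →
      p ∣ l → LP p v (cadj v K w) (ν - l * ρ + l * g)
        ((hasseDeriv l (fth p e A N B θ)).eval w) := by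
    intro θ hco l hl hpl
    rw [hsame θ hco l hl, ← hsame θ₀ hco₀ l hl]
    by_cases hlD : l ≤ (fth p e A N B θ₀).natDegree
    · refine LP.mono (hgm l (mem_range.2 (by omega)) hl hpl).lp ?_
      have : (l : ℝ) * g ≤ l * g₁ := mul_le_mul_of_nonneg_left hgg₁ (Nat.cast_nonneg l)
      linarith
    · rw [hasseDeriv_eq_zero_of_lt_natDegree _ _ (by omega), eval_zero]
      exact (PC.of_ge RVal.Ge.zero).lp
  have hoc' : ∀ i n : ℕ, n ≠ 0 → p ^ N * J * n' + m₂ ≤ p ^ N * n + p ^ N * i * n' →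
      PG p v (cadj v K w) (ν - (p ^ N * i : ℕ) * ρ - (p ^ N * n : ℕ) * σ)
        (PhS Φ w Z n' (p ^ N * n) (hasseDeriv (p ^ N * i) (fth p e A N B θ₀))) :=
    fun i n hn hin => hm₂ n' hn'4 _ _ (Nat.mul_ne_zero hQ0.ne' hn)
      ((dvd_pow_self p (by omega)).trans (dvd_mul_right _ _)) hin
  have hμ' : (p : ℝ) ^ N * (e₀ + J * g) < μ := by
    have h1 : (p : ℝ) ^ N * (J * g) = ((p ^ N * J : ℕ) : ℝ) * g := by
      push_cast
      ring
    rw [mul_add, hQe₀, h1]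
    linarith
  have hminη := min_le_left η μ
  have hminμ := min_le_right η μ
  -- the estimates for each approximant
  have hy' : ∀ θ : Polynomial Ω, ∀ ε : ℝ, ε ≤ e₀ → v.Ge (s - ε) (y - θ.eval w) →
      v.Ge (s - e₀) ((θ - θ₀).eval w) := by
    intro θ ε hε hyθ
    have e1 : (θ - θ₀).eval w = (y - θ₀.eval w) - (y - θ.eval w) := by
      rw [eval_sub]
      ring
    rw [e1]
    exact hy₀.sub (hyθ.mono (by linarith))
  have hkey : ∀ ε : ℝ, 0 < ε → ε ≤ e₀ → ε ≤ η / 4 → ∀ θ ∈ PI K,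
      (∀ i, J < i → θ.coeff i = R.coeff i) → (e ≠ 0 → ∀ l, ¬ p ∣ l → hasseDeriv l θ = 0) →
      v.Ge (s - ε) (y - θ.eval w) →
      LP p v (cadj v K w) (ν - ε) ((fth p e A N B θ).eval w) →
      v.Ge (s - (J * n' : ℕ) * σ - J * g - ε / p ^ N) (PhS Φ w Z n' (J * n') (θ - θ₀) -
        corr p N m₁ Φ w Z n' ψ J (J * n') ((θ - θ₀).coeff J)) := by
    intro ε hε hεe hεη θ hθ hco hE hyθ hlθ
    have hJd : (θ - θ₀).natDegree ≤ J := rt_coset fun i hi => (hco i hi).trans (hco₀ i hi).symm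
    refine rt_key h hN.toDt hM hθ hθ₀ hN.BC hJd hJ he₀0.le (hy' θ ε hεe hyθ) hg0.le hgZ hμ'
      (hcls θ hE).1 (hcls θ hE).2 hlθ hε (hhi θ hco) hoc' hn'4 hn'0 hψ ?_ hptψ hT1
      (fun m hm hmm => hηκ m (mem_range.2 hmm)) ?_ ?_
    · exact (hn₀ n' hn'1).2.2 _ (Nat.mul_ne_zero hQ0.ne' (Nat.mul_ne_zero hJ hn'0))
        (mul_assoc _ _ _).le
    · linarith
    · linarith
  -- the reference approximant
  obtain ⟨ε₁, hε₁def⟩ : ∃ ε₁, ε₁ = min e₀ (min (g / 2) (η / 4)) := ⟨_, rfl⟩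
  have hε₁0 : 0 < ε₁ := by
    rw [hε₁def]
    exact lt_min he₀0 (lt_min (half_pos hg0) (by positivity))
  have hε₁e : ε₁ ≤ e₀ := hε₁def.le.trans (min_le_left _ _)
  have hε₁g : ε₁ ≤ g / 2 := hε₁def.le.trans ((min_le_right _ _).trans (min_le_left _ _))
  have hε₁η : ε₁ ≤ η / 4 := hε₁def.le.trans ((min_le_right _ _).trans (min_le_right _ _))
  obtain ⟨θ₁, hθ₁, hco₁, hE₁, hy₁, hl₁⟩ := hN.fam ε₁ hε₁0
  have hk₁ := hkey ε₁ hε₁0 hε₁e hε₁η θ₁ hθ₁ hco₁ hE₁ hy₁ hl₁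
  have hJd₁ : (θ₁ - θ₀).natDegree ≤ J := rt_coset fun i hi => (hco₁ i hi).trans (hco₀ i hi).symm
  have hΔ₁ : θ₁ - θ₀ ∈ PI K := sub_mem hθ₁ hθ₀
  have hcK : ∀ θ ∈ PI K, (θ - θ₀).coeff J ∈ K := fun θ hθ => sub_mem hθ hθ₀ J
  -- the unit
  set z : Ω := (-PowerSeries.coeff n' Z) ^ J with hz
  have hz0 : z ≠ 0 := pow_ne_zero _ (neg_ne_zero.2 hZ0)
  have hzv : v z = J * (ρ - n' * σ - g) := by
    rw [hz, v.map_pow (neg_ne_zero.2 hZ0), v.map_neg _ hZ0, hZv]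
  have hzi : v.Ge (-(J * (ρ - n' * σ - g))) z⁻¹ := by
    intro _
    rw [v.map_inv hz0, hzv]
  have hzm : z⁻¹ ∈ K := K.inv_mem (pow_mem (neg_mem (h.zmem n')) J)
  obtain ⟨Pa, hPa, -, hPaj⟩ := h.phS_poly hΔ₁ n' (J * n')
  obtain ⟨Pb, hPb, hPb0, hPbj⟩ := rt_corr_poly (p := p) (N := N) (J := J) (m₁ := m₁) (n' := n')
    (n := J * n') h hψ (hcK θ₁ hθ₁)
  have hPS : C ((θ₁ - θ₀).coeff J) - C z⁻¹ * (Pa - Pb) ∈ PI K :=
    sub_mem (C_mem_PI (hcK θ₁ hθ₁)) (mul_mem (C_mem_PI hzm) (sub_mem hPa hPb))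
  have hcb₁ : v.Ge (s - e₀ - J * ρ) ((θ₁ - θ₀).coeff J) := by
    have h2 := TWLM.poly_norm h.tl hΔ₁ J (hy' θ₁ ε₁ hε₁e hy₁)
    rwa [rt_hasse_coeff hJd₁, eval_C] at h2
  have e3 : ((J * n' : ℕ) : ℝ) = J * n' := by push_cast; ring
  -- the jets
  have hjets : ∀ i : ℕ, i ≠ 0 → v.Ge (s - J * ρ - i * (ρ - g / 2))
      ((hasseDeriv i (C ((θ₁ - θ₀).coeff J) - C z⁻¹ * (Pa - Pb))).eval w) := by
    intro i hi
    rw [map_sub, hasseDeriv_C i _ (Nat.pos_of_ne_zero hi), zero_sub, hasse_C_mul, map_sub,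
      eval_neg, eval_mul, eval_C, eval_sub, hPaj, hPbj]
    have hi1 : (1 : ℝ) ≤ i := by exact_mod_cast (Nat.one_le_iff_ne_zero.2 hi)
    have hb : v.Ge (s - i * ρ - (J * n' : ℕ) * σ - ((J : ℝ) - i) * g - ε₁)
        (∑ x ∈ antidiagonal (J * n') with x.1 ≠ 0 ∧ p ^ N * x.1 < m₁,
        Φ x.1 ((θ₁ - θ₀).coeff J) * (((J.choose i : ℕ) : Ω) *
          PowerSeries.coeff x.2 (Tn Φ w Z n' ψ ^ (J - i)))) := by
      by_cases hiJ : i ≤ J
      · have hiJ' : (i : ℝ) ≤ J := by exact_mod_cast hiJ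
        refine (rt_corr_jet (t := e₀ + J * |ρ|) h (hcK θ₁ hθ₁) hcb₁ hT1 hT2 (by omega) hi hn'3
          hn'0 (fun l hl => ?_) hJ rfl).mono ?_
        · have h1 : (l : ℝ) ≤ J := by exact_mod_cast hl.le
          have h2 : -|ρ - δ| ≤ ρ - δ := neg_abs_le _
          have h3 : (0 : ℝ) ≤ |ρ - δ| := abs_nonneg _
          have h4 : (l : ℝ) * (-|ρ - δ|) ≤ l * (ρ - δ) :=
            mul_le_mul_of_nonneg_left h2 (Nat.cast_nonneg l)
          have h5 : (l : ℝ) * |ρ - δ| ≤ J * |ρ - δ| := mul_le_mul_of_nonneg_right h1 h3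
          linarith
        · have h1 : (0 : ℝ) ≤ ((J : ℝ) - i) * g := mul_nonneg (by linarith) hg0.le
          have h2 : ((J : ℝ) - i) * ρ ≤ J * |ρ| := by
            have h3 : ((J : ℝ) - i) * ρ ≤ ((J : ℝ) - i) * |ρ| :=
              mul_le_mul_of_nonneg_left (le_abs_self ρ) (by linarith)
            have h4 : ((J : ℝ) - i) * |ρ| ≤ J * |ρ| :=
              mul_le_mul_of_nonneg_right (by linarith) (abs_nonneg ρ)
            linarith
          linarith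
      · rw [Nat.choose_eq_zero_of_lt (not_le.1 hiJ)]
        simp only [Nat.cast_zero, zero_mul, mul_zero, sum_const_zero]
        exact RVal.Ge.zero
    have ha : v.Ge (s - i * ρ - (J * n' : ℕ) * σ - ((J : ℝ) - i) * g - ε₁)
        (PhS Φ w Z n' (J * n') (hasseDeriv i (θ₁ - θ₀))) := by
      by_cases hiJ : i ≤ J
      · have h1 := g1 (i := i) (n := J * n') (L := p ^ N * J) (m₁ := m₂) h hN.toDt hM hθ₁ hθ₀ hN.BC
          hJd₁ he₀0.le (hy' θ₁ ε₁ hε₁e hy₁) hg0.le hgZ hμ' (hcls θ₁ hE₁).1 (hcls θ₁ hE₁).2 hl₁ hε₁0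
          hL0 (hhi θ₁ hco₁) hoc' (Nat.mul_ne_zero hJ hn'0) (by
            have h3 : p ^ N * J * n' = p ^ N * (J * n') := mul_assoc _ _ _
            have h4 : 1 * n' ≤ p ^ N * i * n' :=
              Nat.mul_le_mul_right _ (Nat.mul_pos hQ0 (Nat.pos_of_ne_zero hi))
            omega)
        refine h1.mono ?_
        have h5 : ((p ^ N * J - p ^ N * i : ℕ) : ℝ) = (p : ℝ) ^ N * ((J : ℝ) - i) := by
          rw [← Nat.mul_sub, Nat.cast_mul, Nat.cast_sub hiJ]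
          push_cast
          ring
        have h6 : ((p : ℝ) ^ N * ((J : ℝ) - i) * g + ε₁) / (p : ℝ) ^ N =
            ((J : ℝ) - i) * g + ε₁ / (p : ℝ) ^ N := by
          field_simp
        have h7 : ε₁ / (p : ℝ) ^ N ≤ ε₁ := div_le_self hε₁0.le hQ1
        rw [h5, h6]
        linarith
      · rw [hasseDeriv_eq_zero_of_lt_natDegree _ _ (by omega), rt_phS_zero]
        exact RVal.Ge.zero
    refine ((hzi.mul (ha.sub hb)).neg).mono ?_
    rw [e3]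
    nlinarith
  obtain ⟨ψ', hψ', hwψ'⟩ := h.tl.lim (g / 2) (half_pos hg0)
  have hjet0 := rt_point_ge hjets hwψ'
  refine ⟨_, eval_mem hPS hψ', ε₁, hε₁0, fun ε hε hεε₁ θ hθ hco hE hyθ hlθ => ?_⟩
  have hk := hkey ε hε (by linarith) (by linarith) θ hθ hco hE hyθ hlθ
  -- the difference of the two approximants
  have hy2 : v.Ge (s - ε₁) ((θ - θ₁).eval w) := by
    have e1 : (θ - θ₁).eval w = (y - θ₁.eval w) - (y - θ.eval w) := by
      rw [eval_sub]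
      ring
    rw [e1]
    exact hy₁.sub (hyθ.mono (by linarith))
  have hJd2 : (θ - θ₁).natDegree ≤ J := rt_coset fun i hi => (hco i hi).trans (hco₁ i hi).symm
  have hΔ2 : θ - θ₁ ∈ PI K := sub_mem hθ hθ₁
  have hlin := rt_lin h hΔ2 hJd2 hy2 hg0.le hgZ
  have ec : (θ - θ₁).coeff J = (θ - θ₀).coeff J - (θ₁ - θ₀).coeff J := by
    rw [coeff_sub, coeff_sub, coeff_sub]
    ring
  have hc2b : v.Ge (s - ε₁ - J * ρ) ((θ - θ₁).coeff J) := by
    have h2 := TWLM.poly_norm h.tl hΔ2 J hy2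
    rwa [rt_hasse_coeff hJd2, eval_C] at h2
  have hcorr2 := rt_corr_ge (p := p) (N := N) (m₁ := m₁) (n := J * n') (J := J) (η := η) h (hΔ2 J)
    hc2b hT1 (fun m hm hmm => hηκ m (mem_range.2 (lt_of_le_of_lt
      (Nat.le_mul_of_pos_left m hQ0) hmm)))
  have ephs : PhS Φ w Z n' (J * n') (θ - θ₁) =
      PhS Φ w Z n' (J * n') (θ - θ₀) - PhS Φ w Z n' (J * n') (θ₁ - θ₀) := by
    rw [PhS, PhS, PhS, ← ph_sub h.hsd (sub_mem hθ hθ₀) hΔ₁, sub_sub_sub_cancel_right]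
  have ecorr : corr p N m₁ Φ w Z n' ψ J (J * n') ((θ - θ₁).coeff J) =
      corr p N m₁ Φ w Z n' ψ J (J * n') ((θ - θ₀).coeff J) -
        corr p N m₁ Φ w Z n' ψ J (J * n') ((θ₁ - θ₀).coeff J) := by
    rw [ec, rt_corr_sub h (hcK θ hθ) (hcK θ₁ hθ₁)]
  -- the final computation
  have hPw : (C ((θ₁ - θ₀).coeff J) - C z⁻¹ * (Pa - Pb)).eval w = (θ₁ - θ₀).coeff J -
      z⁻¹ * (PhS Φ w Z n' (J * n') (θ₁ - θ₀) -
        corr p N m₁ Φ w Z n' ψ J (J * n') ((θ₁ - θ₀).coeff J)) := by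
    have h3 := hPaj 0
    rw [hasseDeriv_zero', hasseDeriv_zero'] at h3
    rw [eval_sub, eval_C, eval_mul, eval_C, eval_sub, h3, hPb0]
  have e2 : (θ - θ₀).coeff J - (C ((θ₁ - θ₀).coeff J) - C z⁻¹ * (Pa - Pb)).eval ψ' =
      z⁻¹ * ((PhS Φ w Z n' (J * n') (θ - θ₀) -
        corr p N m₁ Φ w Z n' ψ J (J * n') ((θ - θ₀).coeff J)) +
        corr p N m₁ Φ w Z n' ψ J (J * n') ((θ - θ₁).coeff J) -
        (PhS Φ w Z n' (J * n') (θ - θ₁) - z * (θ - θ₁).coeff J)) +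
      ((C ((θ₁ - θ₀).coeff J) - C z⁻¹ * (Pa - Pb)).eval w -
        (C ((θ₁ - θ₀).coeff J) - C z⁻¹ * (Pa - Pb)).eval ψ') := by
    rw [hPw, ecorr, ephs, ec]
    field_simp
    ring
  rw [e2]
  have hJg : 0 ≤ ((J : ℝ) - 1) * g := mul_nonneg (by linarith) hg0.le
  have hJδ : (J : ℝ) * δ ≤ η := by
    have h1 : (J : ℝ) * δ ≤ ((p ^ N * J : ℕ) : ℝ) * δ := mul_le_mul_of_nonneg_right hLJ hδ0.le
    linarith
  have hεQ : ε / (p : ℝ) ^ N ≤ ε := div_le_self hε.le hQ1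
  have h9 : v.Ge (min (s - (J * n' : ℕ) * σ - J * g - ε)
      (s - ε₁ - (J * n' : ℕ) * σ - ((J : ℝ) - 1) * g))
      ((PhS Φ w Z n' (J * n') (θ - θ₀) -
        corr p N m₁ Φ w Z n' ψ J (J * n') ((θ - θ₀).coeff J)) +
        corr p N m₁ Φ w Z n' ψ J (J * n') ((θ - θ₁).coeff J) -
        (PhS Φ w Z n' (J * n') (θ - θ₁) - z * (θ - θ₁).coeff J)) := by
    refine (((hk.mono ?_).add (hcorr2.mono ?_)).sub (hlin.mono ?_))
    · exact (min_le_left _ _).trans (by linarith)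
    · exact (min_le_right _ _).trans (by linarith)
    · exact min_le_right _ _
  refine ((hzi.mul h9).mono ?_).add (hjet0.mono (by linarith))
  have h10 : s - J * ρ - ε + J * (ρ - n' * σ - g) ≤ min (s - (J * n' : ℕ) * σ - J * g - ε)
      (s - ε₁ - (J * n' : ℕ) * σ - ((J : ℝ) - 1) * g) := by
    rw [e3]
    refine le_min (by linarith) (by linarith)
  linarith

end C

end Pool.Agent.TWN1
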