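import Pool.Agent.Lib.TWN1.Base

/-!
# TANK W, Theorem N1, section 1: OC, H0, TOP

`f` is a polynomial over `C` whose jets beyond `l₀` at `w` are in `F ^ p + {> ..}`, `F` the closure
of `C(w)`, and vanish if the index is prime to `p`.
* `Set0.oc`, `Set0.oc_two`, `Set0.oc_one`: the coefficients of index `≥ l₀ n'` of `f ^ Φ (w + S)`,
  `S` the part of index `< n'` of `Z`;
* `Set0.h0`: if `Z` is visible, the jets of a limit of `p`-th powers are in `F ^ p + {> ..}`;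
* `Set0.top`: such a limit is in `C + F ^ p + {> ..}`, up to the linear term.
-/

set_option autoImplicit false

open Polynomial Finset

namespace Pool.Agent.TWN1

open Pool.Agent.H15JM (RVal)
open Pool.Agent.TWM
open Pool.Agent.TWII (PG LP)
open Pool.Agent.TWLM (HSd Oi)

universe u

/-! ### Calculus -/

section Calc

variable {k Ω : Type u} [Field k] [Field Ω] [Algebra k Ω] {v : RVal Ω}
  {F F' C : IntermediateField k Ω} {Φ : ℕ → Ω → Ω} {p : ℕ} {c : ℝ} {x : Ω}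

theorem PC.mono_field (hx : PC p v F c x) (h : F ≤ F') : PC p v F' c x := by
  obtain ⟨g, hg, h1⟩ := hx
  exact ⟨g, h hg, h1⟩

/-- The coefficients of a `p`-th power along an arc. -/
theorem phi_pow [Fact p.Prime] [CharP Ω p] (h : HSd C Φ) {x : Ω} (hx : x ∈ C) (n : ℕ) :
    Φ n (x ^ p) = if p ∣ n then Φ (n / p) x ^ p else 0 := by
  have h1 : ser Φ (x ^ p) = ser Φ x ^ p := by
    have h2 := map_pow (ahom h) (⟨x, hx⟩ : C) p
    exact h2
  have h3 := congrArg (PowerSeries.coeff n) h1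
  rw [TWII.coeff_pow_p, coeff_ser, coeff_ser] at h3
  exact h3

variable [hp : Fact p.Prime] [CharP Ω p]

theorem PC.natCast_mul (hx : PC p v F c x) (n : ℕ) : PC p v F c ((n : Ω) * x) := by
  induction n with
  | zero =>
    rw [Nat.cast_zero, zero_mul]
    exact .of_ge RVal.Ge.zero
  | succ n ih =>
    rw [Nat.cast_succ, add_mul, one_mul]
    exact ih.add hx

omit [CharP Ω p] in
theorem PC.zero : PC p v F c 0 := PC.of_ge RVal.Ge.zero

theorem pg_of_sub {y : Ω} (h : PG p v F c (x - y)) (hy : PG p v F c y) : PG p v F c x := by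
  have h1 := h.add hy
  rwa [sub_add_cancel] at h1

omit hp [CharP Ω p] in
/-- A common margin. -/
theorem exists_margin {ι : Type*} (S : Finset ι) (b : ι → ℝ) (x : ι → Ω)
    (h : ∀ i ∈ S, PG p v F (b i) (x i)) :
    ∃ μ : ℝ, 0 < μ ∧ ∀ i ∈ S, PC p v F (b i + μ) (x i) := by
  classical
  induction S using Finset.induction_on with
  | empty => exact ⟨1, one_pos, fun i hi => absurd hi (notMem_empty i)⟩
  | insert i S hi ih =>
    obtain ⟨μ, hμ, h1⟩ := ih fun j hj => h j (mem_insert_of_mem hj)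
    obtain ⟨μ', hμ', h2⟩ := PG.exists_pc (h i (mem_insert_self i S))
    refine ⟨min μ μ', lt_min hμ hμ', fun j hj => ?_⟩
    rcases mem_insert.1 hj with rfl | hj
    · exact h2.mono (by linarith [min_le_right μ μ'])
    · exact (h1 j hj).mono (by linarith [min_le_left μ μ'])

/-- A common lower bound. -/
theorem exists_bound {ι : Type*} (v : RVal Ω) (S : Finset ι) (x : ι → Ω) :
    ∃ b : ℝ, ∀ i ∈ S, v.Ge b (x i) := by
  classical
  induction S using Finset.induction_on with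
  | empty => exact ⟨0, fun i hi => absurd hi (notMem_empty i)⟩
  | insert i S hi ih =>
    obtain ⟨b, h1⟩ := ih
    refine ⟨min b (v (x i)), fun j hj => ?_⟩
    rcases mem_insert.1 hj with rfl | hj
    · exact fun _ => min_le_right _ _
    · exact (h1 j hj).mono (min_le_left _ _)

/-- A common start of the overconvergence. -/
theorem exists_over {σ : ℝ} (ho : Oi v C σ Φ) {ι : Type*} (S : Finset ι) (x : ι → Ω)
    (hx : ∀ i ∈ S, x i ∈ C) (M : ℝ) :
    ∃ n₀ : ℕ, ∀ n : ℕ, n₀ ≤ n → ∀ i ∈ S, v.Ge (M - n * σ) (Φ n (x i)) := by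
  classical
  induction S using Finset.induction_on with
  | empty => exact ⟨0, fun n _ i hi => absurd hi (notMem_empty i)⟩
  | insert i S hi ih =>
    obtain ⟨n₀, h1⟩ := ih fun j hj => hx j (mem_insert_of_mem hj)
    obtain ⟨n₁, h2⟩ := ho _ (hx i (mem_insert_self i S)) M
    refine ⟨max n₀ n₁, fun n hn j hj => ?_⟩
    rcases mem_insert.1 hj with rfl | hj
    · exact h2 n ((le_max_right _ _).trans hn)
    · exact h1 n ((le_max_left _ _).trans hn) j hj

end Calc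

variable {k Ω : Type u} [Field k] [Field Ω] [Algebra k Ω] {v : RVal Ω}
  {C : IntermediateField k Ω} {Φ : ℕ → Ω → Ω} {w : Ω} {Z : PowerSeries Ω} {κ : ℕ → ℝ} {ρ σ ν : ℝ}
  {p : ℕ} {f : Polynomial Ω} {l₀ : ℕ}

/-- `w + S - Φ(ψ)`, `S` the part of index `< n'` of `Z`. -/
noncomputable def Tn (Φ : ℕ → Ω → Ω) (w : Ω) (Z : PowerSeries Ω) (n' : ℕ) (ψ : Ω) : PowerSeries Ω :=
  PowerSeries.C w + Sn Z n' - ser Φ ψ

theorem Set0.phi_ge (h : Set0 v C Φ w Z κ ρ σ) {x : Ω} (hx : x ∈ C) {b : ℝ} (hb : v.Ge b x)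
    (m : ℕ) : v.Ge (b - m * σ) (Φ m x) := by
  rcases eq_or_ne m 0 with rfl | hm
  · rw [h.hsd.c0 x hx]
    refine hb.mono (le_of_eq ?_)
    rw [Nat.cast_zero, zero_mul, sub_zero]
  · exact (h.str m hm x hx b hb).mono (by linarith [h.kpos m])

theorem Set0.tn_mem (h : Set0 v C Φ w Z κ ρ σ) (n' : ℕ) {ψ : Ω} (hψ : ψ ∈ C) (n : ℕ) :
    PowerSeries.coeff n (Tn Φ w Z n' ψ) ∈ cadj v C w := by
  rw [Tn, map_sub, map_add, PowerSeries.coeff_C, coeff_ser, Sn, PowerSeries.coeff_mk]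
  have h1 : Φ n ψ ∈ cadj v C w := le_cadj v C w (h.hsd.mem n ψ hψ)
  refine sub_mem (add_mem ?_ ?_) h1
  · split_ifs
    exacts [self_mem_cadj v C w, zero_mem _]
  · split_ifs
    exacts [le_cadj v C w (h.zmem n), zero_mem _]

section P

variable [hp : Fact p.Prime] [CharP Ω p]

theorem Set0.pc_phi (h : Set0 v C Φ w Z κ ρ σ) {x : Ω} (hx : x ∈ C) {b : ℝ} (hb : PC p v C b x)
    (m : ℕ) : PC p v C (b - m * σ) (Φ m x) := by
  obtain ⟨g, hg, h1⟩ := hb
  have e : Φ m x = Φ m (g ^ p) + Φ m (x - g ^ p) := by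
    rw [← h.hsd.add m _ (pow_mem hg p) _ (sub_mem hx (pow_mem hg p)), add_sub_cancel]
  rw [e, phi_pow h.hsd hg]
  refine PC.add ?_ (.of_ge (h.phi_ge (sub_mem hx (pow_mem hg p)) h1 m))
  split_ifs
  · exact .of_pow (h.hsd.mem _ _ hg)
  · exact PC.zero

theorem Set0.tn_pow (h : Set0 v C Φ w Z κ ρ σ) (n' : ℕ) {ψ : Ω} (hψ : ψ ∈ C) {l : ℕ} (hl : p ∣ l)
    (j : ℕ) : ∃ d ∈ cadj v C w, PowerSeries.coeff j (Tn Φ w Z n' ψ ^ l) = d ^ p := by
  obtain ⟨l', rfl⟩ := hl
  rw [coeff_pow_mul]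
  split_ifs
  · exact ⟨_, pow_coeff_mem _ (h.tn_mem n' hψ) l' _, rfl⟩
  · exact ⟨0, zero_mem _, by rw [zero_pow hp.out.ne_zero]⟩

/-- A product with a coefficient of a `p`-th power of `T`. -/
theorem Set0.pc_mul (h : Set0 v C Φ w Z κ ρ σ) {n' : ℕ} {ψ : Ω} (hψ : ψ ∈ C) {l : ℕ} (hl : p ∣ l)
    {δ : ℝ} (hT : ∀ n : ℕ, v.Ge (ρ - δ - n * σ) (PowerSeries.coeff n (Tn Φ w Z n' ψ))) {b : ℝ}
    {x : Ω} (hx : PC p v C b x) (j : ℕ) :
    PC p v (cadj v C w) (b + (l * (ρ - δ) - j * σ))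
      (x * PowerSeries.coeff j (Tn Φ w Z n' ψ ^ l)) := by
  obtain ⟨d, hd, e⟩ := h.tn_pow n' hψ hl j
  have h1 := pow_ge hT l j
  rw [e] at h1 ⊢
  exact hx.up.mul_pow hd h1

end P

omit [Algebra k Ω] in
theorem hasse_eval (f : Polynomial Ω) (i l : ℕ) (z : Ω) :
    (hasseDeriv i (hasseDeriv l f)).eval z =
      ((i + l).choose i : Ω) * (hasseDeriv (i + l) f).eval z := by
  have e : hasseDeriv i (hasseDeriv l f) = (i + l).choose i • hasseDeriv (i + l) f := by
    have := LinearMap.congr_fun (hasseDeriv_comp (R := Ω) i l) f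
    simpa using this
  rw [e, nsmul_eq_mul, eval_mul, eval_natCast]

section Q

variable [IsAlgClosed Ω] [hp : Fact p.Prime] [CharP Ω p]

/-- The jets beyond `l₀` at the points of `C` near `w`. -/
theorem exists_deep (hw : TL v C w ρ) (hf : f ∈ PI C)
    (hn : ∀ l, l₀ < l → p ∣ l → PG p v (cadj v C w) (ν - l * ρ) ((hasseDeriv l f).eval w)) :
    ∃ μ δ : ℝ, 0 < μ ∧ 0 < δ ∧ ∀ ψ ∈ C, v.Ge (ρ - δ) (w - ψ) → ∀ l, l₀ < l → p ∣ l →
      PC p v C (ν - l * ρ + μ) ((hasseDeriv l f).eval ψ) := by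
  classical
  obtain ⟨μ, hμ, h1⟩ := exists_margin ((range (f.natDegree + 1)).filter fun l => l₀ < l ∧ p ∣ l)
    (fun l => ν - l * ρ) (fun l => (hasseDeriv l f).eval w)
    (fun l hl => hn l (mem_filter.1 hl).2.1 (mem_filter.1 hl).2.2)
  have h2 : ∀ l, ∃ G ∈ PI C, l₀ < l → p ∣ l → l ≤ f.natDegree →
      v.Ge (ν - l * ρ + μ) ((hasseDeriv l f - G ^ p).eval w) := by
    intro l
    by_cases hl : l₀ < l ∧ p ∣ l ∧ l ≤ f.natDegree
    · obtain ⟨G, hG, h3⟩ := PC.exists_poly hw (h1 l (mem_filter.2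
        ⟨mem_range.2 (by omega), hl.1, hl.2.1⟩))
      exact ⟨G, hG, fun _ _ _ => h3⟩
    · exact ⟨0, zero_mem _, fun a b c => absurd ⟨a, b, c⟩ hl⟩
  choose G hG h3 using h2
  obtain ⟨δ, hδ, h4⟩ := TL.deep hw ((range (f.natDegree + 1)).image
    fun l => hasseDeriv l f - G l ^ p) (fun q hq => by
      obtain ⟨l, _, rfl⟩ := mem_image.1 hq
      exact sub_mem (hasse_mem_PI hf l) (pow_mem (hG l) p))
  refine ⟨μ, δ, hμ, hδ, fun ψ hψ hwψ l hl hpl => ?_⟩
  by_cases hd : l ≤ f.natDegree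
  · have h5 := (h4 ψ hwψ _ (mem_image.2 ⟨l, mem_range.2 (by omega), rfl⟩)).1 _ |>.1 (h3 l hl hpl hd)
    rw [eval_sub, eval_pow] at h5
    exact ⟨_, eval_mem (hG l) hψ, h5⟩
  · rw [hasseDeriv_eq_zero_of_lt_natDegree f l (by omega), eval_zero]
    exact PC.zero

omit [IsAlgClosed Ω] in
/-- The difference of two values of the jet of index `l₀`. -/
theorem jet_diff (hl : p ∣ l₀) (hz : ∀ l, l₀ < l → ¬ p ∣ l → hasseDeriv l f = 0) {μ δ : ℝ} {ψ : Ω}
    (hψ : ψ ∈ C) (h1 : ∀ l, l₀ < l → p ∣ l → PC p v C (ν - l * ρ + μ) ((hasseDeriv l f).eval ψ))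
    (hδ : 0 ≤ δ) (hδμ : f.natDegree * δ ≤ μ / 2) {F : IntermediateField k Ω}
    (hCF : C ≤ F) {x : Ω} (hx : x ∈ F) (hxψ : v.Ge (ρ - δ) (x - ψ)) :
    PC p v F (ν - l₀ * ρ + μ / 2)
      ((hasseDeriv l₀ f).eval x - (hasseDeriv l₀ f).eval ψ) := by
  have e : (hasseDeriv l₀ f).eval x = ∑ j ∈ range (f.natDegree + 1),
      (hasseDeriv j (hasseDeriv l₀ f)).eval ψ * (x - ψ) ^ j := by
    have h2 : (taylor ψ (hasseDeriv l₀ f)).natDegree < f.natDegree + 1 := by
      rw [natDegree_taylor]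
      exact (natDegree_hasseDeriv_le f l₀).trans_lt (by omega)
    have h3 : (hasseDeriv l₀ f).eval x = (taylor ψ (hasseDeriv l₀ f)).eval (x - ψ) := by
      rw [taylor_eval, sub_add_cancel]
    rw [h3, eval_eq_sum_range' h2]
    simp only [taylor_coeff]
  rw [e, sum_range_succ', hasseDeriv_zero']
  rw [pow_zero, mul_one, add_sub_cancel_right]
  refine PC.sum _ _ fun j hj => ?_
  have hj1 := mem_range.1 hj
  rw [hasse_eval]
  by_cases hpj : p ∣ j + 1
  · obtain ⟨i, hi⟩ := hpj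
    have h4 := h1 (j + 1 + l₀) (by omega) ((Dvd.intro i hi.symm).add hl)
    have h5 : v.Ge ((j + 1 : ℕ) * (ρ - δ)) (((x - ψ) ^ i) ^ p) := by
      rw [← pow_mul, mul_comm i p, ← hi]
      exact ge_pow hxψ _
    have h6 := ((h4.natCast_mul ((j + 1 + l₀).choose (j + 1))).mono_field hCF).mul_pow
      (pow_mem (sub_mem hx (hCF hψ)) i) h5
    rw [← pow_mul, mul_comm i p, ← hi] at h6
    refine h6.mono ?_
    have h7 : ((j + 1 : ℕ) : ℝ) * δ ≤ f.natDegree * δ :=
      mul_le_mul_of_nonneg_right (by exact_mod_cast hj1) hδ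
    push_cast at h7 ⊢
    nlinarith
  · rw [hz (j + 1 + l₀) (by omega) (fun h4 => hpj ((Nat.dvd_add_left hl).1 h4))]
    simp only [eval_zero, mul_zero, zero_mul]
    exact PC.zero

/-- **OC**, the remainder form. `m₁` does not depend on `ψ`, `n'`. -/
theorem Set0.oc (h : Set0 v C Φ w Z κ ρ σ) (hf : f ∈ PI C) (hl : p ∣ l₀)
    (hz : ∀ l, l₀ < l → ¬ p ∣ l → hasseDeriv l f = 0)
    (hn : ∀ l, l₀ < l → p ∣ l → PG p v (cadj v C w) (ν - l * ρ) ((hasseDeriv l f).eval w)) :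
    ∃ (m₁ : ℕ) (δ : ℝ), m₁ ≠ 0 ∧ 0 < δ ∧ ∀ ψ ∈ C, v.Ge (ρ - δ) (w - ψ) →
      ∃ n₀ : ℕ, ∀ n' : ℕ, n₀ ≤ n' →
        (∀ m j : ℕ, m₁ ≤ m → PG p v (cadj v C w) (ν - (m + j : ℕ) * σ)
          (Φ m ((hasseDeriv l₀ f).eval ψ) * PowerSeries.coeff j (Tn Φ w Z n' ψ ^ l₀))) ∧
        (∀ m N : ℕ, m ≠ 0 → m < m₁ → l₀ * n' + m₁ ≤ N → PG p v (cadj v C w) (ν - N * σ)
          (Φ m ((hasseDeriv l₀ f).eval ψ) *
            PowerSeries.coeff (N - m) (Tn Φ w Z n' ψ ^ l₀))) ∧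
        ∀ N : ℕ, N ≠ 0 → l₀ * n' ≤ N → PG p v (cadj v C w) (ν - N * σ)
          (PhS Φ w Z n' N f - ∑ i ∈ antidiagonal N with i.1 ≠ 0 ∧ i.1 < m₁,
            Φ i.1 ((hasseDeriv l₀ f).eval ψ) *
              PowerSeries.coeff i.2 (Tn Φ w Z n' ψ ^ l₀)) := by
  classical
  obtain ⟨μ, δ₀, hμ, hδ₀, hdeep⟩ := exists_deep h.tl hf hn
  set L := max f.natDegree l₀ with hL
  have hL1 : (0 : ℝ) < 4 * (L + 1) := by positivity
  set δ := min δ₀ (μ / (4 * (L + 1))) with hδdef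
  have hδ : 0 < δ := lt_min hδ₀ (div_pos hμ hL1)
  have hδ1 : δ ≤ δ₀ := min_le_left _ _
  have hLδ : (L + 1) * δ ≤ μ / 4 := by
    have h1 : δ ≤ μ / (4 * (L + 1)) := min_le_right _ _
    rw [le_div_iff₀ hL1] at h1
    linarith
  have hlδ : ∀ l : ℕ, l ≤ L → l * δ ≤ μ / 4 := fun l h1 => by
    have h2 : (l : ℝ) ≤ L + 1 := by exact_mod_cast h1.trans (Nat.le_succ L)
    exact (mul_le_mul_of_nonneg_right h2 hδ.le).trans hLδ
  have hdδ : f.natDegree * δ ≤ μ / 2 := by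
    linarith [hlδ f.natDegree (le_max_left _ _)]
  obtain ⟨ψ₀, hψ₀, hwψ₀⟩ := h.tl.lim δ hδ
  have hj₀ := hdeep ψ₀ hψ₀ (hwψ₀.mono (by linarith))
  have hc : (hasseDeriv l₀ f).eval ψ₀ ∈ C := eval_mem (hasse_mem_PI hf l₀) hψ₀
  obtain ⟨m₁, hm₁⟩ := h.oi _ hc (ν - l₀ * ρ + μ / 2)
  refine ⟨m₁ + 1, δ, by omega, hδ, fun ψ hψ hwψ => ?_⟩
  have hj := hdeep ψ hψ (hwψ.mono (by linarith))
  set y : ℕ → Ω := fun l => (hasseDeriv l f).eval ψ with hydef
  have hy : ∀ l, y l ∈ C := fun l => eval_mem (hasse_mem_PI hf l) hψ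
  obtain ⟨b, hb⟩ := exists_bound v (range (L + 1)) y
  set M := |ν| + 1 + |b| + (L + 1) * |ρ - δ| with hM
  have hMl : ∀ l : ℕ, l ≤ L → ν < M - |b| + l * (ρ - δ) := fun l h1 => by
    have h2 : (l : ℝ) ≤ L + 1 := by exact_mod_cast h1.trans (Nat.le_succ L)
    have h3 : (l : ℝ) * |ρ - δ| ≤ (L + 1) * |ρ - δ| := mul_le_mul_of_nonneg_right h2 (abs_nonneg _)
    have h4 : (l : ℝ) * (-|ρ - δ|) ≤ l * (ρ - δ) :=
      mul_le_mul_of_nonneg_left (neg_abs_le _) (Nat.cast_nonneg l)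
    have h5 := le_abs_self ν
    linarith
  obtain ⟨n₁, hn₁⟩ := exists_over h.oi (range (L + 1)) y (fun l _ => hy l) M
  obtain ⟨n₂, hn₂⟩ := h.T_ge hψ hδ.le hwψ M
  refine ⟨max n₁ n₂, fun n' hn' => ?_⟩
  obtain ⟨hT, hTM⟩ := hn₂ n' (by omega)
  change ∀ n : ℕ, v.Ge (ρ - δ - n * σ) (PowerSeries.coeff n (Tn Φ w Z n' ψ)) at hT
  change ∀ n : ℕ, n' ≤ n → v.Ge (M - n * σ) (PowerSeries.coeff n (Tn Φ w Z n' ψ)) at hTM
  -- the terms with a large first index
  have ha : ∀ m j : ℕ, m₁ ≤ m → PG p v (cadj v C w) (ν - (m + j : ℕ) * σ)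
      (Φ m (y l₀) * PowerSeries.coeff j (Tn Φ w Z n' ψ ^ l₀)) := by
    intro m j hm
    have h1 : v.Ge (ρ - δ) (ψ - ψ₀) := by
      have h2 := hwψ₀.sub hwψ
      rwa [sub_sub_sub_cancel_left] at h2
    have h2 := jet_diff hl hz hψ₀ hj₀ hδ.le hdδ le_rfl hψ h1
    have h3 := h.pc_phi (sub_mem (hy l₀) hc) h2 m
    rw [h.hsd.sub m (hy l₀) hc] at h3
    have h4 := h3.add (.of_ge (F := C) (p := p) (hm₁ m hm))
    rw [sub_add_cancel] at h4
    have h5 := h.pc_mul hψ hl hT h4 j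
    refine h5.pg ?_
    have h6 := hlδ l₀ (le_max_right _ _)
    push_cast
    nlinarith
  -- the terms with a large second index
  have far : ∀ l m j : ℕ, l ≤ L → l ≠ 0 → l * n' ≤ j →
      Gt v (ν - (m + j : ℕ) * σ) (Φ m (y l) * PowerSeries.coeff j (Tn Φ w Z n' ψ ^ l)) := by
    intro l m j hlL hl0 hlj
    have h1 := h.phi_ge (hy l) (hb l (mem_range.2 (by omega))) m
    have h2 := pow_ge_far hT hTM hl0 hlj
    refine Gt.of_ge (h1.mul h2) ?_
    obtain ⟨i, rfl⟩ : ∃ i, l = i + 1 := ⟨l - 1, by omega⟩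
    have h3 := hMl i (by omega)
    have h4 := neg_abs_le b
    push_cast
    linarith
  refine ⟨fun m j hm => ha m j (by omega), fun m N hm hm' hN => ?_, fun N hN hlN => ?_⟩
  · rcases Nat.eq_zero_or_pos l₀ with hl0 | hl0
    · have h1 : PowerSeries.coeff (N - m) (Tn Φ w Z n' ψ ^ l₀) = 0 := by
        rw [hl0, pow_zero, PowerSeries.coeff_one, if_neg (by omega)]
      rw [h1, mul_zero]
      exact .of_gt Gt.zero
    · have h1 := far l₀ m (N - m) (le_max_right _ _) hl0.ne' (by omega)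
      rw [Nat.add_sub_cancel' (by omega)] at h1
      exact .of_gt h1
  · have e0 := h.phS_two hf (L := L) (le_max_left _ _) n' N hψ
    change _ = ∑ l ∈ range (L + 1), ∑ i ∈ antidiagonal N,
      Φ i.1 (y l) * PowerSeries.coeff i.2 (Tn Φ w Z n' ψ ^ l) at e0
    have hmem : l₀ ∈ range (L + 1) := mem_range.2 (Nat.lt_succ_of_le (le_max_right _ _))
    rw [e0, ← add_sum_erase _ _ hmem, ← sum_filter_add_sum_filter_not (antidiagonal N)
      (fun i => i.1 ≠ 0 ∧ i.1 < m₁ + 1), add_assoc, add_sub_cancel_left]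
    refine PG.add (PG.sum _ _ fun i hi => ?_) (PG.sum _ _ fun l hl' => PG.sum _ _ fun i hi => ?_)
    · obtain ⟨h1, h2⟩ := mem_filter.1 hi
      have h3 : i.1 + i.2 = N := by simpa using h1
      by_cases h4 : i.1 = 0
      · have h5 : i.2 = N := by omega
        rcases Nat.eq_zero_or_pos l₀ with hl0 | hl0
        · have h1 : PowerSeries.coeff i.2 (Tn Φ w Z n' ψ ^ l₀) = 0 := by
            rw [hl0, pow_zero, PowerSeries.coeff_one, if_neg (by omega)]
          rw [h1, mul_zero]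
          exact .of_gt Gt.zero
        · have h6 := far l₀ i.1 i.2 (le_max_right _ _) hl0.ne' (by omega)
          rw [h3] at h6
          exact .of_gt h6
      · have h5 := ha i.1 i.2 (by
          by_contra h6
          exact h2 ⟨h4, by omega⟩)
        rwa [h3] at h5
    · obtain ⟨hne, hlr⟩ := mem_erase.1 hl'
      have hlL : l ≤ L := Nat.le_of_lt_succ (mem_range.1 hlr)
      have h3 : i.1 + i.2 = N := by simpa using hi
      rcases lt_or_gt_of_ne hne with hlt | hgt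
      · have h6 : (l + 1) * n' ≤ l₀ * n' := Nat.mul_le_mul_right n' hlt
        rw [add_mul, one_mul] at h6
        by_cases h4 : l ≠ 0 ∧ l * n' ≤ i.2
        · have h5 := far l i.1 i.2 hlL h4.1 h4.2
          rw [h3] at h5
          exact .of_gt h5
        · by_cases h7 : l = 0 ∧ i.2 ≠ 0
          · rw [h7.1, pow_zero, PowerSeries.coeff_one, if_neg h7.2, mul_zero]
            exact .of_gt Gt.zero
          · have h8 : n' ≤ i.1 := by
              by_cases h9 : l = 0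
              · subst h9
                omega
              · have h10 : ¬ l * n' ≤ i.2 := fun h11 => h4 ⟨h9, h11⟩
                omega
            have h9 := hn₁ i.1 (by omega) l hlr
            refine .of_gt (Gt.of_ge (h9.mul (pow_ge hT l i.2)) ?_)
            have h10 := hMl l hlL
            have h11 := abs_nonneg b
            rw [← h3]
            push_cast
            linarith
      · by_cases hpl : p ∣ l
        · have h4 := h.pc_mul hψ hpl hT (h.pc_phi (hy l) (hj l hgt hpl) i.1) i.2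
          refine h4.pg ?_
          have h5 := hlδ l hlL
          rw [← h3]
          push_cast
          nlinarith
        · have h4 : y l = 0 := by rw [hydef]; simp only; rw [hz l hgt hpl, eval_zero]
          rw [h4, h.hsd.zero, zero_mul]
          exact .of_gt Gt.zero

/-- **OC (ii)**. -/
theorem Set0.oc_two (h : Set0 v C Φ w Z κ ρ σ) (hf : f ∈ PI C) (hl : p ∣ l₀)
    (hz : ∀ l, l₀ < l → ¬ p ∣ l → hasseDeriv l f = 0)
    (hn : ∀ l, l₀ < l → p ∣ l → PG p v (cadj v C w) (ν - l * ρ) ((hasseDeriv l f).eval w)) :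
    ∃ m₁ : ℕ, m₁ ≠ 0 ∧ ∃ n₀ : ℕ, ∀ n' : ℕ, n₀ ≤ n' → ∀ N : ℕ, l₀ * n' + m₁ ≤ N →
      PG p v (cadj v C w) (ν - N * σ) (PhS Φ w Z n' N f) := by
  obtain ⟨m₁, δ, hm₁, hδ, h1⟩ := h.oc hf hl hz hn
  obtain ⟨ψ, hψ, hwψ⟩ := h.tl.lim δ hδ
  obtain ⟨n₀, h2⟩ := h1 ψ hψ hwψ
  refine ⟨m₁, hm₁, n₀, fun n' hn' N hN => ?_⟩
  obtain ⟨-, h3, h4⟩ := h2 n' hn'
  have h5 := h4 N (by omega) (by omega)
  refine pg_of_sub h5 (PG.sum _ _ fun i hi => ?_)
  obtain ⟨h7, h8, h9⟩ := mem_filter.1 hi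
  have h10 : i.1 + i.2 = N := by simpa using h7
  have h11 := h3 i.1 N h8 h9 hN
  have e : N - i.1 = i.2 := by omega
  rwa [e] at h11

/-- The first jet of a limit of `p`-th powers. -/
theorem lp_jet_one (hw : TL v C w ρ) (hf : f ∈ PI C) (hν : LP p v (cadj v C w) ν (f.eval w)) :
    v.Ge (ν - ρ) ((hasseDeriv 1 f).eval w) := by
  intro h0
  refine le_of_forall_pos_le_add fun ε hε => ?_
  have h1 := PC.jet_gt (c := ν - ε) hw hf (hν.pc (by linarith))
    (fun h3 => hp.out.one_lt.not_ge (Nat.le_of_dvd one_pos h3))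
  have h3 := h1 h0
  push_cast at h3
  linarith

/-- **OC (i)**. -/
theorem Set0.oc_one (h : Set0 v C Φ w Z κ ρ σ) (hf : f ∈ PI C) (hl : p ∣ l₀)
    (hz : ∀ l, l₀ < l → ¬ p ∣ l → hasseDeriv l f = 0)
    (hn : ∀ l, l₀ < l → p ∣ l → PG p v (cadj v C w) (ν - l * ρ) ((hasseDeriv l f).eval w))
    (hl₀ : LP p v (cadj v C w) (ν - l₀ * ρ) ((hasseDeriv l₀ f).eval w)) :
    ∃ n₀ : ℕ, ∀ n' : ℕ, n₀ ≤ n' → ∀ N : ℕ, N ≠ 0 → l₀ * n' ≤ N →
      PG p v (cadj v C w) (ν - N * σ) (PhS Φ w Z n' N f) := by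
  classical
  obtain ⟨m₁, δ₁, hm₁, hδ₁, h1⟩ := h.oc hf hl hz hn
  -- the margin of the finitely many `Φ m`
  obtain ⟨κ', hκ', hκ⟩ : ∃ κ' : ℝ, 0 < κ' ∧ ∀ m ∈ range m₁, κ' ≤ κ m := by
    clear h1
    induction m₁ with
    | zero => exact ⟨1, one_pos, fun m hm => absurd hm (by simp)⟩
    | succ m₁ ih =>
      rcases eq_or_ne m₁ 0 with rfl | hm
      · exact ⟨κ 0, h.kpos 0, fun m hm => by
          have : m = 0 := by simpa using hm
          rw [this]⟩
      · obtain ⟨κ', h2, h3⟩ := ih hm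
        refine ⟨min κ' (κ m₁), lt_min h2 (h.kpos m₁), fun m hm' => ?_⟩
        rcases Nat.lt_succ_iff_lt_or_eq.1 (mem_range.1 hm') with h4 | rfl
        · exact (min_le_left _ _).trans (h3 m (mem_range.2 h4))
        · exact min_le_right _ _
  obtain ⟨G, hG, h2⟩ := LP.exists_poly h.tl hl₀ (half_pos hκ')
  obtain ⟨δ₂, hδ₂, h3⟩ := TL.deep h.tl {hasseDeriv l₀ f - G ^ p} (fun q hq => by
    rw [mem_singleton.1 hq]
    exact sub_mem (hasse_mem_PI hf l₀) (pow_mem hG p))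
  have hL1 : (0 : ℝ) < 4 * (l₀ + 1) := by positivity
  set δ := min (min δ₁ δ₂) (κ' / (4 * (l₀ + 1))) with hδdef
  have hδ : 0 < δ := lt_min (lt_min hδ₁ hδ₂) (div_pos hκ' hL1)
  have hδ1 : δ ≤ δ₁ := (min_le_left _ _).trans (min_le_left _ _)
  have hδ2 : δ ≤ δ₂ := (min_le_left _ _).trans (min_le_right _ _)
  have hlδ : l₀ * δ ≤ κ' / 4 := by
    have h4 : δ ≤ κ' / (4 * (l₀ + 1)) := min_le_right _ _
    rw [le_div_iff₀ hL1] at h4
    linarith
  obtain ⟨ψ, hψ, hwψ⟩ := h.tl.lim δ hδ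
  obtain ⟨n₀, h4⟩ := h1 ψ hψ (hwψ.mono (by linarith))
  obtain ⟨n₁, h5⟩ := h.T_ge hψ hδ.le hwψ 0
  have h6 := (h3 ψ (hwψ.mono (by linarith)) _ (mem_singleton_self _)).1 _ |>.1 h2
  rw [eval_sub, eval_pow] at h6
  have hy : (hasseDeriv l₀ f).eval ψ ∈ C := eval_mem (hasse_mem_PI hf l₀) hψ
  have hGψ : G.eval ψ ∈ C := eval_mem hG hψ
  refine ⟨max n₀ n₁, fun n' hn' N hN hlN => ?_⟩
  obtain ⟨-, -, h7⟩ := h4 n' (by omega)
  have hT := (h5 n' (by omega)).1
  change ∀ n : ℕ, v.Ge (ρ - δ - n * σ) (PowerSeries.coeff n (Tn Φ w Z n' ψ)) at hT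
  refine pg_of_sub (h7 N hN hlN) (PG.sum _ _ fun i hi => ?_)
  obtain ⟨h9, h10, h11⟩ := mem_filter.1 hi
  have h12 : i.1 + i.2 = N := by simpa using h9
  have h13 : PC p v C (ν - l₀ * ρ - κ' / 2 - i.1 * σ + κ') (Φ i.1 ((hasseDeriv l₀ f).eval ψ)) := by
    have e : Φ i.1 ((hasseDeriv l₀ f).eval ψ) = Φ i.1 (G.eval ψ ^ p) +
        Φ i.1 ((hasseDeriv l₀ f).eval ψ - G.eval ψ ^ p) := by
      rw [← h.hsd.add i.1 _ (pow_mem hGψ p) _ (sub_mem hy (pow_mem hGψ p)), add_sub_cancel]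
    rw [e, phi_pow h.hsd hGψ]
    refine PC.add ?_ (.of_ge ((h.str i.1 h10 _ (sub_mem hy (pow_mem hGψ p)) _ h6).mono ?_))
    · split_ifs
      · exact .of_pow (h.hsd.mem _ _ hGψ)
      · exact PC.zero
    · linarith [hκ i.1 (mem_range.2 h11)]
  refine (h.pc_mul hψ hl hT h13 i.2).pg ?_
  rw [← h12]
  push_cast
  nlinarith

/-- **H0**. -/
theorem Set0.h0 (h : Set0 v C Φ w Z κ ρ σ)
    (hinf : ∀ n₀ : ℕ, ∃ n : ℕ, n₀ ≤ n ∧ ¬ v.Ge (ρ - n * σ) (PowerSeries.coeff n Z))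
    (hf : f ∈ PI C) (hX : ∀ l, 2 ≤ l → ¬ p ∣ l → hasseDeriv l f = 0)
    (hν : LP p v (cadj v C w) ν (f.eval w)) {i : ℕ} (hi : i ≠ 0) (hpi : p ∣ i) :
    PG p v (cadj v C w) (ν - i * ρ) ((hasseDeriv i f).eval w) := by
  classical
  by_contra hbad
  -- the last bad index
  set B := (range (f.natDegree + 1)).filter fun l => l ≠ 0 ∧ p ∣ l ∧
    ¬ PG p v (cadj v C w) (ν - l * ρ) ((hasseDeriv l f).eval w) with hB
  have hmemB : ∀ l, l ≠ 0 → p ∣ l →
      ¬ PG p v (cadj v C w) (ν - l * ρ) ((hasseDeriv l f).eval w) → l ∈ B := by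
    intro l h1 h2 h3
    refine mem_filter.2 ⟨mem_range.2 ?_, h1, h2, h3⟩
    by_contra h4
    rw [hasseDeriv_eq_zero_of_lt_natDegree f l (by omega), eval_zero] at h3
    exact h3 (.of_gt Gt.zero)
  have hBne : B.Nonempty := ⟨i, hmemB i hi hpi hbad⟩
  set q := B.max' hBne with hq
  obtain ⟨-, hq0, hpq, hqbad⟩ := mem_filter.1 (B.max'_mem hBne)
  have hmax : ∀ l ∈ B, l ≤ q := fun l hl => B.le_max' l hl
  have hp2 := hp.out.two_le
  have hq2 : 2 ≤ q := hp2.trans (Nat.le_of_dvd (Nat.pos_of_ne_zero hq0) hpq)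
  have hjets := fun j => LP.hjet h.tl hf hν j
  obtain ⟨n₀, hoc⟩ := h.oc_one hf hpq (fun l hl hpl => hX l (by omega) hpl) (fun l hl hpl => by
    by_contra h1
    have h2 := hmax l (hmemB l (by omega) hpl h1)
    omega) (hjets q)
  obtain ⟨n', g, hn', hn0, hg0, -, hZ0, hZv, hZg⟩ := h.record hinf one_pos n₀
  have hY := fun j => h.Y_pow hZg j
  have hN : q * n' ≠ 0 := Nat.mul_ne_zero hq0 hn0
  have h1 := hoc n' hn' (q * n') hN le_rfl
  -- formula (1)
  rw [h.phS_one hf (L := max f.natDegree q) (le_max_left _ _) n' (q * n'),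
    ← add_sum_erase _ _ (mem_range.2 (Nat.lt_succ_of_le (le_max_right f.natDegree q)))] at h1
  set c := ν - q * g - (q * n' : ℕ) * σ with hc
  have hc1 : c ≤ ν - (q * n' : ℕ) * σ := by
    have : 0 ≤ (q : ℝ) * g := by positivity
    linarith
  have h2 : PG p v (cadj v C w) c (∑ j ∈ (range (max f.natDegree q + 1)).erase q,
      ∑ i ∈ antidiagonal (q * n'), Ph Φ w Z i.1 (hasseDeriv j f) *
        PowerSeries.coeff i.2 ((-Yn Z n') ^ j)) := by
    refine PG.sum _ _ fun j hj => ?_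
    obtain ⟨hjq, -⟩ := mem_erase.1 hj
    obtain ⟨hY0, -, hYg, hYm⟩ := hY j
    rcases lt_or_gt_of_ne hjq with hlt | hgt
    · by_cases hpj : p ∣ j
      · rcases eq_or_ne j 0 with rfl | hj0
        · rw [sum_eq_single (q * n', 0)]
          · rw [pow_zero, PowerSeries.coeff_one, if_pos rfl, mul_one, hasseDeriv_zero']
            exact (LP.ph h hf hν hN).mono hc1
          · intro i hi hne
            have h3 : i.1 + i.2 = q * n' := by simpa using hi
            rw [pow_zero, PowerSeries.coeff_one, if_neg, mul_zero]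
            intro h4
            refine hne (Prod.ext ?_ h4)
            change i.1 = q * n'
            omega
          · intro h3
            exact absurd (by simp) h3
        · refine PG.sum _ _ fun i hi => ?_
          have h3 : i.1 + i.2 = q * n' := by simpa using hi
          have h4 : LP p v (cadj v C w) (ν - j * ρ - i.1 * σ)
              (Ph Φ w Z i.1 (hasseDeriv j f)) := by
            rcases eq_or_ne i.1 0 with h5 | h5
            · rw [h5, h.ph_zero (hasse_mem_PI hf j), Nat.cast_zero, zero_mul, sub_zero]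
              exact hjets j
            · exact (PG.pc (LP.ph h (hasse_mem_PI hf j) (hjets j) h5)).lp
          obtain ⟨j', rfl⟩ := hpj
          have h5 : ∃ d ∈ cadj v C w, PowerSeries.coeff i.2 ((-Yn Z n') ^ (p * j')) = d ^ p := by
            rw [coeff_pow_mul]
            split_ifs
            · exact ⟨_, le_cadj v C w ((h.Y_pow hZg j').2.2.2 _), rfl⟩
            · exact ⟨0, zero_mem _, by rw [zero_pow hp.out.ne_zero]⟩
          obtain ⟨d, hd, h6⟩ := h5
          have h7 := hYg i.2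
          rw [h6] at h7 ⊢
          have h8 := h4.mul_pow hd h7
          refine PC.pg (h8.pc (c' := c + (q - (p * j' : ℕ)) * g / 2) ?_) ?_
          · rw [hc, ← h3]
            have h9 : ((p * j' : ℕ) : ℝ) < q := by exact_mod_cast hlt
            have h10 : 0 < (q - (p * j' : ℕ)) * g := mul_pos (by linarith) hg0
            push_cast at h10 ⊢
            nlinarith
          · have h9 : ((p * j' : ℕ) : ℝ) < q := by exact_mod_cast hlt
            have h10 : 0 < (q - (p * j' : ℕ)) * g := mul_pos (by linarith) hg0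
            linarith
      · by_cases hj1 : j = 1
        · subst hj1
          refine PG.sum _ _ fun i hi => ?_
          have h3 : i.1 + i.2 = q * n' := by simpa using hi
          have h4 := h.ph_ge i.1 (hasse_mem_PI hf 1) (lp_jet_one h.tl hf hν)
          refine .of_gt (Gt.of_ge (h4.mul (hYg i.2)) ?_)
          rw [hc, ← h3]
          have h9 : (2 : ℝ) ≤ q := by exact_mod_cast hq2
          push_cast
          nlinarith
        · have hj2 : 2 ≤ j := by
            rcases j with _ | _ | j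
            · exact absurd (dvd_zero p) hpj
            · exact absurd rfl hj1
            · omega
          refine PG.sum _ _ fun i hi => ?_
          rw [hX j hj2 hpj, ← zero_mul (1 : Polynomial Ω)]
          simp only [zero_mul]
          have h5 : Ph Φ w Z i.1 0 = 0 := by rw [Ph, EV_zero, map_zero]
          rw [h5, zero_mul]
          exact .of_gt Gt.zero
    · refine PG.sum _ _ fun i hi => ?_
      have h3 : i.1 + i.2 = q * n' := by simpa using hi
      have h4 : (q + 1) * n' ≤ j * n' := Nat.mul_le_mul_right n' hgt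
      rw [add_mul, one_mul] at h4
      rw [hY0 i.2 (by omega), mul_zero]
      exact .of_gt Gt.zero
  have h3 := (h1.mono hc1).sub h2
  rw [add_sub_cancel_right] at h3
  -- the top term
  obtain ⟨hY0, hYt, -, -⟩ := hY q
  rw [sum_eq_single (0, q * n')] at h3
  · simp only at h3
    rw [h.ph_zero (hasse_mem_PI hf q), hYt] at h3
    obtain ⟨q', hq'⟩ := hpq
    change q = p * q' at hq'
    refine hqbad (PG.of_mul_pow (d := (-PowerSeries.coeff n' Z) ^ q') ?_ ?_ ?_)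
    · exact pow_mem (neg_mem (le_cadj v C w (h.zmem n'))) q'
    · exact pow_ne_zero _ (neg_ne_zero.2 hZ0)
    · have e1 : ((-PowerSeries.coeff n' Z) ^ q') ^ p = (-PowerSeries.coeff n' Z) ^ q := by
        rw [← pow_mul, mul_comm, ← hq']
      have e2 : (p : ℝ) * v ((-PowerSeries.coeff n' Z) ^ q') = q * (ρ - n' * σ - g) := by
        rw [v.map_pow (neg_ne_zero.2 hZ0), v.map_neg _ hZ0, hZv, hq']
        push_cast
        ring
      rw [e1, e2]
      refine h3.mono (le_of_eq ?_)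
      rw [hc]
      push_cast
      ring
  · intro i hi hne
    have h4 : i.1 + i.2 = q * n' := by simpa using hi
    rw [hY0 i.2, mul_zero]
    by_contra h5
    refine hne (Prod.ext ?_ ?_)
    · change i.1 = 0
      omega
    · change i.2 = q * n'
      omega
  · intro h4
    exact absurd (by simp) h4

/-- **TOP**: `f(w) = e₂ w + c + null`. For `e₂ = 0` this is TOP of the text. -/
theorem Set0.top (h : Set0 v C Φ w Z κ ρ σ)
    (hinf : ∀ n₀ : ℕ, ∃ n : ℕ, n₀ ≤ n ∧ ¬ v.Ge (ρ - n * σ) (PowerSeries.coeff n Z))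
    (hf : f ∈ PI C) (hX : ∀ l, 2 ≤ l → ¬ p ∣ l → hasseDeriv l f = 0)
    (hν : LP p v (cadj v C w) ν (f.eval w)) {e₂ : Ω} (he : hasseDeriv 1 f = Polynomial.C e₂) :
    ∃ c ∈ C, PG p v (cadj v C w) ν (f.eval w - e₂ * w - c) := by
  obtain ⟨μ, δ₀, hμ, hδ₀, hdeep⟩ := exists_deep (l₀ := 0) h.tl hf
    (fun l hl hpl => h.h0 hinf hf hX hν (by omega) hpl)
  have hL1 : (0 : ℝ) < 4 * (f.natDegree + 1) := by positivity
  set δ := min δ₀ (μ / (4 * (f.natDegree + 1))) with hδdef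
  have hδ : 0 < δ := lt_min hδ₀ (div_pos hμ hL1)
  have hδ1 : δ ≤ δ₀ := min_le_left _ _
  have hLδ : (f.natDegree + 1) * δ ≤ μ / 4 := by
    have h1 : δ ≤ μ / (4 * (f.natDegree + 1)) := min_le_right _ _
    rw [le_div_iff₀ hL1] at h1
    linarith
  obtain ⟨ψ, hψ, hwψ⟩ := h.tl.lim δ hδ
  have hj := hdeep ψ hψ (hwψ.mono (by linarith))
  have he2 : e₂ ∈ C := by
    have h1 := hasse_mem_PI hf 1 0
    rwa [he, coeff_C_zero] at h1
  -- the polynomial `f - e₂ X` satisfies the hypotheses of `jet_diff`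
  set f' := f - Polynomial.C e₂ * X with hf'
  have hjet : ∀ l, l ≠ 0 → l ≠ 1 → hasseDeriv l f' = hasseDeriv l f := by
    intro l h0 h1
    have h2 : hasseDeriv l (Polynomial.C e₂ * X) = 0 := by
      rw [← monomial_zero_left, ← monomial_one_one_eq_X, monomial_mul_monomial,
        hasseDeriv_monomial, Nat.choose_eq_zero_of_lt (by omega), Nat.cast_zero, zero_mul,
        monomial_zero_right]
    rw [hf', map_sub, h2, sub_zero]
  have hjet1 : hasseDeriv 1 f' = 0 := by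
    rw [hf', map_sub, he, hasseDeriv_one, derivative_C_mul, derivative_X, mul_one, sub_self]
  have hdeg : (f'.natDegree : ℝ) * δ ≤ μ / 2 := by
    have h1 : f'.natDegree ≤ f.natDegree + 1 := by
      refine (natDegree_sub_le _ _).trans (max_le (by omega) ?_)
      exact (natDegree_C_mul_le _ _).trans (natDegree_X_le.trans (by omega))
    have h2 : (f'.natDegree : ℝ) ≤ f.natDegree + 1 := by exact_mod_cast h1
    linarith [mul_le_mul_of_nonneg_right h2 hδ.le]
  have h1 := jet_diff (p := p) (l₀ := 0) (f := f') (ν := ν) (dvd_zero p) (fun l h0 h1 => by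
    rcases eq_or_ne l 1 with rfl | h2
    · exact hjet1
    · rw [hjet l (by omega) h2]
      exact hX l (by omega) h1) hψ (fun l h0 h1 => by
    have h2 : l ≠ 1 := by
      rintro rfl
      exact hp.out.one_lt.not_ge (Nat.le_of_dvd one_pos h1)
    rw [hjet l (by omega) h2]
    exact hj l h0 h1) hδ.le hdeg (le_cadj v C w) (self_mem_cadj v C w) hwψ
  rw [hasseDeriv_zero'] at h1
  refine ⟨f'.eval ψ, ?_, ?_⟩
  · exact eval_mem (sub_mem hf (mul_mem (C_mem_PI he2) X_mem_PI)) hψ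
  · have h2 : f'.eval w = f.eval w - e₂ * w := by
      rw [hf', eval_sub, eval_mul, eval_C, eval_X]
    rw [h2] at h1
    refine h1.pg ?_
    rw [Nat.cast_zero]
    linarith

end Q

end Pool.Agent.TWN1
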