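import Pool.Agent.Lib.TWN1.Nrm
import Pool.Agent.Lib.TWN1.Oc

/-!
# TANK W, text N1, section 2: the normal form of an additive critical element

Input = the output of `TWII.soc` for `F = cadj v C w` (with `A₀ (i + 1)` for `A i`), output = the
record `Nrm` with `R = 0` for `y - c`, `c ∈ F`, the same `N`.
-/

set_option autoImplicit false

open Polynomial Finset

namespace Pool.Agent.TWN1

open Pool.Agent.H15JM (RVal)
open Pool.Agent.TWM
open Pool.Agent.TWII (PG LP)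
open Pool.Agent.TWLM (HSd Oi)

universe u

variable {k Ω : Type u} [Field k] [Field Ω] [Algebra k Ω] {v : RVal Ω}
  {C F K : IntermediateField k Ω} {Φ : ℕ → Ω → Ω} {w : Ω} {Z : PowerSeries Ω} {κ : ℕ → ℝ}
  {ρ σ s ν : ℝ} {p : ℕ} [hp : Fact p.Prime] [CharP Ω p]

section aux

omit [Algebra k Ω] in
/-- If the derivative vanishes, so do all the jets of order prime to `p`. -/
theorem hasse_zero_of_derivative (p : ℕ) [hp : Fact p.Prime] [CharP Ω p] {f : Polynomial Ω}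
    (h : derivative f = 0) {l : ℕ} (hl : ¬ p ∣ l) : hasseDeriv l f = 0 := by
  obtain ⟨m, rfl⟩ : ∃ m, l = m + 1 := ⟨l - 1, by
    have : l ≠ 0 := by rintro rfl; exact hl (dvd_zero p)
    omega⟩
  have h1 : ((m + 1 : ℕ) : Ω) ≠ 0 := fun h0 => hl ((CharP.cast_eq_zero_iff Ω p _).1 h0)
  ext n
  rw [hasseDeriv_coeff, coeff_zero]
  have h2 : f.coeff (n + (m + 1)) * ((n + (m + 1) : ℕ) : Ω) = 0 := by
    have h3 := congrArg (fun g => g.coeff (n + m)) h
    simp only [coeff_derivative, coeff_zero] at h3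
    rw [show n + (m + 1) = n + m + 1 by omega]
    push_cast at h3 ⊢
    exact h3
  have h3 : ((n + (m + 1) : ℕ) * (n + m).choose m : ℕ) = (n + (m + 1)).choose (m + 1) * (m + 1) :=
    Nat.add_one_mul_choose_eq (n + m) m
  have h4 : ((m + 1 : ℕ) : Ω) * (((n + (m + 1)).choose (m + 1) : Ω) * f.coeff (n + (m + 1))) = 0 := by
    have h5 : (((n + (m + 1) : ℕ) : Ω)) * ((n + m).choose m : Ω) =
        ((n + (m + 1)).choose (m + 1) : Ω) * ((m + 1 : ℕ) : Ω) := by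
      have h6 := congrArg (Nat.cast (R := Ω)) h3
      rwa [Nat.cast_mul, Nat.cast_mul] at h6
    calc ((m + 1 : ℕ) : Ω) * (((n + (m + 1)).choose (m + 1) : Ω) * f.coeff (n + (m + 1)))
        = (((n + (m + 1)).choose (m + 1) : Ω) * ((m + 1 : ℕ) : Ω)) * f.coeff (n + (m + 1)) := by ring
      _ = (f.coeff (n + (m + 1)) * ((n + (m + 1) : ℕ) : Ω)) * ((n + m).choose m : Ω) := by
          rw [← h5]; ring
      _ = 0 := by rw [h2, zero_mul]
  exact (mul_eq_zero.1 h4).resolve_left h1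

omit [Algebra k Ω] in
theorem iterate_derivative_prime (p : ℕ) [hp : Fact p.Prime] [CharP Ω p] (f : Polynomial Ω) :
    derivative^[p] f = 0 := by
  have h1 := congrFun (factorial_smul_hasseDeriv (R := Ω) (k := p)) f
  rw [LinearMap.smul_apply] at h1
  rw [← h1, ← Nat.cast_smul_eq_nsmul Ω,
    (CharP.cast_eq_zero_iff Ω p _).2 (Nat.dvd_factorial hp.out.pos le_rfl), zero_smul]

/-- The antiderivative. -/
noncomputable def adv (p : ℕ) (c : Ω) (g : Polynomial Ω) : Polynomial Ω :=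
  ∑ j ∈ range (p - 1), Polynomial.C ((-1) ^ j * (((j + 1).factorial : ℕ) : Ω)⁻¹) *
    (derivative^[j] g * (X - Polynomial.C c) ^ (j + 1))

omit [Algebra k Ω] in
theorem derivative_adv (p : ℕ) [hp : Fact p.Prime] [CharP Ω p] (c : Ω) {g : Polynomial Ω}
    (hg : derivative^[p - 1] g = 0) : derivative (adv p c g) = g := by
  set u : ℕ → Polynomial Ω := fun j => Polynomial.C ((-1) ^ j * ((j.factorial : ℕ) : Ω)⁻¹) *
    (derivative^[j] g * (X - Polynomial.C c) ^ j) with hu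
  have h1 : ∀ j ∈ range (p - 1), derivative (Polynomial.C ((-1) ^ j *
      (((j + 1).factorial : ℕ) : Ω)⁻¹) * (derivative^[j] g * (X - Polynomial.C c) ^ (j + 1))) =
      u j - u (j + 1) := by
    intro j hj
    have hj' := mem_range.1 hj
    have h2 : ((j + 1 : ℕ) : Ω) ≠ 0 := fun h0 => by
      have := Nat.le_of_dvd (by omega) ((CharP.cast_eq_zero_iff Ω p _).1 h0)
      omega
    have h3 : (((j + 1).factorial : ℕ) : Ω)⁻¹ * ((j + 1 : ℕ) : Ω) = ((j.factorial : ℕ) : Ω)⁻¹ := by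
      rw [Nat.factorial_succ, Nat.cast_mul, mul_inv, mul_right_comm, inv_mul_cancel₀ h2, one_mul]
    rw [derivative_C_mul, derivative_mul, ← Function.iterate_succ_apply' derivative,
      derivative_X_sub_C_pow, hu]
    simp only [Nat.succ_eq_add_one]
    have h4 : Polynomial.C ((-1) ^ j * ((j.factorial : ℕ) : Ω)⁻¹) =
        Polynomial.C ((-1) ^ j * (((j + 1).factorial : ℕ) : Ω)⁻¹) *
          Polynomial.C ((j + 1 : ℕ) : Ω) := by
      rw [← Polynomial.C_mul, mul_assoc, h3]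
    have h5 : Polynomial.C ((-1) ^ (j + 1) * (((j + 1).factorial : ℕ) : Ω)⁻¹) =
        -Polynomial.C ((-1) ^ j * (((j + 1).factorial : ℕ) : Ω)⁻¹) := by
      rw [← Polynomial.C_neg]
      congr 1
      ring
    rw [h4, h5, Nat.add_sub_cancel]
    ring
  rw [adv, derivative_sum, sum_congr rfl h1, sum_range_sub', hu]
  simp [hg]

omit hp [CharP Ω p] in
theorem adv_mem {c : Ω} (hc : c ∈ C) {g : Polynomial Ω} (hg : g ∈ PI C) : adv p c g ∈ PI C := by
  have h1 : ∀ j : ℕ, derivative^[j] g ∈ PI C := by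
    intro j
    induction j with
    | zero => exact hg
    | succ j ih =>
      rw [Function.iterate_succ_apply', ← hasseDeriv_one']
      exact hasse_mem_PI ih 1
  exact sum_mem fun j _ => mul_mem (C_mem_PI (mul_mem (pow_mem (neg_mem (one_mem _)) _)
    (inv_mem (natCast_mem _ _)))) (mul_mem (h1 j) (pow_mem (sub_mem X_mem_PI (C_mem_PI hc)) _))

theorem adv_ge [IsAlgClosed Ω] (hw : TL v C w ρ) {c : Ω} {g : Polynomial Ω} (hg : g ∈ PI C) {b : ℝ}
    (hb : v.Ge b (g.eval w)) {δ : ℝ} (hδ : 0 ≤ δ) (hc : v.Ge (ρ - δ) (w - c)) :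
    v.Ge (b + ρ - p * δ) ((adv p c g).eval w) := by
  rw [adv, eval_finsetSum]
  refine RVal.Ge.sum _ _ fun j hj => ?_
  have hj' := mem_range.1 hj
  rw [eval_mul, eval_C, eval_mul, eval_pow, eval_sub, eval_X, eval_C]
  have h1 : v.Ge (b - j * ρ) ((derivative^[j] g).eval w) := by
    have h2 := congrFun (factorial_smul_hasseDeriv (R := Ω) (k := j)) g
    rw [LinearMap.smul_apply] at h2
    rw [← h2, ← Nat.cast_smul_eq_nsmul Ω, eval_smul, smul_eq_mul]
    exact ((ge_natCast v _).mul (TWLM.poly_norm hw hg j hb)).mono (by linarith)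
  have h3 : ¬ p ∣ (j + 1).factorial := by
    rw [hp.out.dvd_factorial]
    omega
  have h4 : v.Ge 0 ((-1) ^ j * (((j + 1).factorial : ℕ) : Ω)⁻¹) := by
    obtain ⟨h5, h6⟩ := TWM.val_natCast (v := v) (Ω := Ω) p h3
    have h7 : v.Ge 0 ((((j + 1).factorial : ℕ) : Ω)⁻¹) := by
      intro _
      rw [v.map_inv h5, h6, neg_zero]
    rcases neg_one_pow_eq_or Ω j with h8 | h8
    · rwa [h8, one_mul]
    · rw [h8, neg_one_mul]
      exact h7.neg
  refine (h4.mul (h1.mul (ge_pow hc (j + 1)))).mono ?_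
  have h5 : (j : ℝ) + 1 ≤ p := by
    have : j + 1 ≤ p := by omega
    exact_mod_cast this
  push_cast
  nlinarith [mul_le_mul_of_nonneg_right h5 hδ]

/-- **Antiderivatives**. -/
theorem exists_anti [IsAlgClosed Ω] (p : ℕ) [hp : Fact p.Prime] [CharP Ω p] (hw : TL v C w ρ)
    {g : Polynomial Ω} (hg : g ∈ PI C)
    (hgp : derivative^[p - 1] g = 0) {b : ℝ} (hb : v.Ge b (g.eval w)) {ε : ℝ} (hε : 0 < ε) :
    ∃ G ∈ PI C, derivative G = g ∧ v.Ge (b + ρ - ε) (G.eval w) := by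
  have hp0 : (0 : ℝ) < p := by exact_mod_cast hp.out.pos
  obtain ⟨c, hc, h1⟩ := hw.lim (ε / p) (by positivity)
  refine ⟨adv p c g, adv_mem hc hg, derivative_adv p c hgp, ?_⟩
  refine (adv_ge (p := p) hw hg hb (by positivity) h1).mono (le_of_eq ?_)
  field_simp

omit [Algebra k Ω] in
theorem iterate_derivative_pred (p : ℕ) [hp : Fact p.Prime] [CharP Ω p] (f : Polynomial Ω) :
    derivative^[p - 1] (derivative f) = 0 := by
  rw [← Function.iterate_succ_apply, Nat.succ_eq_add_one, Nat.sub_add_cancel hp.out.one_lt.le]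
  exact iterate_derivative_prime p f

omit hp [CharP Ω p] in
/-- Approximation by an element of the base. -/
theorem exists_lead (hi : Imm v C F) {e : Ω} (he : e ∈ F) {c : ℝ} (hc : v.Ge c e) :
    ∃ e' ∈ C, (e' ≠ 0 → v e' = c) ∧ Gt v c (e - e') := by
  by_cases h0 : Gt v c e
  · exact ⟨0, zero_mem _, fun h => absurd rfl h, by rwa [sub_zero]⟩
  unfold Gt at h0
  push Not at h0
  obtain ⟨h1, h2⟩ := h0
  have h3 : v e = c := le_antisymm h2 (hc h1)
  obtain ⟨e', he', h4⟩ := hi.imm e he h1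
  obtain ⟨-, h5⟩ := Gt.val_eq h1 h4
  exact ⟨e', he', fun _ => by rw [h5, h3], by rwa [h3] at h4⟩

theorem exists_unif {ι : Type*} (S : Finset ι) {P : ι → ℝ → Prop}
    (hm : ∀ i a b, b ≤ a → P i a → P i b) (h : ∀ i ∈ S, ∃ μ : ℝ, 0 < μ ∧ P i μ) :
    ∃ μ : ℝ, 0 < μ ∧ ∀ i ∈ S, P i μ := by
  classical
  induction S using Finset.induction_on with
  | empty => exact ⟨1, one_pos, fun i hi => absurd hi (notMem_empty i)⟩
  | insert i S hi ih =>
    obtain ⟨μ, hμ, h1⟩ := ih fun j hj => h j (mem_insert_of_mem hj)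
    obtain ⟨μ', hμ', h2⟩ := h i (mem_insert_self i S)
    refine ⟨min μ μ', lt_min hμ hμ', fun j hj => ?_⟩
    rcases mem_insert.1 hj with rfl | hj
    · exact hm _ _ _ (min_le_right _ _) h2
    · exact hm _ _ _ (min_le_left _ _) (h1 j hj)

end aux

section Dat

/-- `e θ + ∑ A i θ ^ p ^ i + b`. -/
def ff (p : ℕ) (e : Ω) (A : ℕ → Ω) (N : ℕ) (b θ : Ω) : Ω :=
  e * θ + ∑ i ∈ Icc 1 N, A i * θ ^ p ^ i + b

variable {e e' b b' y a θ : Ω} {A A' : ℕ → Ω} {N : ℕ} {μ δ : ℝ}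

omit [Algebra k Ω] in
theorem ff_add (e : Ω) (A : ℕ → Ω) (N : ℕ) (b θ θ' : Ω) :
    ff p e A N b (θ + θ') = ff p e A N (ff p e A N b θ') θ := by
  unfold ff
  simp only [add_pow_char_pow, mul_add, sum_add_distrib]
  ring

omit hp [CharP Ω p] in
theorem ff_mem (he : e ∈ F) (hA : ∀ i ∈ Icc 1 N, A i ∈ F) (hb : b ∈ F) (hθ : θ ∈ F) :
    ff p e A N b θ ∈ F :=
  add_mem (add_mem (mul_mem he hθ) (sum_mem fun i hi => mul_mem (hA i hi) (pow_mem hθ _))) hb

theorem ff_cmp (hFK : F ≤ K) (he : v.Ge (ν - s + μ) (e - e'))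
    (hA : ∀ i ∈ Icc 1 N, PC p v F (ν - p ^ i * s + μ) (A i - A' i)) (hθ : θ ∈ K)
    (hδ : 0 ≤ δ) (hθs : v.Ge (s - δ) θ) :
    PC p v K (ν + μ - p ^ N * δ) (ff p e A N b θ - ff p e' A' N b θ) := by
  have hp1 : (1 : ℝ) ≤ p := by exact_mod_cast hp.out.one_lt.le
  have e1 : ff p e A N b θ - ff p e' A' N b θ =
      (e - e') * θ + ∑ i ∈ Icc 1 N, (A i - A' i) * θ ^ p ^ i := by
    unfold ff
    simp only [sub_mul, sum_sub_distrib]
    ring
  rw [e1]
  refine PC.add (PC.of_ge ((he.mul hθs).mono ?_)) (PC.sum _ _ fun i hi => ?_)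
  · have h1 : (1 : ℝ) ≤ (p : ℝ) ^ N := one_le_pow₀ hp1
    nlinarith
  · obtain ⟨hi1, hi2⟩ := mem_Icc.1 hi
    obtain ⟨j, rfl⟩ : ∃ j, i = j + 1 := ⟨i - 1, by omega⟩
    obtain ⟨g, hg, h1⟩ := hA _ hi
    have e2 : θ ^ p ^ (j + 1) = (θ ^ p ^ j) ^ p := by rw [← pow_mul, ← pow_succ]
    have h2 : v.Ge (p ^ (j + 1) * (s - δ)) ((θ ^ p ^ j) ^ p) := by
      rw [← e2]
      refine (ge_pow hθs (p ^ (j + 1))).mono ?_
      push_cast
      exact le_rfl
    rw [e2]
    refine (PC.mul_pow (F := K) ⟨g, hFK hg, h1⟩ (pow_mem hθ _) h2).mono ?_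
    have h3 : (p : ℝ) ^ (j + 1) ≤ (p : ℝ) ^ N := pow_le_pow_right₀ hp1 hi2
    nlinarith

/-- The data over `F`. -/
structure Dat (p : ℕ) (v : RVal Ω) (F K : IntermediateField k Ω) (y : Ω) (s ν : ℝ) (a : Ω) (N : ℕ)
    (e : Ω) (A : ℕ → Ω) (b : Ω) : Prop where
  N1 : 1 ≤ N
  ef : e ∈ F
  eg : v.Ge (ν - s) e
  Af : ∀ i ∈ Icc 1 N, A i ∈ F
  Al : ∀ i ∈ Icc 1 N, LP p v F (ν - p ^ i * s) (A i)
  top : ¬ PG p v F (ν - p ^ N * s) (A N)
  bf : b ∈ F
  st : ∀ ε : ℝ, 0 < ε → ∃ δ : ℝ, 0 < δ ∧ ∀ θ ∈ F, v.Ge (s - δ) (y - θ) →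
    PC p v F (ν - ε) (ff p e A N b θ)
  rel : PG p v K ν (a - ff p e A N b y)

theorem Dat.shift (hD : Dat p v F K y s ν a N e A b) {c : Ω} (hc : c ∈ F) :
    Dat p v F K (y - c) s ν a N e A (ff p e A N b c) where
  N1 := hD.N1
  ef := hD.ef
  eg := hD.eg
  Af := hD.Af
  Al := hD.Al
  top := hD.top
  bf := ff_mem hD.ef hD.Af hD.bf hc
  st := fun ε hε => by
    obtain ⟨δ, hδ, h1⟩ := hD.st ε hε
    refine ⟨δ, hδ, fun θ hθ h2 => ?_⟩
    have h3 := h1 (θ + c) (add_mem hθ hc) (by rwa [show y - (θ + c) = y - c - θ by ring])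
    rwa [ff_add] at h3
  rel := by
    have h1 := ff_add (p := p) e A N b (y - c) c
    rw [sub_add_cancel] at h1
    rw [← h1]
    exact hD.rel

theorem PG.add' {c : ℝ} {x y : Ω} (hx : PG p v F c x) (hy : PG p v F c y) :
    PG p v F c (x + y) := by
  obtain ⟨μ, hμ, h1⟩ := PG.exists_pc hx
  obtain ⟨μ', hμ', h2⟩ := PG.exists_pc hy
  exact ((h1.mono (c' := c + min μ μ') (by linarith [min_le_left μ μ'])).add
    (h2.mono (by linarith [min_le_right μ μ']))).pg (by linarith [lt_min hμ hμ'])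

theorem Dat.base (hD : Dat p v F K y s ν a N e A b) (hb : b' ∈ F)
    (hbb : v.Ge ν (b - b')) (hbb' : Gt v ν (b - b')) : Dat p v F K y s ν a N e A b' where
  N1 := hD.N1
  ef := hD.ef
  eg := hD.eg
  Af := hD.Af
  Al := hD.Al
  top := hD.top
  bf := hb
  st := fun ε hε => by
    obtain ⟨δ, hδ, h1⟩ := hD.st ε hε
    refine ⟨δ, hδ, fun θ hθ h2 => ?_⟩
    have e1 : ff p e A N b' θ = ff p e A N b θ - (b - b') := by unfold ff; ring
    rw [e1]
    exact (h1 θ hθ h2).sub (PC.of_ge (hbb.mono (by linarith)))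
  rel := by
    have e1 : a - ff p e A N b' y = (a - ff p e A N b y) + (b - b') := by unfold ff; ring
    rw [e1]
    exact PG.add' hD.rel (PG.of_gt hbb')

theorem Dat.cmp (hFK : F ≤ K) (hyK : y ∈ K) (hD : Dat p v F K y s ν a N e A b) (he'f : e' ∈ F)
    (hA'f : ∀ i ∈ Icc 1 N, A' i ∈ F) (hδ : 0 < δ) (hys : v.Ge (s - δ) y) (hμ : p ^ N * δ < μ)
    (he : v.Ge (ν - s + μ) (e - e'))
    (hA : ∀ i ∈ Icc 1 N, PC p v F (ν - p ^ i * s + μ) (A i - A' i)) :
    Dat p v F K y s ν a N e' A' b := by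
  have hp0 : (0 : ℝ) < p := by exact_mod_cast hp.out.pos
  have hμ0 : 0 < μ := lt_of_le_of_lt (by positivity) hμ
  have hNN : N ∈ Icc 1 N := mem_Icc.2 ⟨hD.N1, le_rfl⟩
  refine ⟨hD.N1, he'f, ?_, hA'f, fun i hi => ?_, fun h => hD.top ?_, hD.bf, fun ε hε => ?_, ?_⟩
  · have e1 : e' = e - (e - e') := by ring
    rw [e1]
    exact hD.eg.sub (he.mono (by linarith))
  · have e1 : A' i = A i - (A i - A' i) := by ring
    rw [e1]
    exact (hD.Al i hi).sub ((hA i hi).mono (c' := ν - p ^ i * s) (by linarith)).lp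
  · have e1 : A N = A' N + (A N - A' N) := by ring
    rw [e1]
    exact PG.add' h ((hA N hNN).pg (by linarith))
  · obtain ⟨δ₁, hδ₁, h1⟩ := hD.st ε hε
    refine ⟨min δ₁ δ, lt_min hδ₁ hδ, fun θ hθ h2 => ?_⟩
    have hθs : v.Ge (s - δ) θ := by
      have e1 : θ = y - (y - θ) := by ring
      rw [e1]
      exact hys.sub (h2.mono (by linarith [min_le_right δ₁ δ]))
    have h3 := ff_cmp (F := F) (K := F) (b := b) le_rfl he hA hθ hδ.le hθs
    have e1 : ff p e' A' N b θ = ff p e A N b θ - (ff p e A N b θ - ff p e' A' N b θ) := by ring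
    rw [e1]
    exact (h1 θ hθ (h2.mono (by linarith [min_le_left δ₁ δ]))).sub (h3.mono (by linarith))
  · have h3 := ff_cmp (b := b) hFK he hA hyK hδ.le hys
    have e1 : a - ff p e' A' N b y = (a - ff p e A N b y) + (ff p e A N b y - ff p e' A' N b y) := by
      ring
    rw [e1]
    exact PG.add' hD.rel (h3.pg (by linarith))

variable [IsAlgClosed Ω]

/-- **(2.1)**: the coefficients are in `C`. -/
theorem Dat.toC (hΩ : CompleteV v) (h : Set0 v C Φ w Z κ ρ σ)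
    (hinf : ∀ n₀ : ℕ, ∃ n : ℕ, n₀ ≤ n ∧ ¬ v.Ge (ρ - n * σ) (PowerSeries.coeff n Z))
    (hy : TL v (cadj v C w) y s) (hFK : cadj v C w ≤ K) (hyK : y ∈ K)
    (hD : Dat p v (cadj v C w) K y s ν a N e A b) :
    ∃ c ∈ cadj v C w, ∃ e' ∈ C, ∃ (A' : ℕ → Ω) (b' : Ω), (∀ i ∈ Icc 1 N, A' i ∈ C) ∧
      (e' ≠ 0 → v e' = ν - s) ∧ Dat p v (cadj v C w) K (y - c) s ν a N e' A' b' := by
  have hp0 : (0 : ℝ) < p := by exact_mod_cast hp.out.pos
  have hQ : (0 : ℝ) < (p : ℝ) ^ N := by positivity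
  have hNN : N ∈ Icc 1 N := mem_Icc.2 ⟨hD.N1, le_rfl⟩
  -- the first shift
  obtain ⟨c₁, hc₁, hyc₁⟩ := hy.lim (1 / (2 * p ^ N)) (by positivity)
  have hy₁ : TL v (cadj v C w) (y - c₁) s := hy.sub_mem hc₁
  have hD₁ := hD.shift hc₁
  have hy₁K : y - c₁ ∈ K := sub_mem hyK (hFK hc₁)
  obtain ⟨B₁, hB₁, hb₁⟩ := h.tl.dense hD₁.bf (ν + 1)
  -- polynomials for the coefficients
  have hP : ∀ i : ℕ, ∃ P ∈ PI C, i ∈ Icc 1 N → v.Ge (ν - p ^ i * s + 1) (A i - P.eval w) := by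
    intro i
    by_cases hi : i ∈ Icc 1 N
    · obtain ⟨P, hP, h1⟩ := h.tl.dense (hD.Af i hi) (ν - p ^ i * s + 1)
      exact ⟨P, hP, fun _ => h1⟩
    · exact ⟨0, zero_mem _, fun h => absurd h hi⟩
  choose P hPm hPA using hP
  have hμ1 : (p : ℝ) ^ N * (1 / (2 * p ^ N)) < 1 := by
    have e1 : (p : ℝ) ^ N * (1 / (2 * p ^ N)) = 1 / 2 := by field_simp
    rw [e1]
    norm_num
  have hD₂ : Dat p v (cadj v C w) K (y - c₁) s ν a N e (fun i => (P i).eval w) (B₁.eval w) := by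
    refine (hD₁.cmp hFK hy₁K (e' := e) (A' := fun i => (P i).eval w) (μ := 1)
      (δ := 1 / (2 * p ^ N)) hD.ef (fun i _ => TWLM.eval_mem_cadj (hPm i)) (by positivity) hyc₁ hμ1
      (by rw [sub_self]; exact RVal.Ge.zero) fun i hi => PC.of_ge (hPA i hi)).base
      (TWLM.eval_mem_cadj hB₁) (hb₁.mono (by linarith)) (Gt.of_ge hb₁ (by linarith))
  -- Lemma M
  have hM : ∀ i ∈ Icc 1 N, Gt v (ν - p ^ i * s - ρ) ((derivative (P i)).eval w) :=
    TWLM.lemM_poly p hΩ h.tl hy₁ hD.ef hD.eg hB₁ (fun i _ => hPm i)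
      (fun i hi ε hε => hD₂.Al i hi ε hε) fun ε hε => by
        obtain ⟨δ, hδ, h1⟩ := hD₂.st ε hε
        exact ⟨δ, hδ, fun θ hθ h2 => h1 _ (TWLM.eval_mem_cadj hθ) h2⟩
  -- the coefficients in `C`
  have hC : ∀ i ∈ Icc 1 N, ∃ μ : ℝ, 0 < μ ∧ ∃ c ∈ C,
      PC p v (cadj v C w) (ν - p ^ i * s + μ) (A i - c) := by
    intro i hi
    obtain ⟨η, hη, h1⟩ := TWLM.exists_ge_of_gt (hM i hi)
    obtain ⟨G, hG, hGd, hGs⟩ := exists_anti p h.tl (g := derivative (P i))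
      (by rw [← hasseDeriv_one']; exact hasse_mem_PI (hPm i) 1) (iterate_derivative_pred p _) h1
      (half_pos hη)
    have hGs' : Gt v (ν - p ^ i * s) (G.eval w) := Gt.of_ge hGs (by linarith)
    have hd : derivative (P i - G) = 0 := by rw [derivative_sub, hGd, sub_self]
    have hd' : hasseDeriv 1 (P i - G) = Polynomial.C 0 := by
      rw [hasseDeriv_one', hd, Polynomial.C_0]
    have hlp : LP p v (cadj v C w) (ν - p ^ i * s) ((P i - G).eval w) := by
      rw [eval_sub]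
      exact (hD₂.Al i hi).sub (PC.of_ge hGs'.ge).lp
    obtain ⟨c, hc, h2⟩ := h.top hinf (sub_mem (hPm i) hG)
      (fun l _ hl => hasse_zero_of_derivative p hd hl) hlp hd'
    have h3 : PG p v (cadj v C w) (ν - p ^ i * s) (A i - c) := by
      have e1 : A i - c = (A i - (P i).eval w) + G.eval w + ((P i - G).eval w - 0 * w - c) := by
        rw [eval_sub]
        ring
      rw [e1]
      exact PG.add' (PG.add' (PG.of_gt (Gt.of_ge (hPA i hi) (by linarith))) (PG.of_gt hGs')) h2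
    obtain ⟨μ, hμ, h4⟩ := PG.exists_pc h3
    exact ⟨μ, hμ, c, hc, h4⟩
  -- the linear coefficient
  obtain ⟨e', he', he'v, hee'⟩ := exists_lead h.tl.imm hD.ef hD.eg
  obtain ⟨μ₁, hμ₁, h1⟩ := TWLM.exists_ge_of_gt hee'
  obtain ⟨μ₂, hμ₂, h2⟩ := exists_unif (Icc 1 N)
    (P := fun i μ => ∃ c ∈ C, PC p v (cadj v C w) (ν - p ^ i * s + μ) (A i - c))
    (fun i a b hab ⟨c, hc, h3⟩ => ⟨c, hc, h3.mono (by linarith)⟩) hC
  choose! A' hA'C hA' using h2
  set μ := min μ₁ μ₂ with hμ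
  have hμ0 : 0 < μ := lt_min hμ₁ hμ₂
  -- the second shift
  obtain ⟨c₂, hc₂, hyc₂⟩ := hy.lim (μ / (2 * p ^ N)) (by positivity)
  have hμ2 : (p : ℝ) ^ N * (μ / (2 * p ^ N)) < μ := by
    have e1 : (p : ℝ) ^ N * (μ / (2 * p ^ N)) = μ / 2 := by field_simp
    rw [e1]
    linarith
  refine ⟨c₂, hc₂, e', he', A', _, hA'C, he'v, (hD.shift hc₂).cmp hFK (sub_mem hyK (hFK hc₂))
    (μ := μ) (h.tl.imm.le he') (fun i hi => h.tl.imm.le (hA'C i hi)) (by positivity) hyc₂ hμ2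
    (h1.mono (by linarith [min_le_left μ₁ μ₂])) fun i hi => (hA' i hi).mono
      (by linarith [min_le_right μ₁ μ₂])⟩

omit [Algebra k Ω] [IsAlgClosed Ω] in
theorem derivative_pow_q (p : ℕ) [hp : Fact p.Prime] [CharP Ω p] (f : Polynomial Ω) {i : ℕ}
    (hi : 1 ≤ i) : derivative (f ^ p ^ i) = 0 := by
  rw [derivative_pow, (CharP.cast_eq_zero_iff Ω p _).2 (dvd_pow_self p (by omega)), Polynomial.C_0,
    zero_mul, zero_mul]

omit [Algebra k Ω] [IsAlgClosed Ω] in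
theorem derivative_fth (p : ℕ) [hp : Fact p.Prime] [CharP Ω p] (e : Ω) (A : ℕ → Ω) (N : ℕ)
    (B θ : Polynomial Ω) : derivative (fth p e A N B θ) = Polynomial.C e * derivative θ +
      derivative B := by
  have h1 : derivative (∑ i ∈ Icc 1 N, Polynomial.C (A i) * θ ^ p ^ i) = 0 := by
    rw [derivative_sum]
    exact sum_eq_zero fun i hi => by
      rw [derivative_C_mul, derivative_pow_q p θ (mem_Icc.1 hi).1, mul_zero]
  rw [fth, derivative_add, derivative_add, h1, add_zero, derivative_C_mul]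

omit hp [CharP Ω p] [IsAlgClosed Ω] [Algebra k Ω] in
theorem fth_eval (e : Ω) (A : ℕ → Ω) (N : ℕ) (B θ : Polynomial Ω) :
    (fth p e A N B θ).eval w = ff p e A N (B.eval w) (θ.eval w) := by
  rw [fth, ff, eval_add, eval_add, eval_mul, eval_C, eval_finsetSum]
  simp only [eval_mul, eval_C, eval_pow]

omit hp [CharP Ω p] [IsAlgClosed Ω] in
theorem nf_fth_mem (he : e ∈ C) (hA : ∀ i ∈ Icc 1 N, A i ∈ C) {B θ : Polynomial Ω} (hB : B ∈ PI C)
    (hθ : θ ∈ PI C) : fth p e A N B θ ∈ PI C :=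
  add_mem (add_mem (mul_mem (C_mem_PI he) hθ)
    (sum_mem fun i hi => mul_mem (C_mem_PI (hA i hi)) (pow_mem hθ _))) hB

/-- **(2.2)**: the base term is in class X. -/
theorem Dat.toX (hw : TL v C w ρ) (hy : TL v (cadj v C w) y s)
    (hD : Dat p v (cadj v C w) K y s ν a N e A b) (heC : e ∈ C) (hev : e ≠ 0 → v e = ν - s)
    (hAC : ∀ i ∈ Icc 1 N, A i ∈ C) :
    ∃ c ∈ cadj v C w, ∃ e₂ ∈ C, ∃ B ∈ PI C, derivative B = Polynomial.C e₂ ∧
      (∀ l, 2 ≤ l → ¬ p ∣ l → hasseDeriv l B = 0) ∧ (e = 0 ∨ e₂ = 0) ∧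
      (e₂ ≠ 0 → v e₂ = ν - ρ) ∧ Dat p v (cadj v C w) K (y - c) s ν a N e A (B.eval w) := by
  by_cases he : e = 0
  · obtain ⟨B₁, hB₁, hb₁⟩ := hw.dense hD.bf (ν + 1)
    have hD₁ := hD.base (TWLM.eval_mem_cadj hB₁) (hb₁.mono (by linarith))
      (Gt.of_ge hb₁ (by linarith))
    -- the derivative
    have h1 : v.Ge (ν - ρ) ((derivative B₁).eval w) := by
      refine ge_of_eps fun ε hε => ?_
      obtain ⟨δ, hδ, h2⟩ := hD₁.st ε hε
      obtain ⟨x, hx, hyx⟩ := hy.lim δ hδ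
      obtain ⟨θ, hθ, hxθ⟩ := hw.dense hx (s - δ)
      have h3 := h2 (θ.eval w) (TWLM.eval_mem_cadj hθ) (by
        rw [show y - θ.eval w = (y - x) + (x - θ.eval w) by ring]
        exact hyx.add hxθ)
      rw [← fth_eval] at h3
      have h4 := PC.jet_gt hw (nf_fth_mem heC hAC hB₁ hθ) h3 (j := 1)
        (fun h5 => hp.out.one_lt.not_ge (Nat.le_of_dvd one_pos h5))
      rw [hasseDeriv_one', derivative_fth, he, Polynomial.C_0, zero_mul, zero_add] at h4
      exact h4.ge.mono (by push_cast; linarith)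
    obtain ⟨e₂, he₂, he₂v, h2⟩ := exists_lead hw.imm
      (TWLM.eval_mem_cadj (w := w) (by rw [← hasseDeriv_one']; exact hasse_mem_PI hB₁ 1)) h1
    obtain ⟨η, hη, h3⟩ := TWLM.exists_ge_of_gt h2
    have hg : derivative B₁ - Polynomial.C e₂ = derivative (B₁ - Polynomial.C e₂ * X) := by
      rw [derivative_sub, derivative_C_mul, derivative_X, mul_one]
    obtain ⟨G, hG, hGd, hGs⟩ := exists_anti p hw (g := derivative B₁ - Polynomial.C e₂)
      (sub_mem (by rw [← hasseDeriv_one']; exact hasse_mem_PI hB₁ 1) (C_mem_PI he₂))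
      (by rw [hg]; exact iterate_derivative_pred p _) (b := ν - ρ + η)
      (by rwa [eval_sub, eval_C]) (half_pos hη)
    have hBd : derivative (B₁ - G) = Polynomial.C e₂ := by
      rw [derivative_sub, hGd]
      ring
    have hGs' : Gt v ν (G.eval w) := Gt.of_ge hGs (by linarith)
    refine ⟨0, zero_mem _, e₂, he₂, B₁ - G, sub_mem hB₁ hG, hBd, fun l hl hpl => ?_, Or.inl he, he₂v,
      ?_⟩
    · have h4 : derivative (B₁ - G - Polynomial.C e₂ * X) = 0 := by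
        rw [derivative_sub, hBd, derivative_C_mul, derivative_X, mul_one, sub_self]
      have h5 := hasse_zero_of_derivative p h4 hpl
      rw [map_sub, sub_eq_zero] at h5
      rw [h5]
      refine hasseDeriv_eq_zero_of_lt_natDegree _ _ ?_
      exact ((natDegree_C_mul_le e₂ X).trans natDegree_X_le).trans_lt (by omega)
    · rw [sub_zero]
      refine hD₁.base (TWLM.eval_mem_cadj (sub_mem hB₁ hG)) ?_ ?_
      · rw [eval_sub, sub_sub_cancel]
        exact hGs'.ge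
      · rw [eval_sub, sub_sub_cancel]
        exact hGs'
  · have hve := hev he
    obtain ⟨β, hβ, h1⟩ := hw.dense (neg_mem (div_mem hD.bf hD.ef)) (s + 1)
    have hc : β.eval w ∈ cadj v C w := TWLM.eval_mem_cadj hβ
    have hB : (∑ i ∈ Icc 1 N, Polynomial.C (A i) * β ^ p ^ i) ∈ PI C :=
      sum_mem fun i hi => mul_mem (C_mem_PI (hAC i hi)) (pow_mem hβ _)
    have hBd : derivative (∑ i ∈ Icc 1 N, Polynomial.C (A i) * β ^ p ^ i) = 0 := by
      rw [derivative_sum]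
      exact sum_eq_zero fun i hi => by
        rw [derivative_C_mul, derivative_pow_q p β (mem_Icc.1 hi).1, mul_zero]
    have h2 : v.Ge (ν + 1) (ff p e A N b (β.eval w) -
        (∑ i ∈ Icc 1 N, Polynomial.C (A i) * β ^ p ^ i).eval w) := by
      have e1 : ff p e A N b (β.eval w) -
          (∑ i ∈ Icc 1 N, Polynomial.C (A i) * β ^ p ^ i).eval w =
          -(e * (-(b / e) - β.eval w)) := by
        rw [ff, eval_finsetSum]
        simp only [eval_mul, eval_C, eval_pow]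
        field_simp
        ring
      rw [e1]
      refine (((RVal.ge_self (v := v) e).mul h1).mono ?_).neg
      rw [hve]
      linarith
    refine ⟨β.eval w, hc, 0, zero_mem _, _, hB, by rw [hBd, Polynomial.C_0],
      fun l _ hpl => hasse_zero_of_derivative p hBd hpl, Or.inr rfl, fun h => absurd rfl h,
      (hD.shift hc).base (TWLM.eval_mem_cadj hB) (h2.mono (by linarith))
        (Gt.of_ge h2 (by linarith))⟩

/-- Approximants with derivative `0`. -/
theorem Dat.fam1 (hw : TL v C w ρ) (hy : TL v (cadj v C w) y s) {B : Polynomial Ω}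
    (hB : B ∈ PI C) (hD : Dat p v (cadj v C w) K y s ν a N e A (B.eval w)) (heC : e ∈ C)
    (hev : e ≠ 0 → v e = ν - s) (hAC : ∀ i ∈ Icc 1 N, A i ∈ C) (hBd : e ≠ 0 → derivative B = 0)
    {ε : ℝ} (hε : 0 < ε) :
    ∃ θ ∈ PI C, (e ≠ 0 → derivative θ = 0) ∧ v.Ge (s - ε) (y - θ.eval w) := by
  obtain ⟨δ, hδ, h1⟩ := hD.st (ε / 2) (half_pos hε)
  obtain ⟨x, hx, hyx⟩ := hy.lim (min δ ε) (lt_min hδ hε)
  obtain ⟨θ, hθ, hxθ⟩ := hw.dense hx (s - min δ ε)
  have hyθ : v.Ge (s - min δ ε) (y - θ.eval w) := by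
    rw [show y - θ.eval w = (y - x) + (x - θ.eval w) by ring]
    exact hyx.add hxθ
  by_cases he : e = 0
  · exact ⟨θ, hθ, fun h => absurd he h, hyθ.mono (by linarith [min_le_right δ ε])⟩
  have h2 := h1 _ (TWLM.eval_mem_cadj hθ) (hyθ.mono (by linarith [min_le_left δ ε]))
  rw [← fth_eval] at h2
  have h3 := PC.jet_gt hw (nf_fth_mem heC hAC hB hθ) h2 (j := 1)
    (fun h5 => hp.out.one_lt.not_ge (Nat.le_of_dvd one_pos h5))
  rw [hasseDeriv_one', derivative_fth, hBd he, add_zero, eval_mul, eval_C] at h3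
  have h4 : v.Ge (s - ρ - ε / 2) ((derivative θ).eval w) := by
    intro h0
    have h5 := h3 (mul_ne_zero he h0)
    rw [v.map_mul he h0, hev he] at h5
    push_cast at h5
    linarith
  obtain ⟨G, hG, hGd, hGs⟩ := exists_anti p hw (g := derivative θ)
    (by rw [← hasseDeriv_one']; exact hasse_mem_PI hθ 1) (iterate_derivative_pred p _) h4
    (half_pos hε)
  refine ⟨θ - G, sub_mem hθ hG, fun _ => by rw [derivative_sub, hGd, sub_self], ?_⟩
  rw [eval_sub, show y - (θ.eval w - G.eval w) = (y - θ.eval w) + G.eval w by ring]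
  exact (hyθ.mono (by linarith [min_le_right δ ε])).add (hGs.mono (by linarith))

omit [Algebra k Ω] [IsAlgClosed Ω] in
theorem hasse_pow_q (p : ℕ) [hp : Fact p.Prime] [CharP Ω p] (f : Polynomial Ω) (i m : ℕ) (w : Ω) :
    (hasseDeriv (p ^ i * m) (f ^ p ^ i)).eval w = ((hasseDeriv m f).eval w) ^ p ^ i := by
  induction i with
  | zero => rw [pow_zero, one_mul, pow_one, pow_one]
  | succ i ih =>
    have e1 : f ^ p ^ (i + 1) = (f ^ p ^ i) ^ p := by rw [← pow_mul, ← pow_succ]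
    have e2 : p ^ (i + 1) * m = p * (p ^ i * m) := by ring
    rw [e1, e2, hasse_pow, if_pos (dvd_mul_right _ _), Nat.mul_div_cancel_left _ hp.out.pos, ih,
      ← pow_mul, ← pow_succ]

omit [Algebra k Ω] [IsAlgClosed Ω] in
theorem nf_hasse_C_mul (c : Ω) (f : Polynomial Ω) (n : ℕ) (w : Ω) :
    (hasseDeriv n (Polynomial.C c * f)).eval w = c * (hasseDeriv n f).eval w := by
  rw [← smul_eq_C_mul, map_smul, eval_smul, smul_eq_mul]

omit [Algebra k Ω] [IsAlgClosed Ω] in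
theorem hasse_fth (p : ℕ) [hp : Fact p.Prime] [CharP Ω p] (e : Ω) (A : ℕ → Ω) (N : ℕ)
    (B θ : Polynomial Ω) (j : ℕ) (w : Ω) :
    (hasseDeriv (p ^ N * j) (fth p e A N B θ)).eval w =
      e * (hasseDeriv (p ^ N * j) θ).eval w +
      ∑ i ∈ Icc 1 N, A i * ((hasseDeriv (p ^ (N - i) * j) θ).eval w) ^ p ^ i +
      (hasseDeriv (p ^ N * j) B).eval w := by
  rw [fth, map_add, map_add, map_sum, eval_add, eval_add, eval_finsetSum, nf_hasse_C_mul]
  congr 2
  refine sum_congr rfl fun i hi => ?_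
  rw [nf_hasse_C_mul, ← hasse_pow_q p θ i (p ^ (N - i) * j) w, ← mul_assoc, ← pow_add,
    Nat.add_sub_cancel' (mem_Icc.1 hi).2]

/-- **(2.4)**: the jets of the approximants of order `> deg B / p ^ N` are small. -/
theorem jets_small (hw : TL v C w ρ) (hN : 1 ≤ N) (heC : e ∈ C) (heg : v.Ge (ν - s) e)
    (hAC : ∀ i ∈ Icc 1 N, A i ∈ C) (hAl : ∀ i ∈ Icc 1 N, LP p v (cadj v C w) (ν - p ^ i * s) (A i))
    (htop : ¬ PG p v (cadj v C w) (ν - p ^ N * s) (A N)) {B θ : Polynomial Ω} (hB : B ∈ PI C)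
    (hθ : θ ∈ PI C) {eps : ℝ} (heps : 0 < eps)
    (hlp : LP p v (cadj v C w) (ν - eps) ((fth p e A N B θ).eval w)) {i : ℕ}
    (hi : B.natDegree / p ^ N < i) :
    v.Ge (s - i * ρ - eps / p ^ N) ((hasseDeriv i θ).eval w) := by
  obtain ⟨c₀, hc₀⟩ := TWLM.exists_ge v (θ.eval w)
  have h1 := chain (p := p) (v := v) (F := cadj v C w) (e := e) (N := N) (A := A) (ν := ν) (s := s)
    (ρ := ρ) (σ := 0) hN hAl htop heg (S := {x | B.natDegree / p ^ N < x.1 ∧ x.2 = 0})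
    (fun x hx a => ⟨hx.1.trans_le (Nat.le_mul_of_pos_left _ (Nat.pow_pos hp.out.pos)), by
      rw [hx.2, mul_zero]⟩) (B := s - c₀) (eps := eps) (h := fun _ => 0) (fun _ => le_rfl)
    antitone_const (r := fun i _ => (hasseDeriv i θ).eval w)
    (fun i _ => TWLM.eval_mem_cadj (hasse_mem_PI hθ i)) (fun x _ => by
      refine (TWLM.poly_norm hw hθ x.1 hc₀).mono ?_
      rw [mul_zero]
      linarith) (fun x hx => by
      have h2 := LP.hjet hw (nf_fth_mem heC hAC hB hθ) hlp (p ^ N * x.1)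
      rw [hasse_fth, hasseDeriv_eq_zero_of_lt_natDegree B, eval_zero, add_zero] at h2
      · refine h2.mono ?_
        push_cast
        linarith
      · have h3 := hx.1
        rw [Nat.div_lt_iff_lt_mul (Nat.pow_pos hp.out.pos)] at h3
        rwa [mul_comm]) heps (i, 0) ⟨hi, rfl⟩
  refine h1.mono (le_of_eq ?_)
  push_cast
  ring

/-- The truncation at a deep point. -/
theorem exists_trunc (p : ℕ) [hp : Fact p.Prime] [CharP Ω p] (hw : TL v C w ρ) {θ : Polynomial Ω} (hθ : θ ∈ PI C) (J : ℕ) {η ε : ℝ}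
    (hηε : η < ε)
    (hj : ∀ i : ℕ, J < i → v.Ge (s - i * ρ - η) ((hasseDeriv i θ).eval w)) :
    ∃ θ' ∈ PI C, θ'.natDegree ≤ J ∧ (derivative θ = 0 → derivative θ' = 0) ∧
      v.Ge (s - ε) (θ.eval w - θ'.eval w) := by
  classical
  set D := θ.natDegree with hD
  obtain ⟨δ, hδ, hdeep⟩ := TL.deep hw ((range (D + 1)).image fun l => hasseDeriv l θ) (by
    intro g hg
    obtain ⟨l, -, rfl⟩ := mem_image.1 hg
    exact hasse_mem_PI hθ l)
  set δ' := min δ ((ε - η) / (D + 1)) with hδ'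
  have hD1 : (0 : ℝ) < (D : ℝ) + 1 := by positivity
  have hδ'0 : 0 < δ' := lt_min hδ (div_pos (by linarith) hD1)
  obtain ⟨c, hc, hwc⟩ := hw.lim δ' hδ'0
  set f : ℕ → Ω := fun j => (hasseDeriv j θ).eval c * (w - c) ^ j with hf
  have hz : ∀ j : ℕ, D < j → hasseDeriv j θ = 0 := fun j hj =>
    hasseDeriv_eq_zero_of_lt_natDegree θ j hj
  have hθ' : ∀ j : ℕ, (hasseDeriv j θ).eval c ∈ C := fun j => eval_mem (hasse_mem_PI hθ j) hc
  refine ⟨∑ j ∈ range (J + 1), Polynomial.C ((hasseDeriv j θ).eval c) * (X - Polynomial.C c) ^ j,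
    sum_mem fun j _ => mul_mem (C_mem_PI (hθ' j)) (pow_mem (sub_mem X_mem_PI (C_mem_PI hc)) _),
    ?_, fun hd => ?_, ?_⟩
  · refine natDegree_sum_le_of_forall_le _ _ fun j hj => ?_
    refine (natDegree_C_mul_le _ _).trans ((natDegree_pow_le).trans ?_)
    rw [natDegree_X_sub_C, mul_one]
    have := mem_range.1 hj
    omega
  · rw [derivative_sum]
    refine sum_eq_zero fun j _ => ?_
    rw [derivative_C_mul, derivative_X_sub_C_pow]
    by_cases hpj : p ∣ j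
    · rw [(CharP.cast_eq_zero_iff Ω p _).2 hpj, Polynomial.C_0, zero_mul, mul_zero]
    · rw [hasse_zero_of_derivative p hd hpj, eval_zero, Polynomial.C_0, zero_mul]
  · have e1 : θ.eval w = ∑ j ∈ range (max D J + 1), f j := by
      have h1 : (taylor c θ).eval (w - c) = θ.eval w := by
        rw [taylor_eval, sub_add_cancel]
      rw [← h1, eval_eq_sum_range' (n := max D J + 1) (by
        rw [natDegree_taylor]
        exact Nat.lt_succ_of_le (le_max_left _ _))]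
      exact sum_congr rfl fun j _ => by rw [taylor_coeff]
    have e2 : (∑ j ∈ range (J + 1), Polynomial.C ((hasseDeriv j θ).eval c) *
        (X - Polynomial.C c) ^ j).eval w = ∑ j ∈ range (J + 1), f j := by
      rw [eval_finsetSum]
      exact sum_congr rfl fun j _ => by rw [eval_mul, eval_C, eval_pow, eval_sub, eval_X, eval_C]
    have e3 : ∑ j ∈ range (max D J + 1), f j - ∑ j ∈ range (J + 1), f j =
        ∑ j ∈ Ico (J + 1) (max D J + 1), f j := by
      rw [Finset.sum_Ico_eq_sub _ (Nat.succ_le_succ (le_max_right _ _))]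
    rw [e1, e2, e3]
    refine RVal.Ge.sum _ _ fun j hj' => ?_
    obtain ⟨hj1, hj2⟩ := mem_Ico.1 hj'
    by_cases hjD : D < j
    · rw [hf]
      simp only [hz j hjD, eval_zero, zero_mul]
      exact RVal.Ge.zero
    · have h1 := ((hdeep c (hwc.mono (by linarith [min_le_left δ ((ε - η) / (D + 1))])) _
        (mem_image.2 ⟨j, mem_range.2 (by omega), rfl⟩)).1 _).1 (hj j (by omega))
      refine (h1.mul (ge_pow hwc j)).mono ?_
      have h2 : (j : ℝ) * δ' ≤ ε - η := by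
        have h3 : (j : ℝ) ≤ D + 1 := by
          have : j ≤ D + 1 := by omega
          exact_mod_cast this
        have h4 : δ' ≤ (ε - η) / (D + 1) := min_le_right _ _
        calc (j : ℝ) * δ' ≤ (D + 1) * ((ε - η) / (D + 1)) :=
              mul_le_mul h3 h4 hδ'0.le hD1.le
          _ = ε - η := by field_simp
      linarith

/-- The normal form, from the data over `C`. -/
theorem Dat.nrm (hw : TL v C w ρ) (hy : TL v (cadj v C w) y s) {B : Polynomial Ω} (hB : B ∈ PI C)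
    (hD : Dat p v (cadj v C w) K y s ν a N e A (B.eval w)) (heC : e ∈ C)
    (hev : e ≠ 0 → v e = ν - s) (hAC : ∀ i ∈ Icc 1 N, A i ∈ C) {e₂ : Ω}
    (hBd : derivative B = Polynomial.C e₂) (hee : e = 0 ∨ e₂ = 0) (he₂ : e₂ ≠ 0 → v e₂ = ν - ρ)
    (hBX : ∀ l, 2 ≤ l → ¬ p ∣ l → hasseDeriv l B = 0) :
    Nrm p v C w y ρ s ν e A N B (B.natDegree / p ^ N) 0 where
  N1 := hD.N1
  eC := heC
  ege := hD.eg
  AC := hAC
  Alp := hD.Al
  top := hD.top
  mem := zero_mem _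
  low := fun j hj => by simp at hj
  bin := fun j hj => by simp at hj
  pdv := fun _ j hj => by simp at hj
  siz := fun j => by
    rw [coeff_zero]
    exact RVal.Ge.zero
  BC := hB
  BX := hBX
  B1 := by
    rw [hasseDeriv_one', hBd, eval_C]
    exact fun h0 => (he₂ h0).ge
  eB := by
    rcases hee with h | h
    · exact Or.inl h
    · right
      rw [hasseDeriv_one', hBd, h, Polynomial.C_0]
  fam := fun ε hε => by
    have hp0 : (0 : ℝ) < p := by exact_mod_cast hp.out.pos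
    have hp1 : (1 : ℝ) ≤ p := by exact_mod_cast hp.out.one_lt.le
    have hQ : (1 : ℝ) ≤ (p : ℝ) ^ N := one_le_pow₀ hp1
    have hBd' : e ≠ 0 → derivative B = 0 := fun he => by
      rw [hBd, hee.resolve_left he, Polynomial.C_0]
    -- the final nearness
    obtain ⟨δ, hδ, h1⟩ := hD.st (ε / 2) (half_pos hε)
    set t := min δ ε with ht
    have ht0 : 0 < t := lt_min hδ hε
    obtain ⟨δ₂, hδ₂, h2⟩ := hD.st (t / 4) (by linarith)
    obtain ⟨θ, hθ, hθd, hyθ⟩ := hD.fam1 hw hy hB heC hev hAC hBd' (lt_min hδ₂ ht0)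
    have h3 := h2 _ (TWLM.eval_mem_cadj hθ) (hyθ.mono (by linarith [min_le_left δ₂ t]))
    rw [← fth_eval] at h3
    obtain ⟨θ', hθ', hdeg, hθ'd, hθθ'⟩ := exists_trunc p hw hθ (B.natDegree / p ^ N)
      (s := s) (η := t / 2) (ε := t) (by linarith) fun i hi => by
        refine (jets_small hw hD.N1 heC hD.eg hAC hD.Al hD.top hB hθ (eps := t / 2) (by linarith)
          (lp_mono h3.lp (by linarith)) hi).mono ?_
        have h4 : t / 2 / (p : ℝ) ^ N ≤ t / 2 := div_le_self (by linarith) hQ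
        linarith
    have hyθ' : v.Ge (s - t) (y - θ'.eval w) := by
      rw [show y - θ'.eval w = (y - θ.eval w) + (θ.eval w - θ'.eval w) by ring]
      exact (hyθ.mono (by linarith [min_le_right δ₂ t])).add hθθ'
    refine ⟨θ', hθ', fun i hi => ?_, fun he l hl => hasse_zero_of_derivative p (hθ'd (hθd he)) hl,
      hyθ'.mono (by linarith [min_le_right δ ε]), ?_⟩
    · rw [coeff_zero]
      exact coeff_eq_zero_of_natDegree_lt (hdeg.trans_lt hi)
    · rw [fth_eval]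
      exact (h1 _ (TWLM.eval_mem_cadj hθ') (hyθ'.mono (by linarith [min_le_left δ ε]))).lp.mono
        (by linarith)

end Dat

/-- **R3**: (2.1) + (2.2) + (2.4) + (2.5), start with `R = 0`. -/
theorem exists_nrm [IsAlgClosed Ω] (hΩ : CompleteV v) (h : Set0 v C Φ w Z κ ρ σ)
    (hinf : ∀ n₀ : ℕ, ∃ n : ℕ, n₀ ≤ n ∧ ¬ v.Ge (ρ - n * σ) (PowerSeries.coeff n Z))
    {y a : Ω} (hy : TL v (cadj v C w) y s)
    {e₀ a₀ : Ω} {A₀ : ℕ → Ω} {N : ℕ} (hN : 1 ≤ N) (he₀ : e₀ ∈ cadj v C w)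
    (hev : v.Ge (ν - s) e₀) (ha₀ : a₀ ∈ cadj v C w)
    (hA₀ : ∀ i ∈ Icc 1 N, A₀ i ∈ cadj v C w)
    (hlo : ∀ i ∈ Icc 1 N, LP p v (cadj v C w) (ν - p ^ i * s) (A₀ i))
    (htop : ¬ PG p v (cadj v C w) (ν - p ^ N * s) (A₀ N))
    (hst : ∀ ε : ℝ, 0 < ε → ∃ δ : ℝ, 0 < δ ∧ ∀ θ ∈ cadj v C w, v.Ge (s - δ) (y - θ) →
      ∃ g ∈ cadj v C w, v.Ge (ν - ε)
        (e₀ * θ + ∑ i ∈ Icc 1 N, A₀ i * θ ^ p ^ i + a₀ - g ^ p))
    (ha : PG p v (cadj v (cadj v C w) y) ν
      (a - (e₀ * y + ∑ i ∈ Icc 1 N, A₀ i * y ^ p ^ i + a₀))) :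
    ∃ (c e e₂ : Ω) (A : ℕ → Ω) (B : Polynomial Ω) (J : ℕ), c ∈ cadj v C w ∧
      Nrm p v C w (y - c) ρ s ν e A N B J 0 ∧
      (e ≠ 0 → v e = ν - s) ∧ e₂ ∈ C ∧ hasseDeriv 1 B = Polynomial.C e₂ ∧
      (e₂ ≠ 0 → v e₂ = ν - ρ) ∧
      PG p v (cadj v (cadj v C w) y) ν
        (a - (e * (y - c) + ∑ i ∈ Icc 1 N, A i * (y - c) ^ p ^ i + B.eval w)) := by
  have hyK : y ∈ cadj v (cadj v C w) y := self_mem_cadj _ _ _
  have hFK : cadj v C w ≤ cadj v (cadj v C w) y := le_cadj _ _ _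
  have hD : Dat p v (cadj v C w) (cadj v (cadj v C w) y) y s ν a N e₀ A₀ a₀ :=
    ⟨hN, he₀, hev, hA₀, hlo, htop, ha₀, hst, ha⟩
  obtain ⟨c₁, hc₁, e, heC, A, b, hAC, hev', hD₁⟩ := hD.toC hΩ h hinf hy hFK hyK
  have hy₁ := hy.sub_mem hc₁
  obtain ⟨c₂, hc₂, e₂, he₂, B, hB, hBd, hBX, hee, he₂v, hD₂⟩ := hD₁.toX h.tl hy₁ heC hev' hAC
  have hy₂ := hy₁.sub_mem hc₂
  have e1 : y - (c₁ + c₂) = y - c₁ - c₂ := by ring
  refine ⟨c₁ + c₂, e, e₂, A, B, B.natDegree / p ^ N, add_mem hc₁ hc₂, ?_, hev', he₂,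
    by rw [hasseDeriv_one', hBd], he₂v, ?_⟩
  · rw [e1]
    exact hD₂.nrm h.tl hy₂ hB heC hev' hAC hBd hee he₂v hBX
  · rw [e1]
    exact hD₂.rel

end Pool.Agent.TWN1
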