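import Pool.Agent.Lib.TWN1.GabA

/-!
# TANK W, Theorem G, part B: column reduction

* `AF.step`: if the tops are dependent, `z₂ + s z₁ ^ p ^ (S - T)` makes the top of the first column
  null;
* `AF.red`: column reduction; `Gt` linear coefficients stay `Gt`.
-/

set_option autoImplicit false

open Polynomial Finset

namespace Pool.Agent.TWN1

open Pool.Agent.H15JM (RVal)
open Pool.Agent.TWM
open Pool.Agent.TWII (PG LP)

universe u

variable {k Ω : Type u} [Field k] [Field Ω] [Algebra k Ω] {v : RVal Ω}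
  {C K : IntermediateField k Ω} {p : ℕ} [hp : Fact p.Prime] [CharP Ω p]
  {ν : ℝ} {b b₀ z₁ z₂ : Ω} {r₁ r₂ : ℝ} {x y : ℕ → Ω} {S T : ℕ}

/-- The new column. -/
noncomputable def colS (p : ℕ) (x y : ℕ → Ω) (s : Ω) (d : ℕ) : ℕ → Ω := fun j =>
  x j - if d ≤ j then y (j - d) * s ^ p ^ (j - d) else 0

theorem col_step (hTS : T ≤ S) (s : Ω) : col p x z₁ S + col p y z₂ T =
    col p (colS p x y s (S - T)) z₁ S + col p y (z₂ + s * z₁ ^ p ^ (S - T)) T := by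
  obtain ⟨d, rfl⟩ := Nat.exists_eq_add_of_le hTS
  rw [Nat.add_sub_cancel_left]
  have h1 : col p y (z₂ + s * z₁ ^ p ^ d) T =
      col p y z₂ T + ∑ j ∈ range (T + 1), y j * s ^ p ^ j * z₁ ^ p ^ (d + j) := by
    rw [col, col, ← sum_add_distrib]
    refine sum_congr rfl fun j _ => ?_
    rw [add_pow_char_pow, _root_.mul_pow, ← pow_mul, ← pow_add]
    ring
  have h2 : col p (colS p x y s d) z₁ (T + d) =
      col p x z₁ (T + d) - ∑ j ∈ range (T + 1), y j * s ^ p ^ j * z₁ ^ p ^ (d + j) := by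
    rw [col, col, eq_sub_iff_add_eq]
    have e : T + d + 1 = d + (T + 1) := by ring
    have e2 : ∑ j ∈ range (T + 1), y j * s ^ p ^ j * z₁ ^ p ^ (d + j) =
        ∑ j ∈ range (T + d + 1), (if d ≤ j then y (j - d) * s ^ p ^ (j - d) else 0) *
          z₁ ^ p ^ j := by
      rw [e, sum_range_add _ d (T + 1)]
      have e3 : ∑ j ∈ range d, (if d ≤ j then y (j - d) * s ^ p ^ (j - d) else 0) * z₁ ^ p ^ j =
          0 := by
        refine sum_eq_zero fun j hj => ?_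
        rw [if_neg (not_le.2 (mem_range.1 hj)), zero_mul]
      rw [e3, zero_add]
      refine sum_congr rfl fun j _ => ?_
      rw [if_pos (Nat.le_add_right d j), Nat.add_sub_cancel_left]
    rw [e2, ← sum_add_distrib]
    refine sum_congr rfl fun j _ => ?_
    rw [colS]
    ring
  rw [h1, h2]
  ring

theorem lim_step (h1 : Lim v C r₁ z₁) (h2 : Lim v C r₂ z₂) {s : Ω} (hs : s ∈ C) {d : ℕ}
    (hv : v.Ge (r₂ - p ^ d * r₁) s) : Lim v C r₂ (z₂ + s * z₁ ^ p ^ d) := by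
  intro ε hε
  have hpd : (0 : ℝ) < (p : ℝ) ^ d := by
    have := hp.out.pos
    positivity
  obtain ⟨c₁, hc₁, h3⟩ := h1 (ε / p ^ d) (by positivity)
  obtain ⟨c₂, hc₂, h4⟩ := h2 ε hε
  refine ⟨c₂ + s * c₁ ^ p ^ d, add_mem hc₂ (mul_mem hs (pow_mem hc₁ _)), ?_⟩
  have e : z₂ + s * z₁ ^ p ^ d - (c₂ + s * c₁ ^ p ^ d) = (z₂ - c₂) + s * (z₁ - c₁) ^ p ^ d := by
    rw [sub_pow_char_pow]
    ring
  rw [e]
  refine h4.add ((hv.mul (TWII.ge_pow' h3 (p ^ d))).mono ?_)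
  push_cast
  rw [mul_sub, mul_div_cancel₀ _ hpd.ne']
  linarith

theorem Par.step [IsAlgClosed Ω] (h : Par v C K z₁ r₁ z₂ r₂) {s : Ω} (hs : s ∈ C) {d : ℕ}
    (hv : v.Ge (r₂ - p ^ d * r₁) s) : Par v C K z₁ r₁ (z₂ + s * z₁ ^ p ^ d) r₂ := by
  have hm : -(s * z₁ ^ p ^ d) ∈ cadj v C z₁ :=
    neg_mem (mul_mem (le_cadj v C z₁ hs) (pow_mem (self_mem_cadj v C z₁) _))
  have e : z₂ + s * z₁ ^ p ^ d = z₂ - -(s * z₁ ^ p ^ d) := by ring
  refine Par.mk' h.t1 ?_ (lim_step h.t1.lim h.t2.lim hs hv) ?_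
  · rw [e]
    exact h.t21.sub_mem hm
  · rw [e, cadj_sub_mem hm]
    exact h.eq1

theorem Col.step (hx : Col p v C ν r₁ x) (hy : Col p v C ν r₂ y) {s : Ω} (hs : s ∈ C) {d : ℕ}
    (hv : v.Ge (r₂ - p ^ d * r₁) s) : Col p v C ν r₁ (colS p x y s d) := by
  have hpd : ∀ i : ℕ, (0 : ℝ) ≤ (p : ℝ) ^ i := fun i => by positivity
  refine ⟨fun j => ?_, ?_, fun j hj => ?_⟩
  · rw [colS]
    refine sub_mem (hx.mem j) ?_
    split_ifs
    exacts [mul_mem (hy.mem _) (pow_mem hs _), zero_mem _]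
  · rw [colS]
    refine hx.lin.sub ?_
    split_ifs with hd
    · obtain rfl : d = 0 := by omega
      rw [Nat.sub_zero, pow_zero, pow_one]
      refine (hy.lin.mul hv).mono ?_
      rw [pow_zero]
      linarith
    · exact RVal.Ge.zero
  · rw [colS]
    refine (hx.lev j hj).sub ?_
    split_ifs with hd
    · obtain ⟨i, rfl⟩ := Nat.exists_eq_add_of_le hd
      rw [Nat.add_sub_cancel_left]
      rcases Nat.eq_zero_or_pos i with rfl | hi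
      · -- the linear coefficient
        intro ε hε
        refine ⟨0, C.zero_mem, ?_⟩
        rw [zero_pow hp.out.ne_zero, sub_zero, pow_zero, pow_one]
        refine (hy.lin.mul hv).mono ?_
        rw [add_zero]
        linarith
      · have h1 : v.Ge (p ^ i * (r₂ - p ^ d * r₁)) ((s ^ p ^ (i - 1)) ^ p) := by
          rw [← pow_mul, ← pow_succ, Nat.sub_add_cancel hi]
          have h2 := TWII.ge_pow' hv (p ^ i)
          push_cast at h2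
          exact h2
        have h2 := (hy.lev i hi.ne').mul_pow (pow_mem hs (p ^ (i - 1))) h1
        rw [← pow_mul, ← pow_succ, Nat.sub_add_cancel hi] at h2
        refine h2.mono ?_
        rw [pow_add]
        nlinarith [hpd i]
    · exact TWII.LP.of_pg (.of_gt Gt.zero)

/-- The step. -/
theorem AF.step [IsAlgClosed Ω] (h : AF p v C K ν b b₀ z₁ r₁ x S z₂ r₂ y T) (hTS : T ≤ S)
    (hT : T ≠ 0) (hyT : ¬ PG p v C (ν - p ^ T * r₂) (y T))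
    (hdep : ¬ ∀ c₁ ∈ C, ∀ c₂ ∈ C, ∀ t : ℝ, PG p v C t (x S * c₁ ^ p ^ S + y T * c₂ ^ p ^ T) →
      Gt v (t - ν + p ^ S * r₁) (c₁ ^ p ^ S) ∧ Gt v (t - ν + p ^ T * r₂) (c₂ ^ p ^ T)) :
    ∃ (s : Ω) (x' : ℕ → Ω),
      AF p v C K ν b b₀ z₁ r₁ x' S (z₂ + s * z₁ ^ p ^ (S - T)) r₂ y T ∧
      PG p v C (ν - p ^ S * r₁) (x' S) ∧
      (Gt v (ν - r₁) (x 0) → Gt v (ν - r₂) (y 0) → Gt v (ν - r₁) (x' 0)) := by
  obtain ⟨s, hs, hv, hn⟩ := exists_factor h.c1 h.c2 hTS hT hyT hdep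
  refine ⟨s, colS p x y s (S - T), ⟨h.par.step hs hv, h.c1.step h.c2 hs hv, h.c2, h.b0, ?_⟩, ?_,
    fun h1 h2 => ?_⟩
  · rw [add_assoc, ← col_step hTS s, ← add_assoc]
    exact h.rel
  · rw [colS, if_pos (Nat.sub_le S T), Nat.sub_sub_self hTS]
    exact hn
  · rw [colS]
    refine h1.sub ?_
    split_ifs with hd
    · have hd0 : S - T = 0 := by omega
      rw [hd0, Nat.sub_zero, pow_zero, pow_one]
      rw [hd0, pow_zero, one_mul] at hv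
      exact (h2.mul_ge hv).mono (by linarith)
    · exact Gt.zero

/-- **Column reduction.** -/
theorem AF.red [IsAlgClosed Ω] (h : AF p v C K ν b b₀ z₁ r₁ x S z₂ r₂ y T) (hT : T ≠ 0)
    (hyT : ¬ PG p v C (ν - p ^ T * r₂) (y T)) :
    ∃ (b₀' z₁' z₂' : Ω) (r₁' r₂' : ℝ) (x' y' : ℕ → Ω) (S' T' : ℕ),
      AF p v C K ν b b₀' z₁' r₁' x' S' z₂' r₂' y' T' ∧
      (Gt v (ν - r₁) (x 0) → Gt v (ν - r₂) (y 0) →
        Gt v (ν - r₁') (x' 0) ∧ Gt v (ν - r₂') (y' 0)) ∧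
      T' ≠ 0 ∧ ¬ PG p v C (ν - p ^ T' * r₂') (y' T') ∧
      (S' = 0 ∨ (S' ≠ 0 ∧ ∀ c₁ ∈ C, ∀ c₂ ∈ C, ∀ t : ℝ,
        PG p v C t (x' S' * c₁ ^ p ^ S' + y' T' * c₂ ^ p ^ T') →
        Gt v (t - ν + p ^ S' * r₁') (c₁ ^ p ^ S') ∧
        Gt v (t - ν + p ^ T' * r₂') (c₂ ^ p ^ T'))) := by
  obtain ⟨n, hn⟩ : ∃ n, n = S + T := ⟨_, rfl⟩
  induction n using Nat.strong_induction_on generalizing b₀ z₁ z₂ r₁ r₂ x y S T with
  | _ n ih =>
    rcases Nat.eq_zero_or_pos S with hS | hS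
    · exact ⟨b₀, z₁, z₂, r₁, r₂, x, y, S, T, h, fun h1 h2 => ⟨h1, h2⟩, hT, hyT, Or.inl hS⟩
    by_cases hxS : PG p v C (ν - p ^ S * r₁) (x S)
    · -- drop
      obtain ⟨S, rfl⟩ : ∃ i, S = i + 1 := ⟨S - 1, by omega⟩
      obtain ⟨b₀', h'⟩ := h.drop hxS
      exact ih (S + T) (by omega) h' hT hyT rfl
    by_cases hind : ∀ c₁ ∈ C, ∀ c₂ ∈ C, ∀ t : ℝ, PG p v C t (x S * c₁ ^ p ^ S + y T * c₂ ^ p ^ T) →
        Gt v (t - ν + p ^ S * r₁) (c₁ ^ p ^ S) ∧ Gt v (t - ν + p ^ T * r₂) (c₂ ^ p ^ T)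
    · exact ⟨b₀, z₁, z₂, r₁, r₂, x, y, S, T, h, fun h1 h2 => ⟨h1, h2⟩, hT, hyT,
        Or.inr ⟨hS.ne', hind⟩⟩
    rcases le_total T S with hTS | hTS
    · obtain ⟨s, x', h', hn', hl⟩ := h.step hTS hT hyT hind
      obtain ⟨S, rfl⟩ : ∃ i, S = i + 1 := ⟨S - 1, by omega⟩
      obtain ⟨b₀', h''⟩ := h'.drop hn'
      obtain ⟨b₁, z₁', z₂', r₁', r₂', x₁, y₁, S', T', h1, h2, h3⟩ :=
        ih (S + T) (by omega) h'' hT hyT rfl
      exact ⟨b₁, z₁', z₂', r₁', r₂', x₁, y₁, S', T', h1, fun h4 h5 => h2 (hl h4 h5) h5, h3⟩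
    · obtain ⟨s, y', h', hn', hl⟩ := h.symm.step hTS hS.ne' hxS fun h1 =>
        hind fun c₁ hc₁ c₂ hc₂ t ht => (h1 c₂ hc₂ c₁ hc₁ t (by rwa [add_comm])).symm
      obtain ⟨T, rfl⟩ : ∃ i, T = i + 1 := ⟨T - 1, by omega⟩
      obtain ⟨b₀', h''⟩ := h'.drop hn'
      obtain ⟨b₁, z₁', z₂', r₁', r₂', x₁, y₁, S', T', h1, h2, h3⟩ :=
        ih (T + S) (by omega) h'' hS.ne' hxS rfl
      exact ⟨b₁, z₁', z₂', r₁', r₂', x₁, y₁, S', T', h1, fun h4 h5 => h2 (hl h5 h4) h4, h3⟩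

end Pool.Agent.TWN1
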