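import Pool.Agent.Lib.TWN1.GabA

/-!
# TANK W, Theorem G, part D: the linear part of a Hasse derivative is null

`b = D_(z₂)^[m] a`, `m ≠ 0`, `a` of level `ν`: in an additive form of `b` the coefficients of
`z₁` and `z₂` are null. (The derivations `D_(z_i)` commute with `D_(z₂)^[m]`, which is strict.)
-/

set_option autoImplicit false

open Polynomial Finset

namespace Pool.Agent.TWN1

open Pool.Agent.H15JM (RVal)
open Pool.Agent.TWM
open Pool.Agent.TWII (PG LP)
open Pool.Agent.TWLM (HSd Oi)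

universe u

variable {k Ω : Type u} [Field k] [Field Ω] [Algebra k Ω] {v : RVal Ω}
  {C₀ K : IntermediateField k Ω} {p : ℕ} [hp : Fact p.Prime] [CharP Ω p] {z₁ z₂ b₀ : Ω}
  {r₁ r₂ ν : ℝ} {x y : ℕ → Ω} {S T : ℕ}

omit [Algebra k Ω] hp in
/-- The derivative of a column. -/
theorem gd_col (x : ℕ → Ω) (S : ℕ) :
    hasseDeriv 1 (∑ j ∈ range (S + 1), C (x j) * (X : Polynomial Ω) ^ p ^ j) = C (x 0) := by
  rw [map_sum, sum_range_succ', pow_zero, pow_one, sum_eq_zero, zero_add]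
  · ext i
    rw [hasseDeriv_coeff, coeff_C_mul, coeff_X, coeff_C]
    by_cases hi : i = 0
    · rw [if_pos hi, hi]
      simp
    · rw [if_neg hi, if_neg (by omega), mul_zero, mul_zero]
  · intro j _
    ext i
    rw [hasseDeriv_coeff, coeff_C_mul_X_pow, Nat.choose_one_right, coeff_zero]
    split_ifs with h1
    · have h2 : p ∣ i + 1 := h1 ▸ dvd_pow_self p (Nat.succ_ne_zero j)
      rw [(CharP.cast_eq_zero_iff Ω p (i + 1)).2 h2, zero_mul]
    · rw [mul_zero]

omit [Algebra k Ω] in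
theorem gd_comm (f : Polynomial Ω) (m : ℕ) :
    hasseDeriv 1 (hasseDeriv m f) = hasseDeriv m (hasseDeriv 1 f) := by
  have h1 := LinearMap.congr_fun (hasseDeriv_comp (R := Ω) 1 m) f
  have h2 := LinearMap.congr_fun (hasseDeriv_comp (R := Ω) m 1) f
  rw [LinearMap.comp_apply] at h1 h2
  rw [h1, h2, add_comm m 1, Nat.choose_symm_add]

/-- One variable. -/
theorem gd_lin [IsAlgClosed Ω] {E : IntermediateField k Ω} {z : Ω} {r : ℝ} (hz : TL v E z r)
    {q : Polynomial Ω} (hq : q ∈ PI E) {c : Ω} (hc : c ∈ E) (hx : ∀ j, x j ∈ E)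
    (hrel : PG p v (cadj v E z) ν (q.eval z - (c + col p x z S)))
    (h1 : Gt v (ν - r) ((hasseDeriv 1 q).eval z)) : Gt v (ν - r) (x 0) := by
  have hh : q - (C c + ∑ j ∈ range (S + 1), C (x j) * (X : Polynomial Ω) ^ p ^ j) ∈ PI E :=
    sub_mem hq (add_mem (C_mem_PI hc) (sum_mem fun j _ =>
      mul_mem (C_mem_PI (hx j)) (pow_mem X_mem_PI _)))
  have e1 : (q - (C c + ∑ j ∈ range (S + 1), C (x j) * (X : Polynomial Ω) ^ p ^ j)).eval z =
      q.eval z - (c + col p x z S) := by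
    rw [eval_sub, eval_add, eval_C, eval_finsetSum, col]
    congr 2
    exact sum_congr rfl fun j _ => by rw [eval_mul, eval_C, eval_pow, eval_X]
  rw [← e1] at hrel
  have h2 : ¬ p ∣ 1 := hp.out.one_lt.not_ge ∘ Nat.le_of_dvd one_pos
  have h3 := PC.jet_gt hz hh hrel.pc h2
  rw [map_sub, map_add, gd_col, hasseDeriv_C 1 _ one_pos, zero_add, eval_sub, eval_C,
    Nat.cast_one, one_mul] at h3
  have e2 : x 0 = (hasseDeriv 1 q).eval z - ((hasseDeriv 1 q).eval z - x 0) := by ring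
  rw [e2]
  exact h1.sub h3

/-- The inner derivative of a polynomial in two variables. -/
theorem gd_swap (P : Polynomial (Polynomial Ω)) (m : ℕ) :
    hasseDeriv 1 (Bivariate.swap (hasseDeriv m P)) =
      Bivariate.swap (hasseDeriv m (Bivariate.swap (hasseDeriv 1 (Bivariate.swap P)))) := by
  ext i j
  rw [coeff_swap, hasseDeriv_coeff, hasseDeriv_coeff, ← C_eq_natCast, ← C_eq_natCast, coeff_C_mul,
    coeff_C_mul, coeff_swap, coeff_swap, hasseDeriv_coeff, hasseDeriv_coeff, ← C_eq_natCast,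
    ← C_eq_natCast, coeff_C_mul, coeff_C_mul, coeff_swap]
  ring

/-- **(G4)**. -/
theorem lin_null [IsAlgClosed Ω] (hP : Par v C₀ K z₁ r₁ z₂ r₂) {f : Polynomial Ω}
    (hf : f ∈ PI (cadj v C₀ z₁)) (hlp : LP p v K ν (f.eval z₂)) {m : ℕ} (hm : m ≠ 0)
    (h : AF p v C₀ K (ν - m * r₂) ((hasseDeriv m f).eval z₂) b₀ z₁ r₁ x S z₂ r₂ y T) :
    Gt v (ν - m * r₂ - r₁) (x 0) ∧ Gt v (ν - m * r₂ - r₂) (y 0) := by
  have h1p : ¬ p ∣ 1 := hp.out.one_lt.not_ge ∘ Nat.le_of_dvd one_pos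
  have hz1 : z₁ ∈ cadj v C₀ z₁ := self_mem_cadj v C₀ z₁
  have hz2 : z₂ ∈ cadj v C₀ z₂ := self_mem_cadj v C₀ z₂
  have hcolx : col p x z₁ S ∈ cadj v C₀ z₁ := sum_mem fun j _ =>
    mul_mem (le_cadj v C₀ z₁ (h.c1.mem j)) (pow_mem hz1 _)
  have hcoly : col p y z₂ T ∈ cadj v C₀ z₂ := sum_mem fun j _ =>
    mul_mem (le_cadj v C₀ z₂ (h.c2.mem j)) (pow_mem hz2 _)
  constructor
  · have hfK : f.eval z₂ ∈ cadj v (cadj v C₀ z₁) z₂ := TWLM.eval_mem_cadj hf
    obtain ⟨P, hPP, hPv⟩ := exists_PII hP.t1 hP.t21 hfK (ν + 1)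
    -- the polynomials in `z₂` and in `z₁`
    have e1 : (P.map (evalRingHom z₁)).eval z₂ = P.evalEval z₁ z₂ := map_evalRingHom_eval z₁ z₂ P
    have hPz := hPP.map (v := v) z₁
    have hSw := hPP.swap
    have hPw := hSw.map (v := v) z₂
    have e2 : ((Bivariate.swap P).map (evalRingHom z₂)).eval z₁ = P.evalEval z₁ z₂ := by
      rw [map_evalRingHom_eval, evalEval_swap]
    have hlpP : LP p v K ν (P.evalEval z₁ z₂) := by
      have e3 : P.evalEval z₁ z₂ = f.eval z₂ - (f.eval z₂ - P.evalEval z₁ z₂) := by ring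
      rw [e3]
      exact LP.sub hlp (PC.of_ge (hPv.mono (by linarith))).lp
    -- the derivative in `z₁`
    have hQe : (hasseDeriv 1 ((Bivariate.swap P).map (evalRingHom z₂))).eval z₁ =
        (Bivariate.swap (hasseDeriv 1 (Bivariate.swap P))).evalEval z₁ z₂ := by
      rw [← taylor_coeff, coeff_taylor_map, evalEval_swap]
    have hQP : PII C₀ (Bivariate.swap (hasseDeriv 1 (Bivariate.swap P))) := (hSw.hasse 1).swap
    have hQ1 : v.Ge (ν - r₁) ((Bivariate.swap (hasseDeriv 1 (Bivariate.swap P))).evalEval z₁ z₂) := by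
      rw [hP.eq2, ← e2] at hlpP
      have h2 := TWII.LP.jet_prime p hP.t12 hPw hlpP h1p
      rwa [taylor_coeff, Nat.cast_one, one_mul, hQe] at h2
    -- the Hasse derivative in `z₂` of it
    have hQ2 : Gt v (ν - m * r₂ - r₁) ((hasseDeriv m
        (Bivariate.swap (hasseDeriv 1 (Bivariate.swap P)))).evalEval z₁ z₂) := by
      rw [← map_evalRingHom_eval] at hQ1
      have h2 := TWLM.poly_str hP.t21 (hQP.map (v := v) z₁) hm hQ1
      rw [← taylor_coeff, coeff_taylor_map] at h2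
      exact h2.mono (by linarith)
    -- the Hasse derivative of `P`
    have hb1 : v.Ge (ν + 1 - m * r₂) ((hasseDeriv m f).eval z₂ -
        (hasseDeriv m P).evalEval z₁ z₂) := by
      rw [← e1, ← eval_sub] at hPv
      have h2 := TWLM.poly_norm hP.t21 (sub_mem hf hPz) m hPv
      have e6 : (hasseDeriv m (P.map (evalRingHom z₁))).eval z₂ =
          (hasseDeriv m P).evalEval z₁ z₂ := by rw [← taylor_coeff, coeff_taylor_map]
      rwa [map_sub, eval_sub, e6] at h2
    have hSm : PII C₀ (Bivariate.swap (hasseDeriv m P)) := (hPP.hasse m).swap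
    have e4 : ((Bivariate.swap (hasseDeriv m P)).map (evalRingHom z₂)).eval z₁ =
        (hasseDeriv m P).evalEval z₁ z₂ := by
      rw [map_evalRingHom_eval, evalEval_swap]
    have hrel := h.rel
    have e5 : ((Bivariate.swap (hasseDeriv m P)).map (evalRingHom z₂)).eval z₁ -
        ((b₀ + col p y z₂ T) + col p x z₁ S) =
        ((hasseDeriv m f).eval z₂ - (b₀ + col p x z₁ S + col p y z₂ T)) -
        ((hasseDeriv m f).eval z₂ - (hasseDeriv m P).evalEval z₁ z₂) := by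
      rw [e4]
      ring
    have hrel2 : PG p v K (ν - m * r₂)
        (((Bivariate.swap (hasseDeriv m P)).map (evalRingHom z₂)).eval z₁ -
          ((b₀ + col p y z₂ T) + col p x z₁ S)) := by
      rw [e5]
      exact hrel.sub (PG.of_gt (Gt.of_ge hb1 (by linarith)))
    rw [hP.eq2] at hrel2
    refine gd_lin hP.t12 (hSm.map (v := v) z₂)
      (add_mem (le_cadj v C₀ z₂ h.b0) hcoly) (fun j => le_cadj v C₀ z₂ (h.c1.mem j)) hrel2 ?_
    rw [← taylor_coeff, coeff_taylor_map, gd_swap, evalEval_swap]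
    exact hQ2
  · have hrel := h.rel
    rw [hP.eq1] at hrel hlp
    refine gd_lin hP.t21 (hasse_mem_PI hf m)
      (add_mem (le_cadj v C₀ z₁ h.b0) hcolx) (fun j => le_cadj v C₀ z₁ (h.c2.mem j)) hrel ?_
    rw [gd_comm]
    have h2 := TWII.LP.jet_prime p hP.t21 hf hlp h1p
    rw [taylor_coeff, Nat.cast_one, one_mul] at h2
    exact (TWLM.poly_str hP.t21 (hasse_mem_PI hf 1) hm h2).mono (by linarith)

end Pool.Agent.TWN1
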