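import Pool.Agent.Lib.TWN1.GabC
import Pool.Agent.Lib.TWN1.GabD

/-!
# TANK W, Theorem G, part F: the dichotomy

`Unh`: some polynomial representative of `a` has no critical jet of order divisible by `p`;
`FinSh`: finite visible shape; `Res`: `a` is unhit by the second generator of some pair, or some
pair has finite visible shape.
-/

set_option autoImplicit false

open Polynomial Finset

namespace Pool.Agent.TWN1

open Pool.Agent.H15JM (RVal)
open Pool.Agent.TWM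
open Pool.Agent.TWII (PG LP)
open Pool.Agent.TWLM (HSd Oi Arc)

universe u

variable {k Ω : Type u} [Field k] [Field Ω] [Algebra k Ω]

/-- Finite visible shape of `u` along `Φ`, over `F`. -/
def FinS (v : RVal Ω) (F : IntermediateField k Ω) (σ ρ : ℝ) (Φ : ℕ → Ω → Ω) (u : Ω) : Prop :=
  ∃ L : ℕ, ∀ l : ℕ, L < l → TWII.Nr v F ρ u fun θ => v.Ge (ρ - l * σ) (Φ l θ)

/-- `a` is unhit by `z` over `E`, level `ν`, `z` of radius `s`. -/
def Unh (p : ℕ) (v : RVal Ω) (E K : IntermediateField k Ω) (z : Ω) (s ν : ℝ) (a : Ω) : Prop :=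
  ∃ f ∈ PI E, PG p v K ν (a - f.eval z) ∧
    ∀ l : ℕ, p ∣ l → l ≠ 0 → PG p v K (ν - l * s) ((taylor z f).coeff l)

/-- Two generators, one over the other. -/
structure Gen2 (v : RVal Ω) (C K : IntermediateField k Ω) (z : Ω) (r : ℝ) (z' : Ω) (r' : ℝ) :
    Prop where
  t1 : TL v C z r
  t2 : TL v (cadj v C z) z' r'
  eq : K = cadj v (cadj v C z) z'

/-- The dichotomy. -/
def Res (p : ℕ) (v : RVal Ω) (C K : IntermediateField k Ω) (σ : ℝ) (Φ : ℕ → Ω → Ω) (ν : ℝ)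
    (a : Ω) : Prop :=
  (∃ (z z' : Ω) (r r' : ℝ), Gen2 v C K z r z' r' ∧ Unh p v (cadj v C z) K z' r' ν a) ∨
  ∃ (z z' : Ω) (r r' : ℝ), Gen2 v C K z r z' r' ∧ FinS v C σ r Φ z ∧
    ∀ Ψ : ℕ → Ω → Ω, Arc v (cadj v C z) σ Ψ → Oi v (cadj v C z) σ Ψ →
      (∀ l : ℕ, ∀ x ∈ C, Ψ l x = Φ l x) → FinS v (cadj v C z) σ r' Ψ z'

variable {v : RVal Ω} {C K : IntermediateField k Ω}
  {ν : ℝ} {b b₀ z z₁ z₂ : Ω} {r r₁ r₂ : ℝ} {x y : ℕ → Ω} {S T : ℕ} {σ : ℝ} {Φ : ℕ → Ω → Ω}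

/-- Finite shape over a bigger field. -/
theorem FinS.lift {C' : IntermediateField k Ω} (hCC' : C ≤ C') (h : FinS v C σ r Φ z)
    (hz : Lim v C r z) {Ψ : ℕ → Ω → Ω} (hΨ : Arc v C' σ Ψ) (hΨΦ : ∀ l : ℕ, ∀ x ∈ C, Ψ l x = Φ l x) :
    FinS v C' σ r Ψ z := by
  obtain ⟨L, hL⟩ := h
  refine ⟨L, fun l hl => ?_⟩
  obtain ⟨m, hm, h1⟩ := hΨ.str l (by omega)
  refine ⟨(l * σ - m) / 2, by linarith, fun θ hθ h2 => ?_⟩
  obtain ⟨θ', hθ', h3, h4⟩ := ((hL l hl).and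
    (TWII.Nr.near (half_pos (sub_pos.2 hm)))).exists hz
  have h5 : v.Ge (r - l * σ) (Ψ l (θ - θ')) := by
    refine (h1 _ (sub_mem hθ (hCC' hθ')) (r - (l * σ - m) / 2) ?_).mono (by linarith)
    have e1 : θ - θ' = (z - θ') - (z - θ) := by ring
    rw [e1]
    exact h4.sub h2
  have e1 : Ψ l θ = Ψ l (θ - θ') + Φ l θ' := by
    rw [← hΨΦ l θ' hθ', hΨ.sub l hθ (hCC' hθ')]
    ring
  rw [e1]
  exact h5.add h3

theorem Par.gen2 (h : Par v C K z₁ r₁ z₂ r₂) : Gen2 v C K z₁ r₁ z₂ r₂ := ⟨h.t1, h.t21, h.eq1⟩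

variable {p : ℕ} [hp : Fact p.Prime] [CharP Ω p]

/-- A hit gives finite shape; otherwise unhit. -/
theorem unh_or_finS [IsAlgClosed Ω] {F : IntermediateField k Ω} (hz : TL v F z r)
    (hK : K = cadj v F z) {a : Ω} (ha : a ∈ K) (hlp : LP p v K ν a) :
    Unh p v F K z r ν a ∨ ∀ Ψ : ℕ → Ω → Ω, Arc v F σ Ψ → Oi v F σ Ψ → FinS v F σ r Ψ z := by
  rw [hK] at ha
  obtain ⟨f, hf, h1⟩ := hz.dense ha (ν + 1)
  have h2 : PG p v K ν (a - f.eval z) := .of_gt (Gt.of_ge h1 (by linarith))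
  by_cases h3 : ∀ l : ℕ, p ∣ l → l ≠ 0 → PG p v K (ν - l * r) ((taylor z f).coeff l)
  · exact Or.inl ⟨f, hf, h2, h3⟩
  · right
    intro Ψ hΨ ho
    simp only [not_forall] at h3
    obtain ⟨l, h4, h5, h6⟩ := h3
    have h7 : LP p v (cadj v F z) ν (f.eval z) := by
      have h8 := hlp.sub (TWII.LP.of_pg h2)
      rw [sub_sub_cancel] at h8
      rwa [hK] at h8
    exact TWII.fin_shape p hΨ ho hz hf h7 ⟨l, h4, h5, by rwa [← hK]⟩

/-- **Theorem G**, the property of the linear coefficients as a hypothesis. -/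
theorem gab' [IsAlgClosed Ω] (hΦ : Arc v C σ Φ) (ho : Oi v C σ Φ) (hP : Par v C K z₁ r₁ z₂ r₂)
    {f : Polynomial Ω} (hf : f ∈ PI (cadj v C z₁)) {a : Ω} (ha : a ∈ K) (hlp : LP p v K ν a)
    (haf : PG p v K ν (a - f.eval z₂)) {m : ℕ}
    (h : AF p v C K (ν - m * r₂) ((hasseDeriv m f).eval z₂) b₀ z₁ r₁ x S z₂ r₂ y T)
    (hT : T ≠ 0) (hyT : ¬ PG p v C (ν - m * r₂ - p ^ T * r₂) (y T))
    (hlin : m ≠ 0 → Gt v (ν - m * r₂ - r₁) (x 0) ∧ Gt v (ν - m * r₂ - r₂) (y 0)) :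
    Res p v C K σ Φ ν a := by
  have hfl : LP p v K ν (f.eval z₂) := by
    have h8 := hlp.sub (TWII.LP.of_pg haf)
    rwa [sub_sub_cancel] at h8
  have hbl : LP p v K (ν - m * r₂) ((hasseDeriv m f).eval z₂) := by
    rw [hP.eq1] at hfl ⊢
    exact hfl.hjet hP.t21 hf m
  obtain ⟨b₀', z₁', z₂', r₁', r₂', x', y', S', T', h', hl, hT', hyT', hS⟩ := h.red hT hyT
  rcases hS with rfl | ⟨-, hind⟩
  · rcases eq_or_ne m 0 with rfl | hm
    · -- `a` is additive of degree one in `z₁'`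
      left
      refine ⟨z₂', z₁', r₂', r₁', h'.par.symm.gen2,
        Polynomial.C (b₀' + col p y' z₂' T') + Polynomial.C (x' 0) * X, ?_, ?_, ?_⟩
      · have hcol : b₀' + col p y' z₂' T' ∈ cadj v C z₂' := by
          refine add_mem (le_cadj v C z₂' h'.b0) (sum_mem fun j _ =>
            mul_mem (le_cadj v C z₂' (h'.c2.mem j)) (pow_mem (self_mem_cadj v C z₂') _))
        exact add_mem (C_mem_PI hcol) (mul_mem (C_mem_PI (le_cadj v C z₂' (h'.c1.mem 0)))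
          X_mem_PI)
      · have h1 := h'.rel
        rw [hasseDeriv_zero, LinearMap.id_apply, Nat.cast_zero, zero_mul, sub_zero, col_zero] at h1
        have e : a - (Polynomial.C (b₀' + col p y' z₂' T') + Polynomial.C (x' 0) * X).eval z₁' = (a - f.eval z₂) +
            (f.eval z₂ - (b₀' + x' 0 * z₁' + col p y' z₂' T')) := by
          simp only [eval_add, eval_C, eval_mul, eval_X]
          ring
        rw [e]
        exact haf.add h1
      · intro l hpl hl0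
        have hl2 : 2 ≤ l := hp.out.two_le.trans (Nat.le_of_dvd (Nat.pos_of_ne_zero hl0) hpl)
        have e : (taylor z₁' (Polynomial.C (b₀' + col p y' z₂' T') + Polynomial.C (x' 0) * X)).coeff l = 0 := by
          refine coeff_eq_zero_of_natDegree_lt (lt_of_le_of_lt ?_ hl2)
          rw [natDegree_taylor]
          refine (natDegree_add_le _ _).trans (max_le (by rw [natDegree_C]; omega) ?_)
          exact (natDegree_C_mul_le _ _).trans natDegree_X_le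
        rw [e]
        exact .of_gt Gt.zero
    · -- `z₂'` has finite shape
      obtain ⟨hx0, -⟩ := hl (hlin hm).1 (hlin hm).2
      have h1 : FinS v C σ r₂' Φ z₂' := h'.fin1 hbl hΦ ho hx0 hT' hyT'
      rcases unh_or_finS (σ := σ) h'.par.t12 h'.par.eq2 ha hlp with h2 | h2
      · exact Or.inl ⟨z₂', z₁', r₂', r₁', h'.par.symm.gen2, h2⟩
      · exact Or.inr ⟨z₂', z₁', r₂', r₁', h'.par.symm.gen2, h1, fun Ψ hΨ ho' _ => h2 Ψ hΨ ho'⟩
  · obtain ⟨L, hL⟩ := h'.fin2 hbl hΦ ho hind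
    refine Or.inr ⟨z₁', z₂', r₁', r₂', h'.par.gen2, ⟨L, fun l hl => (hL l hl).1⟩,
      fun Ψ hΨ _ hΨΦ => ?_⟩
    exact FinS.lift (le_cadj v C z₁') ⟨L, fun l hl => (hL l hl).2⟩ h'.par.t2.lim hΨ hΨΦ

/-- **Theorem G.** -/
theorem gab [IsAlgClosed Ω] (hΦ : Arc v C σ Φ) (ho : Oi v C σ Φ) (hP : Par v C K z₁ r₁ z₂ r₂)
    {f : Polynomial Ω} (hf : f ∈ PI (cadj v C z₁)) {a : Ω} (ha : a ∈ K) (hlp : LP p v K ν a)
    (haf : PG p v K ν (a - f.eval z₂)) {m : ℕ}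
    (h : AF p v C K (ν - m * r₂) ((hasseDeriv m f).eval z₂) b₀ z₁ r₁ x S z₂ r₂ y T)
    (hT : T ≠ 0) (hyT : ¬ PG p v C (ν - m * r₂ - p ^ T * r₂) (y T)) : Res p v C K σ Φ ν a := by
  refine gab' hΦ ho hP hf ha hlp haf h hT hyT fun hm => lin_null hP hf ?_ hm h
  have h8 := hlp.sub (TWII.LP.of_pg haf)
  rwa [sub_sub_cancel] at h8

end Pool.Agent.TWN1
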