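import Pool.Agent.Lib.TWN1.Chain2
import Pool.Agent.Lib.TWN1.Oc

/-!
# TANK W, text N1, section 3: (G2), the improvement of `R`

* `g2_step`: if `D^[l] f` is null for `l > L`, `p ∣ l`, and `L > Q J`, then `R` can be changed so
  that this holds for `l ≥ L`;
* `exists_R`: an admissible `R` with `D^[l] f` null for all `l > Q J`, `p ∣ l`.
-/

set_option autoImplicit false
set_option linter.unusedSectionVars false

open Polynomial Finset

namespace Pool.Agent.TWN1

open Pool.Agent.H15JM (RVal)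
open Pool.Agent.TWM
open Pool.Agent.TWII (PG)
open Pool.Agent.TWLM (HSd Oi)

universe u

variable {k Ω : Type u} [Field k] [Field Ω] [Algebra k Ω] {v : RVal Ω}
  {K : IntermediateField k Ω} {Φ : ℕ → Ω → Ω} {w y : Ω} {Z : PowerSeries Ω} {κ : ℕ → ℝ} {ρ σ : ℝ}
  {p : ℕ} [hp : Fact p.Prime] [CharP Ω p] [IsAlgClosed Ω]
  {e : Ω} {A : ℕ → Ω} {N J L m₁ n' : ℕ} {B R θ θ₀ : Polynomial Ω} {s ν μ g e₀ eps t : ℝ}

/-- Division of the leading term by `z ^ (L - i)`. -/
theorem lead_div {F : IntermediateField k Ω} {x z : Ω} {i : ℕ} (hz : z ∈ F) (hz0 : z ≠ 0)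
    (hvz : v z = ρ - n' * σ - g) (hi : p ∣ i) (hL : p ∣ L) (hiL : i < L) (heg : eps < g)
    (hx : TWII.LP p v F (ν - i * ρ - ((L - i) * n' : ℕ) * σ - (((L - i - 1 : ℕ) : ℝ) * g + eps))
      (x * z ^ (L - i))) : PG p v F (ν - L * ρ) x := by
  obtain ⟨a, ha⟩ : p ∣ L - i := Nat.dvd_sub hL hi
  have e1 : z ^ (L - i) = (z ^ a) ^ p ^ 1 := by rw [ha, mul_comm, pow_mul, pow_one]
  rw [e1] at hx
  have h1 := lp_of_mul_powq le_rfl (pow_mem hz a) (pow_ne_zero a hz0) hx
  refine pg_of_lp h1 ?_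
  rw [v.map_pow hz0, hvz]
  have e2 : ((L - i : ℕ) : ℝ) = p * a := by exact_mod_cast ha
  have e3 : ((L - i - 1 : ℕ) : ℝ) = ((L - i : ℕ) : ℝ) - 1 := by
    rw [Nat.cast_sub (by omega : 1 ≤ L - i), Nat.cast_one]
  have e4 : ((L - i : ℕ) : ℝ) = L - i := by rw [Nat.cast_sub hiL.le]
  rw [e3]
  push_cast
  rw [pow_one]
  have e5 : (p : ℝ) * (a * (ρ - n' * σ - g)) = ((L - i : ℕ) : ℝ) * (ρ - n' * σ - g) := by
    rw [e2]
    ring
  rw [e5]
  rw [e4]
  nlinarith

/-- The data of (G2) at a record. -/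
theorem exists_leadR (h : Set0 v K Φ w Z κ ρ σ)
    (hinf : ∀ n₀ : ℕ, ∃ n : ℕ, n₀ ≤ n ∧ ¬ v.Ge (ρ - n * σ) (PowerSeries.coeff n Z))
    (hR : Nrm p v K w y ρ s ν e A N B J R) (hpL : p ∣ L) (hJL : p ^ N * J < L)
    (hhi : ∀ l : ℕ, L < l → p ∣ l →
      PG p v (cadj v K w) (ν - l * ρ) ((hasseDeriv l (fth p e A N B R)).eval w)) :
    ∃ (n' : ℕ) (g eps : ℝ) (z : Ω) (Δ : Polynomial Ω), n' ≠ 0 ∧ 0 < eps ∧ eps < g ∧ z ∈ K ∧
      z ≠ 0 ∧ v z = ρ - n' * σ - g ∧ Δ ∈ PI K ∧ (e ≠ 0 → ∀ l, ¬ p ∣ l → hasseDeriv l Δ = 0) ∧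
      ∀ i : ℕ, p ∣ i → i < L → TWII.LP p v (cadj v K w)
        (ν - i * ρ - ((L - i) * n' : ℕ) * σ - (((L - i - 1 : ℕ) : ℝ) * g + eps))
        (((L.choose i : ℕ) : Ω) * (hasseDeriv L (fth p e A N B R)).eval w * z ^ (L - i) -
          A N * dl p Φ w Z n' Δ i ((L - i) * n') N ^ p ^ N) := by
  classical
  have hp0 : (0 : ℝ) < p := by exact_mod_cast hp.out.pos
  have hQ0 : (0 : ℝ) < (p : ℝ) ^ N := by positivity
  have hD := hR.toDt
  have hL0 : L ≠ 0 := by omega
  obtain ⟨μ, hM⟩ := exists_mar h hD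
  have hμ0 := hM.pos
  -- the margins
  obtain ⟨D, hDeg⟩ : ∃ D : ℕ, D = (fth p e A N B R).natDegree := ⟨_, rfl⟩
  obtain ⟨η, hη, hη1⟩ := exists_min_pos (range (D + 1))
    (fun l a => L < l → p ∣ l → PC p v (cadj v K w) (ν - l * ρ + a)
      ((hasseDeriv l (fth p e A N B R)).eval w))
    (fun l a b hab h1 h2 h3 => (h1 h2 h3).mono (by linarith))
    (fun l _ => by
      by_cases h1 : L < l ∧ p ∣ l
      · obtain ⟨a, ha, h2⟩ := PG.exists_pc (hhi l h1.1 h1.2)
        exact ⟨a, ha, fun _ _ => h2⟩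
      · exact ⟨1, one_pos, fun h2 h3 => absurd ⟨h2, h3⟩ h1⟩)
  have hη2 : ∀ (g' : ℝ) (l : ℕ), 0 ≤ g' → (D + 1) * g' ≤ η / 2 → L < l → p ∣ l →
      TWII.LP p v (cadj v K w) (ν - l * ρ + (l * g' + η / 2))
        ((hasseDeriv l (fth p e A N B R)).eval w) := by
    intro g' l hg' hDg hl hpl
    by_cases h1 : l ≤ D
    · refine lp_mono (hη1 l (mem_range.2 (by omega)) hl hpl).lp ?_
      have h2 : (l : ℝ) * g' ≤ (D + 1) * g' := by
        refine mul_le_mul_of_nonneg_right ?_ hg'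
        have : l ≤ D + 1 := by omega
        exact_mod_cast this
      linarith
    · rw [hasseDeriv_eq_zero_of_lt_natDegree _ _ (by omega), eval_zero]
      exact lp_of_ge RVal.Ge.zero
  -- the base point
  obtain ⟨θ₀, hθ₀, hc₀, hX₀, hy₀, hl₀⟩ := hR.fam (μ / (4 * p ^ N)) (by positivity)
  have hf₀ := fth_mem hD hR.BC hθ₀
  have hd₀ := deg_of_coeff hc₀
  -- OC
  obtain ⟨n₀, hn₀⟩ : ∃ n₀ : ℕ, ∀ n' : ℕ, n₀ ≤ n' → ∀ i ∈ range (L + 1), p ∣ i → ∀ n : ℕ, n ≠ 0 →
      (L - i) * n' ≤ n → PG p v (cadj v K w) (ν - i * ρ - n * σ)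
        (PhS Φ w Z n' n (hasseDeriv i (fth p e A N B θ₀))) := by
    have h1 : ∀ i ∈ range (L + 1), ∀ᶠ n' : ℕ in Filter.atTop, p ∣ i → ∀ n : ℕ, n ≠ 0 →
        (L - i) * n' ≤ n → PG p v (cadj v K w) (ν - i * ρ - n * σ)
          (PhS Φ w Z n' n (hasseDeriv i (fth p e A N B θ₀))) := by
      intro i hi
      have hiL : i ≤ L := Nat.lt_succ_iff.1 (mem_range.1 hi)
      by_cases hpi : p ∣ i
      · obtain ⟨n₁, hn₁⟩ := h.oc_one (p := p) (ν := ν - i * ρ) (l₀ := L - i)
          (f := hasseDeriv i (fth p e A N B θ₀)) (hasse_mem_PI hf₀ i) (Nat.dvd_sub hpL hpi)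
          (fun l hl hpl => by
            have h2 : ¬ p ∣ l + i := fun h3 => hpl ((Nat.dvd_add_left hpi).1 h3)
            rw [hasse_hasse, hR.clsX hX₀ (l + i) (by
              have : 2 ≤ L := hp.out.two_le.trans (Nat.le_of_dvd (by omega) hpL)
              omega) h2, mul_zero])
          (fun l hl hpl => by
            have h3 : PG p v (cadj v K w) (ν - i * ρ - l * ρ)
                ((hasseDeriv (l + i) (fth p e A N B R)).eval w) :=
              (hhi (l + i) (by omega) (Dvd.dvd.add hpl hpi)).mono (by push_cast; linarith)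
            rw [hasse_hasse, eval_mul, eval_C, hasse_fth_eq hd₀ (by omega)]
            exact h3.natCast_mul _)
          (by
            rw [hasse_hasse, eval_mul, eval_C, Nat.sub_add_cancel hiL, hasse_fth_eq hd₀ hJL]
            have h2 := lp_sum (range (L.choose (L - i)))
              (fun _ => (hasseDeriv L (fth p e A N B R)).eval w)
              (fun _ _ => lp_mono (hR.lev_high h.tl hJL)
                (c' := ν - i * ρ - (L - i : ℕ) * ρ) (by
                  rw [Nat.cast_sub hiL]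
                  linarith))
            rwa [sum_const, card_range, nsmul_eq_mul] at h2)
        exact Filter.eventually_atTop.2 ⟨n₁, fun n' hn' _ n hn hin => hn₁ n' hn' n hn hin⟩
      · exact Filter.Eventually.of_forall fun n' h2 => absurd h2 hpi
    exact Filter.eventually_atTop.1 ((Filter.eventually_all_finset _).2 h1)
  -- the record
  obtain ⟨n', g, hn', hn'0, hg0, hgη, hz0, hvz, hg⟩ := h.record hinf
    (η := min (μ / (4 * p ^ N * (J + 1))) (η / (2 * (D + 1)))) (lt_min (by positivity)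
      (by positivity)) n₀
  have hgJ : p ^ N * (J * g) ≤ μ / 4 := by
    have h1 : g ≤ μ / (4 * p ^ N * (J + 1)) := (hgη.trans_le (min_le_left _ _)).le
    rw [le_div_iff₀ (by positivity)] at h1
    have h2 : 0 ≤ (p : ℝ) ^ N * g := by positivity
    nlinarith
  have hgD : ((D : ℝ) + 1) * g ≤ η / 2 := by
    have h1 : g ≤ η / (2 * (D + 1)) := (hgη.trans_le (min_le_right _ _)).le
    rw [le_div_iff₀ (by positivity)] at h1
    linarith
  -- the approximant
  obtain ⟨θ, hθ, hcθ, hXθ, hyθ, hlθ⟩ := hR.fam (min (μ / (4 * p ^ N)) (g / 2))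
    (lt_min (by positivity) (by positivity))
  have hdθ := deg_of_coeff hcθ
  have hΔd : (θ - θ₀).natDegree ≤ J := deg_of_coeff fun i hi => by rw [hcθ i hi, hc₀ i hi]
  have hΔv : v.Ge (s - μ / (4 * p ^ N)) ((θ - θ₀).eval w) := by
    have e1 : (θ - θ₀).eval w = (y - θ₀.eval w) - (y - θ.eval w) := by
      rw [eval_sub]
      ring
    rw [e1]
    exact hy₀.sub (hyθ.mono (by linarith [min_le_left (μ / (4 * (p : ℝ) ^ N)) (g / 2)]))
  refine ⟨n', g, g / 2, -PowerSeries.coeff n' Z, θ - θ₀, hn'0, by positivity, by linarith,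
    neg_mem (h.zmem n'), neg_ne_zero.2 hz0, by rw [v.map_neg _ hz0, hvz], sub_mem hθ hθ₀,
    fun he l hl => by rw [map_sub, hXθ he l hl, hX₀ he l hl, sub_zero], fun i hpi hiL => ?_⟩
  have h1 := key (L := L) (eps := g / 2) h hD hM hθ hθ₀ hR.BC hΔd (by positivity) hΔv hn'0 hg0.le
    hg (by
      have e1 : (p : ℝ) ^ N * (μ / (4 * p ^ N)) = μ / 4 := by field_simp
      rw [mul_add, e1]
      linarith) (hR.clsX hXθ) (hR.cls1 hXθ)
    (lp_mono hlθ (by linarith [min_le_right (μ / (4 * (p : ℝ) ^ N)) (g / 2)])) (by positivity)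
    (by omega) hpL (fun l hl hpl => by
      rw [hasse_fth_eq hdθ (by omega)]
      exact lp_mono (hη2 g l hg0.le hgD hl hpl) (by linarith))
    (fun i n hpi hn hin => by
      by_cases hiL : i ≤ L
      · refine hn₀ n' hn' i (mem_range.2 (by omega)) hpi n hn ?_
        rw [Nat.sub_mul]
        omega
      · refine shape_null (L := L) h hf₀ (hR.clsX hX₀) (half_pos hη) (fun l hl hpl => ?_)
          hg0.le hg hpi (by omega) n
        rw [hasse_fth_eq hd₀ (by omega)]
        exact hη2 g l hg0.le hgD hl hpl) hpi hiL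
  rwa [hasse_fth_eq hdθ hJL] at h1

/-- The value of a top coefficient. -/
theorem top_ge {F : IntermediateField k Ω} (hN : 1 ≤ N) {a x : Ω}
    (htop : ¬ PG p v F (ν - p ^ N * s) a) (hx : x ∈ F) {b : ℝ}
    (h : TWII.LP p v F (ν - p ^ N * b) (a * x ^ p ^ N)) : v.Ge (s - b) x := by
  have hQ0 : (0 : ℝ) < (p : ℝ) ^ N := by
    have := hp.out.pos
    positivity
  intro h0
  by_contra hlt
  push Not at hlt
  refine htop (pg_of_lp (lp_of_mul_powq hN hx h0 h) ?_)
  have h3 : (p : ℝ) ^ N * v x < p ^ N * (s - b) := mul_lt_mul_of_pos_left hlt hQ0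
  linarith

/-- **(G2)**. -/
theorem g2_step (h : Set0 v K Φ w Z κ ρ σ)
    (hinf : ∀ n₀ : ℕ, ∃ n : ℕ, n₀ ≤ n ∧ ¬ v.Ge (ρ - n * σ) (PowerSeries.coeff n Z))
    (hJ1 : 1 ≤ J) (hR : Nrm p v K w y ρ s ν e A N B J R) (hJL : p ^ N * J < L)
    (hhi : ∀ l : ℕ, L < l → p ∣ l →
      PG p v (cadj v K w) (ν - l * ρ) ((hasseDeriv l (fth p e A N B R)).eval w)) :
    ∃ R' : Polynomial Ω, Nrm p v K w y ρ s ν e A N B J R' ∧ ∀ l : ℕ, L ≤ l → p ∣ l →
      PG p v (cadj v K w) (ν - l * ρ) ((hasseDeriv l (fth p e A N B R')).eval w) := by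
  classical
  have hp0 := hp.out.pos
  have hp2 := hp.out.two_le
  have hD := hR.toDt
  have hN := hD.N1
  by_cases hbad : p ∣ L → PG p v (cadj v K w) (ν - L * ρ)
      ((hasseDeriv L (fth p e A N B R)).eval w)
  · refine ⟨R, hR, fun l hl hpl => ?_⟩
    rcases hl.eq_or_lt with rfl | h1
    exacts [hbad hpl, hhi l h1 hpl]
  push Not at hbad
  obtain ⟨hpL, hbad⟩ := hbad
  obtain ⟨n', g, eps, z, Δ, hn', heps, heg, hz, hz0, hvz, hΔ, hΔX, hlead⟩ :=
    exists_leadR h hinf hR hpL hJL hhi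
  have hzF := le_cadj v K w hz
  -- a non vanishing leading term with vanishing top term is absurd
  have habs : ∀ i : ℕ, p ∣ i → i < L → ¬ p ∣ L.choose i →
      dl p Φ w Z n' Δ i ((L - i) * n') N ≠ 0 := by
    intro i hpi hiL hch h0
    have h1 := hlead i hpi hiL
    rw [h0, zero_pow (Nat.pow_pos hp0).ne', mul_zero, sub_zero] at h1
    exact hbad (PG.of_natCast_mul hch (lead_div hzF hz0 hvz hpi hpL hiL heg h1))
  have hQJ : p ^ N ≤ p ^ N * J := Nat.le_mul_of_pos_right _ (by omega)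
  -- `Q ∣ L`
  have hQL : p ^ N ∣ L := by
    by_contra hnd
    obtain ⟨a, m, hpm, hLa⟩ := Nat.exists_eq_pow_mul_and_not_dvd (n := L) (by omega) p hp.out.ne_one
    have haN : a < N := by
      by_contra h1
      exact hnd ((pow_dvd_pow p (not_lt.1 h1)).trans ⟨m, hLa⟩)
    have ha1 : 1 ≤ a := by
      by_contra h1
      have h2 : a = 0 := by omega
      rw [h2, pow_zero, one_mul] at hLa
      exact hpm (hLa ▸ hpL)
    have h3 : p ^ a < p ^ N := Nat.pow_lt_pow_right hp.out.one_lt haN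
    refine habs (p ^ a) (dvd_pow_self p (by omega)) (by omega) ?_ ?_
    · have h4 := dvd_choose_pow p a m 1
      rw [mul_one, ← hLa, Nat.choose_one_right] at h4
      rwa [h4]
    · rw [dl, if_neg]
      rintro ⟨h4, -⟩
      exact absurd (Nat.le_of_dvd (Nat.pow_pos hp0) h4) (not_le.2 h3)
  obtain ⟨j, hLj⟩ := hQL
  have hQ0 : 0 < p ^ N := Nat.pow_pos hp0
  have hJj : J < j := by
    rw [hLj] at hJL
    exact lt_of_mul_lt_mul_left hJL (Nat.zero_le _)
  have hL0 : 0 < L := by omega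
  have hdvQ : p ∣ p ^ N := dvd_pow_self p (by omega)
  -- `e ≠ 0 → p ∣ j`
  have hpj : e ≠ 0 → p ∣ j := by
    intro he
    by_contra hnd
    have hlt : p ^ N < L := by
      rw [hLj]
      calc p ^ N = p ^ N * 1 := (mul_one _).symm
        _ < p ^ N * j := Nat.mul_lt_mul_of_pos_left (by omega) hQ0
    refine habs (p ^ N) hdvQ hlt ?_ ?_
    · have h4 := dvd_choose_pow p N j 1
      rw [mul_one, ← hLj, Nat.choose_one_right] at h4
      rwa [h4]
    · rw [dl]
      split_ifs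
      · rw [Nat.div_self hQ0, hΔX he 1 (Nat.Prime.not_dvd_one hp.out), PhS, Ph, EV_zero, map_zero]
      · rfl
  -- the binomial coefficients
  have hbin : ∀ i, J < i → i < j → p ∣ j.choose i := by
    intro i hi hij
    by_contra hnd
    obtain ⟨θ, hθ, hcθ, hXθ, -, -⟩ := hR.fam 1 one_pos
    have hQi : p ^ N * J < p ^ N * i := Nat.mul_lt_mul_of_pos_left hi hQ0
    have hQij : p ^ N * i < L := by
      rw [hLj]
      exact Nat.mul_lt_mul_of_pos_left hij hQ0
    have hdQi : p ∣ p ^ N * i := hdvQ.mul_right i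
    have h1 := h.h0 (p := p) hinf (ν := ν - (p ^ N * i : ℕ) * ρ)
      (f := hasseDeriv (p ^ N * i) (fth p e A N B θ)) (hasse_mem_PI (fth_mem hD hR.BC hθ) _)
      (fun l hl hpl => by
        have h2 : ¬ p ∣ l + p ^ N * i := fun h3 => hpl ((Nat.dvd_add_left hdQi).1 h3)
        rw [hasse_hasse, hR.clsX hXθ _ (by omega) h2, mul_zero])
      (by
        rw [hasse_fth_eq (deg_of_coeff hcθ) hQi]
        exact hR.lev_high h.tl hQi) (i := L - p ^ N * i) (by omega) (Nat.dvd_sub hpL hdQi)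
    rw [hasse_hasse, eval_mul, eval_C, Nat.sub_add_cancel hQij.le,
      hasse_fth_eq (deg_of_coeff hcθ) hJL] at h1
    refine hbad (PG.of_natCast_mul (n := L.choose (L - p ^ N * i)) ?_ (h1.mono (le_of_eq ?_)))
    · rw [Nat.choose_symm hQij.le, hLj, dvd_choose_pow]
      exact hnd
    · rw [Nat.cast_sub hQij.le]
      ring
  -- the leading coefficient
  set E : Ω := (hasseDeriv L (fth p e A N B R)).eval w with hE
  obtain ⟨P, hPdef⟩ : ∃ P : Ω, P = dl p Φ w Z n' Δ 0 ((L - 0) * n') N := ⟨_, rfl⟩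
  have hPF : P ∈ cadj v K w := by
    rw [hPdef]
    exact dl_mem h hΔ _ _ _
  set t₁ : Ω := P / z ^ j with ht₁
  have ht₁F : t₁ ∈ cadj v K w := div_mem hPF (pow_mem hzF j)
  have hlt1 := hlead 0 (dvd_zero p) hL0
  have e1 : ((L.choose 0 : ℕ) : Ω) * E * z ^ (L - 0) -
      A N * dl p Φ w Z n' Δ 0 ((L - 0) * n') N ^ p ^ N =
      (E - A N * t₁ ^ p ^ N) * z ^ (L - 0) := by
    rw [← hPdef, ht₁, Nat.choose_zero_right, Nat.cast_one, one_mul, Nat.sub_zero, div_pow,
      ← pow_mul, mul_comm j, ← hLj]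
    have : z ^ L ≠ 0 := pow_ne_zero _ hz0
    field_simp
  rw [e1] at hlt1
  have h2 : PG p v (cadj v K w) (ν - L * ρ) (E - A N * t₁ ^ p ^ N) :=
    lead_div hzF hz0 hvz (dvd_zero p) hpL hL0 heg hlt1
  -- the size of `t₁`
  have h3 : v.Ge (s - j * ρ) t₁ := by
    refine top_ge hN hD.top ht₁F ?_
    have h4 := (hR.lev_high h.tl hJL).sub (lp_of_pg h2)
    rw [← hE] at h4
    have e2 : E - (E - A N * t₁ ^ p ^ N) = A N * t₁ ^ p ^ N := by ring
    rw [e2] at h4
    refine lp_mono h4 (le_of_eq ?_)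
    rw [hLj]
    push_cast
    ring
  -- the approximation in `K`
  obtain ⟨r, hr, hrt⟩ : ∃ r ∈ K, Gt v (s - j * ρ) (t₁ + r) := by
    by_cases h0 : t₁ = 0
    · exact ⟨0, K.zero_mem, by rw [h0, add_zero]; exact Gt.zero⟩
    · obtain ⟨a, ha, h4⟩ := h.tl.imm.imm t₁ ht₁F h0
      refine ⟨-a, neg_mem ha, ?_⟩
      rw [← sub_eq_add_neg]
      exact h4.mono (h3 h0)
  have hrv : v.Ge (s - j * ρ) r := by
    have e2 : r = (t₁ + r) - t₁ := by ring
    rw [e2]
    exact hrt.ge.sub h3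
  have hR' := hR.addR h.tl hr hrv hJj hbin hpj
  refine ⟨R + monomial j r, hR', fun l hl hpl => ?_⟩
  -- the difference
  have hmdeg : (monomial j r).natDegree ≤ j := natDegree_monomial_le r
  have e3 : fth p e A N B (R + monomial j r) = fth p e A N B R +
      (C e * monomial j r + ∑ i ∈ Icc 1 N, C (A i) * monomial j r ^ p ^ i) := by
    have h4 := fth_sub (p := p) e A N B (R + monomial j r) R
    rw [add_sub_cancel_left] at h4
    rw [← h4]
    ring
  have hdeg := fdiff_deg (p := p) (J := j) e A N hmdeg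
  rw [← hLj] at hdeg
  rcases hl.eq_or_lt with rfl | hlt
  · -- the coefficient of degree `L`
    have hcoef : (C e * monomial j r + ∑ i ∈ Icc 1 N, C (A i) * monomial j r ^ p ^ i).coeff L =
        A N * r ^ p ^ N := by
      have hjL : j < L := by
        rw [hLj]
        have h4 : 2 ≤ p ^ N := hp2.trans (Nat.le_self_pow (by omega) p)
        have h5 : 2 * j ≤ p ^ N * j := Nat.mul_le_mul_right _ h4
        omega
      rw [coeff_add, coeff_C_mul, coeff_monomial, if_neg hjL.ne, mul_zero, zero_add,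
        finsetSum_coeff, sum_eq_single N]
      · rw [coeff_C_mul, monomial_pow, coeff_monomial, if_pos (by rw [hLj, mul_comm])]
      · intro m hm hmN
        have hmN' : m < N := lt_of_le_of_ne (mem_Icc.1 hm).2 hmN
        rw [coeff_C_mul, monomial_pow, coeff_monomial, if_neg, mul_zero]
        rw [hLj, mul_comm]
        intro h4
        have h5 : p ^ m = p ^ N := Nat.eq_of_mul_eq_mul_right (by omega) h4
        exact hmN'.ne (Nat.pow_right_injective hp2 h5)
      · intro h4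
        exact absurd (mem_Icc.2 ⟨hN, le_rfl⟩) h4
    have hconst : hasseDeriv L (C e * monomial j r +
        ∑ i ∈ Icc 1 N, C (A i) * monomial j r ^ p ^ i) = C (A N * r ^ p ^ N) := by
      rw [← hcoef]
      ext i
      rw [hasseDeriv_coeff, coeff_C]
      split_ifs with hi
      · rw [hi, zero_add, Nat.choose_self, Nat.cast_one, one_mul]
      · rw [coeff_eq_zero_of_natDegree_lt (by omega), mul_zero]
    rw [e3, map_add, hconst, eval_add, eval_C, ← hE]
    have e4 : E + A N * r ^ p ^ N = (E - A N * t₁ ^ p ^ N) + A N * (t₁ + r) ^ p ^ N := by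
      rw [add_pow_char_pow]
      ring
    rw [e4]
    refine h2.add ?_
    obtain ⟨η, hη, h4⟩ := TWLM.exists_ge_of_gt hrt
    refine pg_of_lp (lp_mul_powq (hD.Alp N (mem_Icc.2 ⟨hN, le_rfl⟩))
      (add_mem ht₁F (le_cadj v K w hr)) hN h4) ?_
    have h5 : (0 : ℝ) < (p : ℝ) ^ N * η := by
      have : (0 : ℝ) < p := by exact_mod_cast hp0
      positivity
    rw [hLj]
    push_cast
    nlinarith
  · rw [e3, map_add, hasseDeriv_eq_zero_of_lt_natDegree _ _ (hdeg.trans_lt hlt), add_zero]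
    exact hhi l hlt hpl

/-- **(G2), conclusion**: an admissible `R` with `D^[l] f` null for all `l > Q J`, `p ∣ l`. -/
theorem exists_R (h : Set0 v K Φ w Z κ ρ σ)
    (hinf : ∀ n₀ : ℕ, ∃ n : ℕ, n₀ ≤ n ∧ ¬ v.Ge (ρ - n * σ) (PowerSeries.coeff n Z))
    (hJ1 : 1 ≤ J) (hR : Nrm p v K w y ρ s ν e A N B J R) :
    ∃ R' : Polynomial Ω, Nrm p v K w y ρ s ν e A N B J R' ∧ ∀ l : ℕ, p ^ N * J < l → p ∣ l →
      PG p v (cadj v K w) (ν - l * ρ) ((hasseDeriv l (fth p e A N B R')).eval w) := by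
  have key : ∀ (m : ℕ) (R : Polynomial Ω), Nrm p v K w y ρ s ν e A N B J R →
      (∀ l : ℕ, p ^ N * J + m < l → p ∣ l →
        PG p v (cadj v K w) (ν - l * ρ) ((hasseDeriv l (fth p e A N B R)).eval w)) →
      ∃ R' : Polynomial Ω, Nrm p v K w y ρ s ν e A N B J R' ∧ ∀ l : ℕ, p ^ N * J < l → p ∣ l →
        PG p v (cadj v K w) (ν - l * ρ) ((hasseDeriv l (fth p e A N B R')).eval w) := by
    intro m
    induction m with
    | zero => exact fun R hR h1 => ⟨R, hR, h1⟩
    | succ m ih =>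
      intro R hR h1
      obtain ⟨R', hR', h2⟩ := g2_step (L := p ^ N * J + m + 1) h hinf hJ1 hR (by omega)
        fun l hl hpl => h1 l (by omega) hpl
      exact ih R' hR' fun l hl hpl => h2 l (by omega) hpl
  refine key (fth p e A N B R).natDegree R hR fun l hl hpl => ?_
  rw [hasseDeriv_eq_zero_of_lt_natDegree _ _ (by omega), eval_zero]
  exact .of_gt Gt.zero

end Pool.Agent.TWN1
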