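import Pool.Agent.Lib.TWN1.Rat
import Pool.Agent.Lib.TWN1.Chain3

/-!
# TANK W, Theorem N1: RAT, the conclusion

* `Nrm.low_e`, `Nrm.step`: `J` drops;
* `rat`, `rat_all`: by induction, `y - g(w)` has constant approximants;
* `Nrm.const`, `Nrm.tl`: then it is of transcendental type over `K`.
-/

set_option autoImplicit false
set_option linter.unusedSectionVars false

open Polynomial Finset

namespace Pool.Agent.TWN1

open Pool.Agent.H15JM (RVal)
open Pool.Agent.TWM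
open Pool.Agent.TWII (PG LP)
open Pool.Agent.TWLM (HSd Oi)

universe u

variable {k Ω : Type u} [Field k] [Field Ω] [Algebra k Ω] [IsAlgClosed Ω] {v : RVal Ω}
  {K : IntermediateField k Ω} {Φ : ℕ → Ω → Ω} {w y : Ω} {Z : PowerSeries Ω} {κ : ℕ → ℝ} {ρ σ : ℝ}
  {p : ℕ} [hp : Fact p.Prime] [CharP Ω p] {e : Ω} {A : ℕ → Ω} {N J : ℕ}
  {B R : Polynomial Ω} {s ν : ℝ}

/-- `0` is admissible. -/
theorem rb_adm : Adm p v K ρ s e J 0 where
  mem := zero_mem _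
  low := by simp
  bin := by simp
  pdv := by simp
  siz := fun j => by
    rw [coeff_zero]
    exact RVal.Ge.zero

theorem rb_coeff {θ : Polynomial Ω} (h : hasseDeriv J θ = 0) : θ.coeff J = 0 := by
  have h1 := congrArg (fun f => Polynomial.coeff f 0) h
  simpa [hasseDeriv_coeff] using h1

theorem rb_hasse_pow {θ : Polynomial Ω} {l : ℕ} (hJ : p ∣ J) (hl : ¬ p ∣ l) :
    hasseDeriv l (θ ^ J) = 0 := by
  obtain ⟨m, rfl⟩ := hJ
  have h1 : θ ^ (p * m) = (θ ^ m) ^ p ^ 1 := by rw [pow_one, ← pow_mul, mul_comm]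
  rw [h1, hasse_powq, if_neg (by rwa [pow_one])]

theorem rb_fth (θ g : Polynomial Ω) :
    fth p e A N (fth p e A N B g) θ = fth p e A N B (θ + g) := by
  have h1 : ∀ i, (θ + g) ^ p ^ i = θ ^ p ^ i + g ^ p ^ i := fun i => add_pow_char_pow ..
  simp only [fth, h1, mul_add, sum_add_distrib]
  ring

/-- `e ≠ 0` and `p` does not divide `J`: `J` drops for free. -/
theorem Nrm.low_e (hN : Nrm p v K w y ρ s ν e A N B J 0) (he : e ≠ 0) (hJ : ¬ p ∣ J) :
    Nrm p v K w y ρ s ν e A N B (J - 1) 0 where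
  toDt := hN.toDt
  toAdm := rb_adm
  BC := hN.BC
  BX := hN.BX
  B1 := hN.B1
  eB := hN.eB
  fam := fun ε hε => by
    obtain ⟨θ, hθ, h1, h2, h3, h4⟩ := hN.fam ε hε
    refine ⟨θ, hθ, fun i hi => ?_, h2, h3, h4⟩
    by_cases hiJ : i = J
    · rw [hiJ, rb_coeff (h2 he J hJ), coeff_zero]
    · exact h1 i (by omega)

/-- One step. The new family is `θ - θ₀ - C c * X ^ J - C (c_θ - c) * (X - C ψ) ^ J`,
`g = θ₀ + C c * X ^ J`, `ψ` near `w`. -/
theorem Nrm.step (h : Set0 v K Φ w Z κ ρ σ)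
    (hinf : ∀ n₀ : ℕ, ∃ n : ℕ, n₀ ≤ n ∧ ¬ v.Ge (ρ - n * σ) (PowerSeries.coeff n Z))
    (hN : Nrm p v K w y ρ s ν e A N B J R) (hJ : J ≠ 0) (hpJ : e ≠ 0 → p ∣ J)
    (htop : Top p v K w ρ ν e A N B J R) :
    ∃ g ∈ PI K, Nrm p v K w (y - g.eval w) ρ s ν e A N (fth p e A N B g) (J - 1) 0 := by
  obtain ⟨θ₀, hθ₀, h0, h1, c, hc, ε₁, hε₁, h2⟩ := top_jet h hinf hN hJ htop
  have hX : e ≠ 0 → ∀ l, ¬ p ∣ l → hasseDeriv l (θ₀ + C c * X ^ J) = 0 := by
    intro he l hl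
    rw [map_add, h1 he l hl, zero_add, hasse_C_mul, rb_hasse_pow (hpJ he) hl, mul_zero]
  have hg : θ₀ + C c * X ^ J ∈ PI K := add_mem hθ₀ (mul_mem (C_mem_PI hc) (pow_mem X_mem_PI _))
  refine ⟨θ₀ + C c * X ^ J, hg,
    { toDt := hN.toDt
      toAdm := rb_adm
      BC := fth_mem hN.toDt hN.BC hg
      BX := hN.clsX hX
      B1 := hN.cls1 hX
      eB := hN.eB.imp_right fun h3 => by rw [hN.cls hX (Nat.Prime.not_dvd_one hp.out), h3]
      fam := fun ε hε => ?_ }⟩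
  have hJ0 : (0 : ℝ) < J := by exact_mod_cast Nat.pos_of_ne_zero hJ
  have hp0 : (0 : ℝ) < p := by exact_mod_cast hp.out.pos
  have hQ0 : (0 : ℝ) < (p : ℝ) ^ N := by positivity
  have hQ1 : (1 : ℝ) ≤ (p : ℝ) ^ N := one_le_pow₀ (by exact_mod_cast hp.out.one_lt.le)
  obtain ⟨η, hη, hη1, hη2, hη3⟩ : ∃ η : ℝ, 0 < η ∧ η ≤ ε₁ ∧ 2 * η ≤ ε ∧ p ^ N * (2 * η) ≤ ε := by
    refine ⟨min ε₁ (ε / (2 * p ^ N)), lt_min hε₁ (by positivity), min_le_left _ _, ?_, ?_⟩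
    · have h3 : min ε₁ (ε / (2 * p ^ N)) ≤ ε / (2 * p ^ N) := min_le_right _ _
      rw [le_div_iff₀ (by positivity)] at h3
      have h4 : 0 < min ε₁ (ε / (2 * p ^ N)) := lt_min hε₁ (by positivity)
      nlinarith
    · have h3 : min ε₁ (ε / (2 * p ^ N)) ≤ ε / (2 * p ^ N) := min_le_right _ _
      rw [le_div_iff₀ (by positivity)] at h3
      linarith
  obtain ⟨θ, hθ, h3, h4, h5, h6⟩ := hN.fam η hη
  have h7 := h2 η hη hη1 θ hθ h3 h4 h5 h6
  obtain ⟨ψ, hψ, h8⟩ := h.tl.lim (η / J) (by positivity)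
  set d : Ω := (θ - θ₀).coeff J - c with hd
  have hdK : d ∈ K := sub_mem (by rw [coeff_sub]; exact sub_mem (hθ J) (hθ₀ J)) hc
  have hP : C d * (X - C ψ) ^ J ∈ PI K :=
    mul_mem (C_mem_PI hdK) (pow_mem (sub_mem X_mem_PI (C_mem_PI hψ)) _)
  have hPv : v.Ge (s - 2 * η) ((C d * (X - C ψ) ^ J).eval w) := by
    rw [eval_mul, eval_C, eval_pow, eval_sub, eval_X, eval_C]
    refine (h7.mul (ge_pow h8 J)).mono (le_of_eq ?_)
    field_simp
    ring
  have hmon : ((X - C ψ) ^ J).Monic := (monic_X_sub_C ψ).pow J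
  have hdeg : ((X - C ψ) ^ J).natDegree = J := by
    rw [(monic_X_sub_C ψ).natDegree_pow, natDegree_X_sub_C, mul_one]
  refine ⟨θ - (θ₀ + C c * X ^ J) - C d * (X - C ψ) ^ J, sub_mem (sub_mem hθ hg) hP, ?_, ?_, ?_, ?_⟩
  · intro i hi
    rw [coeff_zero, coeff_sub, coeff_sub, coeff_add, coeff_C_mul, coeff_C_mul, coeff_X_pow]
    by_cases hiJ : i = J
    · subst hiJ
      have h9 : ((X - C ψ) ^ i).coeff i = 1 := by
        have h10 := hmon.coeff_natDegree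
        rwa [hdeg] at h10
      rw [if_pos rfl, h9, hd, coeff_sub]
      ring
    · have h9 : ((X - C ψ) ^ J).coeff i = 0 :=
        coeff_eq_zero_of_natDegree_lt (by rw [hdeg]; omega)
      rw [if_neg hiJ, h9, h3 i (by omega), h0 i (by omega)]
      ring
  · intro he l hl
    rw [map_sub, map_sub, h4 he l hl, hX he l hl, hasse_C_mul, rb_hasse_pow (hpJ he) hl, mul_zero,
      sub_zero, sub_zero]
  · have e1 : y - (θ₀ + C c * X ^ J).eval w - (θ - (θ₀ + C c * X ^ J) - C d * (X - C ψ) ^ J).eval w =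
        (y - θ.eval w) + (C d * (X - C ψ) ^ J).eval w := by
      rw [eval_sub (θ - (θ₀ + C c * X ^ J)), eval_sub θ]
      ring
    rw [e1]
    exact (h5.mono (by linarith)).add (hPv.mono (by linarith))
  · rw [rb_fth]
    have e2 : θ - (θ₀ + C c * X ^ J) - C d * (X - C ψ) ^ J + (θ₀ + C c * X ^ J) =
        θ - C d * (X - C ψ) ^ J := by ring
    rw [e2]
    refine lp_mono (hN.lev (sub_mem hθ hP) (η := 2 * η) (by positivity) ?_) (by linarith)
    have e3 : y - (θ - C d * (X - C ψ) ^ J).eval w =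
        (y - θ.eval w) + (C d * (X - C ψ) ^ J).eval w := by
      rw [eval_sub]
      ring
    rw [e3]
    exact (h5.mono (by linarith)).add hPv

/-- **RAT**. `G2` is the reduction of R4. -/
theorem rat (h : Set0 v K Φ w Z κ ρ σ)
    (hinf : ∀ n₀ : ℕ, ∃ n : ℕ, n₀ ≤ n ∧ ¬ v.Ge (ρ - n * σ) (PowerSeries.coeff n Z))
    (G2 : ∀ (y' : Ω) (B' : Polynomial Ω) (J' : ℕ), J' ≠ 0 → Nrm p v K w y' ρ s ν e A N B' J' 0 →
      ∃ R' : Polynomial Ω, Nrm p v K w y' ρ s ν e A N B' J' R' ∧ Top p v K w ρ ν e A N B' J' R')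
    (hN : Nrm p v K w y ρ s ν e A N B J 0) :
    ∃ g ∈ PI K, Nrm p v K w (y - g.eval w) ρ s ν e A N (fth p e A N B g) 0 0 := by
  induction J generalizing y B with
  | zero =>
    refine ⟨0, zero_mem _, ?_⟩
    have e1 : fth p e A N B 0 = B := by
      rw [fth, mul_zero, zero_add, sum_eq_zero, zero_add]
      intro i _
      rw [zero_pow (pow_ne_zero _ hp.out.ne_zero), mul_zero]
    rwa [eval_zero, sub_zero, e1]
  | succ J ih =>
    by_cases he : e ≠ 0 ∧ ¬ p ∣ J + 1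
    · exact ih (hN.low_e he.1 he.2)
    · obtain ⟨R', hR', htop⟩ := G2 y B (J + 1) (Nat.succ_ne_zero J) hN
      obtain ⟨g₁, hg₁, h1⟩ := hR'.step h hinf (Nat.succ_ne_zero J)
        (fun h2 => by_contra fun h3 => he ⟨h2, h3⟩) htop
      obtain ⟨g₂, hg₂, h2⟩ := ih h1
      refine ⟨g₂ + g₁, add_mem hg₂ hg₁, ?_⟩
      rw [rb_fth] at h2
      have e1 : y - (g₂ + g₁).eval w = y - g₁.eval w - g₂.eval w := by
        rw [eval_add]
        ring
      rwa [e1]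

/-- RAT, with the reduction (G2) of the chain. -/
theorem rat_all (h : Set0 v K Φ w Z κ ρ σ)
    (hinf : ∀ n₀ : ℕ, ∃ n : ℕ, n₀ ≤ n ∧ ¬ v.Ge (ρ - n * σ) (PowerSeries.coeff n Z))
    (hN : Nrm p v K w y ρ s ν e A N B J 0) :
    ∃ g ∈ PI K, Nrm p v K w (y - g.eval w) ρ s ν e A N (fth p e A N B g) 0 0 :=
  rat h hinf (fun _ _ _ hJ' hN' => exists_R h hinf (Nat.one_le_iff_ne_zero.2 hJ') hN') hN

/-- The end: constant approximants. -/
theorem Nrm.const (hN : Nrm p v K w y ρ s ν e A N B 0 0) {ε : ℝ} (hε : 0 < ε) :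
    ∃ c ∈ K, v.Ge (s - ε) (y - c) ∧
      LP p v (cadj v K w) (ν - ε) ((fth p e A N B (C c)).eval w) := by
  obtain ⟨θ, hθ, h1, -, h2, h3⟩ := hN.fam ε hε
  have e1 : θ = C (θ.coeff 0) := by
    ext i
    rw [coeff_C]
    split_ifs with hi
    · rw [hi]
    · rw [h1 i (Nat.pos_of_ne_zero hi), coeff_zero]
  rw [e1] at h2 h3
  rw [eval_C] at h2
  exact ⟨θ.coeff 0, hθ 0, h2, h3⟩

/-- The end: `J = 0`. -/
theorem Nrm.tl (hy : TL v (cadj v K w) y s) (hN : Nrm p v K w y ρ s ν e A N B 0 0) :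
    TL v K y s where
  lim := fun ε hε => by
    obtain ⟨c, hc, h1, -⟩ := hN.const hε
    exact ⟨c, hc, h1⟩
  far := fun θ hθ => hy.far θ (D2P.isAlgebraic_mono (le_cadj v K w) hθ)

end Pool.Agent.TWN1
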