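import Pool.Agent.Lib.TWN1.GabE
import Pool.Agent.Lib.TWN1.GabF
import Pool.Agent.Lib.TWN1.Nf
import Pool.Agent.Lib.TWN1.RatB

/-!
# TANK W, N1 + Theorem G: `w` with infinitely many visible jets

* `inf_af`: from the output of `soc` (over `F = cadj v C w`) to the additive form over the pair
  `w, y - g`, `g ∈ F` (`exists_nrm`, `rat_all`, `Nrm.af`);
* `inf_res`: every critical element of `K = cadj v F y` satisfies the dichotomy `Res`;
* `n1_res`: the same for `w` of any shape.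
-/

set_option autoImplicit false

open Polynomial Finset

namespace Pool.Agent.TWN1

open Pool.Agent.H15JM (RVal)
open Pool.Agent.TWM
open Pool.Agent.TWII (PG LP)
open Pool.Agent.TWLM (HSd Oi Arc)

universe u

variable {k Ω : Type u} [Field k] [Field Ω] [Algebra k Ω] [IsAlgClosed Ω] {v : RVal Ω}
  {C K : IntermediateField k Ω} {Φ : ℕ → Ω → Ω} {w y b : Ω} {Z : PowerSeries Ω} {κ : ℕ → ℝ}
  {ρ σ s ν : ℝ} {p : ℕ} [hp : Fact p.Prime] [CharP Ω p]

/-- The additive form of a socle class. -/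
theorem inf_af (hΩ : CompleteV v) (h : Set0 v C Φ w Z κ ρ σ)
    (hinf : ∀ n₀ : ℕ, ∃ n : ℕ, n₀ ≤ n ∧ ¬ v.Ge (ρ - n * σ) (PowerSeries.coeff n Z))
    (hy : TL v (cadj v C w) y s)
    {e₀ a₀ : Ω} {A₀ : ℕ → Ω} {N : ℕ} (hN : 1 ≤ N) (he₀ : e₀ ∈ cadj v C w)
    (hev : v.Ge (ν - s) e₀) (ha₀ : a₀ ∈ cadj v C w)
    (hA₀ : ∀ i ∈ Icc 1 N, A₀ i ∈ cadj v C w)
    (hlo : ∀ i ∈ Icc 1 N, LP p v (cadj v C w) (ν - p ^ i * s) (A₀ i))
    (htop : ¬ PG p v (cadj v C w) (ν - p ^ N * s) (A₀ N))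
    (hst : ∀ ε : ℝ, 0 < ε → ∃ δ : ℝ, 0 < δ ∧ ∀ θ ∈ cadj v C w, v.Ge (s - δ) (y - θ) →
      ∃ g ∈ cadj v C w, v.Ge (ν - ε)
        (e₀ * θ + ∑ i ∈ Icc 1 N, A₀ i * θ ^ p ^ i + a₀ - g ^ p))
    (ha : PG p v (cadj v (cadj v C w) y) ν
      (b - (e₀ * y + ∑ i ∈ Icc 1 N, A₀ i * y ^ p ^ i + a₀))) :
    ∃ g ∈ cadj v C w, ∃ (b₀ : Ω) (x : ℕ → Ω) (S : ℕ) (y' : ℕ → Ω),
      AF p v C (cadj v (cadj v C w) y) ν b b₀ w ρ x S (y - g) s y' N ∧
      ¬ PG p v C (ν - p ^ N * s) (y' N) := by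
  obtain ⟨c, e, e₂, A, B, J, hc, hNr, -, he₂, hB1, -, hrel⟩ :=
    exists_nrm hΩ h hinf hy hN he₀ hev ha₀ hA₀ hlo htop hst ha
  obtain ⟨g, hg, hNr'⟩ := rat_all h hinf hNr
  have hgF : g.eval w ∈ cadj v C w := TWLM.eval_mem_cadj hg
  have hcg : c + g.eval w ∈ cadj v C w := add_mem hc hgF
  have ey : y - c - g.eval w = y - (c + g.eval w) := by ring
  rw [ey] at hNr'
  have hy' : TL v (cadj v C w) (y - (c + g.eval w)) s := TL.sub_mem hy hcg
  have hK : cadj v (cadj v C w) (y - (c + g.eval w)) = cadj v (cadj v C w) y := cadj_sub_mem hcg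
  obtain ⟨e₂', he₂'⟩ : ∃ e₂' : Ω, hasseDeriv 1 (fth p e A N B g) = Polynomial.C e₂' := by
    rcases hNr'.eB with h0 | h0
    · refine ⟨e₂, ?_⟩
      rw [hasseDeriv_one] at hB1 ⊢
      rw [derivative_fth, h0, C_0, zero_mul, zero_add, hB1]
    · exact ⟨0, by rw [h0, C_0]⟩
  have hrel' : PG p v (cadj v (cadj v C w) (y - (c + g.eval w))) ν
      (b - (e * (y - (c + g.eval w)) + ∑ i ∈ Icc 1 N, A i * (y - (c + g.eval w)) ^ p ^ i +
        (fth p e A N B g).eval w)) := by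
    rw [hK]
    have e1 : e * (y - (c + g.eval w)) + ∑ i ∈ Icc 1 N, A i * (y - (c + g.eval w)) ^ p ^ i +
        (fth p e A N B g).eval w =
        e * (y - c) + ∑ i ∈ Icc 1 N, A i * (y - c) ^ p ^ i + B.eval w := by
      rw [fth_eval]
      have e2 := ff_add (p := p) e A N (B.eval w) (y - (c + g.eval w)) (g.eval w)
      have e3 : y - (c + g.eval w) + g.eval w = y - c := by ring
      rw [e3] at e2
      unfold ff at e2 ⊢
      exact e2.symm
    rw [e1]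
    exact hrel
  obtain ⟨b₀, x, S, y', h1, -, -, -, h2⟩ := hNr'.af h hinf hy' he₂' hrel'
  rw [hK] at h1
  exact ⟨c + g.eval w, hcg, b₀, x, S, y', h1, h2⟩

/-- **N1 and Theorem G**, infinite shape. -/
theorem inf_res (hΩ : CompleteV v) (hΦ : Arc v C σ Φ) (h : Set0 v C Φ w Z κ ρ σ)
    (hinf : ∀ n₀ : ℕ, ∃ n : ℕ, n₀ ≤ n ∧ ¬ v.Ge (ρ - n * σ) (PowerSeries.coeff n Z))
    (hy : TL v (cadj v C w) y s) (hK : K = cadj v (cadj v C w) y) {a : Ω} (ha : a ∈ K)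
    (hlp : LP p v K ν a) : Res p v C K σ Φ ν a := by
  subst hK
  obtain ⟨f, hf, h1⟩ := hy.dense ha (ν + 1)
  have h2 : PG p v (cadj v (cadj v C w) y) ν (a - f.eval y) := .of_gt (Gt.of_ge h1 (by linarith))
  have h7 : LP p v (cadj v (cadj v C w) y) ν (f.eval y) := by
    have h8 := hlp.sub (TWII.LP.of_pg h2)
    rwa [sub_sub_cancel] at h8
  by_cases hhit : ∃ l : ℕ, p ∣ l ∧ l ≠ 0 ∧
      ¬ PG p v (cadj v (cadj v C w) y) (ν - l * s) ((taylor y f).coeff l)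
  · obtain ⟨m, t, e₀, a₀, A₀, -, he₀, ha₀, hA₀, hev, hlo, htop, hrel, hst⟩ :=
      TWII.soc p hy hf h7 hhit
    have hsum : ∀ z : Ω, ∑ i ∈ Finset.range (t + 1), A₀ i * z ^ p ^ (i + 1) =
        ∑ i ∈ Icc 1 (t + 1), A₀ (i - 1) * z ^ p ^ i := by
      intro z
      have e1 : Icc 1 (t + 1) = Ico 1 (t + 1 + 1) := by
        ext i
        simp only [mem_Icc, mem_Ico]
        omega
      rw [e1, sum_Ico_eq_sum_range]
      refine sum_congr rfl fun i _ => ?_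
      rw [add_comm 1 i, Nat.add_sub_cancel]
    obtain ⟨g, hg, b₀, x, S, y', h3, h4⟩ := inf_af (p := p) (ν := ν - m * s) (N := t + 1)
      (A₀ := fun i => A₀ (i - 1)) (b := (hasseDeriv m f).eval y) hΩ h hinf hy (by omega) he₀
      hev ha₀ (fun i _ => hA₀ _) (fun i hi => by
        obtain ⟨j, rfl⟩ : ∃ j, i = j + 1 := ⟨i - 1, by have := (mem_Icc.1 hi).1; omega⟩
        have h5 := hlo j
        push_cast at h5
        simpa using h5) (by
        intro h5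
        refine htop (TWII.PG.up ?_)
        push_cast
        simpa using h5) (fun ε hε => by
        obtain ⟨δ, hδ, h5⟩ := hst ε hε
        refine ⟨δ, hδ, fun θ hθ h6 => ?_⟩
        obtain ⟨q, hq, h8⟩ := h5 θ hθ h6
        refine ⟨q, hq, ?_⟩
        rw [hsum] at h8
        have e1 : e₀ * θ + ∑ i ∈ Icc 1 (t + 1), A₀ (i - 1) * θ ^ p ^ i + a₀ - q ^ p =
            a₀ + e₀ * θ + ∑ i ∈ Icc 1 (t + 1), A₀ (i - 1) * θ ^ p ^ i - q ^ p := by ring
        rw [e1]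
        exact h8) (by
        rw [hsum] at hrel
        have e1 : e₀ * y + ∑ i ∈ Icc 1 (t + 1), A₀ (i - 1) * y ^ p ^ i + a₀ =
            a₀ + e₀ * y + ∑ i ∈ Icc 1 (t + 1), A₀ (i - 1) * y ^ p ^ i := by ring
        rw [e1]
        exact hrel)
    -- the polynomial in the new variable
    have hf' : taylor g f ∈ PI (cadj v C w) := taylor_mem_PI hf hg
    have e1 : (taylor g f).eval (y - g) = f.eval y := by rw [taylor_eval, sub_add_cancel]
    have e2 : (hasseDeriv m (taylor g f)).eval (y - g) = (hasseDeriv m f).eval y := by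
      rw [← taylor_coeff, ← taylor_coeff, taylor_taylor, sub_add_cancel]
    refine gab hΦ h.oi h3.par hf' ha hlp ?_ (by rw [e2]; exact h3) (Nat.succ_ne_zero t) h4
    rw [e1]
    exact h2
  · left
    simp only [not_exists, not_and, not_not] at hhit
    exact ⟨w, y, ρ, s, ⟨h.tl, hy, rfl⟩, f, hf, h2, hhit⟩

omit [IsAlgClosed Ω] hp [CharP Ω p] in
/-- Finitely many visible coefficients: finite shape. -/
theorem Set0.finS (h : Set0 v C Φ w Z κ ρ σ) {n₀ : ℕ}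
    (hfin : ∀ n : ℕ, n₀ ≤ n → v.Ge (ρ - n * σ) (PowerSeries.coeff n Z)) : FinS v C σ ρ Φ w := by
  refine ⟨n₀, fun l hl => ⟨κ l / 2, half_pos (h.kpos l), fun θ hθ h1 => ?_⟩⟩
  have h2 := h.near l (by omega) θ hθ _ h1
  have e1 : Φ l θ = PowerSeries.coeff l Z - (PowerSeries.coeff l Z - Φ l θ) := by ring
  change v.Ge (ρ - l * σ) (Φ l θ)
  rw [e1]
  refine (hfin l hl.le).sub (h2.mono ?_)
  have h3 := h.kpos l
  have h4 : ρ ≤ min (ρ - κ l / 2 + κ l) (ρ + κ l / 2) :=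
    le_min (by linarith) (by linarith)
  linarith

/-- **N1 and Theorem G**: `C` with a strict overconvergent arc, `w` of transcendental type over `C`,
`y` over the closure `F` of `C(w)`; every critical element `a` of `K = cadj v F y` satisfies the
dichotomy `Res`. -/
theorem n1_res (hΩ : CompleteV v) (hΦ : Arc v C σ Φ) (ho : Oi v C σ Φ) (hw : TL v C w ρ)
    (hy : TL v (cadj v C w) y s) (hK : K = cadj v (cadj v C w) y) {a : Ω} (ha : a ∈ K)
    (hlp : LP p v K ν a) : Res p v C K σ Φ ν a := by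
  obtain ⟨Z, κ, h⟩ := exists_set0 hΦ.toHSd ho (fun n hn => by
    obtain ⟨m, hm, h1⟩ := hΦ.str n hn
    exact ⟨n * σ - m, by linarith, fun x hx b hb => (h1 x hx b hb).mono (by linarith)⟩) hw
  by_cases hinf : ∀ n₀ : ℕ, ∃ n : ℕ, n₀ ≤ n ∧ ¬ v.Ge (ρ - n * σ) (PowerSeries.coeff n Z)
  · exact inf_res hΩ hΦ h hinf hy hK ha hlp
  · simp only [not_forall, not_exists, not_and, not_not] at hinf
    obtain ⟨n₀, hfin⟩ := hinf
    rcases unh_or_finS hy hK ha hlp with h1 | h1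
    · exact Or.inl ⟨w, y, ρ, s, ⟨hw, hy, hK⟩, h1⟩
    · exact Or.inr ⟨w, y, ρ, s, ⟨hw, hy, hK⟩, h.finS hfin, fun Ψ hΨ hoΨ _ => h1 Ψ hΨ hoΨ⟩

end Pool.Agent.TWN1
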