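import Pool.Agent.Lib.TWN1.GabB

/-!
# TANK W, Theorem G, part C: growth

* `AF.stab`: the additive form at points of `C` near the generators;
* `AF.fin2`: independent tops: both generators have finite visible shape along the strict arcs;
* `AF.fin1`: the first column is empty and its linear coefficient null: `z₂` has finite visible
  shape.
-/

set_option autoImplicit false

open Polynomial Finset

namespace Pool.Agent.TWN1

open Pool.Agent.H15JM (RVal)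
open Pool.Agent.TWM
open Pool.Agent.TWII (PG LP)
open Pool.Agent.TWLM (HSd Oi Arc)

universe u

variable {k Ω : Type u} [Field k] [Field Ω] [Algebra k Ω] {v : RVal Ω}
  {C K : IntermediateField k Ω} {p : ℕ} [hp : Fact p.Prime] [CharP Ω p]
  {ν : ℝ} {b b₀ z z₁ z₂ : Ω} {r r₁ r₂ : ℝ} {x y : ℕ → Ω} {S T : ℕ}

/-- The variation of a column. -/
theorem Col.near (hx : Col p v C ν r x) (hCK : C ≤ K) (hz : z ∈ K) (S : ℕ) {ε : ℝ} (hε : 0 < ε) :
    ∃ δ : ℝ, 0 < δ ∧ ∀ θ ∈ C, v.Ge (r - δ) (z - θ) →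
      PC p v K (ν - ε) (col p x z S - col p x θ S) := by
  have hp1 : (1 : ℝ) ≤ p := by exact_mod_cast hp.out.one_lt.le
  have hpS : (0 : ℝ) < (p : ℝ) ^ S := by positivity
  refine ⟨ε / (2 * p ^ S), by positivity, fun θ hθ h1 => ?_⟩
  have e : col p x z S - col p x θ S = ∑ j ∈ range (S + 1), x j * (z - θ) ^ p ^ j := by
    rw [col, col, ← sum_sub_distrib]
    refine sum_congr rfl fun j _ => ?_
    rw [sub_pow_char_pow]
    ring
  rw [e]
  refine PC.sum _ _ fun j hj => ?_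
  have hjS : j ≤ S := Nat.lt_succ_iff.1 (mem_range.1 hj)
  have hpj : (p : ℝ) ^ j ≤ p ^ S := pow_le_pow_right₀ hp1 hjS
  have hpj0 : (0 : ℝ) < (p : ℝ) ^ j := by positivity
  have h2 := TWII.ge_pow' h1 (p ^ j)
  have h3 : (p : ℝ) ^ j * (ε / (2 * p ^ S)) ≤ ε / 2 := by
    have e3 : (p : ℝ) ^ S * (ε / (2 * p ^ S)) = ε / 2 := by field_simp
    rw [← e3]
    exact mul_le_mul_of_nonneg_right hpj (by positivity)
  have h4 : v.Ge (p ^ j * r - ε / 2) ((z - θ) ^ p ^ j) := by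
    refine h2.mono ?_
    push_cast
    rw [mul_sub]
    linarith
  rcases Nat.eq_zero_or_pos j with rfl | hj0
  · refine PC.of_ge ?_
    refine (hx.lin.mul h4).mono ?_
    rw [pow_zero]
    linarith
  · obtain ⟨g, hg, h5⟩ := hx.lev j hj0.ne' (ε / 2) (half_pos hε)
    refine ⟨g * (z - θ) ^ p ^ (j - 1), mul_mem (hCK hg) (pow_mem (sub_mem hz (hCK hθ)) _), ?_⟩
    have e1 : x j * (z - θ) ^ p ^ j - (g * (z - θ) ^ p ^ (j - 1)) ^ p =
        (x j - g ^ p) * (z - θ) ^ p ^ j := by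
      rw [_root_.mul_pow, ← pow_mul, ← pow_succ, Nat.sub_add_cancel hj0]
      ring
    rw [e1]
    exact (h5.mul h4).mono (by linarith)

omit hp [CharP Ω p] in
theorem col_zero : col p x z 0 = x 0 * z := by
  rw [col, zero_add, sum_range_one, pow_zero, pow_one]

omit [CharP Ω p] in
theorem Col.hlev (hx : Col p v C ν r x) (j : ℕ) (ε : ℝ) (hε : 0 < ε) : ∃ w ∈ C, (j = 0 → w = 0) ∧
    v.Ge (ν - (p : ℝ) ^ j * r - ε) (x j - w ^ p) := by
  rcases eq_or_ne j 0 with rfl | hj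
  · refine ⟨0, C.zero_mem, fun _ => rfl, ?_⟩
    rw [zero_pow hp.out.ne_zero, sub_zero]
    refine hx.lin.mono ?_
    rw [pow_zero]
    linarith
  · obtain ⟨g, hg, h1⟩ := hx.lev j hj ε hε
    exact ⟨g, hg, fun h => absurd h hj, h1⟩

/-- The additive form near the generators. -/
theorem AF.stab [IsAlgClosed Ω] (h : AF p v C K ν b b₀ z₁ r₁ x S z₂ r₂ y T)
    (hb : LP p v K ν b) {ε : ℝ} (hε : 0 < ε) : ∃ δ : ℝ, 0 < δ ∧ ∀ θ₁ ∈ C, ∀ θ₂ ∈ C,
      v.Ge (r₁ - δ) (z₁ - θ₁) → v.Ge (r₂ - δ) (z₂ - θ₂) →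
      PC p v C (ν - ε) (b₀ + col p x θ₁ S + col p y θ₂ T) := by
  obtain ⟨δ₁, hδ₁, h1⟩ := h.c1.near h.par.le h.par.mem1 S hε
  obtain ⟨δ₂, hδ₂, h2⟩ := h.c2.near h.par.le h.par.mem2 T hε
  have h0 : PC p v K (ν - ε) (b₀ + col p x z₁ S + col p y z₂ T) := by
    have h3 := hb.sub (TWII.LP.of_pg h.rel)
    rw [sub_sub_cancel] at h3
    exact h3.pc (by linarith)
  refine ⟨min δ₁ δ₂, lt_min hδ₁ hδ₂, fun θ₁ hθ₁ θ₂ hθ₂ h3 h4 => h.par.down ?_ ?_⟩
  · refine add_mem (add_mem h.b0 ?_) ?_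
    · exact sum_mem fun j _ => mul_mem (h.c1.mem j) (pow_mem hθ₁ _)
    · exact sum_mem fun j _ => mul_mem (h.c2.mem j) (pow_mem hθ₂ _)
  · have h5 := h1 θ₁ hθ₁ (h3.mono (by linarith [min_le_left δ₁ δ₂]))
    have h6 := h2 θ₂ hθ₂ (h4.mono (by linarith [min_le_right δ₁ δ₂]))
    have e : b₀ + col p x θ₁ S + col p y θ₂ T = (b₀ + col p x z₁ S + col p y z₂ T) -
        (col p x z₁ S - col p x θ₁ S) - (col p y z₂ T - col p y θ₂ T) := by ring
    rw [e]
    exact (h0.sub h5).sub h6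

variable {σ : ℝ} {Φ : ℕ → Ω → Ω}

/-- **Growth, independent tops.** -/
theorem AF.fin2 [IsAlgClosed Ω] (h : AF p v C K ν b b₀ z₁ r₁ x S z₂ r₂ y T)
    (hb : LP p v K ν b) (hΦ : Arc v C σ Φ) (ho : Oi v C σ Φ)
    (hind : ∀ c₁ ∈ C, ∀ c₂ ∈ C, ∀ t : ℝ, PG p v C t (x S * c₁ ^ p ^ S + y T * c₂ ^ p ^ T) →
      Gt v (t - ν + p ^ S * r₁) (c₁ ^ p ^ S) ∧ Gt v (t - ν + p ^ T * r₂) (c₂ ^ p ^ T)) :
    ∃ L : ℕ, ∀ l : ℕ, L < l → (TWII.Nr v C r₁ z₁ fun θ => v.Ge (r₁ - l * σ) (Φ l θ)) ∧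
      (TWII.Nr v C r₂ z₂ fun θ => v.Ge (r₂ - l * σ) (Φ l θ)) := by
  obtain ⟨L, hL⟩ := TWII.propHV_arc p (ι := Bool) hΦ ho (ρ := fun i => cond i r₂ r₁)
    (u := fun i => cond i z₂ z₁) (fun i => by cases i; exacts [h.par.t1.lim, h.par.t2.lim])
    (ν := ν) h.b0 (fun i => cond i T S) (fun i => cond i y x)
    (fun i j _ => by cases i; exacts [h.c1.mem j, h.c2.mem j])
    (fun i j _ ε hε => by cases i; exacts [h.c1.hlev j ε hε, h.c2.hlev j ε hε])
    (fun c hc t ht i => by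
      rw [Fintype.sum_bool, add_comm] at ht
      have h1 := hind (c false) (hc false) (c true) (hc true) t ht
      cases i
      exacts [h1.1, h1.2])
    (fun ε hε => by
      obtain ⟨δ, hδ, h1⟩ := h.stab hb hε
      refine ⟨δ, hδ, fun θ hθ h2 => ?_⟩
      beta_reduce
      rw [Fintype.sum_bool]
      obtain ⟨g, hg, h3⟩ := h1 (θ false) (hθ false) (θ true) (hθ true) (h2 false) (h2 true)
      refine ⟨g, hg, ?_⟩
      have e : b₀ + (∑ j ∈ range (cond true T S + 1), cond true y x j * θ true ^ p ^ j +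
          ∑ j ∈ range (cond false T S + 1), cond false y x j * θ false ^ p ^ j) - g ^ p =
          b₀ + col p x (θ false) S + col p y (θ true) T - g ^ p := by
        rw [col, col]
        simp only [cond_true, cond_false]
        ring
      rw [e]
      exact h3)
  exact ⟨L, fun l hl => ⟨hL false l hl, hL true l hl⟩⟩

/-- **Growth, the first column is empty.** -/
theorem AF.fin1 [IsAlgClosed Ω] (h : AF p v C K ν b b₀ z₁ r₁ x 0 z₂ r₂ y T)
    (hb : LP p v K ν b) (hΦ : Arc v C σ Φ) (ho : Oi v C σ Φ) (hx : Gt v (ν - r₁) (x 0))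
    (hT : T ≠ 0) (hyT : ¬ PG p v C (ν - p ^ T * r₂) (y T)) :
    ∃ L : ℕ, ∀ l : ℕ, L < l → TWII.Nr v C r₂ z₂ fun θ => v.Ge (r₂ - l * σ) (Φ l θ) := by
  -- the point for `z₁`
  obtain ⟨μ, hμ, hxμ⟩ := TWLM.exists_ge_of_gt hx
  obtain ⟨θ₁, hθ₁, h1⟩ := h.par.t1.lim μ hμ
  have h2 : v.Ge ν (x 0 * (z₁ - θ₁)) := (hxμ.mul h1).mono (by linarith)
  have ha₀ : b₀ + x 0 * θ₁ ∈ C := add_mem h.b0 (mul_mem (h.c1.mem 0) hθ₁)
  obtain ⟨L, hL⟩ := TWII.propHV_arc p (ι := Unit) hΦ ho (ρ := fun _ => r₂)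
    (u := fun _ => z₂) (fun _ => h.par.t2.lim) (ν := ν) ha₀ (fun _ => T) (fun _ => y)
    (fun _ j _ => h.c2.mem j) (fun _ j _ ε hε => h.c2.hlev j ε hε)
    (fun c hc t ht i => by
      rw [Finset.univ_unique, Finset.sum_singleton] at ht
      refine (TWII.ind_of_not_pg p hT hyT (hc _) ht).mono (le_of_eq ?_)
      ring)
    (fun ε hε => by
      obtain ⟨δ₂, hδ₂, h3⟩ := h.c2.near h.par.le h.par.mem2 T hε
      have h0 : PC p v K (ν - ε) (b₀ + col p x z₁ 0 + col p y z₂ T) := by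
        have h3 := hb.sub (TWII.LP.of_pg h.rel)
        rw [sub_sub_cancel] at h3
        exact h3.pc (by linarith)
      refine ⟨δ₂, hδ₂, fun θ hθ h4 => ?_⟩
      have h5 := h3 (θ ()) (hθ ()) (h4 ())
      beta_reduce
      rw [Finset.univ_unique, Finset.sum_singleton]
      change PC p v C (ν - ε) (b₀ + x 0 * θ₁ + col p y (θ ()) T)
      refine h.par.down (add_mem ha₀ (sum_mem fun j _ => mul_mem (h.c2.mem j)
        (pow_mem (hθ ()) _))) ?_
      have e : b₀ + x 0 * θ₁ + col p y (θ ()) T = (b₀ + col p x z₁ 0 + col p y z₂ T) -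
          x 0 * (z₁ - θ₁) - (col p y z₂ T - col p y (θ ()) T) := by
        rw [col_zero]
        ring
      rw [e]
      exact (h0.sub (PC.of_ge (h2.mono (by linarith)))).sub h5)
  exact ⟨L, fun l hl => hL () l hl⟩

end Pool.Agent.TWN1
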