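import Pool.Agent.Lib.TWN1.Trunc
import Pool.Agent.Lib.TWII.Hit
import Pool.Agent.Lib.TWM.G3

/-!
# TANK W, Theorem G, part A: additive forms over a pair of generators, column reduction

`Par v C K z₁ r₁ z₂ r₂`: `K` is the closure of `C(z₁, z₂)`, both `z i` of transcendental type over
`C` and over the closure of `C` and the other one. `Col`: the coefficients of a column;
`col p x z S = ∑ j ≤ S, x j * z ^ p ^ j`. `AF`: `b = b₀ + col p x z₁ S + col p y z₂ T` modulo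
`K ^ p + {> ν}`.
* `AF.drop`: a null top may be dropped;
* `AF.step`: dependent tops: `z₂ + s z₁ ^ p ^ (S - T)`;
* `AF.red`: column reduction.
-/

set_option autoImplicit false

open Polynomial Finset

namespace Pool.Agent.TWN1

open Pool.Agent.H15JM (RVal)
open Pool.Agent.TWM
open Pool.Agent.TWII (PG LP)
open Pool.Agent.TWLM (HSd Oi Arc eq_zero_of_ge exists_ge eval_mem_cadj)

universe u

variable {k Ω : Type u} [Field k] [Field Ω] [Algebra k Ω] {v : RVal Ω}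
  {C K : IntermediateField k Ω}

/-! ### Pairs -/

/-- `K` is the closure of `C(z₁, z₂)`. -/
structure Par (v : RVal Ω) (C K : IntermediateField k Ω) (z₁ : Ω) (r₁ : ℝ) (z₂ : Ω) (r₂ : ℝ) :
    Prop where
  t1 : TL v C z₁ r₁
  t2 : TL v C z₂ r₂
  t21 : TL v (cadj v C z₁) z₂ r₂
  t12 : TL v (cadj v C z₂) z₁ r₁
  eq1 : K = cadj v (cadj v C z₁) z₂
  eq2 : K = cadj v (cadj v C z₂) z₁

section Par

variable {z₁ z₂ : Ω} {r₁ r₂ : ℝ}

theorem Par.symm (h : Par v C K z₁ r₁ z₂ r₂) : Par v C K z₂ r₂ z₁ r₁ :=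
  ⟨h.t2, h.t1, h.t12, h.t21, h.eq2, h.eq1⟩

theorem Par.mk' [IsAlgClosed Ω] (h1 : TL v C z₁ r₁) (h2 : TL v (cadj v C z₁) z₂ r₂)
    (hl : Lim v C r₂ z₂) (hK : K = cadj v (cadj v C z₁) z₂) : Par v C K z₁ r₁ z₂ r₂ :=
  ⟨h1, (h1.swap h2 hl).1, h2, (h1.swap h2 hl).2, hK, by rw [hK, cadj_comm]⟩

theorem Par.le (h : Par v C K z₁ r₁ z₂ r₂) : C ≤ K := by
  rw [h.eq1]
  exact (le_cadj v C z₁).trans (le_cadj v _ z₂)

theorem Par.mem2 (h : Par v C K z₁ r₁ z₂ r₂) : z₂ ∈ K := by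
  rw [h.eq1]
  exact self_mem_cadj v _ z₂

theorem Par.mem1 (h : Par v C K z₁ r₁ z₂ r₂) : z₁ ∈ K := h.symm.mem2

end Par

variable {p : ℕ} [hp : Fact p.Prime] [CharP Ω p]

theorem Par.down [IsAlgClosed Ω] {z₁ z₂ : Ω} {r₁ r₂ : ℝ} (h : Par v C K z₁ r₁ z₂ r₂) {c : ℝ}
    {x : Ω} (hx : x ∈ C) (hl : PC p v K c x) : PC p v C c x := by
  rw [h.eq1] at hl
  exact PC.down h.t1 hx (PC.down h.t21 (le_cadj v C z₁ hx) hl)

omit hp [CharP Ω p] in
theorem PG.of_le' {F' : IntermediateField k Ω} (h : C ≤ F') {c : ℝ} {x : Ω}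
    (hx : PG p v C c x) : PG p v F' c x := by
  obtain ⟨g, hg, h1⟩ := hx
  exact ⟨g, h hg, h1⟩

omit hp [CharP Ω p] in
theorem LP.of_le' {F' : IntermediateField k Ω} (h : C ≤ F') {c : ℝ} {x : Ω}
    (hx : LP p v C c x) : LP p v F' c x := fun ε hε => by
  obtain ⟨g, hg, h1⟩ := hx ε hε
  exact ⟨g, h hg, h1⟩

/-! ### Columns -/

/-- The coefficients of a column, level `ν`, radius `r`. -/
structure Col (p : ℕ) (v : RVal Ω) (C : IntermediateField k Ω) (ν r : ℝ) (x : ℕ → Ω) : Prop where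
  mem : ∀ j, x j ∈ C
  lin : v.Ge (ν - r) (x 0)
  lev : ∀ j : ℕ, j ≠ 0 → LP p v C (ν - p ^ j * r) (x j)

/-- `∑ j ≤ S, x j * z ^ p ^ j`. -/
noncomputable def col (p : ℕ) (x : ℕ → Ω) (z : Ω) (S : ℕ) : Ω :=
  ∑ j ∈ range (S + 1), x j * z ^ p ^ j

/-- The additive form. -/
structure AF (p : ℕ) (v : RVal Ω) (C K : IntermediateField k Ω) (ν : ℝ) (b b₀ : Ω)
    (z₁ : Ω) (r₁ : ℝ) (x : ℕ → Ω) (S : ℕ) (z₂ : Ω) (r₂ : ℝ) (y : ℕ → Ω) (T : ℕ) : Prop where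
  par : Par v C K z₁ r₁ z₂ r₂
  c1 : Col p v C ν r₁ x
  c2 : Col p v C ν r₂ y
  b0 : b₀ ∈ C
  rel : PG p v K ν (b - (b₀ + col p x z₁ S + col p y z₂ T))

section AF

variable {ν : ℝ} {b b₀ z₁ z₂ : Ω} {r₁ r₂ : ℝ} {x y : ℕ → Ω} {S T : ℕ}

omit hp [CharP Ω p] in
theorem AF.symm (h : AF p v C K ν b b₀ z₁ r₁ x S z₂ r₂ y T) :
    AF p v C K ν b b₀ z₂ r₂ y T z₁ r₁ x S where
  par := h.par.symm
  c1 := h.c2
  c2 := h.c1
  b0 := h.b0
  rel := by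
    have e : b - (b₀ + col p y z₂ T + col p x z₁ S) = b - (b₀ + col p x z₁ S + col p y z₂ T) := by
      ring
    rw [e]
    exact h.rel

/-- A null coefficient times `(z - c) ^ p ^ j`. -/
theorem null_term {z : Ω} {r : ℝ} {a : Ω} (haC : a ∈ C) {j : ℕ} (hj : j ≠ 0)
    (ha : PG p v C (ν - p ^ j * r) a) (hCK : C ≤ K) (hz : z ∈ K) :
    ∃ δ : ℝ, 0 < δ ∧ ∀ c ∈ C, v.Ge (r - δ) (z - c) → PG p v K ν (a * (z - c) ^ p ^ j) := by
  obtain ⟨μ, hμ, g, hg, h1⟩ := ha.exists_pc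
  have hpj : (0 : ℝ) < (p : ℝ) ^ j := by
    have := hp.out.pos
    positivity
  refine ⟨μ / (2 * p ^ j), by positivity, fun c hc hzc => ?_⟩
  obtain ⟨i, rfl⟩ : ∃ i, j = i + 1 := ⟨j - 1, by omega⟩
  refine ⟨g * (z - c) ^ p ^ i, mul_mem (hCK hg) (pow_mem (sub_mem hz (hCK hc)) _), ?_⟩
  have e : a * (z - c) ^ p ^ (i + 1) - (g * (z - c) ^ p ^ i) ^ p =
      (a - g ^ p) * (z - c) ^ p ^ (i + 1) := by
    rw [_root_.mul_pow, ← pow_mul, ← pow_succ]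
    ring
  rw [e]
  refine Gt.of_ge (h1.mul (TWII.ge_pow' hzc (p ^ (i + 1)))) ?_
  push_cast
  rw [mul_sub]
  have e2 : (p : ℝ) ^ (i + 1) * (μ / (2 * p ^ (i + 1))) = μ / 2 := by
    field_simp
  rw [e2]
  linarith

/-- A null top may be dropped. -/
theorem AF.drop (h : AF p v C K ν b b₀ z₁ r₁ x (S + 1) z₂ r₂ y T)
    (hn : PG p v C (ν - p ^ (S + 1) * r₁) (x (S + 1))) :
    ∃ b₀' : Ω, AF p v C K ν b b₀' z₁ r₁ x S z₂ r₂ y T := by
  obtain ⟨δ, hδ, h1⟩ := null_term (K := K) (h.c1.mem (S + 1)) (Nat.succ_ne_zero S) hn h.par.le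
    h.par.mem1
  obtain ⟨c, hc, h2⟩ := h.par.t1.lim δ hδ
  refine ⟨b₀ + x (S + 1) * c ^ p ^ (S + 1), h.par, h.c1, h.c2,
    add_mem h.b0 (mul_mem (h.c1.mem _) (pow_mem hc _)), ?_⟩
  have e : b - (b₀ + x (S + 1) * c ^ p ^ (S + 1) + col p x z₁ S + col p y z₂ T) =
      (b - (b₀ + col p x z₁ (S + 1) + col p y z₂ T)) + x (S + 1) * (z₁ - c) ^ p ^ (S + 1) := by
    rw [sub_pow_char_pow, col, col, col, sum_range_succ _ (S + 1)]
    ring
  rw [e]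
  exact h.rel.add (h1 c hc h2)

omit hp [CharP Ω p] in
theorem Col.ge_lp (h : Col p v C ν r₁ x) (hp0 : p ≠ 0) (j : ℕ) : LP p v C (ν - p ^ j * r₁) (x j) := by
  rcases eq_or_ne j 0 with rfl | hj
  · intro ε hε
    refine ⟨0, C.zero_mem, ?_⟩
    rw [zero_pow hp0, sub_zero]
    refine h.lin.mono ?_
    rw [pow_zero, one_mul]
    linarith
  · exact h.lev j hj

/-- Dependent tops: the factor. -/
theorem exists_factor (hx : Col p v C ν r₁ x) (hy : Col p v C ν r₂ y) (hTS : T ≤ S)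
    (hT : T ≠ 0) (hyT : ¬ PG p v C (ν - p ^ T * r₂) (y T))
    (hdep : ¬ ∀ c₁ ∈ C, ∀ c₂ ∈ C, ∀ t : ℝ, PG p v C t (x S * c₁ ^ p ^ S + y T * c₂ ^ p ^ T) →
      Gt v (t - ν + p ^ S * r₁) (c₁ ^ p ^ S) ∧ Gt v (t - ν + p ^ T * r₂) (c₂ ^ p ^ T)) :
    ∃ s ∈ C, v.Ge (r₂ - p ^ (S - T) * r₁) s ∧
      PG p v C (ν - p ^ S * r₁) (x S - y T * s ^ p ^ T) := by
  have hS : S ≠ 0 := by omega
  simp only [not_forall] at hdep
  obtain ⟨c₁, hc₁, c₂, hc₂, t, ht, hnot⟩ := hdep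
  have hpow : ∀ (n : ℕ), n ≠ 0 → ∀ c : Ω, c ^ p ^ n = (c ^ p ^ (n - 1)) ^ p := by
    intro n hn c
    rw [← pow_mul, ← pow_succ, Nat.sub_add_cancel (Nat.one_le_iff_ne_zero.2 hn)]
  -- the condition fails for `c₁`
  have h1 : ¬ Gt v (t - ν + p ^ S * r₁) (c₁ ^ p ^ S) := by
    intro h1
    have h2 : PG p v C t (x S * c₁ ^ p ^ S) := by
      by_cases h0 : c₁ ^ p ^ S = 0
      · rw [h0, mul_zero]
        exact .of_gt Gt.zero
      · have h3 := h1 h0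
        have h4 : v.Ge (v (c₁ ^ p ^ S)) ((c₁ ^ p ^ (S - 1)) ^ p) := by
          rw [← hpow S hS]
          exact RVal.ge_self _
        have h5 := (hx.lev S hS).mul_pow (pow_mem hc₁ (p ^ (S - 1))) h4
        rw [← hpow S hS] at h5
        exact (h5.pc (c' := (t + (ν - p ^ S * r₁ + v (c₁ ^ p ^ S))) / 2) (by linarith)).pg
          (by linarith)
    have h3 : PG p v C t (y T * c₂ ^ p ^ T) := by
      have h4 := ht.sub h2
      rwa [add_sub_cancel_left] at h4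
    refine hnot ⟨h1, ?_⟩
    have h4 := TWII.ind_of_not_pg p hT hyT hc₂ h3
    refine h4.mono ?_
    linarith
  rw [Gt] at h1
  push Not at h1
  obtain ⟨h0, h1⟩ := h1
  have hc0 : c₁ ≠ 0 := by
    rintro rfl
    exact h0 (zero_pow (Nat.pow_pos hp.out.pos).ne')
  set s : Ω := -(c₂ / c₁ ^ p ^ (S - T)) with hs
  have hsC : s ∈ C := neg_mem (div_mem hc₂ (pow_mem hc₁ _))
  have hpT : s ^ p ^ T = -(c₂ ^ p ^ T / c₁ ^ p ^ S) := by
    have e1 : s = 0 - c₂ / c₁ ^ p ^ (S - T) := by rw [hs, zero_sub]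
    rw [e1, sub_pow_char_pow, zero_pow (Nat.pow_pos hp.out.pos).ne', zero_sub, div_pow, ← pow_mul,
      ← pow_add, Nat.sub_add_cancel hTS]
  have h2 : PG p v C (ν - p ^ S * r₁) (x S - y T * s ^ p ^ T) := by
    refine TWII.PG.of_mul_pow (d := c₁ ^ p ^ (S - 1)) (pow_mem hc₁ _) (pow_ne_zero _ hc0) ?_
    have e1 : (x S - y T * s ^ p ^ T) * (c₁ ^ p ^ (S - 1)) ^ p =
        x S * c₁ ^ p ^ S + y T * c₂ ^ p ^ T := by
      rw [← hpow S hS, hpT]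
      field_simp
      ring
    rw [e1]
    refine ht.mono ?_
    have e2 : (p : ℝ) * v (c₁ ^ p ^ (S - 1)) = v (c₁ ^ p ^ S) := by
      rw [hpow S hS c₁, v.map_pow (pow_ne_zero _ hc0)]
    rw [e2]
    linarith
  refine ⟨s, hsC, ?_, h2⟩
  -- the value of `s`
  have h3 : LP p v C (ν - p ^ S * r₁) (y T * s ^ p ^ T) := by
    have h4 := (hx.lev S hS).sub (TWII.LP.of_pg h2)
    have e1 : x S - (x S - y T * s ^ p ^ T) = y T * s ^ p ^ T := by ring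
    rwa [e1] at h4
  have h4 : v.Ge (p ^ T * r₂ - p ^ S * r₁) (s ^ p ^ T) := by
    intro hs0
    refine le_of_forall_lt fun t ht => ?_
    have h5 := TWII.ind_of_not_pg p hT hyT hsC
      (((h3.pc (c' := (t + (p ^ T * r₂ - p ^ S * r₁)) / 2 + ν - p ^ T * r₂) (by linarith)).pg
        (c' := t + ν - p ^ T * r₂) (by linarith)))
    have h6 := h5 hs0
    linarith
  intro hs0
  have h5 := h4 (pow_ne_zero _ hs0)
  rw [v.map_pow hs0] at h5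
  have hpT0 : (0 : ℝ) < (p : ℝ) ^ T := by
    have := hp.out.pos
    positivity
  have e1 : (p : ℝ) ^ S = p ^ T * p ^ (S - T) := by
    rw [← pow_add, Nat.add_sub_cancel' hTS]
  rw [e1] at h5
  push_cast at h5
  have h6 : (p : ℝ) ^ T * (r₂ - p ^ (S - T) * r₁) ≤ p ^ T * v s := by
    linarith [h5]
  exact le_of_mul_le_mul_left h6 hpT0

end AF

end Pool.Agent.TWN1
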