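import Pool.Agent.Lib.TWN1.Ev
import Pool.Agent.Lib.TWII.Soc

/-!
# TANK W, Theorem N1, section 0: the setting

`Set0 v C Φ w Z κ ρ σ`: `Φ` is a strict overconvergent arc of `C` of radius `σ`, with margins `κ n`,
`w` is of transcendental type over `C` with radius `ρ`, and `Z n` is near `Φ n c` for `c` near `w`.
`Ph Φ w Z n f` is the coefficient of index `n` of `f ^ Φ (w + Z)`; `PhS` is the same for
`w + Sn Z n'`, `Sn Z n'` the part of index `< n'` of `Z`, `Yn Z n'` the part of index `≥ n'`.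
`PC p v F c x`: `x` is in `F ^ p + {≥ c}`; `LP` (of `TWII.Soc`): for all `c' < c`; `PG` (of
`TWII.PropH`): in `F ^ p + {> c}`.
-/

set_option autoImplicit false

open Polynomial Finset

namespace Pool.Agent.TWN1

open Pool.Agent.H15JM (RVal)
open Pool.Agent.TWM
open Pool.Agent.TWII (PG LP)
open Pool.Agent.TWLM (HSd Oi)

universe u

/-! ### The calculus of `p`-th powers up to a level -/

section PC

variable {k Ω : Type u} [Field k] [Field Ω] [Algebra k Ω]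

/-- `x` is in `F ^ p + {≥ c}`. -/
def PC (p : ℕ) (v : RVal Ω) (F : IntermediateField k Ω) (c : ℝ) (x : Ω) : Prop :=
  ∃ g ∈ F, v.Ge c (x - g ^ p)

variable {p : ℕ} [hp : Fact p.Prime] [CharP Ω p] {v : RVal Ω} {F : IntermediateField k Ω}
  {c c' : ℝ} {x y : Ω}

omit [CharP Ω p] in
theorem PC.of_ge (h : v.Ge c x) : PC p v F c x :=
  ⟨0, F.zero_mem, by rwa [zero_pow hp.out.ne_zero, sub_zero]⟩

omit hp [CharP Ω p] in
theorem PC.of_pow {g : Ω} (hg : g ∈ F) : PC p v F c (g ^ p) :=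
  ⟨g, hg, by rw [sub_self]; exact RVal.Ge.zero⟩

theorem PC.add (hx : PC p v F c x) (hy : PC p v F c y) : PC p v F c (x + y) := by
  obtain ⟨g, hg, h1⟩ := hx
  obtain ⟨g', hg', h2⟩ := hy
  refine ⟨g + g', F.add_mem hg hg', ?_⟩
  rw [add_pow_char, add_sub_add_comm]
  exact h1.add h2

theorem PC.sub (hx : PC p v F c x) (hy : PC p v F c y) : PC p v F c (x - y) := by
  obtain ⟨g, hg, h1⟩ := hx
  obtain ⟨g', hg', h2⟩ := hy
  refine ⟨g - g', F.sub_mem hg hg', ?_⟩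
  rw [sub_pow_char, sub_sub_sub_comm]
  exact h1.sub h2

theorem PC.neg (hx : PC p v F c x) : PC p v F c (-x) := by
  have h1 : PC p v F c 0 := PC.of_ge RVal.Ge.zero
  have h2 := h1.sub hx
  rwa [zero_sub] at h2

theorem PC.sum {ι : Type*} (S : Finset ι) (f : ι → Ω) (hf : ∀ i ∈ S, PC p v F c (f i)) :
    PC p v F c (∑ i ∈ S, f i) := by
  classical
  induction S using Finset.induction_on with
  | empty =>
    rw [sum_empty]
    exact .of_ge RVal.Ge.zero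
  | insert i S hi ih =>
    rw [sum_insert hi]
    exact (hf i (mem_insert_self i S)).add (ih fun j hj => hf j (mem_insert_of_mem hj))

omit hp [CharP Ω p] in
theorem PC.mono (hx : PC p v F c x) (h : c' ≤ c) : PC p v F c' x := by
  obtain ⟨g, hg, h1⟩ := hx
  exact ⟨g, hg, h1.mono h⟩

omit hp [CharP Ω p] in
theorem PC.mul_pow {b : ℝ} {d : Ω} (hx : PC p v F c x) (hd : d ∈ F) (hb : v.Ge b (d ^ p)) :
    PC p v F (c + b) (x * d ^ p) := by
  obtain ⟨g, hg, h1⟩ := hx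
  refine ⟨g * d, F.mul_mem hg hd, ?_⟩
  rw [_root_.mul_pow, ← sub_mul]
  exact h1.mul hb

omit hp [CharP Ω p] in
theorem PC.pg (hx : PC p v F c x) (h : c' < c) : PG p v F c' x := by
  obtain ⟨g, hg, h1⟩ := hx
  exact ⟨g, hg, Gt.of_ge h1 h⟩

omit hp [CharP Ω p] in
/-- A margin. -/
theorem _root_.Pool.Agent.TWII.PG.exists_pc (hx : PG p v F c x) : ∃ μ : ℝ, 0 < μ ∧ PC p v F (c + μ) x := by
  obtain ⟨g, hg, h1⟩ := hx
  obtain ⟨μ, hμ, h2⟩ := TWLM.exists_ge_of_gt h1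
  exact ⟨μ, hμ, g, hg, h2⟩

omit hp [CharP Ω p] in
theorem _root_.Pool.Agent.TWII.PG.pc (hx : PG p v F c x) : PC p v F c x := by
  obtain ⟨g, hg, h1⟩ := hx
  exact ⟨g, hg, h1.ge⟩

omit hp [CharP Ω p] in
theorem PC.lp (hx : PC p v F c x) : LP p v F c x := fun ε hε => by
  obtain ⟨g, hg, h1⟩ := hx
  exact ⟨g, hg, h1.mono (by linarith)⟩

omit hp [CharP Ω p] in
theorem _root_.Pool.Agent.TWII.LP.pc (hx : LP p v F c x) (h : c' < c) : PC p v F c' x := by
  obtain ⟨g, hg, h1⟩ := hx (c - c') (by linarith)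
  exact ⟨g, hg, h1.mono (by linarith)⟩

omit hp [CharP Ω p] in
theorem lp_iff : LP p v F c x ↔ ∀ c' < c, PC p v F c' x :=
  ⟨fun h _ hc => h.pc hc, fun h ε hε => h (c - ε) (by linarith)⟩

theorem _root_.Pool.Agent.TWII.LP.add (hx : LP p v F c x) (hy : LP p v F c y) : LP p v F c (x + y) :=
  lp_iff.2 fun _ hc => (hx.pc hc).add (hy.pc hc)

theorem _root_.Pool.Agent.TWII.LP.neg (hx : LP p v F c x) : LP p v F c (-x) :=
  lp_iff.2 fun _ hc => (hx.pc hc).neg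

theorem _root_.Pool.Agent.TWII.LP.sum {ι : Type*} (S : Finset ι) (f : ι → Ω) (hf : ∀ i ∈ S, LP p v F c (f i)) :
    LP p v F c (∑ i ∈ S, f i) :=
  lp_iff.2 fun _ hc => PC.sum S f fun i hi => (hf i hi).pc hc

omit hp [CharP Ω p] in
theorem _root_.Pool.Agent.TWII.LP.mono (hx : LP p v F c x) (h : c' ≤ c) : LP p v F c' x :=
  lp_iff.2 fun _ hc => hx.pc (hc.trans_le h)

omit hp [CharP Ω p] in
theorem _root_.Pool.Agent.TWII.LP.mul_pow {b : ℝ} {d : Ω} (hx : LP p v F c x) (hd : d ∈ F) (hb : v.Ge b (d ^ p)) :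
    LP p v F (c + b) (x * d ^ p) :=
  lp_iff.2 fun c' hc => by
    have h1 := (hx.pc (c' := c' - b) (by linarith)).mul_pow hd hb
    rwa [sub_add_cancel] at h1

omit hp [CharP Ω p] in
/-- Division by a `p`-th power. -/
theorem _root_.Pool.Agent.TWII.PG.of_mul_pow {d : Ω} (hd : d ∈ F) (hd0 : d ≠ 0)
    (h : PG p v F (c + p * v d) (x * d ^ p)) : PG p v F c x := by
  obtain ⟨g, hg, h1⟩ := h
  refine ⟨g / d, div_mem hg hd, ?_⟩
  have hdp : d ^ p ≠ 0 := pow_ne_zero _ hd0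
  have e : x - (g / d) ^ p = (x * d ^ p - g ^ p) * (d ^ p)⁻¹ := by
    rw [div_pow]
    field_simp
  rw [e]
  have h2 : v.Ge (-(p * v d)) ((d ^ p)⁻¹) := by
    intro _
    rw [v.map_inv hdp, v.map_pow hd0]
  refine (h1.mul_ge h2).mono (by linarith)

end PC

/-! ### The setting -/

section Set0

variable {k Ω : Type u} [Field k] [Field Ω] [Algebra k Ω] {v : RVal Ω}
  {C : IntermediateField k Ω} {Φ : ℕ → Ω → Ω} {w : Ω} {Z : PowerSeries Ω} {κ : ℕ → ℝ} {ρ σ : ℝ}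

/-- The data of section 0. -/
structure Set0 (v : RVal Ω) (C : IntermediateField k Ω) (Φ : ℕ → Ω → Ω) (w : Ω)
    (Z : PowerSeries Ω) (κ : ℕ → ℝ) (ρ σ : ℝ) : Prop where
  hsd : HSd C Φ
  oi : Oi v C σ Φ
  tl : TL v C w ρ
  z0 : PowerSeries.coeff 0 Z = 0
  zmem : ∀ n, PowerSeries.coeff n Z ∈ C
  kpos : ∀ n, 0 < κ n
  str : ∀ n : ℕ, n ≠ 0 → ∀ x ∈ C, ∀ b, v.Ge b x → v.Ge (b - n * σ + κ n) (Φ n x)
  near : ∀ n : ℕ, n ≠ 0 → ∀ c ∈ C, ∀ b, v.Ge b (w - c) →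
    v.Ge (min (b + κ n) (ρ + κ n / 2) - n * σ) (PowerSeries.coeff n Z - Φ n c)

/-- The coefficient of index `n` of `f ^ Φ (w + Z)`. -/
noncomputable def Ph (Φ : ℕ → Ω → Ω) (w : Ω) (Z : PowerSeries Ω) (n : ℕ) (f : Polynomial Ω) : Ω :=
  PowerSeries.coeff n (EV Φ f (PowerSeries.C w + Z))

/-- The part of index `< n'`. -/
noncomputable def Sn (Z : PowerSeries Ω) (n' : ℕ) : PowerSeries Ω :=
  PowerSeries.mk fun n => if n < n' then PowerSeries.coeff n Z else 0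

/-- The part of index `≥ n'`. -/
noncomputable def Yn (Z : PowerSeries Ω) (n' : ℕ) : PowerSeries Ω :=
  PowerSeries.mk fun n => if n < n' then 0 else PowerSeries.coeff n Z

/-- `Φ ^ S`: the coefficient of index `n` of `f ^ Φ (w + Sn Z n')`. -/
noncomputable def PhS (Φ : ℕ → Ω → Ω) (w : Ω) (Z : PowerSeries Ω) (n' n : ℕ) (f : Polynomial Ω) :
    Ω :=
  Ph Φ w (Sn Z n') n f

/-- The expansion at a point of `C`. -/
theorem coeff_EV_point (hΦ : HSd C Φ) {f : Polynomial Ω} (hf : f ∈ PI C) {L : ℕ}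
    (hL : f.natDegree ≤ L) {c : Ω} (hc : c ∈ C) (A : PowerSeries Ω) (N : ℕ) :
    PowerSeries.coeff N (EV Φ f A) = ∑ l ∈ range (L + 1), ∑ i ∈ antidiagonal N,
      Φ i.1 ((hasseDeriv l f).eval c) * PowerSeries.coeff i.2 ((A - ser Φ c) ^ l) := by
  have e : A = ser Φ c + (A - ser Φ c) := by ring
  conv_lhs => rw [e, EV_point hΦ hf hL hc, map_sum]
  refine sum_congr rfl fun l _ => ?_
  rw [PowerSeries.coeff_mul]
  exact sum_congr rfl fun i _ => by rw [coeff_ser]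

/-- The Taylor formula. -/
theorem coeff_EV_taylor (hΦ : HSd C Φ) {f : Polynomial Ω} (hf : f ∈ PI C) {L : ℕ}
    (hL : f.natDegree ≤ L) (A B : PowerSeries Ω) (N : ℕ) :
    PowerSeries.coeff N (EV Φ f (A + B)) = ∑ j ∈ range (L + 1), ∑ i ∈ antidiagonal N,
      PowerSeries.coeff i.1 (EV Φ (hasseDeriv j f) A) * PowerSeries.coeff i.2 (B ^ j) := by
  rw [EV_taylor hΦ hf hL, map_sum]
  exact sum_congr rfl fun j _ => by rw [PowerSeries.coeff_mul]

/-- Existence. -/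
theorem exists_set0 (hΦ : HSd C Φ) (hoi : Oi v C σ Φ)
    (hstr : ∀ n : ℕ, n ≠ 0 → ∃ η : ℝ, 0 < η ∧ ∀ x ∈ C, ∀ b, v.Ge b x → v.Ge (b - n * σ + η) (Φ n x))
    (hw : TL v C w ρ) : ∃ (Z : PowerSeries Ω) (κ : ℕ → ℝ), Set0 v C Φ w Z κ ρ σ := by
  have h1 : ∀ n : ℕ, ∃ η : ℝ, 0 < η ∧
      (n ≠ 0 → ∀ x ∈ C, ∀ b, v.Ge b x → v.Ge (b - n * σ + η) (Φ n x)) := by
    intro n
    by_cases hn : n = 0
    · exact ⟨1, one_pos, fun h => absurd hn h⟩
    · obtain ⟨η, hη, h2⟩ := hstr n hn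
      exact ⟨η, hη, fun _ => h2⟩
  choose κ hκ hstr using h1
  choose c hc hwc using fun n : ℕ => hw.lim (κ n / 2) (half_pos (hκ n))
  refine ⟨PowerSeries.mk fun n => if n = 0 then 0 else Φ n (c n), κ, ?_⟩
  refine
    { hsd := hΦ
      oi := hoi
      tl := hw
      z0 := by rw [PowerSeries.coeff_mk, if_pos rfl]
      zmem := fun n => by
        rw [PowerSeries.coeff_mk]
        split_ifs
        exacts [C.zero_mem, hΦ.mem n _ (hc n)]
      kpos := hκ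
      str := hstr
      near := ?_ }
  intro n hn d hd b hb
  rw [PowerSeries.coeff_mk, if_neg hn, ← hΦ.sub n (hc n) hd]
  have h2 : v.Ge (min b (ρ - κ n / 2)) (c n - d) := by
    have e : c n - d = (w - d) - (w - c n) := by ring
    rw [e]
    exact (hb.mono (min_le_left _ _)).sub ((hwc n).mono (min_le_right _ _))
  refine (hstr n hn _ (sub_mem (hc n) hd) _ h2).mono ?_
  rcases le_total b (ρ - κ n / 2) with h3 | h3
  · rw [min_eq_left h3]
    linarith [min_le_left (b + κ n) (ρ + κ n / 2)]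
  · rw [min_eq_right h3]
    linarith [min_le_right (b + κ n) (ρ + κ n / 2)]

/-- The values of finitely many polynomials at points near `w`. -/
theorem TL.deep [IsAlgClosed Ω] (hw : TL v C w ρ) (T : Finset (Polynomial Ω))
    (hT : ∀ f ∈ T, f ∈ PI C) : ∃ δ : ℝ, 0 < δ ∧ ∀ ψ, v.Ge (ρ - δ) (w - ψ) → ∀ f ∈ T,
      (∀ b, v.Ge b (f.eval w) ↔ v.Ge b (f.eval ψ)) ∧
      (∀ b, Gt v b (f.eval w) ↔ Gt v b (f.eval ψ)) := by
  classical
  induction T using Finset.induction_on with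
  | empty => exact ⟨1, one_pos, fun ψ _ f hf => absurd hf (notMem_empty f)⟩
  | insert f T hf ih =>
    obtain ⟨δ, hδ, h1⟩ := ih fun g hg => hT g (mem_insert_of_mem hg)
    by_cases h0 : f = 0
    · refine ⟨δ, hδ, fun ψ hψ g hg => ?_⟩
      rcases mem_insert.1 hg with rfl | hg
      · rw [h0, eval_zero, eval_zero]
        exact ⟨fun b => Iff.rfl, fun b => Iff.rfl⟩
      · exact h1 ψ hψ g hg
    have hfa : f ∈ PI (TWM.algc C) := PI_mono (le_algc C) (hT f (mem_insert_self f T))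
    obtain ⟨δ', hδ', h2⟩ := hw.near_val hfa h0
    refine ⟨min δ δ', lt_min hδ hδ', fun ψ hψ g hg => ?_⟩
    rcases mem_insert.1 hg with rfl | hg
    · obtain ⟨h3, h4⟩ := h2 ψ (hψ.mono (by linarith [min_le_right δ δ']))
      have h5 := hw.eval_ne hfa h0
      refine ⟨fun b => ?_, fun b => ?_⟩
      · unfold RVal.Ge
        rw [h4]
        exact ⟨fun h _ => h h5, fun h _ => h h3⟩
      · unfold Gt
        rw [h4]
        exact ⟨fun h _ => h h5, fun h _ => h h3⟩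
    · exact h1 ψ (hψ.mono (by linarith [min_le_left δ δ'])) g hg

namespace Set0

variable (h : Set0 v C Φ w Z κ ρ σ)
include h

/-- `limsup |Z n| ≤ 0`. -/
theorem limZ {η : ℝ} (hη : 0 < η) :
    ∃ n₀ : ℕ, ∀ n : ℕ, n₀ ≤ n → v.Ge (ρ - n * σ - η) (PowerSeries.coeff n Z) := by
  obtain ⟨c, hc, h1⟩ := h.tl.lim η hη
  obtain ⟨n₀, hn₀⟩ := h.oi c hc ρ
  refine ⟨n₀ + 1, fun n hn => ?_⟩
  have h3 := h.near n (by omega) c hc (ρ - η) h1
  have e : PowerSeries.coeff n Z = (PowerSeries.coeff n Z - Φ n c) + Φ n c := by ring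
  rw [e]
  have h4 := h.kpos n
  refine (h3.mono ?_).add ((hn₀ n (by omega)).mono (by linarith))
  have h5 : ρ - η ≤ min (ρ - η + κ n) (ρ + κ n / 2) := le_min (by linarith) (by linarith)
  linarith

/-- Records. -/
theorem record
    (hinf : ∀ n₀ : ℕ, ∃ n : ℕ, n₀ ≤ n ∧ ¬ v.Ge (ρ - n * σ) (PowerSeries.coeff n Z))
    {η : ℝ} (hη : 0 < η) (n₀ : ℕ) : ∃ (n' : ℕ) (g : ℝ), n₀ ≤ n' ∧ n' ≠ 0 ∧ 0 < g ∧ g < η ∧
      PowerSeries.coeff n' Z ≠ 0 ∧ v (PowerSeries.coeff n' Z) = ρ - n' * σ - g ∧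
      ∀ n : ℕ, n' ≤ n → v.Ge (ρ - n * σ - g) (PowerSeries.coeff n Z) := by
  classical
  obtain ⟨n₁, hn₁⟩ := h.limZ (half_pos hη)
  obtain ⟨n₂, hn₂, h2⟩ := hinf (max n₀ (max n₁ 1))
  -- the size
  obtain ⟨S, hS⟩ : ∃ S : ℕ → ℝ, ∀ n : ℕ, S n = ρ - n * σ - v (PowerSeries.coeff n Z) :=
    ⟨_, fun _ => rfl⟩
  have h2' : PowerSeries.coeff n₂ Z ≠ 0 ∧ v (PowerSeries.coeff n₂ Z) < ρ - n₂ * σ := by
    unfold RVal.Ge at h2
    push Not at h2
    exact h2
  obtain ⟨h3, h4⟩ := h2'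
  have hS2 : 0 < S n₂ := by rw [hS]; linarith
  obtain ⟨n₃, hn₃⟩ := h.limZ (η := S n₂ / 2) (by linarith)
  -- the maximum on a finite set
  obtain ⟨T, hT⟩ : ∃ T : Finset ℕ,
      T = (Icc n₂ (max n₂ n₃)).filter fun n => PowerSeries.coeff n Z ≠ 0 := ⟨_, rfl⟩
  have hmem : ∀ n, n ∈ T ↔ (n₂ ≤ n ∧ n ≤ max n₂ n₃) ∧ PowerSeries.coeff n Z ≠ 0 := by
    intro n
    rw [hT, mem_filter, mem_Icc]
  have hTne : T.Nonempty := ⟨n₂, (hmem n₂).2 ⟨⟨le_rfl, le_max_left _ _⟩, h3⟩⟩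
  obtain ⟨n', hn', hmax⟩ := T.exists_max_image S hTne
  obtain ⟨⟨hn'2, -⟩, hn'0⟩ := (hmem n').1 hn'
  have h5 : S n₂ ≤ S n' := hmax n₂ ((hmem n₂).2 ⟨⟨le_rfl, le_max_left _ _⟩, h3⟩)
  have hn0 : n₀ ≤ n' := (le_max_left _ _).trans (hn₂.trans hn'2)
  have hn1 : n₁ ≤ n' := (le_max_left _ _).trans ((le_max_right _ _).trans (hn₂.trans hn'2))
  have hn2 : 1 ≤ n' := (le_max_right _ _).trans ((le_max_right _ _).trans (hn₂.trans hn'2))
  have h6 := hn₁ n' hn1 hn'0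
  refine ⟨n', S n', hn0, by omega, by linarith, by rw [hS]; linarith, hn'0, by rw [hS]; ring, ?_⟩
  intro n hn
  by_cases h7 : PowerSeries.coeff n Z = 0
  · rw [h7]
    exact RVal.Ge.zero
  by_cases h8 : n ≤ max n₂ n₃
  · intro _
    have h9 := hmax n ((hmem n).2 ⟨⟨hn'2.trans hn, h8⟩, h7⟩)
    have h10 := hS n
    linarith
  · have h9 : n₃ ≤ n := by
      have := le_max_right n₂ n₃
      omega
    exact (hn₃ n h9).mono (by linarith)

theorem ph_zero {f : Polynomial Ω} (hf : f ∈ PI C) : Ph Φ w Z 0 f = f.eval w := by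
  rw [Ph, EV, Polynomial.sum, map_sum, eval_eq_sum, Polynomial.sum]
  refine sum_congr rfl fun i _ => ?_
  have h1 : PowerSeries.coeff 0 ((PowerSeries.C w + Z) ^ i) = w ^ i := by
    rw [PowerSeries.coeff_zero_eq_constantCoeff_apply, map_pow, map_add,
      PowerSeries.constantCoeff_C, ← PowerSeries.coeff_zero_eq_constantCoeff_apply, h.z0, add_zero]
  rw [PowerSeries.coeff_mul, Finset.Nat.antidiagonal_zero, sum_singleton, coeff_ser,
    h.hsd.c0 _ (hf i), h1]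

omit h in
theorem ph_mem' (hΦ : HSd C Φ) (hZ : ∀ n, PowerSeries.coeff n Z ∈ C) {f : Polynomial Ω}
    (hf : f ∈ PI C) (n : ℕ) : Ph Φ w Z n f ∈ cadj v C w := by
  refine EV_coeff_mem hΦ (le_cadj v C w) hf (fun m => ?_) n
  rw [map_add, PowerSeries.coeff_C]
  refine add_mem ?_ (le_cadj v C w (hZ m))
  split_ifs
  exacts [self_mem_cadj v C w, zero_mem _]

theorem ph_mem {f : Polynomial Ω} (hf : f ∈ PI C) (n : ℕ) : Ph Φ w Z n f ∈ cadj v C w :=
  ph_mem' h.hsd h.zmem hf n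

theorem sn_mem (n' n : ℕ) : PowerSeries.coeff n (Sn Z n') ∈ C := by
  rw [Sn, PowerSeries.coeff_mk]
  split_ifs
  exacts [h.zmem n, C.zero_mem]

theorem phS_mem {f : Polynomial Ω} (hf : f ∈ PI C) (n' n : ℕ) :
    PhS Φ w Z n' n f ∈ cadj v C w :=
  ph_mem' h.hsd (h.sn_mem n') hf n

/-- `Φ n` is strict on the closure of `C(w)`. -/
theorem ph_str [IsAlgClosed Ω] {n : ℕ} (hn : n ≠ 0) : ∃ η : ℝ, 0 < η ∧ ∀ f ∈ PI C, ∀ b,
    v.Ge b (f.eval w) → v.Ge (b - n * σ + η) (Ph Φ w Z n f) := by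
  classical
  -- the margin
  have hmin : ∀ N : ℕ, ∃ η : ℝ, 0 < η ∧ ∀ m : ℕ, m ≤ N → 2 * η ≤ κ m := by
    intro N
    induction N with
    | zero =>
      refine ⟨κ 0 / 2, half_pos (h.kpos 0), fun m hm => ?_⟩
      obtain rfl : m = 0 := by omega
      linarith
    | succ N ih =>
      obtain ⟨η, hη, h1⟩ := ih
      refine ⟨min η (κ (N + 1) / 2), lt_min hη (half_pos (h.kpos _)), fun m hm => ?_⟩
      by_cases h2 : m ≤ N
      · linarith [h1 m h2, min_le_left η (κ (N + 1) / 2)]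
      · obtain rfl : m = N + 1 := by omega
        linarith [min_le_right η (κ (N + 1) / 2)]
  obtain ⟨η, hη, hκη⟩ := hmin n
  refine ⟨η, hη, fun f hf b hb => ge_of_eps fun ε hε => ?_⟩
  set L := f.natDegree with hL
  obtain ⟨δ, hδ, hdeep⟩ := TL.deep h.tl ((range (L + 1)).image fun l => hasseDeriv l f) (by
    intro g hg
    obtain ⟨l, -, rfl⟩ := mem_image.1 hg
    exact hasse_mem_PI hf l)
  -- the distance
  set δ' : ℝ := min δ (min η (ε / (L + 1))) with hδ'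
  have hδ'0 : 0 < δ' := lt_min hδ (lt_min hη (by positivity))
  have hδ'1 : δ' ≤ δ := min_le_left _ _
  have hδ'2 : δ' ≤ η := (min_le_right _ _).trans (min_le_left _ _)
  have hδ'3 : ∀ l : ℕ, l ≤ L → (l : ℝ) * δ' ≤ ε := by
    intro l hl
    have h1 : δ' ≤ ε / (L + 1) := (min_le_right _ _).trans (min_le_right _ _)
    have h2 : (l : ℝ) ≤ L + 1 := by
      have : (l : ℝ) ≤ L := by exact_mod_cast hl
      linarith
    calc (l : ℝ) * δ' ≤ (L + 1) * δ' := mul_le_mul_of_nonneg_right h2 hδ'0.le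
      _ ≤ (L + 1) * (ε / (L + 1)) := mul_le_mul_of_nonneg_left h1 (by positivity)
      _ = ε := by field_simp
  obtain ⟨c, hc, hwc⟩ := h.tl.lim δ' hδ'0
  have hfl : ∀ l : ℕ, l ≤ L → v.Ge (b - l * ρ) ((hasseDeriv l f).eval c) := by
    intro l hl
    have h1 := (hdeep c (hwc.mono (by linarith)) (hasseDeriv l f)
      (mem_image.2 ⟨l, mem_range.2 (by omega), rfl⟩)).1 (b - l * ρ)
    exact h1.1 (TWLM.poly_norm h.tl hf l hb)
  -- the powers
  have hT0 : v.Ge (ρ - δ') (PowerSeries.coeff 0 (PowerSeries.C w + Z - ser Φ c)) := by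
    have e : PowerSeries.coeff 0 (PowerSeries.C w + Z - ser Φ c) = w - c := by
      rw [map_sub, map_add, PowerSeries.coeff_C, if_pos rfl, coeff_ser, h.z0, add_zero,
        h.hsd.c0 c hc]
    rw [e]
    exact hwc
  have hT : ∀ m : ℕ, m ≠ 0 → m ≤ n → v.Ge (ρ + η - m * σ)
      (PowerSeries.coeff m (PowerSeries.C w + Z - ser Φ c)) := by
    intro m hm hmn
    have e : PowerSeries.coeff m (PowerSeries.C w + Z - ser Φ c) =
        PowerSeries.coeff m Z - Φ m c := by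
      rw [map_sub, map_add, PowerSeries.coeff_C, if_neg hm, coeff_ser, zero_add]
    rw [e]
    refine (h.near m hm c hc _ hwc).mono ?_
    have h1 := hκη m hmn
    have h2 : ρ + η ≤ min (ρ - δ' + κ m) (ρ + κ m / 2) := le_min (by linarith) (by linarith)
    linarith
  have hpow := fun l : ℕ => pow_ge_zero (v := v) (by linarith : ρ - δ' ≤ ρ + η) hT0 hT l
  rw [Ph, coeff_EV_point h.hsd hf hL.ge hc]
  refine RVal.Ge.sum _ _ fun l hl => RVal.Ge.sum _ _ fun i hi => ?_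
  have hlL : l ≤ L := by
    have := mem_range.1 hl
    omega
  have hi' : i.1 + i.2 = n := by simpa using hi
  have hin : (n : ℝ) = i.1 + i.2 := by rw [← hi']; push_cast; ring
  obtain ⟨hp0, hp1⟩ := hpow l
  have hlε := hδ'3 l hlL
  by_cases hi1 : i.1 = 0
  · have hi2 : i.2 ≠ 0 := by omega
    rw [hi1, h.hsd.c0 _ (eval_mem (hasse_mem_PI hf l) hc)]
    refine ((hfl l hlL).mul (hp1 i.2 hi2 (by omega))).mono ?_
    rw [hin, hi1]
    push_cast
    linarith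
  · have h1 := h.str i.1 hi1 _ (eval_mem (hasse_mem_PI hf l) hc) _ (hfl l hlL)
    have h2 := hκη i.1 (by omega)
    by_cases hi2 : i.2 = 0
    · rw [hi2]
      refine (h1.mul hp0).mono ?_
      rw [hin, hi2]
      push_cast
      linarith
    · refine (h1.mul (hp1 i.2 hi2 (by omega))).mono ?_
      rw [hin]
      linarith

theorem ph_ge [IsAlgClosed Ω] (n : ℕ) {f : Polynomial Ω} (hf : f ∈ PI C) {b : ℝ}
    (hb : v.Ge b (f.eval w)) : v.Ge (b - n * σ) (Ph Φ w Z n f) := by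
  by_cases hn : n = 0
  · rw [hn, h.ph_zero hf]
    exact hb.mono (by simp)
  · obtain ⟨η, hη, h1⟩ := h.ph_str hn
    exact (h1 f hf b hb).mono (by linarith)

/-- (c): the coefficients of a limit of `p`-th powers, uniformly. -/
theorem crit (p : ℕ) [Fact p.Prime] [CharP Ω p] {c : ℝ} {x : Ω} (hx : x ∈ C)
    (hl : LP p v C c x) : ∃ μ : ℝ, 0 < μ ∧ ∀ m : ℕ, m ≠ 0 → PC p v C (c - m * σ + μ) (Φ m x) := by
  obtain ⟨m₀, hm₀⟩ := h.oi x hx (c + 1)
  have key : ∀ N : ℕ, ∃ μ : ℝ, 0 < μ ∧ ∀ m : ℕ, m ≠ 0 → m < N →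
      PC p v C (c - m * σ + μ) (Φ m x) := by
    intro N
    induction N with
    | zero => exact ⟨1, one_pos, fun m _ hm => absurd hm (Nat.not_lt_zero m)⟩
    | succ N ih =>
      obtain ⟨μ, hμ, h1⟩ := ih
      by_cases hN : N = 0
      · exact ⟨1, one_pos, fun m hm hmN => absurd hmN (by omega)⟩
      have h2 : PC p v C (c - N * σ + κ N / 2) (Φ N x) := by
        obtain ⟨g, hg, h3⟩ := hl (κ N / 2) (half_pos (h.kpos N))
        have h4 := h.str N hN _ (sub_mem hx (pow_mem hg p)) _ h3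
        rw [h.hsd.sub N hx (pow_mem hg p)] at h4
        have e : Φ N x = (Φ N x - Φ N (g ^ p)) + Φ N (g ^ p) := by ring
        rw [e]
        refine (PC.of_ge (h4.mono (by linarith))).add ?_
        by_cases hpN : p ∣ N
        · obtain ⟨N', rfl⟩ := hpN
          have h5 := h.hsd.pow_mul p hg 1 N'
          rw [pow_one] at h5
          rw [h5]
          exact PC.of_pow (h.hsd.mem N' g hg)
        · have h5 := h.hsd.pow_zero p hg 1 N (by rwa [pow_one])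
          rw [pow_one] at h5
          rw [h5]
          exact PC.of_ge RVal.Ge.zero
      refine ⟨min μ (κ N / 2), lt_min hμ (half_pos (h.kpos N)), fun m hm hmN => ?_⟩
      rcases Nat.lt_succ_iff_lt_or_eq.1 hmN with h3 | rfl
      · exact (h1 m hm h3).mono (by linarith [min_le_left μ (κ N / 2)])
      · exact h2.mono (by linarith [min_le_right μ (κ m / 2)])
  obtain ⟨μ, hμ, h1⟩ := key m₀
  refine ⟨min μ 1, lt_min hμ one_pos, fun m hm => ?_⟩
  by_cases h2 : m < m₀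
  · exact (h1 m hm h2).mono (by linarith [min_le_left μ 1])
  · exact PC.of_ge ((hm₀ m (not_lt.1 h2)).mono (by linarith [min_le_right μ 1]))

/-- Formula (1). -/
theorem phS_one {f : Polynomial Ω} (hf : f ∈ PI C) {L : ℕ} (hL : f.natDegree ≤ L) (n' N : ℕ) :
    PhS Φ w Z n' N f = ∑ j ∈ range (L + 1), ∑ i ∈ antidiagonal N,
      Ph Φ w Z i.1 (hasseDeriv j f) * PowerSeries.coeff i.2 ((-Yn Z n') ^ j) := by
  have e : PowerSeries.C w + Sn Z n' = (PowerSeries.C w + Z) + (-Yn Z n') := by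
    ext n
    rw [map_add, map_add, map_add, map_neg, Sn, Yn, PowerSeries.coeff_mk, PowerSeries.coeff_mk]
    split_ifs <;> ring
  rw [PhS, Ph, e, coeff_EV_taylor h.hsd hf hL]
  rfl

/-- Formula (2). -/
theorem phS_two {f : Polynomial Ω} (hf : f ∈ PI C) {L : ℕ} (hL : f.natDegree ≤ L) (n' N : ℕ)
    {c : Ω} (hc : c ∈ C) :
    PhS Φ w Z n' N f = ∑ l ∈ range (L + 1), ∑ i ∈ antidiagonal N,
      Φ i.1 ((hasseDeriv l f).eval c) *
        PowerSeries.coeff i.2 ((PowerSeries.C w + Sn Z n' - ser Φ c) ^ l) :=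
  coeff_EV_point h.hsd hf hL hc _ _

/-- The bounds for `w + S - Φ(c)`: all the coefficients, and those of index `≥ n'`, `n'` large. -/
theorem T_ge {c : Ω} (hc : c ∈ C) {δ : ℝ} (hδ : 0 ≤ δ) (hwc : v.Ge (ρ - δ) (w - c)) (M : ℝ) :
    ∃ n₁ : ℕ, ∀ n' : ℕ, n₁ ≤ n' →
      (∀ n : ℕ, v.Ge (ρ - δ - n * σ) (PowerSeries.coeff n (PowerSeries.C w + Sn Z n' - ser Φ c))) ∧
      ∀ n : ℕ, n' ≤ n →
        v.Ge (M - n * σ) (PowerSeries.coeff n (PowerSeries.C w + Sn Z n' - ser Φ c)) := by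
  obtain ⟨n₁, hn₁⟩ := h.oi c hc (max M (ρ - δ))
  have hfar : ∀ n' n : ℕ, n₁ + 1 ≤ n' → n' ≤ n → v.Ge (max M (ρ - δ) - n * σ)
      (PowerSeries.coeff n (PowerSeries.C w + Sn Z n' - ser Φ c)) := by
    intro n' n hn' hn
    have e : PowerSeries.coeff n (PowerSeries.C w + Sn Z n' - ser Φ c) = -Φ n c := by
      rw [map_sub, map_add, PowerSeries.coeff_C, if_neg (by omega), coeff_ser, Sn,
        PowerSeries.coeff_mk, if_neg (by omega), zero_add, zero_sub]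
    rw [e]
    exact (hn₁ n (by omega)).neg
  refine ⟨n₁ + 1, fun n' hn' => ⟨fun n => ?_, fun n hn => ?_⟩⟩
  · by_cases hn : n' ≤ n
    · exact (hfar n' n hn' hn).mono (by linarith [le_max_right M (ρ - δ)])
    · by_cases hn0 : n = 0
      · subst hn0
        have e : PowerSeries.coeff 0 (PowerSeries.C w + Sn Z n' - ser Φ c) = w - c := by
          rw [map_sub, map_add, PowerSeries.coeff_C, if_pos rfl, coeff_ser, Sn,
            PowerSeries.coeff_mk, if_pos (by omega), h.z0, add_zero, h.hsd.c0 c hc]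
        rw [e]
        exact hwc.mono (by simp)
      · have e : PowerSeries.coeff n (PowerSeries.C w + Sn Z n' - ser Φ c) =
            PowerSeries.coeff n Z - Φ n c := by
          rw [map_sub, map_add, PowerSeries.coeff_C, if_neg hn0, coeff_ser, Sn,
            PowerSeries.coeff_mk, if_pos (by omega), zero_add]
        rw [e]
        refine (h.near n hn0 c hc _ hwc).mono ?_
        have h1 := h.kpos n
        have h2 : ρ - δ ≤ min (ρ - δ + κ n) (ρ + κ n / 2) := le_min (by linarith) (by linarith)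
        linarith
  · exact (hfar n' n hn' hn).mono (by linarith [le_max_left M (ρ - δ)])

/-- The bounds for the powers of `Y` at a record. -/
theorem Y_pow {n' : ℕ} {g : ℝ} (hg : ∀ n : ℕ, n' ≤ n → v.Ge (ρ - n * σ - g) (PowerSeries.coeff n Z))
    (j : ℕ) : (∀ n, n < j * n' → PowerSeries.coeff n ((-Yn Z n') ^ j) = 0) ∧
      PowerSeries.coeff (j * n') ((-Yn Z n') ^ j) = (-PowerSeries.coeff n' Z) ^ j ∧
      (∀ n : ℕ, v.Ge (j * (ρ - g) - n * σ) (PowerSeries.coeff n ((-Yn Z n') ^ j))) ∧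
      ∀ n, PowerSeries.coeff n ((-Yn Z n') ^ j) ∈ C := by
  have e : ∀ n, PowerSeries.coeff n (-Yn Z n') = if n < n' then 0 else -PowerSeries.coeff n Z := by
    intro n
    rw [map_neg, Yn, PowerSeries.coeff_mk]
    split_ifs
    exacts [neg_zero, rfl]
  obtain ⟨h1, h2⟩ := pow_low (A := -Yn Z n') (n' := n') (fun n hn => by rw [e, if_pos hn]) j
  refine ⟨h1, ?_, fun n => pow_ge (fun m => ?_) j n, pow_coeff_mem C (fun m => ?_) j⟩
  · rw [h2, e, if_neg (lt_irrefl n')]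
  · rw [e]
    split_ifs with hm
    · exact RVal.Ge.zero
    · exact ((hg m (by omega)).mono (by linarith)).neg
  · rw [e]
    split_ifs
    exacts [C.zero_mem, neg_mem (h.zmem m)]

/-- The Hasse derivatives of `PhS` as a polynomial. -/
theorem phS_poly {f : Polynomial Ω} (hf : f ∈ PI C) (n' n : ℕ) : ∃ P ∈ PI C,
    P.natDegree ≤ f.natDegree ∧
    ∀ i : ℕ, (hasseDeriv i P).eval w = PhS Φ w Z n' n (hasseDeriv i f) := by
  refine ⟨EVP Φ (Sn Z n') n f, EVP_mem h.hsd (h.sn_mem n') n hf, ?_, fun i => ?_⟩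
  · refine natDegree_le_iff_coeff_eq_zero.2 fun j hj => ?_
    rw [EVP_coeff, hasseDeriv_eq_zero_of_lt_natDegree f j hj, EV_zero, map_zero]
  · rw [EVP_hasse h.hsd n hf i, EVP_eval h.hsd n (hasse_mem_PI hf i)]
    rfl

end Set0

/-- The `p`-th powers. -/
theorem ph_pow (p : ℕ) [Fact p.Prime] [CharP Ω p] (hΦ : HSd C Φ) {f : Polynomial Ω} (hf : f ∈ PI C)
    (n : ℕ) : Ph Φ w Z n (f ^ p) = if p ∣ n then Ph Φ w Z (n / p) f ^ p else 0 := by
  rw [Ph, EV_pow hΦ hf, TWII.coeff_pow_p]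
  rfl

theorem ph_pow_pow (p : ℕ) [hp : Fact p.Prime] [CharP Ω p] (hΦ : HSd C Φ) {f : Polynomial Ω}
    (hf : f ∈ PI C) (s n : ℕ) :
    Ph Φ w Z n (f ^ p ^ s) = if p ^ s ∣ n then Ph Φ w Z (n / p ^ s) f ^ p ^ s else 0 := by
  rw [Ph, EV_pow hΦ hf]
  split_ifs with hn
  · obtain ⟨m, rfl⟩ := hn
    rw [TWLM.coeff_ps_pow_pow, Nat.mul_div_cancel_left _ (pow_pos hp.out.pos s)]
    rfl
  · exact TWLM.coeff_ps_pow_zero p _ _ _ hn

/-- Additivity. -/
theorem ph_add (hΦ : HSd C Φ) {f g : Polynomial Ω} (hf : f ∈ PI C) (hg : g ∈ PI C) (n : ℕ) :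
    Ph Φ w Z n (f + g) = Ph Φ w Z n f + Ph Φ w Z n g := by
  rw [Ph, EV_add hΦ hf hg, map_add]
  rfl

theorem ph_sub (hΦ : HSd C Φ) {f g : Polynomial Ω} (hf : f ∈ PI C) (hg : g ∈ PI C) (n : ℕ) :
    Ph Φ w Z n (f - g) = Ph Φ w Z n f - Ph Φ w Z n g := by
  rw [Ph, EV_sub hΦ hf hg, map_sub]
  rfl

theorem ph_sum (hΦ : HSd C Φ) {ι : Type*} (s : Finset ι) (f : ι → Polynomial Ω)
    (hf : ∀ i ∈ s, f i ∈ PI C) (n : ℕ) :
    Ph Φ w Z n (∑ i ∈ s, f i) = ∑ i ∈ s, Ph Φ w Z n (f i) := by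
  rw [Ph, EV_sum hΦ s f hf, map_sum]
  rfl

/-- Products. -/
theorem ph_mul (hΦ : HSd C Φ) {f g : Polynomial Ω} (hf : f ∈ PI C) (hg : g ∈ PI C) (n : ℕ) :
    Ph Φ w Z n (f * g) = ∑ i ∈ antidiagonal n, Ph Φ w Z i.1 f * Ph Φ w Z i.2 g := by
  rw [Ph, EV_mul hΦ hf hg, PowerSeries.coeff_mul]
  rfl

/-- Constants. -/
theorem ph_C (hΦ : HSd C Φ) {c : Ω} (hc : c ∈ C) (n : ℕ) :
    Ph Φ w Z n (Polynomial.C c) = Φ n c := by
  rw [Ph, EV_C hΦ hc, coeff_ser]

omit [Algebra k Ω] in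
/-- The coefficients of the `p`-th power of a polynomial. -/
theorem coeff_poly_pow (p : ℕ) [Fact p.Prime] [CharP Ω p] (f : Polynomial Ω) (n : ℕ) :
    (f ^ p).coeff n = if p ∣ n then (f.coeff (n / p)) ^ p else 0 := by
  have h1 := TWII.coeff_pow_p p (f : PowerSeries Ω) n
  rwa [← Polynomial.coe_pow, Polynomial.coeff_coe, Polynomial.coeff_coe] at h1

omit [Algebra k Ω] in
/-- The jets of a `p`-th power. -/
theorem hasse_pow (p : ℕ) [Fact p.Prime] [CharP Ω p] (f : Polynomial Ω) (n : ℕ) (w : Ω) :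
    (hasseDeriv n (f ^ p)).eval w = if p ∣ n then ((hasseDeriv (n / p) f).eval w) ^ p else 0 := by
  rw [← taylor_coeff, taylor_pow, coeff_poly_pow, taylor_coeff]

section Poly

variable [IsAlgClosed Ω] {p : ℕ} [hp : Fact p.Prime] [CharP Ω p] {c : ℝ}

theorem PC.exists_poly (hw : TL v C w ρ) {f : Polynomial Ω}
    (hl : PC p v (cadj v C w) c (f.eval w)) : ∃ G ∈ PI C, v.Ge c ((f - G ^ p).eval w) := by
  obtain ⟨g, hg, h1⟩ := hl
  have hp0 : (0 : ℝ) < p := by exact_mod_cast hp.out.pos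
  obtain ⟨G, hG, h2⟩ := hw.dense hg (c / p)
  refine ⟨G, hG, ?_⟩
  have e : (f - G ^ p).eval w = (f.eval w - g ^ p) + (g - G.eval w) ^ p := by
    rw [eval_sub, eval_pow, sub_pow_char]
    ring
  rw [e]
  refine h1.add ((ge_pow h2 p).mono (le_of_eq ?_))
  field_simp

/-- Limits of `p`-th powers. -/
theorem _root_.Pool.Agent.TWII.LP.exists_poly (hw : TL v C w ρ) {f : Polynomial Ω}
    (hl : LP p v (cadj v C w) c (f.eval w)) {ε : ℝ} (hε : 0 < ε) :
    ∃ G ∈ PI C, v.Ge (c - ε) ((f - G ^ p).eval w) :=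
  PC.exists_poly hw (hl.pc (by linarith))

theorem _root_.Pool.Agent.TWII.PG.exists_poly (hw : TL v C w ρ) {f : Polynomial Ω}
    (hl : PG p v (cadj v C w) c (f.eval w)) : ∃ G ∈ PI C, Gt v c ((f - G ^ p).eval w) := by
  obtain ⟨μ, hμ, h1⟩ := PG.exists_pc hl
  obtain ⟨G, hG, h2⟩ := PC.exists_poly hw h1
  exact ⟨G, hG, Gt.of_ge h2 (by linarith)⟩

/-- Descent to `C`. -/
theorem PC.down (hw : TL v C w ρ) {x : Ω} (hx : x ∈ C) (hl : PC p v (cadj v C w) c x) :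
    PC p v C c x := by
  classical
  obtain ⟨G, hG, h1⟩ := PC.exists_poly (f := Polynomial.C x) hw (by rwa [eval_C])
  obtain ⟨δ, hδ, h2⟩ := TL.deep hw {Polynomial.C x - G ^ p} (fun f hf => by
    rw [mem_singleton.1 hf]
    exact sub_mem (C_mem_PI hx) (pow_mem hG p))
  obtain ⟨d, hd, h3⟩ := hw.lim δ hδ
  have h4 := ((h2 d h3 _ (mem_singleton_self _)).1 c).1 h1
  rw [eval_sub, eval_C, eval_pow] at h4
  exact ⟨_, eval_mem hG hd, h4⟩

theorem _root_.Pool.Agent.TWII.LP.down (hw : TL v C w ρ) {x : Ω} (hx : x ∈ C) (hl : LP p v (cadj v C w) c x) :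
    LP p v C c x :=
  lp_iff.2 fun _ hc => PC.down hw hx (hl.pc hc)

theorem _root_.Pool.Agent.TWII.PG.down (hw : TL v C w ρ) {x : Ω} (hx : x ∈ C) (hl : PG p v (cadj v C w) c x) :
    PG p v C c x := by
  obtain ⟨μ, hμ, h1⟩ := PG.exists_pc hl
  exact (PC.down hw hx h1).pg (by linarith)

omit [IsAlgClosed Ω] hp [CharP Ω p] in
theorem PC.up {x : Ω} (hl : PC p v C c x) : PC p v (cadj v C w) c x := by
  obtain ⟨g, hg, h1⟩ := hl
  exact ⟨g, le_cadj v C w hg, h1⟩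

omit [IsAlgClosed Ω] hp [CharP Ω p] in
theorem _root_.Pool.Agent.TWII.LP.up {x : Ω} (hl : LP p v C c x) : LP p v (cadj v C w) c x :=
  lp_iff.2 fun _ hc => (hl.pc hc).up

omit [IsAlgClosed Ω] hp [CharP Ω p] in
theorem _root_.Pool.Agent.TWII.PG.up {x : Ω} (hl : PG p v C c x) : PG p v (cadj v C w) c x := by
  obtain ⟨g, hg, h1⟩ := hl
  exact ⟨g, le_cadj v C w hg, h1⟩

/-- The jets: of order prime to `p` they are `> c - j ρ`. -/
theorem PC.hjet (hw : TL v C w ρ) {f : Polynomial Ω} (hf : f ∈ PI C)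
    (hl : PC p v (cadj v C w) c (f.eval w)) {j : ℕ} (hj : j ≠ 0) :
    ∃ g ∈ cadj v C w, Gt v (c - j * ρ) ((hasseDeriv j f).eval w - g ^ p) ∧
      (¬ p ∣ j → g = 0) := by
  obtain ⟨G, hG, h1⟩ := PC.exists_poly hw hl
  have h2 := TWLM.poly_str hw (sub_mem hf (pow_mem hG p)) hj h1
  rw [map_sub, eval_sub, hasse_pow] at h2
  by_cases hpj : p ∣ j
  · rw [if_pos hpj] at h2
    exact ⟨_, TWLM.eval_mem_cadj (hasse_mem_PI hG _), h2, fun h => absurd hpj h⟩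
  · rw [if_neg hpj] at h2
    refine ⟨0, zero_mem _, ?_, fun _ => rfl⟩
    rwa [zero_pow hp.out.ne_zero]

theorem PC.jet_pg (hw : TL v C w ρ) {f : Polynomial Ω} (hf : f ∈ PI C)
    (hl : PC p v (cadj v C w) c (f.eval w)) {j : ℕ} (hj : j ≠ 0) :
    PG p v (cadj v C w) (c - j * ρ) ((hasseDeriv j f).eval w) := by
  obtain ⟨g, hg, h1, -⟩ := PC.hjet hw hf hl hj
  exact ⟨g, hg, h1⟩

theorem PC.jet_gt (hw : TL v C w ρ) {f : Polynomial Ω} (hf : f ∈ PI C)
    (hl : PC p v (cadj v C w) c (f.eval w)) {j : ℕ} (hj : ¬ p ∣ j) :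
    Gt v (c - j * ρ) ((hasseDeriv j f).eval w) := by
  obtain ⟨g, -, h1, h2⟩ := PC.hjet hw hf hl (j := j) (by rintro rfl; exact hj (dvd_zero p))
  rwa [h2 hj, zero_pow hp.out.ne_zero, sub_zero] at h1

theorem _root_.Pool.Agent.TWII.LP.hjet (hw : TL v C w ρ) {f : Polynomial Ω} (hf : f ∈ PI C)
    (hl : LP p v (cadj v C w) c (f.eval w)) (j : ℕ) :
    LP p v (cadj v C w) (c - j * ρ) ((hasseDeriv j f).eval w) := by
  by_cases hj : j = 0
  · subst hj
    rw [hasseDeriv_zero']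
    exact LP.mono hl (by simp)
  · exact lp_iff.2 fun c' hc => (PC.jet_pg hw hf (hl.pc (c' := c' + j * ρ) (by linarith)) hj).pc.mono
      (by linarith)

/-- The coefficients along the arc. -/
theorem PC.ph (h : Set0 v C Φ w Z κ ρ σ) {f : Polynomial Ω} (hf : f ∈ PI C)
    (hl : PC p v (cadj v C w) c (f.eval w)) (n : ℕ) :
    PC p v (cadj v C w) (c - n * σ) (Ph Φ w Z n f) := by
  obtain ⟨G, hG, h1⟩ := PC.exists_poly h.tl hl
  have h2 := h.ph_ge n (sub_mem hf (pow_mem hG p)) h1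
  rw [ph_sub h.hsd hf (pow_mem hG p), ph_pow p h.hsd hG] at h2
  split_ifs at h2
  · exact ⟨_, h.ph_mem hG _, h2⟩
  · rw [sub_zero] at h2
    exact PC.of_ge h2

theorem _root_.Pool.Agent.TWII.LP.ph (h : Set0 v C Φ w Z κ ρ σ) {f : Polynomial Ω} (hf : f ∈ PI C)
    (hl : LP p v (cadj v C w) c (f.eval w)) {n : ℕ} (hn : n ≠ 0) :
    PG p v (cadj v C w) (c - n * σ) (Ph Φ w Z n f) := by
  obtain ⟨η, hη, hstr⟩ := h.ph_str hn
  obtain ⟨G, hG, h1⟩ := LP.exists_poly h.tl hl (half_pos hη)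
  have h2 := hstr _ (sub_mem hf (pow_mem hG p)) _ h1
  rw [ph_sub h.hsd hf (pow_mem hG p), ph_pow p h.hsd hG] at h2
  split_ifs at h2
  · exact ⟨_, h.ph_mem hG _, Gt.of_ge h2 (by linarith)⟩
  · rw [sub_zero] at h2
    exact PG.of_gt (Gt.of_ge h2 (by linarith))

theorem _root_.Pool.Agent.TWII.LP.ph' (h : Set0 v C Φ w Z κ ρ σ) {f : Polynomial Ω} (hf : f ∈ PI C)
    (hl : LP p v (cadj v C w) c (f.eval w)) (n : ℕ) :
    LP p v (cadj v C w) (c - n * σ) (Ph Φ w Z n f) :=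
  lp_iff.2 fun c' hc => (PC.ph h hf (hl.pc (c' := c' + n * σ) (by linarith)) n).mono (by linarith)

end Poly

end Set0

end Pool.Agent.TWN1
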