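import Pool.Agent.Lib.TWN1.Rad
import Pool.Agent.Lib.TWN1.GabF

/-!
# TANK W, leaf (II.f): the normal form of an unhit element

* `rad_poly`: an element of the closure of `C(w)` which is a limit of `p`-th powers up to `ν` is
  `B(w)` with a constant derivative, modulo `p`-th powers and `{> ν}`;
* `radu`: if it is unhit by `w` it is `e w + c`.
-/

set_option autoImplicit false
set_option linter.unusedSectionVars false

open Polynomial Finset

namespace Pool.Agent.TWN1

open Pool.Agent.H15JM (RVal)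
open Pool.Agent.TWM
open Pool.Agent.TWII (PG LP)

universe u

variable {k Ω : Type u} [Field k] [Field Ω] [Algebra k Ω] {v : RVal Ω}
  {C F : IntermediateField k Ω} {w : Ω} {ρ ν : ℝ}
  {p : ℕ} [hp : Fact p.Prime] [CharP Ω p] [IsAlgClosed Ω]

/-- Taylor expansion. -/
theorem eval_hasse (f : Polynomial Ω) (w θ : Ω) {N : ℕ} (hN : f.natDegree ≤ N) :
    f.eval θ = ∑ j ∈ range (N + 1), (hasseDeriv j f).eval w * (θ - w) ^ j := by
  rw [← taylor_eval_sub w f θ, eval_eq_sum_range' (n := N + 1) (by rw [natDegree_taylor]; omega)]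
  exact sum_congr rfl fun j _ => by rw [taylor_coeff]

theorem PC.nsmul {c : ℝ} {x : Ω} (h : PC p v F c x) (n : ℕ) : PC p v F c (n * x) := by
  induction n with
  | zero =>
    rw [Nat.cast_zero, zero_mul]
    exact PC.of_ge RVal.Ge.zero
  | succ n ih =>
    rw [Nat.cast_succ, add_mul, one_mul]
    exact ih.add h

/-- The first half of H0 and TOP. -/
theorem rad_poly (hw : TL v C w ρ) {f : Ω} (hf : f ∈ cadj v C w) (hν : LP p v (cadj v C w) ν f) :
    ∃ e ∈ C, (e ≠ 0 → v e = ν - ρ) ∧ ∃ B ∈ PI C, derivative B = Polynomial.C e ∧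
      PG p v (cadj v C w) ν (f - B.eval w) := by
  obtain ⟨B₁, hB₁, hb₁⟩ := hw.dense hf (ν + 1)
  have hsm : PG p v (cadj v C w) ν (f - B₁.eval w) := PG.of_gt (Gt.of_ge hb₁ (by linarith))
  have hν₁ : LP p v (cadj v C w) ν (B₁.eval w) := by
    have h1 := hν.sub (LP.of_pg hsm)
    rwa [sub_sub_cancel] at h1
  have h1 := lp_jet_one hw hB₁ hν₁
  rw [hasseDeriv_one'] at h1
  have hBd₁ : derivative B₁ ∈ PI C := by
    rw [← hasseDeriv_one']
    exact hasse_mem_PI hB₁ 1
  obtain ⟨e, he, hev, h2⟩ := exists_lead hw.imm (TWLM.eval_mem_cadj (w := w) hBd₁) h1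
  obtain ⟨η, hη, h3⟩ := TWLM.exists_ge_of_gt h2
  have hg : derivative B₁ - Polynomial.C e = derivative (B₁ - Polynomial.C e * X) := by
    rw [derivative_sub, derivative_C_mul, derivative_X, mul_one]
  obtain ⟨G, hG, hGd, hGs⟩ := exists_anti p hw (g := derivative B₁ - Polynomial.C e)
    (sub_mem hBd₁ (C_mem_PI he)) (by rw [hg]; exact iterate_derivative_pred p _) (b := ν - ρ + η)
    (by rwa [eval_sub, eval_C]) (half_pos hη)
  refine ⟨e, he, hev, B₁ - G, sub_mem hB₁ hG, ?_, ?_⟩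
  · rw [derivative_sub, hGd]
    ring
  · have hGs' : PG p v (cadj v C w) ν (G.eval w) := PG.of_gt (Gt.of_ge hGs (by linarith))
    have e1 : f - (B₁ - G).eval w = (f - B₁.eval w) + G.eval w := by
      rw [eval_sub]
      ring
    rw [e1]
    exact hsm.add hGs'

/-- **The normal form of an unhit element.** -/
theorem radu (hw : TL v C w ρ) {f : Ω} (hf : f ∈ cadj v C w) (hν : LP p v (cadj v C w) ν f)
    (hu : Unh p v C (cadj v C w) w ρ ν f) :
    ∃ e ∈ C, (e ≠ 0 → v e = ν - ρ) ∧ ∃ c ∈ C, PG p v (cadj v C w) ν (f - e * w - c) := by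
  classical
  obtain ⟨e, he, hev, B, hB, hBd, hfB⟩ := rad_poly hw hf hν
  refine ⟨e, he, hev, ?_⟩
  obtain ⟨f₀, hf₀, hff, hjet⟩ := hu
  obtain ⟨Q, hQ⟩ : ∃ Q, Q = B - Polynomial.C e * X := ⟨_, rfl⟩
  have hQI : Q ∈ PI C := by
    rw [hQ]
    exact sub_mem hB (mul_mem (C_mem_PI he) X_mem_PI)
  have hQd : derivative Q = 0 := by
    rw [hQ, derivative_sub, hBd, derivative_C_mul, derivative_X, mul_one, sub_self]
  have hQ0 : ∀ l, ¬ p ∣ l → hasseDeriv l Q = 0 := fun l hl => hasse_zero_of_derivative p hQd hl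
  -- the jets
  have hdif : PG p v (cadj v C w) ν ((B - f₀).eval w) := by
    have e1 : (B - f₀).eval w = (f - f₀.eval w) - (f - B.eval w) := by
      rw [eval_sub]
      ring
    rw [e1]
    exact hff.sub hfB
  have hQj : ∀ l, p ∣ l → l ≠ 0 → PG p v (cadj v C w) (ν - l * ρ) ((hasseDeriv l Q).eval w) := by
    intro l hl hl0
    have h1 := PC.jet_pg hw (sub_mem hB hf₀) hdif.pc hl0
    have h2 := hjet l hl hl0
    rw [taylor_coeff] at h2
    have h3 : hasseDeriv l Q = hasseDeriv l (B - f₀) + hasseDeriv l f₀ := by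
      have h4 : hasseDeriv l (Polynomial.C e * X) = 0 := by
        refine hasseDeriv_eq_zero_of_lt_natDegree _ _ ?_
        have h5 := Nat.le_of_dvd (Nat.pos_of_ne_zero hl0) hl
        have h6 := hp.out.two_le
        exact ((natDegree_C_mul_le e X).trans natDegree_X_le).trans_lt (by omega)
      rw [hQ, map_sub, h4, sub_zero, map_sub]
      ring
    rw [h3, eval_add]
    exact h1.add h2
  -- the margins
  set N := Q.natDegree with hN
  have h1 : ∀ l : ℕ, ∃ μ : ℝ, 0 < μ ∧ (p ∣ l → l ≠ 0 →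
      PC p v (cadj v C w) (ν - l * ρ + μ) ((hasseDeriv l Q).eval w)) := by
    intro l
    by_cases hl : p ∣ l ∧ l ≠ 0
    · obtain ⟨μ, hμ, h2⟩ := (hQj l hl.1 hl.2).exists_pc
      exact ⟨μ, hμ, fun _ _ => h2⟩
    · exact ⟨1, one_pos, fun h2 h3 => absurd ⟨h2, h3⟩ hl⟩
  choose μ hμ0 hμ using h1
  obtain ⟨μ₀, hμ₀, hμl⟩ : ∃ μ₀ : ℝ, 0 < μ₀ ∧ ∀ l ≤ N, μ₀ ≤ μ l := by
    have hne : (range (N + 1)).Nonempty := ⟨0, mem_range.2 (Nat.succ_pos N)⟩
    refine ⟨(range (N + 1)).inf' hne μ, ?_, fun l hl => ?_⟩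
    · exact (lt_inf'_iff hne).2 fun l _ => hμ0 l
    · exact inf'_le μ (mem_range.2 (Nat.lt_succ_of_le hl))
  set δ : ℝ := μ₀ / (4 * (N + 1)) with hδ
  have hN1 : (0 : ℝ) < N + 1 := by positivity
  have hδ0 : 0 < δ := by positivity
  have hδN : (N + 1) * δ = μ₀ / 4 := by
    rw [hδ]
    field_simp
  obtain ⟨θ, hθ, hθw⟩ := hw.lim δ hδ0
  have hθK : θ ∈ cadj v C w := le_cadj v C w hθ
  have hwK : w ∈ cadj v C w := self_mem_cadj v C w
  have hθw' : v.Ge (ρ - δ) (θ - w) := by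
    have e : θ - w = -(w - θ) := by ring
    rw [e]
    exact hθw.neg
  have hp0 : (0 : ℝ) < p := by exact_mod_cast hp.out.pos
  -- a power
  have hpw : ∀ {x y : Ω} {b : ℝ} {l : ℕ}, PC p v (cadj v C w) b x → v.Ge (ρ - δ) y →
      y ∈ cadj v C w → p ∣ l → PC p v (cadj v C w) (b + l * (ρ - δ)) (x * y ^ l) := by
    rintro x y b l hx hy hyK ⟨m, rfl⟩
    have h2 := hx.mul_pow (d := y ^ m) (pow_mem hyK m) (b := (p * m : ℕ) * (ρ - δ)) (by
      rw [← pow_mul, mul_comm m p]
      exact ge_pow hy (p * m))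
    rwa [← pow_mul, mul_comm m p] at h2
  refine ⟨Q.eval θ, eval_mem hQI hθ, ?_⟩
  have hjθ : ∀ l, p ∣ l → l ≠ 0 → PC p v (cadj v C w) (ν - l * ρ + μ₀ / 2)
      ((hasseDeriv l Q).eval θ) := by
    intro l hl hl0
    rw [eval_hasse (hasseDeriv l Q) w θ (N := N) (by
      rw [hN]
      exact (natDegree_hasseDeriv_le Q l).trans (Nat.sub_le _ _))]
    refine PC.sum _ _ fun j hj => ?_
    have hjN : j ≤ N := Nat.lt_succ_iff.1 (mem_range.1 hj)
    have e1 : hasseDeriv j (hasseDeriv l Q) = ((j + l).choose j : Ω) • hasseDeriv (j + l) Q := by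
      have := hasseDeriv_comp (R := Ω) j l
      have h2 := congrArg (fun g => g Q) this
      simp only [LinearMap.comp_apply, LinearMap.smul_apply] at h2
      rw [h2]
      rw [Nat.cast_smul_eq_nsmul]
    by_cases hpj : p ∣ j
    · by_cases hjl : j + l ≤ N
      · have h2 := (hμ (j + l) (dvd_add hpj hl) (by omega)).mono
          (c' := ν - (j + l : ℕ) * ρ + μ₀) (by linarith [hμl _ hjl])
        rw [e1, eval_smul, smul_eq_mul]
        have h3 := hpw (h2.nsmul ((j + l).choose j)) hθw' (sub_mem hθK hwK) hpj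
        refine h3.mono ?_
        push_cast
        have h4 : (j : ℝ) ≤ N := by exact_mod_cast hjN
        nlinarith
      · have h2 : hasseDeriv (j + l) Q = 0 :=
          hasseDeriv_eq_zero_of_lt_natDegree _ _ (by rw [← hN]; omega)
        rw [e1, h2, smul_zero, eval_zero, zero_mul]
        exact PC.of_ge RVal.Ge.zero
    · have h2 : hasseDeriv (j + l) Q = 0 := hQ0 _ fun h3 => hpj ((Nat.dvd_add_left hl).1 h3)
      rw [e1, h2, smul_zero, eval_zero, zero_mul]
      exact PC.of_ge RVal.Ge.zero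
  have key : PC p v (cadj v C w) (ν + μ₀ / 4) (Q.eval w - Q.eval θ) := by
    have e1 := eval_hasse Q θ w (N := N) le_rfl
    rw [sum_range_succ'] at e1
    rw [hasseDeriv_zero', pow_zero, mul_one] at e1
    rw [e1, add_sub_cancel_right]
    refine PC.sum _ _ fun j hj => ?_
    have hjN : j + 1 ≤ N := by
      have := mem_range.1 hj
      omega
    by_cases hpj : p ∣ j + 1
    · have h2 := hpw (hjθ (j + 1) hpj (Nat.succ_ne_zero j)) hθw (sub_mem hwK hθK) hpj
      refine h2.mono ?_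
      have h4 : ((j + 1 : ℕ) : ℝ) ≤ N := by exact_mod_cast hjN
      nlinarith
    · rw [hQ0 _ hpj, eval_zero, zero_mul]
      exact PC.of_ge RVal.Ge.zero
  have e1 : f - e * w - Q.eval θ = (f - B.eval w) + (Q.eval w - Q.eval θ) := by
    rw [hQ]
    simp only [eval_sub, eval_mul, eval_C, eval_X]
    ring
  rw [e1]
  exact hfB.add (key.pg (by linarith))

end Pool.Agent.TWN1
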