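import Pool.Agent.Lib.TWN1.Nf
import Pool.Agent.Lib.TWN1.Trunc

/-!
# TANK W, leaf (II.f): finitely many radical jumps over a strict floor

`S C σ Φ`: a class of closed fields with a strict overconvergent arc, `S'`: the fields isogenous to
floors of finite shape over them (`RCls`).  `RFl S S' F`: the field `F` is in `S'`, or it is the
closure of `C(w)`, `C` in `S`, `w` with infinitely many visible jets.
* `Set0.rad`: H0 and TOP for an element of the closure of `C(w)`;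
* `RFl.step`: `RFl` passes to `F(α)`, `α ^ p ∈ F`;
* `RFl.of_pow`: the closure of `C(u)`, `u ^ p ^ i` of transcendental type over `C`.
-/

set_option autoImplicit false
set_option linter.unusedSectionVars false

open Polynomial Finset

namespace Pool.Agent.TWN1

open Pool.Agent.H15JM (RVal)
open Pool.Agent.TWM
open Pool.Agent.TWII (PG LP)
open Pool.Agent.TWLM (HSd Oi Arc)

universe u

variable {k Ω : Type u} [Field k] [Field Ω] [Algebra k Ω] {v : RVal Ω}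
  {C F : IntermediateField k Ω} {Φ : ℕ → Ω → Ω} {w : Ω} {Z : PowerSeries Ω} {κ : ℕ → ℝ} {ρ σ ν : ℝ}
  {p : ℕ} [hp : Fact p.Prime] [CharP Ω p] [IsAlgClosed Ω]

/-- **H0 and TOP**, any element of level `ν`. -/
theorem Set0.rad (h : Set0 v C Φ w Z κ ρ σ)
    (hinf : ∀ n₀ : ℕ, ∃ n : ℕ, n₀ ≤ n ∧ ¬ v.Ge (ρ - n * σ) (PowerSeries.coeff n Z))
    {f : Ω} (hf : f ∈ cadj v C w) (hν : LP p v (cadj v C w) ν f) :
    ∃ e ∈ C, (e ≠ 0 → v e = ν - ρ) ∧ ∃ c ∈ C, PG p v (cadj v C w) ν (f - e * w - c) := by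
  obtain ⟨B₁, hB₁, hb₁⟩ := h.tl.dense hf (ν + 1)
  have hsm : PG p v (cadj v C w) ν (f - B₁.eval w) := PG.of_gt (Gt.of_ge hb₁ (by linarith))
  have hν₁ : LP p v (cadj v C w) ν (B₁.eval w) := by
    have h1 := hν.sub (LP.of_pg hsm)
    rwa [sub_sub_cancel] at h1
  have h1 := lp_jet_one h.tl hB₁ hν₁
  rw [hasseDeriv_one'] at h1
  have hBd₁ : derivative B₁ ∈ PI C := by
    rw [← hasseDeriv_one']
    exact hasse_mem_PI hB₁ 1
  obtain ⟨e, he, hev, h2⟩ := exists_lead h.tl.imm (TWLM.eval_mem_cadj (w := w) hBd₁) h1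
  obtain ⟨η, hη, h3⟩ := TWLM.exists_ge_of_gt h2
  have hg : derivative B₁ - Polynomial.C e = derivative (B₁ - Polynomial.C e * X) := by
    rw [derivative_sub, derivative_C_mul, derivative_X, mul_one]
  obtain ⟨G, hG, hGd, hGs⟩ := exists_anti p h.tl (g := derivative B₁ - Polynomial.C e)
    (sub_mem hBd₁ (C_mem_PI he)) (by rw [hg]; exact iterate_derivative_pred p _) (b := ν - ρ + η)
    (by rwa [eval_sub, eval_C]) (half_pos hη)
  have hBd : derivative (B₁ - G) = Polynomial.C e := by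
    rw [derivative_sub, hGd]
    ring
  have hGs' : PG p v (cadj v C w) ν (G.eval w) := PG.of_gt (Gt.of_ge hGs (by linarith))
  have hX : ∀ l, 2 ≤ l → ¬ p ∣ l → hasseDeriv l (B₁ - G) = 0 := by
    intro l hl hpl
    have h4 : derivative (B₁ - G - Polynomial.C e * X) = 0 := by
      rw [derivative_sub, hBd, derivative_C_mul, derivative_X, mul_one, sub_self]
    have h5 := hasse_zero_of_derivative p h4 hpl
    rw [map_sub, sub_eq_zero] at h5
    rw [h5]
    refine hasseDeriv_eq_zero_of_lt_natDegree _ _ ?_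
    exact ((natDegree_C_mul_le e X).trans natDegree_X_le).trans_lt (by omega)
  obtain ⟨c, hc, h6⟩ := h.top hinf (sub_mem hB₁ hG) hX (by
    rw [eval_sub]
    exact hν₁.sub (LP.of_pg hGs')) (by rw [hasseDeriv_one', hBd])
  refine ⟨e, he, hev, c, hc, ?_⟩
  have e1 : f - e * w - c = (f - B₁.eval w) + G.eval w + ((B₁ - G).eval w - e * w - c) := by
    rw [eval_sub]
    ring
  rw [e1]
  exact (hsm.add hGs').add h6

/-- A class `S` of closed fields with a strict overconvergent arc, and a class `S'` of fields which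
contains the floors of finite shape over the fields of `S` and is stable under `F(α)`,
`α ^ p ∈ F`. -/
structure RCls (p : ℕ) (v : RVal Ω) (S : IntermediateField k Ω → ℝ → (ℕ → Ω → Ω) → Prop)
    (S' : IntermediateField k Ω → Prop) : Prop where
  cld : ∀ {C : IntermediateField k Ω} {σ : ℝ} {Φ : ℕ → Ω → Ω}, S C σ Φ → Cld v C
  arc : ∀ {C : IntermediateField k Ω} {σ : ℝ} {Φ : ℕ → Ω → Ω}, S C σ Φ → Arc v C σ Φ
  oi : ∀ {C : IntermediateField k Ω} {σ : ℝ} {Φ : ℕ → Ω → Ω}, S C σ Φ → Oi v C σ Φ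
  irr : ∀ {C : IntermediateField k Ω} {σ : ℝ} {Φ : ℕ → Ω → Ω}, S C σ Φ →
    ∀ n : ℕ, n ≠ 0 → ∀ f ∈ C, f ≠ 0 → v f ≠ n * σ
  /-- finite shape -/
  fin : ∀ {C : IntermediateField k Ω} {σ ρ : ℝ} {Φ : ℕ → Ω → Ω} {w : Ω} {Z : PowerSeries Ω}
    {κ : ℕ → ℝ} {n₀ : ℕ}, S C σ Φ → Set0 v C Φ w Z κ ρ σ →
    (∀ n : ℕ, n₀ ≤ n → Gt v (ρ - n * σ) (PowerSeries.coeff n Z)) → S' (cadj v C w)
  /-- isogeny -/
  iso : ∀ {F : IntermediateField k Ω} {α : Ω}, S' F → α ^ p ∈ F → S' (cadj v F α)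
  /-- exchange -/
  exch : ∀ {C : IntermediateField k Ω} {σ ρ ν : ℝ} {Φ : ℕ → Ω → Ω} {w c r : Ω}, S C σ Φ →
    TL v C w ρ → c ∈ C → LP p v C ν c → ¬ PG p v C ν c → r ∈ cadj v C w → Gt v ν r →
    ∃ g ∈ C, ∃ (C' : IntermediateField k Ω) (σ' : ℝ) (Φ' : ℕ → Ω → Ω) (θ : Ω), S C' σ' Φ' ∧
      TL v C' (w - θ) ρ ∧
      ∀ u : Ω, u ^ p = c - g ^ p + r → cadj v (cadj v C w) u = cadj v C' (w - θ)

/-- The field is in the class `S'`, or a floor of infinite shape over a field of the class `S`. -/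
def RFl (v : RVal Ω) (S : IntermediateField k Ω → ℝ → (ℕ → Ω → Ω) → Prop)
    (S' : IntermediateField k Ω → Prop) (F : IntermediateField k Ω) : Prop :=
  S' F ∨
  ∃ (C : IntermediateField k Ω) (σ : ℝ) (Φ : ℕ → Ω → Ω) (w : Ω) (Z : PowerSeries Ω) (κ : ℕ → ℝ)
    (ρ : ℝ), S C σ Φ ∧ Set0 v C Φ w Z κ ρ σ ∧
    (∀ n₀ : ℕ, ∃ n : ℕ, n₀ ≤ n ∧ ¬ v.Ge (ρ - n * σ) (PowerSeries.coeff n Z)) ∧ F = cadj v C w

/-- Over a field of the class. -/
theorem RFl.tl {S : IntermediateField k Ω → ℝ → (ℕ → Ω → Ω) → Prop}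
    {S' : IntermediateField k Ω → Prop} (hS : RCls p v S S')
    (hC : S C σ Φ) (hw : TL v C w ρ) : RFl v S S' (cadj v C w) := by
  obtain ⟨Z, κ, hZ⟩ := exists_set0 (hS.arc hC).toHSd (hS.oi hC) (fun n hn => by
    obtain ⟨m, hm, h1⟩ := (hS.arc hC).str n hn
    exact ⟨n * σ - m, by linarith, fun x hx b hb => (h1 x hx b hb).mono (by linarith)⟩) hw
  by_cases hinf : ∀ n₀ : ℕ, ∃ n : ℕ, n₀ ≤ n ∧ ¬ v.Ge (ρ - n * σ) (PowerSeries.coeff n Z)
  · exact Or.inr ⟨C, σ, Φ, w, Z, κ, ρ, hC, hZ, hinf, rfl⟩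
  · push Not at hinf
    obtain ⟨L, hL⟩ := hinf
    have hg : ∃ n₀ : ℕ, ∀ n : ℕ, n₀ ≤ n → Gt v (ρ - n * σ) (PowerSeries.coeff n Z) := by
      by_cases h1 : ∃ m : ℕ, L ≤ m ∧ PowerSeries.coeff m Z ≠ 0 ∧
          v (PowerSeries.coeff m Z) = ρ - m * σ
      · obtain ⟨m, hm, hm0, hmv⟩ := h1
        refine ⟨m + 1, fun n hn h0 => lt_of_le_of_ne (hL n (by omega) h0) fun h2 => ?_⟩
        refine hS.irr hC (n - m) (by omega) (PowerSeries.coeff m Z / PowerSeries.coeff n Z)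
          (div_mem (hZ.zmem m) (hZ.zmem n)) (div_ne_zero hm0 h0) ?_
        rw [v.map_div hm0 h0, hmv, ← h2, Nat.cast_sub (by omega)]
        ring
      · refine ⟨L, fun n hn h0 => lt_of_le_of_ne (hL n hn h0) fun h2 => ?_⟩
        exact h1 ⟨n, hn, h0, h2.symm⟩
    obtain ⟨n₀, hn₀⟩ := hg
    exact Or.inl (hS.fin hC hZ hn₀)

/-- The supremum of the values of `α - g`. -/
theorem exists_dist (hF : Cld v F) {α : Ω} (hα : α ∉ F) : ∃ s : ℝ,
    (∀ ε : ℝ, 0 < ε → ∃ g ∈ F, v.Ge (s - ε) (α - g)) ∧ ∀ g ∈ F, ¬ Gt v s (α - g) := by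
  have hne : ∀ g ∈ F, α - g ≠ 0 := fun g hg h0 => hα (by rw [sub_eq_zero.1 h0]; exact hg)
  obtain ⟨b, hb⟩ : ∃ b : ℝ, ∀ g ∈ F, ¬ v.Ge b (α - g) := by
    by_contra hcon
    push Not at hcon
    exact hα (hF fun b => by
      obtain ⟨g, hg, h1⟩ := hcon b
      exact ⟨g, hg, h1⟩)
  set T : Set ℝ := {x | ∃ g ∈ F, x = v (α - g)} with hT
  have hTne : T.Nonempty := ⟨_, 0, zero_mem _, rfl⟩
  have hTb : BddAbove T := ⟨b, by
    rintro _ ⟨g, hg, rfl⟩
    by_contra h1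
    exact hb g hg fun _ => (not_le.1 h1).le⟩
  refine ⟨sSup T, fun ε hε => ?_, fun g hg h1 => ?_⟩
  · obtain ⟨_, ⟨g, hg, rfl⟩, h1⟩ := exists_lt_of_lt_csSup hTne (show sSup T - ε < sSup T by linarith)
    exact ⟨g, hg, fun _ => h1.le⟩
  · exact (h1 (hne g hg)).not_ge (le_csSup hTb ⟨g, hg, rfl⟩)

/-- The level of a `p`-th power which is not a `p`-th power of the field. -/
theorem level_of_dist {α : Ω} {s : ℝ} (h1 : ∀ ε : ℝ, 0 < ε → ∃ g ∈ F, v.Ge (s - ε) (α - g))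
    (h2 : ∀ g ∈ F, ¬ Gt v s (α - g)) : LP p v F (p * s) (α ^ p) ∧ ¬ PG p v F (p * s) (α ^ p) := by
  have hp0 : (0 : ℝ) < p := by exact_mod_cast hp.out.pos
  have hsub : ∀ g : Ω, α ^ p - g ^ p = (α - g) ^ p := fun g => (sub_pow_char ..).symm
  constructor
  · refine lp_iff.2 fun c' hc' => ?_
    obtain ⟨g, hg, h3⟩ := h1 ((p * s - c') / p) (by
      apply div_pos _ hp0
      linarith)
    refine ⟨g, hg, ?_⟩
    rw [hsub]
    refine (ge_pow h3 p).mono (le_of_eq ?_)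
    field_simp
    ring
  · rintro ⟨g, hg, h3⟩
    refine h2 g hg fun h0 => ?_
    rw [hsub] at h3
    have h4 := h3 (pow_ne_zero p h0)
    rw [v.map_pow h0] at h4
    exact lt_of_mul_lt_mul_left h4 hp0.le

omit hp [CharP Ω p] [IsAlgClosed Ω] in
theorem cadj_of_mem (hF : Cld v F) {α : Ω} (hα : α ∈ F) : cadj v F α = F :=
  le_antisymm (cadj_le hF le_rfl hα) (le_cadj _ _ _)

/-- A generator minus an element of the field. -/
theorem Gt.of_pow_gt {s : ℝ} {x : Ω} (h : Gt v s (x ^ p)) : Gt v (s / p) x := fun h0 => by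
  have hp0 : (0 : ℝ) < p := by exact_mod_cast hp.out.pos
  have h1 := h (pow_ne_zero p h0)
  rw [v.map_pow h0] at h1
  rw [div_lt_iff₀ hp0, mul_comm]
  exact h1

/-- **The step.** -/
theorem RFl.step {S : IntermediateField k Ω → ℝ → (ℕ → Ω → Ω) → Prop}
    {S' : IntermediateField k Ω → Prop} (hS : RCls p v S S')
    (hFl : RFl v S S' F) {α : Ω} (hα : α ^ p ∈ F) : RFl v S S' (cadj v F α) := by
  have hp0 : (0 : ℝ) < p := by exact_mod_cast hp.out.pos
  have hsub : ∀ x g : Ω, x ^ p - g ^ p = (x - g) ^ p := fun x g => (sub_pow_char ..).symm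
  rcases hFl with hF | ⟨C, σ, Φ, w, Z, κ, ρ, hC, hZ, hinf, rfl⟩
  · exact Or.inl (hS.iso hF hα)
  by_cases hαF : α ∈ cadj v C w
  · rw [cadj_of_mem (cld_cadj _ _ _) hαF]
    exact Or.inr ⟨C, σ, Φ, w, Z, κ, ρ, hC, hZ, hinf, rfl⟩
  obtain ⟨s, hs1, hs2⟩ := exists_dist (cld_cadj v C w) hαF
  obtain ⟨hlp, hnpg⟩ := level_of_dist (p := p) hs1 hs2
  set ν : ℝ := p * s with hν
  obtain ⟨e, he, hev, c, hc, G, hG, hr⟩ := hZ.rad hinf hα hlp
  by_cases he0 : e = 0
  · -- `α ^ p = G ^ p + c + r`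
    obtain ⟨r, hrdef⟩ : ∃ r, r = α ^ p - e * w - c - G ^ p := ⟨_, rfl⟩
    rw [← hrdef] at hr
    have hαr : α ^ p = G ^ p + c + r := by
      rw [hrdef, he0]
      ring
    have hrF : r ∈ cadj v C w := by
      rw [hrdef, he0, zero_mul, sub_zero]
      exact sub_mem (sub_mem hα (le_cadj v C w hc)) (pow_mem hG p)
    have hclp : LP p v C ν c := by
      refine LP.down hZ.tl hc ?_
      have e1 : c = α ^ p - (G ^ p + r) := by
        rw [hαr]
        ring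
      rw [e1]
      exact hlp.sub (LP.of_pg ((PG.of_pow hG).add (PG.of_gt hr)))
    have hcnpg : ¬ PG p v C ν c := fun h1 => hnpg (by
      rw [hαr]
      exact ((PG.of_pow hG).add h1.up).add (PG.of_gt hr))
    obtain ⟨g, hg, C', σ', Φ', θ, hC', hw', h1⟩ := hS.exch hC hZ.tl hc hclp hcnpg hrF hr
    have h2 : cadj v (cadj v C w) α = cadj v C' (w - θ) := by
      rw [← h1 (α - (G + g)) (by
        rw [sub_pow_char, add_pow_char, hαr]
        ring), cadj_sub_mem (add_mem hG (le_cadj v C w hg))]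
    rw [h2]
    exact RFl.tl hS hC' hw'
  · -- `α ^ p = G ^ p + c + e w + r`
    obtain ⟨β, hβ⟩ : ∃ β, β = α - G := ⟨_, rfl⟩
    have hβp : β ^ p = α ^ p - G ^ p := by rw [hβ, sub_pow_char]
    have hβF : β ^ p ∈ cadj v C w := by
      rw [hβp]
      exact sub_mem hα (pow_mem hG p)
    obtain ⟨hTL, hcadj⟩ := hZ.tl.generator (w := β ^ p) he he0 hc hβF (by
      have e1 : β ^ p - (e * w + c) = α ^ p - e * w - c - G ^ p := by
        rw [hβp]
        ring
      rw [e1, hev he0, sub_add_cancel]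
      exact hr)
    rw [hev he0, sub_add_cancel] at hTL
    have hαβ : cadj v (cadj v C w) α = cadj v (cadj v C w) β := by
      rw [hβ, cadj_sub_mem hG]
    have hβC : cadj v (cadj v C w) β = cadj v C β := by
      refine le_antisymm (cadj_le (cld_cadj _ _ _) ?_ (self_mem_cadj _ _ _))
        (cadj_mono (le_cadj v C w) β)
      rw [← hcadj]
      exact cadj_le (cld_cadj _ _ _) (le_cadj _ _ _) (pow_mem (self_mem_cadj _ _ _) p)
    rw [hαβ]
    -- the distance of `β` to `C`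
    have hfar : ∀ θ : Ω, IsAlgebraic C θ → β ≠ θ ∧ v (β - θ) < s := by
      intro θ hθ
      obtain ⟨h1, h2⟩ := hTL.far (θ ^ p) (hθ.pow p)
      have h3 : β ≠ θ := fun h4 => h1 (by rw [h4])
      refine ⟨h3, ?_⟩
      rw [hsub, v.map_pow (sub_ne_zero.2 h3)] at h2
      exact lt_of_mul_lt_mul_left h2 hp0.le
    by_cases hlim : Lim v C s β
    · rw [hβC]
      exact RFl.tl hS hC ⟨hlim, hfar⟩
    · unfold Lim at hlim
      push Not at hlim
      obtain ⟨ε₀, hε₀, hlim⟩ := hlim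
      -- the level
      have hβn : β ∉ C := fun h1 => (hfar β (isAlgebraic_algebraMap (R := C) (⟨β, h1⟩ : C))).1 rfl
      obtain ⟨s', hs'1, hs'2⟩ := exists_dist (F := C) (hS.cld hC) hβn
      have hs's : s' ≤ s - ε₀ := by
        by_contra h1
        obtain ⟨g, hg, h2⟩ := hs'1 (s' - (s - ε₀)) (by linarith)
        rw [sub_sub_cancel] at h2
        exact hlim g hg h2
      obtain ⟨c₀, hc₀, h3⟩ := hTL.lim (p * (ε₀ / 2)) (by positivity)
      obtain ⟨r, hrdef⟩ : ∃ r, r = β ^ p - c₀ := ⟨_, rfl⟩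
      rw [← hrdef] at h3
      have hlt : p * s' < ν - p * (ε₀ / 2) := by
        rw [hν]
        nlinarith
      have hrTL : TL v C r ν := by
        rw [hrdef]
        exact hTL.sub_mem hc₀
      have hrc : cadj v C r = cadj v C w := by
        rw [hrdef, cadj_sub_mem hc₀, hcadj]
      have hclp : LP p v C (p * s') c₀ := by
        refine lp_iff.2 fun c' hc' => ?_
        obtain ⟨g, hg, h4⟩ := hs'1 ((p * s' - c') / p) (div_pos (by linarith) hp0)
        refine ⟨g, hg, ?_⟩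
        have e1 : c₀ - g ^ p = (β - g) ^ p - r := by
          rw [← hsub, hrdef]
          ring
        rw [e1]
        refine ((ge_pow h4 p).mono (le_of_eq ?_)).sub (h3.mono (by linarith))
        field_simp
        ring
      have hcnpg : ¬ PG p v C (p * s') c₀ := by
        rintro ⟨g, hg, h4⟩
        refine hs'2 g hg ?_
        have h5 : Gt v (p * s') ((β - g) ^ p) := by
          have e1 : (β - g) ^ p = r + (c₀ - g ^ p) := by
            rw [← hsub, hrdef]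
            ring
          rw [e1]
          exact (Gt.of_ge h3 hlt).add h4
        have h6 := Gt.of_pow_gt h5
        rwa [mul_div_cancel_left₀ _ hp0.ne'] at h6
      obtain ⟨g, hg, C', σ', Φ', θ, hC', hw', h4⟩ := hS.exch hC hrTL hc₀ hclp hcnpg
        (self_mem_cadj v C r) (Gt.of_ge h3 hlt)
      have h5 : cadj v (cadj v C w) β = cadj v C' (r - θ) := by
        rw [← h4 (β - g) (by
          rw [← hsub, hrdef]
          ring), hrc, cadj_sub_mem (le_cadj v C w hg)]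
      rw [h5]
      exact RFl.tl hS hC' hw'

/-- **Finitely many radical jumps.** -/
theorem RFl.of_pow {S : IntermediateField k Ω → ℝ → (ℕ → Ω → Ω) → Prop}
    {S' : IntermediateField k Ω → Prop} (hS : RCls p v S S')
    (hC : S C σ Φ) (i : ℕ) {u : Ω} (hu : TL v C (u ^ p ^ i) ν) : RFl v S S' (cadj v C u) := by
  induction i generalizing u with
  | zero =>
    rw [pow_zero, pow_one] at hu
    exact RFl.tl hS hC hu
  | succ i ih =>
    have h1 := ih (u := u ^ p) (by rwa [← pow_mul, ← pow_succ'])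
    have h2 : cadj v (cadj v C (u ^ p)) u = cadj v C u :=
      le_antisymm (cadj_le (cld_cadj _ _ _) (cadj_le (cld_cadj _ _ _) (le_cadj _ _ _)
        (pow_mem (self_mem_cadj _ _ _) p)) (self_mem_cadj _ _ _)) (cadj_mono (le_cadj _ _ _) u)
    rw [← h2]
    exact h1.step hS (self_mem_cadj _ _ _)

/-! ### The class of all the strict overconvergent arcs -/

/-- The graded field of `F` is perfect. -/
def GPf (p : ℕ) (v : RVal Ω) (F : IntermediateField k Ω) : Prop :=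
  ∀ x ∈ F, x ≠ 0 → ∃ g ∈ F, Gt v (v x) (x - g ^ p)

omit [CharP Ω p] [IsAlgClosed Ω] hp in
theorem GPf.imm (h : GPf p v C) (hi : Imm v C F) : GPf p v F := by
  intro x hx hx0
  obtain ⟨a, ha, h1⟩ := hi.imm x hx hx0
  obtain ⟨h2, h3⟩ := Gt.val_eq hx0 h1
  obtain ⟨g, hg, h4⟩ := h a ha h2
  refine ⟨g, hi.le hg, ?_⟩
  rw [h3] at h4
  rw [show x - g ^ p = (x - a) + (a - g ^ p) by ring]
  exact h1.add h4

/-- Strict overconvergent arcs of closed fields, `σ` irrational. -/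
structure SCl (p : ℕ) (v : RVal Ω) (C : IntermediateField k Ω) (σ : ℝ) (Φ : ℕ → Ω → Ω) :
    Prop where
  cld : Cld v C
  gp : GPf p v C
  arc : Arc v C σ Φ
  oi : Oi v C σ Φ
  irr : ∀ n : ℕ, n ≠ 0 → ∀ f ∈ C, f ≠ 0 → v f ≠ n * σ

/-- Finite shape. -/
theorem SCl.fin (hΩ : CompleteV v) {n₀ : ℕ} (hC : SCl p v C σ Φ) (hZ : Set0 v C Φ w Z κ ρ σ)
    (hn₀ : ∀ n : ℕ, n₀ ≤ n → Gt v (ρ - n * σ) (PowerSeries.coeff n Z)) :
    ∃ Ψ : ℕ → Ω → Ω, SCl p v (cadj v C w) σ Ψ := by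
  obtain ⟨Ψ, h1, h2, -, -, -⟩ := hZ.exists_trunc hΩ hn₀
  refine ⟨Ψ, cld_cadj _ _ _, hC.gp.imm hZ.tl.imm, h1, h2, fun n hn f hf hf0 h3 => ?_⟩
  obtain ⟨a, ha, h4⟩ := hZ.tl.imm.imm f hf hf0
  obtain ⟨h5, h6⟩ := Gt.val_eq hf0 h4
  exact hC.irr n hn a ha h5 (by rw [h6, h3])

end Pool.Agent.TWN1
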