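import Pool.Agent.Lib.TWII.Soc

/-!
# TANK W, text N1, section 3: dominance and the chain of bounds, abstract form

* `dom`: dominance of the top coefficient;
* `chain`: the bounds (G1) of the text for an array `r i n`, from the relations `(R_(i, N))`.
-/

set_option autoImplicit false

open Polynomial Finset

namespace Pool.Agent.TWN1

open Pool.Agent.H15JM (RVal)
open Pool.Agent.TWM
open Pool.Agent.TWII (PG LP)

universe u

variable {k Ω : Type u} [Field k] [Field Ω] [Algebra k Ω] {v : RVal Ω}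
  {F : IntermediateField k Ω} {p : ℕ} [hp : Fact p.Prime] [CharP Ω p]

section calculus

variable {c c' : ℝ} {x y : Ω}

omit [CharP Ω p] in
theorem lp_of_ge (h : v.Ge c x) : LP p v F c x := fun ε hε =>
  ⟨0, F.zero_mem, by
    rw [zero_pow hp.out.ne_zero, sub_zero]
    exact h.mono (by linarith)⟩

omit hp [CharP Ω p] in
theorem lp_mono (h : LP p v F c x) (hc : c' ≤ c) : LP p v F c' x := fun ε hε => by
  obtain ⟨g, hg, h1⟩ := h ε hε
  exact ⟨g, hg, h1.mono (by linarith)⟩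

theorem lp_neg (h : LP p v F c x) : LP p v F c (-x) := by
  have h1 := LP.sub (p := p) (lp_of_ge (F := F) (p := p) (RVal.Ge.zero (v := v) (c := c))) h
  rwa [zero_sub] at h1

theorem lp_add (hx : LP p v F c x) (hy : LP p v F c y) : LP p v F c (x + y) := by
  have h1 := hx.sub (lp_neg hy)
  rwa [sub_neg_eq_add] at h1

theorem lp_sum {ι : Type*} (S : Finset ι) (f : ι → Ω) (hf : ∀ i ∈ S, LP p v F c (f i)) :
    LP p v F c (∑ i ∈ S, f i) := by
  classical
  induction S using Finset.induction_on with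
  | empty =>
    rw [Finset.sum_empty]
    exact lp_of_ge RVal.Ge.zero
  | insert a S ha ih =>
    rw [Finset.sum_insert ha]
    exact lp_add (hf a (Finset.mem_insert_self a S))
      (ih fun i hi => hf i (Finset.mem_insert_of_mem hi))

omit hp [CharP Ω p] in
/-- A limit of `p`-th powers is in `F ^ p` up to a little less. -/
theorem pg_of_lp (h : LP p v F c x) (hc : c' < c) : PG p v F c' x := by
  obtain ⟨g, hg, h1⟩ := h ((c - c') / 2) (by linarith)
  exact ⟨g, hg, Gt.of_ge h1 (by linarith)⟩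

omit hp [CharP Ω p] in
theorem lp_mul_pow {b : ℝ} {w : Ω} (hx : LP p v F c x) (hw : w ∈ F) (hb : v.Ge b (w ^ p)) :
    LP p v F (c + b) (x * w ^ p) := fun ε hε => by
  obtain ⟨g, hg, h1⟩ := hx ε hε
  refine ⟨g * w, F.mul_mem hg hw, ?_⟩
  have e : x * w ^ p - (g * w) ^ p = (x - g ^ p) * w ^ p := by ring
  rw [e]
  exact (h1.mul hb).mono (by linarith)

omit hp [CharP Ω p] in
/-- Multiplication by a `p ^ i`-th power, `1 ≤ i`. -/
theorem lp_mul_powq {b : ℝ} {w : Ω} (hx : LP p v F c x) (hw : w ∈ F) {i : ℕ} (hi : 1 ≤ i)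
    (hb : v.Ge b w) : LP p v F (c + p ^ i * b) (x * w ^ p ^ i) := by
  obtain ⟨j, rfl⟩ : ∃ j, i = j + 1 := ⟨i - 1, by omega⟩
  have e1 : w ^ p ^ (j + 1) = (w ^ p ^ j) ^ p := by rw [← pow_mul, ← pow_succ]
  rw [e1]
  refine lp_mul_pow hx (pow_mem hw _) ?_
  rw [← e1]
  refine (ge_pow hb (p ^ (j + 1))).mono ?_
  push_cast
  exact le_rfl

omit hp [CharP Ω p] in
theorem pg_mul_powq {b : ℝ} {w : Ω} (hx : PG p v F c x) (hw : w ∈ F) {i : ℕ} (hi : 1 ≤ i)
    (hb : v.Ge b w) : PG p v F (c + p ^ i * b) (x * w ^ p ^ i) := by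
  obtain ⟨j, rfl⟩ : ∃ j, i = j + 1 := ⟨i - 1, by omega⟩
  have e1 : w ^ p ^ (j + 1) = (w ^ p ^ j) ^ p := by rw [← pow_mul, ← pow_succ]
  rw [e1]
  refine hx.mul_pow (pow_mem hw _) ?_
  rw [← e1]
  refine (ge_pow hb (p ^ (j + 1))).mono ?_
  push_cast
  exact le_rfl

omit hp [CharP Ω p] in
/-- Division by a `p ^ i`-th power. -/
theorem lp_of_mul_powq {w : Ω} {i : ℕ} (hi : 1 ≤ i) (hw : w ∈ F) (hw0 : w ≠ 0)
    (h : LP p v F c (x * w ^ p ^ i)) : LP p v F (c - p ^ i * v w) x := by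
  have h1 := lp_mul_powq (i := i) h (F.inv_mem hw) hi (b := -v w) (by
    intro _
    rw [v.map_inv hw0])
  have e1 : x * w ^ p ^ i * w⁻¹ ^ p ^ i = x := by
    rw [mul_assoc, ← _root_.mul_pow, mul_inv_cancel₀ hw0, one_pow, mul_one]
  rw [e1] at h1
  exact lp_mono h1 (by linarith)

end calculus

variable {e : Ω} {N : ℕ} {A : ℕ → Ω} {ν s ρ σ : ℝ}

/-- **DOMINANCE** (2.3). -/
theorem dom (hN : 1 ≤ N) (hA : ∀ i ∈ Icc 1 N, LP p v F (ν - p ^ i * s) (A i))
    (htop : ¬ PG p v F (ν - p ^ N * s) (A N)) (he : v.Ge (ν - s) e) {ce : Ω} {c : ℕ → Ω}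
    (hc : ∀ i ∈ Icc 1 N, c i ∈ F) {τ t : ℝ} (hce : v.Ge (s - p ^ N * τ - t) ce)
    (hcl : ∀ i ∈ Ico 1 N, v.Ge (s - p ^ (N - i) * τ - t / p ^ i) (c i))
    (hrel : LP p v F (ν - p ^ N * τ - t) (e * ce + ∑ i ∈ Icc 1 N, A i * c i ^ p ^ i)) :
    v.Ge (s - τ - t / p ^ N) (c N) := by
  have hp0 : (0 : ℝ) < p := by exact_mod_cast hp.out.pos
  intro h0
  by_contra hlt
  push Not at hlt
  have h1 : LP p v F (ν - p ^ N * τ - t) (A N * c N ^ p ^ N) := by
    have h2 : LP p v F (ν - p ^ N * τ - t) (e * ce) :=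
      lp_of_ge ((he.mul hce).mono (by linarith))
    have h3 : LP p v F (ν - p ^ N * τ - t) (∑ i ∈ Ico 1 N, A i * c i ^ p ^ i) := by
      refine lp_sum _ _ fun i hi => ?_
      obtain ⟨hi1, hi2⟩ := mem_Ico.1 hi
      refine lp_mono (lp_mul_powq (hA i (mem_Icc.2 ⟨hi1, hi2.le⟩)) (hc i (mem_Icc.2 ⟨hi1, hi2.le⟩))
        hi1 (hcl i hi)) (le_of_eq ?_)
      have e1 : (p : ℝ) ^ N = p ^ i * p ^ (N - i) := by
        rw [← pow_add, Nat.add_sub_cancel' hi2.le]
      rw [e1]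
      field_simp
      ring
    have h4 := (hrel.sub h2).sub h3
    have e2 : Icc 1 N = insert N (Ico 1 N) := by
      ext i
      rw [mem_insert, mem_Icc, mem_Ico]
      omega
    rw [e2, sum_insert (by simp)] at h4
    have e3 : e * ce + (A N * c N ^ p ^ N + ∑ x ∈ Ico 1 N, A x * c x ^ p ^ x) - e * ce -
        ∑ i ∈ Ico 1 N, A i * c i ^ p ^ i = A N * c N ^ p ^ N := by ring
    rwa [e3] at h4
  have h2 := lp_of_mul_powq hN (hc N (mem_Icc.2 ⟨hN, le_rfl⟩)) h0 h1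
  refine htop (pg_of_lp h2 ?_)
  have h3 : (p : ℝ) ^ N * v (c N) < p ^ N * (s - τ - t / p ^ N) :=
    mul_lt_mul_of_pos_left hlt (by positivity)
  have h4 : (p : ℝ) ^ N * (s - τ - t / p ^ N) = p ^ N * s - p ^ N * τ - t := by
    field_simp
  linarith

/-- **(G1)**, abstract form. -/
theorem chain (hN : 1 ≤ N) (hA : ∀ i ∈ Icc 1 N, LP p v F (ν - p ^ i * s) (A i))
    (htop : ¬ PG p v F (ν - p ^ N * s) (A N)) (he : v.Ge (ν - s) e) {S : Set (ℕ × ℕ)}
    (hS : ∀ x ∈ S, ∀ a : ℕ, (p ^ a * x.1, p ^ a * x.2) ∈ S) {B eps : ℝ} {h : ℕ → ℝ}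
    (h0 : ∀ i, 0 ≤ h i) (hanti : Antitone h) {r : ℕ → ℕ → Ω} (hr : ∀ i n, r i n ∈ F)
    (hb : ∀ x ∈ S, v.Ge (s - (x.1 * ρ + x.2 * σ) - B) (r x.1 x.2))
    (hrel : ∀ x ∈ S, LP p v F (ν - p ^ N * (x.1 * ρ + x.2 * σ) - (p ^ N * h x.1 + eps))
      (e * r (p ^ N * x.1) (p ^ N * x.2) +
        ∑ i ∈ Icc 1 N, A i * r (p ^ (N - i) * x.1) (p ^ (N - i) * x.2) ^ p ^ i))
    (heps : 0 < eps) :
    ∀ x ∈ S, v.Ge (s - (x.1 * ρ + x.2 * σ) - (h x.1 + eps / p ^ N)) (r x.1 x.2) := by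
  have hp0 : (0 : ℝ) < p := by exact_mod_cast hp.out.pos
  have hp1 : (1 : ℝ) ≤ p := by exact_mod_cast hp.out.one_lt.le
  have hp2 : (2 : ℝ) ≤ p := by exact_mod_cast hp.out.two_le
  -- one round
  have step : ∀ M : ℝ, 0 ≤ M →
      (∀ x ∈ S, v.Ge (s - (x.1 * ρ + x.2 * σ) - (h x.1 + M)) (r x.1 x.2)) →
      ∀ x ∈ S, v.Ge (s - (x.1 * ρ + x.2 * σ) - (h x.1 + max (eps / p ^ N) (M / p)))
        (r x.1 x.2) := by
    intro M hM hb x hx
    have hQ : (1 : ℝ) ≤ (p : ℝ) ^ N := one_le_pow₀ hp1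
    have hQp : (p : ℝ) ≤ (p : ℝ) ^ N := le_self_pow₀ hp1 (by omega)
    have hQ0 : (0 : ℝ) < (p : ℝ) ^ N := by positivity
    set m := max (eps / p ^ N) (M / p) with hm
    have hm1 : eps ≤ p ^ N * m := by
      have h1 : eps / p ^ N ≤ m := le_max_left _ _
      rwa [div_le_iff₀' hQ0] at h1
    have hm2 : M ≤ p * m := by
      have h1 : M / p ≤ m := le_max_right _ _
      rwa [div_le_iff₀' hp0] at h1
    have hm0 : 0 ≤ m := (div_nonneg hM hp0.le).trans (le_max_right _ _)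
    have hmono : ∀ a : ℕ, h (p ^ a * x.1) ≤ h x.1 := fun a =>
      hanti (Nat.le_mul_of_pos_left _ (Nat.pow_pos hp.out.pos))
    have h1 := dom (c := fun i => r (p ^ (N - i) * x.1) (p ^ (N - i) * x.2))
      (τ := x.1 * ρ + x.2 * σ) (t := p ^ N * (h x.1 + m)) hN hA htop he
      (ce := r (p ^ N * x.1) (p ^ N * x.2)) (fun i _ => hr _ _) ?_ ?_ ?_
    · simp only [Nat.sub_self, pow_zero, one_mul] at h1
      refine h1.mono (le_of_eq ?_)
      field_simp
    · refine (hb _ (hS x hx N)).mono ?_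
      push_cast
      have h2 := hmono N
      have h3 : h x.1 ≤ p ^ N * h x.1 := le_mul_of_one_le_left (h0 _) hQ
      have h4 : (p : ℝ) * m ≤ p ^ N * m := mul_le_mul_of_nonneg_right hQp hm0
      nlinarith
    · intro i hi
      obtain ⟨hi1, hi2⟩ := mem_Ico.1 hi
      refine (hb _ (hS x hx (N - i))).mono ?_
      push_cast
      have h2 := hmono (N - i)
      have e1 : (p : ℝ) ^ N = p ^ (N - i) * p ^ i := by
        rw [← pow_add, Nat.sub_add_cancel hi2.le]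
      have hi0 : (0 : ℝ) < (p : ℝ) ^ i := by positivity
      have e2 : p ^ N * (h x.1 + m) / p ^ i = p ^ (N - i) * (h x.1 + m) := by
        rw [e1]
        field_simp
      rw [e2]
      have h3 : (p : ℝ) ≤ (p : ℝ) ^ (N - i) := le_self_pow₀ hp1 (by omega)
      have h4 : (p : ℝ) * m ≤ p ^ (N - i) * m := mul_le_mul_of_nonneg_right h3 hm0
      have h5 : h x.1 ≤ p ^ (N - i) * h x.1 :=
        le_mul_of_one_le_left (h0 _) (hp1.trans h3)
      nlinarith
    · refine lp_mono (hrel x hx) ?_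
      nlinarith
  -- iteration
  have iter : ∀ n : ℕ, ∀ x ∈ S,
      v.Ge (s - (x.1 * ρ + x.2 * σ) - (h x.1 + max (eps / p ^ N) (|B| / p ^ n)))
        (r x.1 x.2) := by
    intro n
    induction n with
    | zero =>
      intro x hx
      refine (hb x hx).mono ?_
      have h1 : |B| / p ^ 0 ≤ max (eps / p ^ N) (|B| / p ^ 0) := le_max_right _ _
      rw [pow_zero, div_one] at h1 ⊢
      linarith [h0 x.1, le_abs_self B]
    | succ n ih =>
      have h1 := step _ (le_max_of_le_left (by positivity)) ih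
      intro x hx
      refine (h1 x hx).mono ?_
      have h2 : max (eps / p ^ N) (max (eps / p ^ N) (|B| / p ^ n) / p) ≤
          max (eps / p ^ N) (|B| / p ^ (n + 1)) := by
        refine max_le (le_max_left _ _) ?_
        rw [div_le_iff₀ hp0]
        refine max_le ?_ ?_
        · have h3 : eps / p ^ N ≤ max (eps / p ^ N) (|B| / p ^ (n + 1)) := le_max_left _ _
          have h4 : 0 ≤ eps / (p : ℝ) ^ N := by positivity
          nlinarith
        · have h3 : |B| / p ^ (n + 1) ≤ max (eps / p ^ N) (|B| / p ^ (n + 1)) :=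
            le_max_right _ _
          have h4 : |B| / p ^ n = |B| / p ^ (n + 1) * p := by
            rw [pow_succ]
            field_simp
          rw [h4]
          exact mul_le_mul_of_nonneg_right h3 hp0.le
      linarith
  intro x hx
  obtain ⟨n, hn⟩ : ∃ n : ℕ, |B| / p ^ n ≤ eps / p ^ N := by
    obtain ⟨n, hn⟩ := pow_unbounded_of_one_lt (|B| / (eps / p ^ N)) (by linarith : (1 : ℝ) < p)
    refine ⟨n, ?_⟩
    have h1 : 0 < eps / (p : ℝ) ^ N := by positivity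
    rw [div_lt_iff₀ h1] at hn
    rw [div_le_iff₀ (by positivity)]
    linarith
  have h1 := iter n x hx
  rwa [max_eq_left hn] at h1

end Pool.Agent.TWN1
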