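import Pool.Agent.Lib.TWN1.Chain

/-!
# TANK W, text N1, section 3: (G2)

* `Nrm.lev`: every near approximant has a small level;
* `Nrm.addR`: adding a monomial to `R`;
* `g2_step`, `exists_R`: an admissible `R` with `D^[l] f` null for all `l > Q J`, `p ∣ l`.
-/

set_option autoImplicit false
set_option linter.unusedSectionVars false

open Polynomial Finset

namespace Pool.Agent.TWN1

open Pool.Agent.H15JM (RVal)
open Pool.Agent.TWM
open Pool.Agent.TWII (PG)
open Pool.Agent.TWLM (HSd Oi)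

universe u

variable {k Ω : Type u} [Field k] [Field Ω] [Algebra k Ω] {v : RVal Ω}
  {K : IntermediateField k Ω} {Φ : ℕ → Ω → Ω} {w y : Ω} {Z : PowerSeries Ω} {κ : ℕ → ℝ} {ρ σ : ℝ}
  {p : ℕ} [hp : Fact p.Prime] [CharP Ω p] [IsAlgClosed Ω]
  {e : Ω} {A : ℕ → Ω} {N J L m₁ n' : ℕ} {B R θ θ₀ : Polynomial Ω} {s ν μ g e₀ eps t : ℝ}

theorem lp_of_forall {F : IntermediateField k Ω} {c : ℝ} {x : Ω}
    (h : ∀ ε : ℝ, 0 < ε → TWII.LP p v F (c - ε) x) : TWII.LP p v F c x := fun ε hε => by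
  obtain ⟨d, hd, h1⟩ := h (ε / 2) (half_pos hε) (ε / 2) (half_pos hε)
  exact ⟨d, hd, h1.mono (by linarith)⟩

/-- The degree of a difference. -/
theorem fdiff_deg (e : Ω) (A : ℕ → Ω) (N : ℕ) {Δ : Polynomial Ω} (hΔ : Δ.natDegree ≤ J) :
    (C e * Δ + ∑ m ∈ Icc 1 N, C (A m) * Δ ^ p ^ m).natDegree ≤ p ^ N * J := by
  have hp0 := hp.out.pos
  have h1 : ∀ m, m ≤ N → p ^ m * J ≤ p ^ N * J := fun m hm =>
    Nat.mul_le_mul_right _ (Nat.pow_le_pow_right hp0 hm)
  refine natDegree_add_le_of_degree_le ?_ (natDegree_sum_le_of_forall_le _ _ fun m hm => ?_)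
  · refine (natDegree_C_mul_le _ _).trans (hΔ.trans ?_)
    have := h1 0 (Nat.zero_le _)
    rwa [pow_zero, one_mul] at this
  · refine (natDegree_C_mul_le _ _).trans (natDegree_pow_le.trans ?_)
    exact (Nat.mul_le_mul_left _ hΔ).trans (h1 m (mem_Icc.1 hm).2)

/-- The high Hasse derivatives of `fth θ` depend only on `θ` modulo degree `≤ J`. -/
theorem hasse_fth_eq (hθ : (θ - θ₀).natDegree ≤ J) {l : ℕ} (hl : p ^ N * J < l) :
    hasseDeriv l (fth p e A N B θ) = hasseDeriv l (fth p e A N B θ₀) := by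
  rw [← sub_eq_zero, ← map_sub, fth_sub]
  exact hasseDeriv_eq_zero_of_lt_natDegree _ _ ((fdiff_deg e A N hθ).trans_lt hl)

theorem deg_of_coeff (h : ∀ i, J < i → θ.coeff i = θ₀.coeff i) : (θ - θ₀).natDegree ≤ J :=
  natDegree_le_iff_coeff_eq_zero.2 fun i hi => by rw [coeff_sub, h i hi, sub_self]

/-- The level of a difference. -/
theorem fdiff_lp (hD : Dt p v K (cadj v K w) s ν e A N) {Δ : Polynomial Ω} (hΔ : Δ ∈ PI K) {η : ℝ}
    (hη : 0 ≤ η) (h : v.Ge (s - η) (Δ.eval w)) :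
    TWII.LP p v (cadj v K w) (ν - p ^ N * η)
      ((C e * Δ + ∑ m ∈ Icc 1 N, C (A m) * Δ ^ p ^ m).eval w) := by
  have hp1 : (1 : ℝ) ≤ p := by exact_mod_cast hp.out.one_lt.le
  rw [eval_add, eval_finsetSum, eval_mul, eval_C]
  refine lp_add (lp_of_ge ((hD.ege.mul h).mono ?_)) (lp_sum _ _ fun m hm => ?_)
  · have h1 : η ≤ p ^ N * η := le_mul_of_one_le_left hη (one_le_pow₀ hp1)
    linarith
  · rw [eval_mul, eval_C, eval_pow]
    refine lp_mono (lp_mul_powq (hD.Alp m hm) (TWLM.eval_mem_cadj hΔ) (mem_Icc.1 hm).1 h) ?_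
    have h1 : (p : ℝ) ^ m * η ≤ p ^ N * η :=
      mul_le_mul_of_nonneg_right (pow_le_pow_right₀ hp1 (mem_Icc.1 hm).2) hη
    linarith

/-- The level of every near approximant. -/
theorem Nrm.lev (hR : Nrm p v K w y ρ s ν e A N B J R) (hθ : θ ∈ PI K) {η : ℝ} (hη : 0 ≤ η)
    (hy : v.Ge (s - η) (y - θ.eval w)) :
    TWII.LP p v (cadj v K w) (ν - p ^ N * η) ((fth p e A N B θ).eval w) := by
  have hp0 : (0 : ℝ) < p := by exact_mod_cast hp.out.pos
  have hQ0 : (0 : ℝ) < (p : ℝ) ^ N := by positivity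
  have hQ1 : (1 : ℝ) ≤ (p : ℝ) ^ N := one_le_pow₀ (by exact_mod_cast hp.out.one_lt.le)
  refine lp_of_forall fun ε hε => ?_
  obtain ⟨θ', hθ', -, -, h1, h2⟩ := hR.fam (ε / p ^ N) (by positivity)
  have h3 : v.Ge (s - (η + ε / p ^ N)) ((θ - θ').eval w) := by
    have e1 : (θ - θ').eval w = (y - θ'.eval w) - (y - θ.eval w) := by
      rw [eval_sub]
      ring
    rw [e1]
    have : 0 < ε / (p : ℝ) ^ N := by positivity
    exact (h1.mono (by linarith)).sub (hy.mono (by linarith))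
  have h4 := fdiff_lp hR.toDt (sub_mem hθ hθ') (by positivity) h3
  have e1 : fth p e A N B θ = fth p e A N B θ' +
      (C e * (θ - θ') + ∑ i ∈ Icc 1 N, C (A i) * (θ - θ') ^ p ^ i) := by
    rw [← fth_sub e A N B]
    ring
  rw [e1, eval_add]
  refine lp_add (lp_mono h2 ?_) (lp_mono h4 (le_of_eq ?_))
  · have h5 : ε / (p : ℝ) ^ N ≤ ε := div_le_self hε.le hQ1
    have h6 : 0 ≤ (p : ℝ) ^ N * η := by positivity
    linarith
  · field_simp
    ring

/-- Class X. -/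
theorem Nrm.cls (hR : Nrm p v K w y ρ s ν e A N B J R)
    (hθ : e ≠ 0 → ∀ l, ¬ p ∣ l → hasseDeriv l θ = 0) {l : ℕ} (hl : ¬ p ∣ l) :
    hasseDeriv l (fth p e A N B θ) = hasseDeriv l B := by
  have h1 : C e * hasseDeriv l θ = 0 := by
    by_cases he : e = 0
    · rw [he, C_0, zero_mul]
    · rw [hθ he l hl, mul_zero]
  have h2 : ∑ m ∈ Icc 1 N, hasseDeriv l (C (A m) * θ ^ p ^ m) = 0 := by
    refine sum_eq_zero fun m hm => ?_
    rw [hasse_C_mul, hasse_powq, if_neg, mul_zero]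
    intro h3
    exact hl ((dvd_pow_self p (by have := (mem_Icc.1 hm).1; omega)).trans h3)
  rw [fth, map_add, map_add, hasse_C_mul, h1, map_sum, h2, zero_add, zero_add]

theorem Nrm.clsX (hR : Nrm p v K w y ρ s ν e A N B J R)
    (hθ : e ≠ 0 → ∀ l, ¬ p ∣ l → hasseDeriv l θ = 0) :
    ∀ l, 2 ≤ l → ¬ p ∣ l → hasseDeriv l (fth p e A N B θ) = 0 := fun l hl hpl => by
  rw [hR.cls hθ hpl, hR.BX l hl hpl]

theorem Nrm.cls1 (hR : Nrm p v K w y ρ s ν e A N B J R)
    (hθ : e ≠ 0 → ∀ l, ¬ p ∣ l → hasseDeriv l θ = 0) :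
    v.Ge (ν - ρ) ((hasseDeriv 1 (fth p e A N B θ)).eval w) := by
  rw [hR.cls hθ (Nat.Prime.not_dvd_one hp.out)]
  exact hR.B1

/-- The level of the high Hasse derivatives. -/
theorem Nrm.lev_high (hR : Nrm p v K w y ρ s ν e A N B J R) (hw : TL v K w ρ) {l : ℕ}
    (hl : p ^ N * J < l) : TWII.LP p v (cadj v K w) (ν - l * ρ)
      ((hasseDeriv l (fth p e A N B R)).eval w) := by
  refine lp_of_forall fun ε hε => ?_
  obtain ⟨θ, hθ, h1, -, -, h2⟩ := hR.fam ε hε
  have h3 := h2.hjet hw (fth_mem hR.toDt hR.BC hθ) l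
  rw [hasse_fth_eq (deg_of_coeff h1) hl] at h3
  exact lp_mono h3 (by linarith)

/-- Adding a monomial to `R`. -/
theorem Nrm.addR (hR : Nrm p v K w y ρ s ν e A N B J R) (hw : TL v K w ρ) {j : ℕ} {r : Ω}
    (hr : r ∈ K) (hrv : v.Ge (s - j * ρ) r) (hJj : J < j)
    (hbin : ∀ i, J < i → i < j → p ∣ j.choose i) (hpj : e ≠ 0 → p ∣ j) :
    Nrm p v K w y ρ s ν e A N B J (R + monomial j r) := by
  classical
  have hsup : ∀ i ∈ (R + monomial j r).support, i ∈ R.support ∨ i = j := by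
    intro i hi
    by_contra h1
    push Not at h1
    rw [mem_support_iff, coeff_add, coeff_monomial, if_neg (Ne.symm h1.2), add_zero] at hi
    exact h1.1 (mem_support_iff.2 hi)
  refine
    { toDt := hR.toDt
      mem := add_mem hR.mem ?_
      low := fun i hi => ?_
      bin := fun i hi => ?_
      pdv := fun he i hi => ?_
      siz := fun i => ?_
      BC := hR.BC
      BX := hR.BX
      B1 := hR.B1
      eB := hR.eB
      fam := fun ε hε => ?_ }
  · intro i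
    rw [coeff_monomial]
    split_ifs
    exacts [hr, zero_mem _]
  · rcases hsup i hi with h1 | rfl
    · exact hR.low i h1
    · exact hJj
  · rcases hsup i hi with h1 | rfl
    · exact hR.bin i h1
    · exact hbin
  · rcases hsup i hi with h1 | rfl
    · exact hR.pdv he i h1
    · exact hpj he
  · rw [coeff_add, coeff_monomial]
    refine (hR.siz i).add ?_
    split_ifs with h1
    · rw [← h1]
      exact hrv
    · exact RVal.Ge.zero
  · have hp0 : (0 : ℝ) < p := by exact_mod_cast hp.out.pos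
    have hQ0 : (0 : ℝ) < (p : ℝ) ^ N := by positivity
    obtain ⟨ε₁, hε₁, hε₁e⟩ : ∃ ε₁ : ℝ, 0 < ε₁ ∧ p ^ N * ε₁ = ε :=
      ⟨ε / p ^ N, by positivity, by field_simp⟩
    obtain ⟨θ, hθ, h1, h2, h3, -⟩ := hR.fam ε₁ hε₁
    have hj0 : (0 : ℝ) < j := by
      have : 0 < j := by omega
      exact_mod_cast this
    obtain ⟨c, hc, hwc⟩ := hw.lim (ε₁ / j) (by positivity)
    set χ : Polynomial Ω := C r * (X + C (-c)) ^ j with hχ
    have hχm : χ ∈ PI K := mul_mem (C_mem_PI hr) (pow_mem (add_mem X_mem_PI (C_mem_PI (neg_mem hc))) _)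
    have hθ' : θ + χ ∈ PI K := add_mem hθ hχm
    have hχv : v.Ge (s - ε₁) (χ.eval w) := by
      rw [hχ, eval_mul, eval_C, eval_pow, eval_add, eval_X, eval_C, ← sub_eq_add_neg]
      refine (hrv.mul (ge_pow hwc j)).mono (le_of_eq ?_)
      field_simp
      ring
    have hyv : v.Ge (s - ε₁) (y - (θ + χ).eval w) := by
      have e1 : y - (θ + χ).eval w = (y - θ.eval w) - χ.eval w := by
        rw [eval_add]
        ring
      rw [e1]
      exact h3.sub hχv
    have hQ1 : (1 : ℝ) ≤ (p : ℝ) ^ N := one_le_pow₀ (by exact_mod_cast hp.out.one_lt.le)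
    refine ⟨θ + χ, hθ', fun i hi => ?_, fun he l hl => ?_, hyv.mono ?_, ?_⟩
    · rw [coeff_add, coeff_add, h1 i hi, hχ, coeff_C_mul, coeff_X_add_C_pow, coeff_monomial]
      congr 1
      rcases lt_trichotomy i j with h4 | rfl | h4
      · rw [if_neg h4.ne', (CharP.cast_eq_zero_iff Ω p _).2 (hbin i hi h4), mul_zero, mul_zero]
      · rw [if_pos rfl, Nat.sub_self, pow_zero, Nat.choose_self, Nat.cast_one, one_mul, mul_one]
      · rw [if_neg h4.ne, Nat.choose_eq_zero_of_lt h4, Nat.cast_zero, mul_zero, mul_zero]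
    · obtain ⟨b, hb⟩ := hpj he
      rw [map_add, h2 he l hl, zero_add, hχ, hasse_C_mul, hb, mul_comm p b, pow_mul]
      have h4 := hasse_powq (p := p) ((X + C (-c)) ^ b) 1 l
      rw [pow_one, if_neg hl] at h4
      rw [h4, mul_zero]
    · rw [← hε₁e]
      have : ε₁ ≤ p ^ N * ε₁ := le_mul_of_one_le_left hε₁.le hQ1
      linarith
    · have h4 := hR.lev hθ' hε₁.le hyv
      rwa [hε₁e] at h4

end Pool.Agent.TWN1
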