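import Pool.Agent.Lib.TWII.PropH
import Pool.Agent.Lib.TWLM.Poly

/-!
# TANK W, Theorem N1, section 0: polynomials along an arc

`Φ` is a Hasse-Schmidt derivation of `C` (`TWLM.HSd`).
* `ser Φ x` is the power series of `x`; `EV Φ f a = f ^ Φ (a)`, `f` a polynomial over `C`, `a` a
  power series over `Ω`;
* `EV_taylor`: the Taylor formula; `EV_point`: the expansion at a point of `C`;
* `EVP Φ S N f`: the polynomial over `C` whose value at `w` is the coefficient of index `N` of
  `EV Φ f (w + S)`; it commutes with the Hasse derivatives;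
* bounds for the coefficients of powers of power series.
-/

set_option autoImplicit false

open Polynomial Finset

namespace Pool.Agent.TWN1

open Pool.Agent.H15JM (RVal)
open Pool.Agent.TWM
open Pool.Agent.TWLM (HSd)

universe u

/-! ### Powers of power series -/

section Pow

variable {Ω : Type u} [Field Ω] {v : RVal Ω} {A : PowerSeries Ω}

/-- All the coefficients are `≥ a - n σ`. -/
theorem pow_ge {a σ : ℝ} (hA : ∀ n : ℕ, v.Ge (a - n * σ) (PowerSeries.coeff n A)) (l n : ℕ) :
    v.Ge (l * a - n * σ) (PowerSeries.coeff n (A ^ l)) := by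
  induction l generalizing n with
  | zero =>
    rw [pow_zero, PowerSeries.coeff_one]
    split_ifs with hn
    · intro _
      rw [v.map_one, hn]
      simp
    · exact RVal.Ge.zero
  | succ l ih =>
    rw [pow_succ, PowerSeries.coeff_mul]
    refine RVal.Ge.sum _ _ fun i hi => ((ih i.1).mul (hA i.2)).mono (le_of_eq ?_)
    have h3 : i.1 + i.2 = n := by simpa using hi
    rw [← h3]
    push_cast
    ring

/-- The constant term is `≥ a`, the coefficients of index in `[1, N]` are `≥ b - n σ`, `a ≤ b`. -/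
theorem pow_ge_zero {a b σ : ℝ} (hab : a ≤ b) {N : ℕ} (h0 : v.Ge a (PowerSeries.coeff 0 A))
    (hA : ∀ n : ℕ, n ≠ 0 → n ≤ N → v.Ge (b - n * σ) (PowerSeries.coeff n A)) (l : ℕ) :
    v.Ge (l * a) (PowerSeries.coeff 0 (A ^ l)) ∧ ∀ n : ℕ, n ≠ 0 → n ≤ N →
      v.Ge (b + (l - 1) * a - n * σ) (PowerSeries.coeff n (A ^ l)) := by
  induction l with
  | zero =>
    refine ⟨?_, fun n hn _ => ?_⟩
    · rw [pow_zero, PowerSeries.coeff_one, if_pos rfl]
      intro _
      rw [v.map_one]
      simp
    · rw [pow_zero, PowerSeries.coeff_one, if_neg hn]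
      exact RVal.Ge.zero
  | succ l ih =>
    obtain ⟨h1, h2⟩ := ih
    refine ⟨?_, fun n hn hnN => ?_⟩
    · rw [pow_succ, PowerSeries.coeff_mul]
      refine RVal.Ge.sum _ _ fun i hi => ?_
      have h3 : i = (0, 0) := by simpa using hi
      rw [h3]
      refine (h1.mul h0).mono ?_
      push_cast
      linarith
    · rw [pow_succ, PowerSeries.coeff_mul]
      refine RVal.Ge.sum _ _ fun i hi => ?_
      have h3 : i.1 + i.2 = n := by simpa using hi
      have h3' : (n : ℝ) = i.1 + i.2 := by rw [← h3]; push_cast; ring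
      by_cases h4 : i.1 = 0
      · have h5 := hA i.2 (by omega) (by omega)
        rw [h3', h4]
        refine (h1.mul h5).mono (le_of_eq ?_)
        push_cast
        ring
      by_cases h5 : i.2 = 0
      · have h6 := h2 i.1 h4 (by omega)
        rw [h3', h5]
        refine (h6.mul h0).mono (le_of_eq ?_)
        push_cast
        ring
      · refine ((h2 i.1 h4 (by omega)).mul (hA i.2 h5 (by omega))).mono ?_
        rw [h3']
        push_cast
        linarith

/-- The coefficients of index `≥ n'` are `≥ M - n σ`, all of them are `≥ a - n σ`. -/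
theorem pow_ge_far {a M σ : ℝ} {n' : ℕ} (hA : ∀ n : ℕ, v.Ge (a - n * σ) (PowerSeries.coeff n A))
    (hM : ∀ n : ℕ, n' ≤ n → v.Ge (M - n * σ) (PowerSeries.coeff n A)) {l : ℕ} (hl : l ≠ 0) {n : ℕ}
    (hn : l * n' ≤ n) : v.Ge (M + (l - 1) * a - n * σ) (PowerSeries.coeff n (A ^ l)) := by
  induction l generalizing n with
  | zero => exact absurd rfl hl
  | succ l ih =>
    by_cases hl0 : l = 0
    · subst hl0
      rw [zero_add, pow_one]
      refine (hM n (by omega)).mono (le_of_eq ?_)
      push_cast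
      ring
    · rw [pow_succ, PowerSeries.coeff_mul]
      refine RVal.Ge.sum _ _ fun i hi => ?_
      have h3 : i.1 + i.2 = n := by simpa using hi
      have h3' : (n : ℝ) = i.1 + i.2 := by rw [← h3]; push_cast; ring
      by_cases h4 : l * n' ≤ i.1
      · refine ((ih hl0 h4).mul (hA i.2)).mono (le_of_eq ?_)
        rw [h3']
        push_cast
        ring
      · have h5 : n' ≤ i.2 := by
          rw [add_mul, one_mul] at hn
          omega
        refine ((pow_ge hA l i.1).mul (hM i.2 h5)).mono (le_of_eq ?_)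
        rw [h3']
        push_cast
        ring

/-- The coefficients of index `< n'` vanish. -/
theorem pow_low {n' : ℕ} (hA : ∀ n, n < n' → PowerSeries.coeff n A = 0) (l : ℕ) :
    (∀ n, n < l * n' → PowerSeries.coeff n (A ^ l) = 0) ∧
      PowerSeries.coeff (l * n') (A ^ l) = (PowerSeries.coeff n' A) ^ l := by
  induction l with
  | zero =>
    refine ⟨fun n hn => absurd hn (by omega), ?_⟩
    rw [zero_mul, pow_zero, pow_zero, PowerSeries.coeff_one, if_pos rfl]
  | succ l ih =>
    obtain ⟨h1, h2⟩ := ih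
    refine ⟨fun n hn => ?_, ?_⟩
    · rw [pow_succ, PowerSeries.coeff_mul]
      refine sum_eq_zero fun i hi => ?_
      have h3 : i.1 + i.2 = n := by simpa using hi
      by_cases h4 : i.1 < l * n'
      · rw [h1 _ h4, zero_mul]
      · rw [hA i.2 (by rw [add_mul, one_mul] at hn; omega), mul_zero]
    · rw [pow_succ, PowerSeries.coeff_mul, sum_eq_single (l * n', n')]
      · rw [h2, pow_succ]
      · intro i hi hne
        have h3 : i.1 + i.2 = (l + 1) * n' := by simpa using hi
        rw [add_mul, one_mul] at h3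
        by_cases h4 : i.1 < l * n'
        · rw [h1 _ h4, zero_mul]
        · rw [hA i.2, mul_zero]
          by_contra h5
          apply hne
          ext
          · change i.1 = l * n'
            omega
          · change i.2 = n'
            omega
      · intro h3
        exact absurd (by simp [add_mul]) h3

/-- The coefficients of a power are in a subring. -/
theorem pow_coeff_mem {R : Type*} [SetLike R Ω] [SubringClass R Ω] (E : R)
    (hA : ∀ n, PowerSeries.coeff n A ∈ E) (l n : ℕ) : PowerSeries.coeff n (A ^ l) ∈ E := by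
  induction l generalizing n with
  | zero =>
    rw [pow_zero, PowerSeries.coeff_one]
    split_ifs
    exacts [one_mem _, zero_mem _]
  | succ l ih =>
    rw [pow_succ, PowerSeries.coeff_mul]
    exact sum_mem fun i _ => mul_mem (ih i.1) (hA i.2)

/-- The coefficients of a power of exponent `p * l`. -/
theorem coeff_pow_mul (p : ℕ) [hp : Fact p.Prime] [CharP Ω p] (l n : ℕ) :
    PowerSeries.coeff n (A ^ (p * l)) =
      if p ∣ n then (PowerSeries.coeff (n / p) (A ^ l)) ^ p else 0 := by
  rw [mul_comm, pow_mul, TWII.coeff_pow_p]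

end Pow

/-! ### Evaluation -/

section Ev

variable {k Ω : Type u} [Field k] [Field Ω] [Algebra k Ω] {v : RVal Ω}
  {C : IntermediateField k Ω} {Φ : ℕ → Ω → Ω} {f g : Polynomial Ω}

omit [Algebra k Ω] in
/-- The power series of `x`. -/
noncomputable def ser (Φ : ℕ → Ω → Ω) (x : Ω) : PowerSeries Ω := PowerSeries.mk fun l => Φ l x

omit [Algebra k Ω] in
theorem coeff_ser (Φ : ℕ → Ω → Ω) (n : ℕ) (x : Ω) : PowerSeries.coeff n (ser Φ x) = Φ n x :=
  PowerSeries.coeff_mk n _

omit [Algebra k Ω] in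
/-- `f ^ Φ (a)`. -/
noncomputable def EV (Φ : ℕ → Ω → Ω) (f : Polynomial Ω) (a : PowerSeries Ω) : PowerSeries Ω :=
  f.sum fun i c => ser Φ c * a ^ i

/-- The homomorphism of an arc. -/
noncomputable def ahom (h : HSd C Φ) : C →+* PowerSeries Ω where
  toFun x := ser Φ x
  map_one' := by
    ext n
    rw [coeff_ser, PowerSeries.coeff_one]
    split_ifs with hn
    · rw [hn]
      exact h.c0 1 C.one_mem
    · exact h.one n hn
  map_mul' x y := by
    ext n
    rw [coeff_ser, PowerSeries.coeff_mul]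
    simp only [coeff_ser]
    exact h.mul n _ x.2 _ y.2
  map_zero' := by
    ext n
    rw [coeff_ser, map_zero]
    exact h.zero n
  map_add' x y := by
    ext n
    rw [coeff_ser, map_add, coeff_ser, coeff_ser]
    exact h.add n _ x.2 _ y.2

theorem ahom_apply (h : HSd C Φ) (x : C) : ahom h x = ser Φ (x : Ω) := rfl

omit [Algebra k Ω] in
theorem hasse_map {R S : Type*} [CommRing R] [CommRing S] (φ : R →+* S) (l : ℕ)
    (f : Polynomial R) : hasseDeriv l (f.map φ) = (hasseDeriv l f).map φ := by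
  ext i
  rw [coeff_map, hasseDeriv_coeff, hasseDeriv_coeff, coeff_map, map_mul, map_natCast]

theorem exists_lift (hf : f ∈ PI C) : ∃ g : Polynomial C, g.map (algebraMap C Ω) = f := by
  have h1 : f ∈ Polynomial.lifts (algebraMap C Ω) := by
    rw [Polynomial.lifts_iff_coeff_lifts]
    exact fun n => ⟨⟨f.coeff n, hf n⟩, rfl⟩
  exact (Polynomial.mem_lifts f).1 h1

theorem EV_map (h : HSd C Φ) (g : Polynomial C) (a : PowerSeries Ω) :
    EV Φ (g.map (algebraMap C Ω)) a = (g.map (ahom h)).eval a := by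
  have hinj : Function.Injective (algebraMap C Ω) := (algebraMap C Ω).injective
  rw [EV, Polynomial.sum, Polynomial.support_map_of_injective g hinj, eval_map, eval₂_eq_sum,
    Polynomial.sum]
  refine sum_congr rfl fun i _ => ?_
  rw [coeff_map]
  rfl

theorem EV_add (h : HSd C Φ) (hf : f ∈ PI C) (hg : g ∈ PI C) (a : PowerSeries Ω) :
    EV Φ (f + g) a = EV Φ f a + EV Φ g a := by
  obtain ⟨f, rfl⟩ := exists_lift hf
  obtain ⟨g, rfl⟩ := exists_lift hg
  rw [← Polynomial.map_add, EV_map h, EV_map h, EV_map h, Polynomial.map_add, eval_add]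

theorem EV_sub (h : HSd C Φ) (hf : f ∈ PI C) (hg : g ∈ PI C) (a : PowerSeries Ω) :
    EV Φ (f - g) a = EV Φ f a - EV Φ g a := by
  obtain ⟨f, rfl⟩ := exists_lift hf
  obtain ⟨g, rfl⟩ := exists_lift hg
  rw [← Polynomial.map_sub, EV_map h, EV_map h, EV_map h, Polynomial.map_sub, eval_sub]

theorem EV_neg (h : HSd C Φ) (hf : f ∈ PI C) (a : PowerSeries Ω) :
    EV Φ (-f) a = -EV Φ f a := by
  obtain ⟨f, rfl⟩ := exists_lift hf
  rw [← Polynomial.map_neg, EV_map h, EV_map h, Polynomial.map_neg, eval_neg]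

theorem EV_mul (h : HSd C Φ) (hf : f ∈ PI C) (hg : g ∈ PI C) (a : PowerSeries Ω) :
    EV Φ (f * g) a = EV Φ f a * EV Φ g a := by
  obtain ⟨f, rfl⟩ := exists_lift hf
  obtain ⟨g, rfl⟩ := exists_lift hg
  rw [← Polynomial.map_mul, EV_map h, EV_map h, EV_map h, Polynomial.map_mul, eval_mul]

theorem EV_pow (h : HSd C Φ) (hf : f ∈ PI C) (n : ℕ) (a : PowerSeries Ω) :
    EV Φ (f ^ n) a = EV Φ f a ^ n := by
  obtain ⟨f, rfl⟩ := exists_lift hf
  rw [← Polynomial.map_pow, EV_map h, EV_map h, Polynomial.map_pow, eval_pow]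

theorem EV_C (h : HSd C Φ) {c : Ω} (hc : c ∈ C) (a : PowerSeries Ω) :
    EV Φ (Polynomial.C c) a = ser Φ c := by
  have h1 : (Polynomial.C c : Polynomial Ω) =
      (Polynomial.C (⟨c, hc⟩ : C)).map (algebraMap C Ω) := by
    rw [Polynomial.map_C]
    rfl
  rw [h1, EV_map h, Polynomial.map_C, eval_C]
  rfl

theorem EV_X (h : HSd C Φ) (a : PowerSeries Ω) : EV Φ X a = a := by
  have h1 : (X : Polynomial Ω) = (X : Polynomial C).map (algebraMap C Ω) := by
    rw [Polynomial.map_X]
  rw [h1, EV_map h, Polynomial.map_X, eval_X]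

theorem EV_zero (Φ : ℕ → Ω → Ω) (a : PowerSeries Ω) : EV Φ 0 a = 0 := by
  rw [EV, Polynomial.sum_zero_index]

theorem EV_sum (h : HSd C Φ) {ι : Type*} (s : Finset ι) (F : ι → Polynomial Ω)
    (hF : ∀ i ∈ s, F i ∈ PI C) (a : PowerSeries Ω) :
    EV Φ (∑ i ∈ s, F i) a = ∑ i ∈ s, EV Φ (F i) a := by
  classical
  induction s using Finset.induction_on with
  | empty => rw [sum_empty, sum_empty, EV_zero]
  | insert i s hi ih =>
    rw [sum_insert hi, sum_insert hi, EV_add h (hF i (mem_insert_self i s))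
      (sum_mem fun j hj => hF j (mem_insert_of_mem hj)),
      ih fun j hj => hF j (mem_insert_of_mem hj)]

/-- Evaluation at a point of `C`. -/
theorem EV_ser (h : HSd C Φ) (hf : f ∈ PI C) {c : Ω} (hc : c ∈ C) :
    EV Φ f (ser Φ c) = ser Φ (f.eval c) := by
  obtain ⟨f, rfl⟩ := exists_lift hf
  have h1 : ser Φ c = ahom h ⟨c, hc⟩ := rfl
  have h2 : (f.map (algebraMap C Ω)).eval c = ((f.eval ⟨c, hc⟩ : C) : Ω) := by
    rw [eval_map]
    exact Polynomial.eval₂_at_apply (algebraMap C Ω) (⟨c, hc⟩ : C)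
  rw [EV_map h, h1, eval_map, Polynomial.eval₂_at_apply, h2]
  rfl

/-- The Taylor formula. -/
theorem EV_taylor (h : HSd C Φ) (hf : f ∈ PI C) {N : ℕ} (hN : f.natDegree ≤ N)
    (a b : PowerSeries Ω) :
    EV Φ f (a + b) = ∑ j ∈ range (N + 1), EV Φ (hasseDeriv j f) a * b ^ j := by
  obtain ⟨f, rfl⟩ := exists_lift hf
  rw [Polynomial.natDegree_map] at hN
  have h1 : ((taylor a (f.map (ahom h))).natDegree) < N + 1 := by
    rw [natDegree_taylor]
    exact (Polynomial.natDegree_map_le).trans_lt (by omega)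
  rw [EV_map h, add_comm a b, ← taylor_eval, eval_eq_sum_range' h1]
  refine sum_congr rfl fun j _ => ?_
  rw [taylor_coeff, hasse_map, hasse_map, EV_map h]

/-- The expansion at a point of `C`. -/
theorem EV_point (h : HSd C Φ) (hf : f ∈ PI C) {N : ℕ} (hN : f.natDegree ≤ N) {c : Ω}
    (hc : c ∈ C) (b : PowerSeries Ω) :
    EV Φ f (ser Φ c + b) =
      ∑ l ∈ range (N + 1), ser Φ ((hasseDeriv l f).eval c) * b ^ l := by
  rw [EV_taylor h hf hN]
  exact sum_congr rfl fun l _ => by rw [EV_ser h (hasse_mem_PI hf l) hc]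

/-- The coefficients of `f ^ Φ (a)`. -/
theorem EV_coeff_mem (h : HSd C Φ) {E : IntermediateField k Ω} (hCE : C ≤ E) (hf : f ∈ PI C)
    {a : PowerSeries Ω} (ha : ∀ n, PowerSeries.coeff n a ∈ E) (n : ℕ) : PowerSeries.coeff n (EV Φ f a) ∈ E := by
  rw [EV, Polynomial.sum, map_sum]
  refine sum_mem fun i _ => ?_
  rw [PowerSeries.coeff_mul]
  refine sum_mem fun j _ => mul_mem ?_ (pow_coeff_mem E ha i j.2)
  rw [coeff_ser]
  exact hCE (h.mem _ _ (hf i))

/-! ### The polynomial -/

omit [Algebra k Ω] in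
/-- The polynomial `f ^ Φ (X + S)`, coefficient of index `N`. -/
noncomputable def EVP (Φ : ℕ → Ω → Ω) (S : PowerSeries Ω) (N : ℕ) (f : Polynomial Ω) :
    Polynomial Ω :=
  ∑ j ∈ range (f.natDegree + 1), monomial j (PowerSeries.coeff N (EV Φ (hasseDeriv j f) S))

variable {S : PowerSeries Ω}

omit [Algebra k Ω] in
theorem EVP_coeff (Φ : ℕ → Ω → Ω) (S : PowerSeries Ω) (N : ℕ) (f : Polynomial Ω) (j : ℕ) :
    (EVP Φ S N f).coeff j = PowerSeries.coeff N (EV Φ (hasseDeriv j f) S) := by
  rw [EVP, finsetSum_coeff]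
  simp only [coeff_monomial]
  rw [sum_ite_eq' (range (f.natDegree + 1)) j]
  split_ifs with h1
  · rfl
  · rw [hasseDeriv_eq_zero_of_lt_natDegree f j (by simpa using h1), EV_zero, map_zero]

theorem EVP_mem (h : HSd C Φ) (hS : ∀ n, PowerSeries.coeff n S ∈ C) (N : ℕ) (hf : f ∈ PI C) :
    EVP Φ S N f ∈ PI C := by
  intro j
  rw [EVP_coeff]
  exact EV_coeff_mem h le_rfl (hasse_mem_PI hf j) hS N

theorem EVP_eval (h : HSd C Φ) (N : ℕ) (hf : f ∈ PI C) (w : Ω) :
    (EVP Φ S N f).eval w = PowerSeries.coeff N (EV Φ f (PowerSeries.C w + S)) := by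
  rw [add_comm, EV_taylor h hf le_rfl, map_sum, EVP, eval_finsetSum]
  refine sum_congr rfl fun j _ => ?_
  rw [eval_monomial, ← map_pow, mul_comm (EV Φ (hasseDeriv j f) S), PowerSeries.coeff_C_mul,
    mul_comm]

theorem EVP_hasse (h : HSd C Φ) (N : ℕ) (hf : f ∈ PI C) (i : ℕ) :
    hasseDeriv i (EVP Φ S N f) = EVP Φ S N (hasseDeriv i f) := by
  ext j
  rw [hasseDeriv_coeff, EVP_coeff, EVP_coeff]
  have h1 : hasseDeriv j (hasseDeriv i f) =
      Polynomial.C (((j + i).choose i : ℕ) : Ω) * hasseDeriv (j + i) f := by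
    have h2 := congrArg (fun L => L f) (hasseDeriv_comp (R := Ω) j i)
    have h3 : hasseDeriv j (hasseDeriv i f) = (j + i).choose j • hasseDeriv (j + i) f := by
      simpa using h2
    rw [h3, nsmul_eq_mul, Nat.choose_symm_add, ← Polynomial.C_eq_natCast]
  have h4 : ser Φ (((j + i).choose i : ℕ) : Ω) = (((j + i).choose i : ℕ) : PowerSeries Ω) := by
    have h5 := map_natCast (ahom h) ((j + i).choose i)
    rw [← h5, ahom_apply]
    congr 1
  rw [h1, EV_mul h (C_mem_PI (natCast_mem C _)) (hasse_mem_PI hf _), EV_C h (natCast_mem C _), h4,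
    ← map_natCast (PowerSeries.C (R := Ω)), PowerSeries.coeff_C_mul]

end Ev

end Pool.Agent.TWN1
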