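import Pool.Agent.Lib.TWN1.GabA
import Pool.Agent.Lib.TWN1.Chain3

/-!
# TANK W, Theorem G, part E = (G1): the additive form at the end of N1

`w` with infinitely many visible jets over the arc of `C`, `y` with `Nrm .. J = 0`, `R = 0` (output
of `rat`): the base `B(w)` of the critical element is additive, `B(w) = b₀ + e₂ w + ∑ x j w ^ p ^ j`
modulo null, by `h0` and `top` for the polynomials `hasseDeriv (p ^ j) B`.
* `add_form`: the additive form of `B(w)`;
* `Nrm.lim0`: `y` is a limit of `C`;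
* `Nrm.af`: the record `AF`, with a top `y N` which is not null.
-/

set_option autoImplicit false

open Polynomial Finset

namespace Pool.Agent.TWN1

open Pool.Agent.H15JM (RVal)
open Pool.Agent.TWM
open Pool.Agent.TWII (PG LP)
open Pool.Agent.TWLM (HSd Oi)

universe u

variable {k Ω : Type u} [Field k] [Field Ω] [Algebra k Ω] {v : RVal Ω}
  {C : IntermediateField k Ω} {Φ : ℕ → Ω → Ω} {w y : Ω} {Z : PowerSeries Ω} {κ : ℕ → ℝ}
  {ρ σ s ν : ℝ} {p : ℕ} [hp : Fact p.Prime] [CharP Ω p] {B : Polynomial Ω}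

/-- Division by an integer prime to `p`. -/
theorem pg_of_natCast_mul {F : IntermediateField k Ω} {c : ℝ} {x : Ω} {n : ℕ} (hn : ¬ p ∣ n)
    (h : PG p v F c ((n : Ω) * x)) : PG p v F c x := by
  obtain ⟨m, -, hm⟩ := Nat.exists_mul_mod_eq_one_of_coprime
    ((Nat.Prime.coprime_iff_not_dvd hp.out).2 hn).symm hp.out.one_lt
  obtain ⟨μ, hμ, h1⟩ := h.exists_pc
  have h2 := h1.natCast_mul m
  have e : (m : Ω) * ((n : Ω) * x) = x := by
    rw [← mul_assoc]
    have e1 : (m : Ω) * n = 1 := by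
      rw [mul_comm, ← Nat.cast_mul, CharP.cast_eq_mod Ω p, hm, Nat.cast_one]
    rw [e1, one_mul]
  rw [e] at h2
  exact h2.pg (by linarith)

omit hp [CharP Ω p] in
/-- The Hasse derivatives of `a * X ^ m`. -/
theorem hasse_C_X (a : Ω) (m l : ℕ) :
    hasseDeriv l (Polynomial.C a * X ^ m) = monomial (m - l) ((m.choose l : Ω) * a) := by
  rw [C_mul_X_pow_eq_monomial, hasseDeriv_monomial]

/-- The Hasse derivatives of an additive polynomial. -/
theorem hasse_add_poly (x : ℕ → Ω) (S : ℕ) {l : ℕ} (hl : l ≠ 0) :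
    hasseDeriv l (∑ j ∈ range (S + 1), Polynomial.C (x j) * X ^ p ^ j) =
      ∑ j ∈ range (S + 1), if l = p ^ j then Polynomial.C (x j) else 0 := by
  rw [map_sum]
  refine sum_congr rfl fun j _ => ?_
  rw [hasse_C_X]
  split_ifs with h
  · rw [h, Nat.choose_self, Nat.cast_one, one_mul, Nat.sub_self, monomial_zero_left]
  · have h1 : (((p ^ j).choose l : ℕ) : Ω) = 0 := by
      rcases lt_or_ge (p ^ j) l with h2 | h2
      · rw [Nat.choose_eq_zero_of_lt h2, Nat.cast_zero]
      · exact (CharP.cast_eq_zero_iff Ω p _).2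
          (hp.out.dvd_choose_pow (n := j) hl h)
    rw [h1, zero_mul, monomial_zero_right]

variable [IsAlgClosed Ω]

/-- **The additive form** of a polynomial of class X all whose `p`-jets have level `ν - l ρ`. -/
theorem add_form (h : Set0 v C Φ w Z κ ρ σ)
    (hinf : ∀ n₀ : ℕ, ∃ n : ℕ, n₀ ≤ n ∧ ¬ v.Ge (ρ - n * σ) (PowerSeries.coeff n Z))
    (hB : B ∈ PI C) (hX : ∀ l, 2 ≤ l → ¬ p ∣ l → hasseDeriv l B = 0) {e₂ : Ω}
    (he : hasseDeriv 1 B = Polynomial.C e₂)
    (hlev : ∀ l : ℕ, l ≠ 0 → p ∣ l → LP p v (cadj v C w) (ν - l * ρ) ((hasseDeriv l B).eval w)) :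
    ∃ (b₀ : Ω) (x : ℕ → Ω) (S : ℕ), b₀ ∈ C ∧ x 0 = e₂ ∧ (∀ j, x j ∈ C) ∧
      (∀ j : ℕ, j ≠ 0 → LP p v C (ν - p ^ j * ρ) (x j)) ∧
      PG p v (cadj v C w) ν (B.eval w - (b₀ + col p x w S)) := by
  classical
  have hp1 := hp.out.one_lt
  have hpp : ∀ j : ℕ, j ≠ 0 → p ∣ p ^ j := fun j hj => dvd_pow_self p hj
  have hpj0 : ∀ j : ℕ, p ^ j ≠ 0 := fun j => (Nat.pow_pos hp.out.pos).ne'
  -- the jets of index `p ^ j` are of class X with derivative `0`
  have hX' : ∀ j : ℕ, j ≠ 0 → ∀ l : ℕ, l ≠ 0 → ¬ p ∣ l →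
      hasseDeriv l (hasseDeriv (p ^ j) B) = 0 := by
    intro j hj l hl hpl
    have e : hasseDeriv l (hasseDeriv (p ^ j) B) = (l + p ^ j).choose l • hasseDeriv (l + p ^ j) B := by
      have := LinearMap.congr_fun (hasseDeriv_comp (R := Ω) l (p ^ j)) B
      simpa using this
    rw [e, hX (l + p ^ j) (by have := Nat.pos_of_ne_zero (hpj0 j); omega)
      (fun h1 => hpl ((Nat.dvd_add_left (hpp j hj)).1 h1)), smul_zero]
  have hcj : ∀ j : ℕ, ∃ c : Ω, c ∈ C ∧ (j ≠ 0 → PG p v (cadj v C w) (ν - p ^ j * ρ)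
      ((hasseDeriv (p ^ j) B).eval w - c)) := by
    intro j
    rcases eq_or_ne j 0 with hj | hj
    · exact ⟨0, zero_mem _, fun h1 => absurd hj h1⟩
    · have h1 := hlev (p ^ j) (hpj0 j) (hpp j hj)
      push_cast at h1
      obtain ⟨c, hc, h2⟩ := h.top (p := p) hinf (hasse_mem_PI hB (p ^ j))
        (fun l hl hpl => hX' j hj l (by omega) hpl) h1 (e₂ := 0)
        (by rw [hX' j hj 1 one_ne_zero (Nat.Prime.not_dvd_one hp.out), C_0])
      refine ⟨c, hc, fun _ => ?_⟩
      rwa [zero_mul, sub_zero] at h2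
  choose c hc hcn using hcj
  have he₂ : e₂ ∈ C := by
    have h1 := hasse_mem_PI hB 1 0
    rwa [he, coeff_C_zero] at h1
  set x : ℕ → Ω := fun j => if j = 0 then e₂ else c j with hx
  have hx0 : x 0 = e₂ := by simp [hx]
  have hxj : ∀ j : ℕ, j ≠ 0 → x j = c j := fun j hj => by simp [hx, hj]
  have hxC : ∀ j, x j ∈ C := by
    intro j
    rcases eq_or_ne j 0 with rfl | hj
    · rw [hx0]
      exact he₂
    · rw [hxj j hj]
      exact hc j
  set S := B.natDegree with hS
  set A : Polynomial Ω := ∑ j ∈ range (S + 1), Polynomial.C (x j) * X ^ p ^ j with hA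
  have hAC : A ∈ PI C := sum_mem fun j _ => mul_mem (C_mem_PI (hxC j)) (pow_mem X_mem_PI _)
  have hB'C : B - A ∈ PI C := sub_mem hB hAC
  have hinj : ∀ i j : ℕ, p ^ i = p ^ j → i = j := fun i j hij => Nat.pow_right_injective hp1 hij
  have hlt : ∀ j : ℕ, j < p ^ j := fun j => Nat.lt_pow_self hp1
  -- the jets of the rest
  have hjA : ∀ l : ℕ, l ≠ 0 → hasseDeriv l (B - A) = hasseDeriv l B -
      ∑ j ∈ range (S + 1), if l = p ^ j then Polynomial.C (x j) else 0 := by
    intro l hl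
    rw [map_sub, hA, hasse_add_poly x S hl]
  have hz : ∀ l : ℕ, 0 < l → ¬ p ∣ l → hasseDeriv l (B - A) = 0 := by
    intro l hl hpl
    rw [hjA l hl.ne']
    rcases eq_or_ne l 1 with rfl | hl1
    · rw [sum_eq_single_of_mem 0 (mem_range.2 (by omega)) (fun j _ hj => if_neg ?_),
        pow_zero, if_pos rfl, hx0, he, sub_self]
      intro h1
      exact hj (hinj j 0 (by rw [pow_zero]; exact h1.symm))
    · rw [hX l (by omega) hpl, zero_sub, neg_eq_zero]
      refine sum_eq_zero fun j _ => if_neg fun h1 => ?_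
      rcases eq_or_ne j 0 with rfl | hj
      · exact hl1 (by rw [h1, pow_zero])
      · exact hpl (h1 ▸ hpp j hj)
  have hn : ∀ l : ℕ, 0 < l → p ∣ l →
      PG p v (cadj v C w) (ν - l * ρ) ((hasseDeriv l (B - A)).eval w) := by
    intro l hl hpl
    rw [hjA l hl.ne']
    obtain ⟨a, m, hm, e⟩ := Nat.exists_eq_pow_mul_and_not_dvd hl.ne' p hp.out.ne_one
    have ha : a ≠ 0 := by
      rintro rfl
      rw [pow_zero, one_mul] at e
      exact hm (e ▸ hpl)
    rcases eq_or_ne m 1 with rfl | hm1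
    · rw [mul_one] at e
      by_cases haS : a ≤ S
      · have h1 : ∑ j ∈ range (S + 1), (if l = p ^ j then Polynomial.C (x j) else 0) =
            Polynomial.C (c a) := by
          rw [sum_eq_single_of_mem a (mem_range.2 (by omega)) (fun j _ hj => if_neg ?_),
            if_pos e, hxj a ha]
          intro h2
          exact hj (hinj j a (by rw [← h2, ← e]))
        rw [h1, eval_sub, eval_C]
        have h2 := hcn a ha
        rw [e]
        push_cast
        exact h2
      · have h1 : ∑ j ∈ range (S + 1), (if l = p ^ j then Polynomial.C (x j) else 0) = 0 := by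
          refine sum_eq_zero fun j hj => if_neg fun h2 => ?_
          have h3 := hinj a j (by rw [← e, ← h2])
          have h4 := mem_range.1 hj
          omega
        have h2 : S < l := by
          have := hlt a
          omega
        rw [h1, sub_zero, hasseDeriv_eq_zero_of_lt_natDegree B l h2, eval_zero]
        exact PC.pg (c := ν - l * ρ + 1) (.of_ge RVal.Ge.zero) (by linarith)
    · have h1 : ∑ j ∈ range (S + 1), (if l = p ^ j then Polynomial.C (x j) else 0) = 0 := by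
        refine sum_eq_zero fun j _ => if_neg fun h2 => ?_
        rw [e] at h2
        rcases lt_or_ge a j with h3 | h3
        · refine hm ?_
          have h4 : p ^ a * m = p ^ a * p ^ (j - a) := by
            rw [h2, ← pow_add, Nat.add_sub_cancel' h3.le]
          rw [Nat.eq_of_mul_eq_mul_left (Nat.pow_pos hp.out.pos) h4]
          exact hpp _ (by omega)
        · have hm0 : m ≠ 0 := by
            rintro rfl
            exact hm (dvd_zero p)
          have h4 : p ^ a * m = p ^ j := h2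
          have h5 : p ^ j ≤ p ^ a := Nat.pow_le_pow_right hp.out.pos h3
          have h6 : p ^ a * 2 ≤ p ^ a * m := Nat.mul_le_mul_left _ (by omega)
          have h7 := Nat.pos_of_ne_zero (hpj0 a)
          omega
      rw [h1, sub_zero]
      have hm0 : m ≠ 0 := by
        rintro rfl
        exact hm (dvd_zero p)
      -- `l = i + p ^ a`
      have hpa : p ^ a < l := by
        have h6 : p ^ a * 2 ≤ p ^ a * m := Nat.mul_le_mul_left _ (by omega)
        have h7 := Nat.pos_of_ne_zero (hpj0 a)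
        omega
      obtain ⟨i, hi⟩ : ∃ i, l = i + p ^ a := ⟨l - p ^ a, by omega⟩
      have hi0 : i ≠ 0 := by omega
      have hpi : p ∣ i := (Nat.dvd_add_left (hpp a ha)).1 (hi ▸ hpl)
      have h2 := hlev (p ^ a) (hpj0 a) (hpp a ha)
      have h3 := h.h0 (p := p) hinf (hasse_mem_PI hB (p ^ a))
        (fun l hl hpl => hX' a ha l (by omega) hpl) h2 hi0 hpi
      rw [hasse_eval, ← hi] at h3
      have h4 : ¬ p ∣ l.choose i := by
        have h5 : l.choose i = (p ^ a * m).choose (p ^ a * 1) := by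
          rw [← e, mul_one, hi]
          exact Nat.choose_symm_add
        rw [h5, dvd_choose_pow p a m 1, Nat.choose_one_right]
        exact hm
      have h5 := pg_of_natCast_mul h4 h3
      refine h5.mono ?_
      rw [hi]
      push_cast
      linarith
  -- the rest is a constant
  obtain ⟨μ, δ₀, hμ, hδ₀, hdeep⟩ := exists_deep (l₀ := 0) h.tl hB'C (fun l hl hpl => hn l hl hpl)
  have hL1 : (0 : ℝ) < 4 * ((B - A).natDegree + 1) := by positivity
  set δ := min δ₀ (μ / (4 * ((B - A).natDegree + 1))) with hδdef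
  have hδ : 0 < δ := lt_min hδ₀ (div_pos hμ hL1)
  have hδ1 : δ ≤ δ₀ := min_le_left _ _
  have hLδ : ((B - A).natDegree : ℝ) * δ ≤ μ / 2 := by
    have h1 : δ ≤ μ / (4 * ((B - A).natDegree + 1)) := min_le_right _ _
    rw [le_div_iff₀ hL1] at h1
    nlinarith
  obtain ⟨ψ, hψ, hwψ⟩ := h.tl.lim δ hδ
  have h1 := jet_diff (p := p) (l₀ := 0) (f := B - A) (ν := ν) (dvd_zero p) hz hψ
    (fun l h0 h1 => hdeep ψ hψ (hwψ.mono (by linarith)) l h0 h1) hδ.le hLδ (le_cadj v C w)
    (self_mem_cadj v C w) hwψ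
  rw [hasseDeriv_zero'] at h1
  refine ⟨(B - A).eval ψ, x, S, eval_mem hB'C hψ, hx0, hxC, fun j hj => ?_, ?_⟩
  · rw [hxj j hj]
    have h2 := hlev (p ^ j) (hpj0 j) (hpp j hj)
    push_cast at h2
    have h3 := h2.sub (TWII.LP.of_pg (hcn j hj))
    rw [sub_sub_cancel] at h3
    exact TWII.LP.down h.tl (hc j) h3
  · have e : B.eval w - ((B - A).eval ψ + col p x w S) = (B - A).eval w - (B - A).eval ψ := by
      rw [eval_sub B A w, hA, col, eval_finsetSum]
      simp only [eval_mul, eval_C, eval_pow, eval_X]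
      ring
    rw [e]
    refine h1.pg ?_
    rw [Nat.cast_zero]
    linarith

omit hp [CharP Ω p] [IsAlgClosed Ω] in
/-- `y` is a limit of `C`. -/
theorem Nrm.lim0 {e : Ω} {A : ℕ → Ω} {N : ℕ} (hN : Nrm p v C w y ρ s ν e A N B 0 0) :
    Lim v C s y := by
  intro ε hε
  obtain ⟨θ, hθ, h1, -, h2, -⟩ := hN.fam ε hε
  have e1 : θ = Polynomial.C (θ.coeff 0) := by
    refine Polynomial.ext fun i => ?_
    rcases eq_or_ne i 0 with rfl | hi
    · rw [coeff_C_zero]
    · rw [h1 i (Nat.pos_of_ne_zero hi), coeff_zero, coeff_C_of_ne_zero hi]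
  refine ⟨θ.coeff 0, hθ 0, ?_⟩
  rw [e1, eval_C] at h2
  exact h2

/-- **(G1)**: the additive form over the pair `w, y`. -/
theorem Nrm.af (h : Set0 v C Φ w Z κ ρ σ)
    (hinf : ∀ n₀ : ℕ, ∃ n : ℕ, n₀ ≤ n ∧ ¬ v.Ge (ρ - n * σ) (PowerSeries.coeff n Z))
    (hy : TL v (cadj v C w) y s) {e : Ω} {A : ℕ → Ω} {N : ℕ}
    (hN : Nrm p v C w y ρ s ν e A N B 0 0) {e₂ : Ω}
    (he₂ : hasseDeriv 1 B = Polynomial.C e₂) {b : Ω}
    (hb : PG p v (cadj v (cadj v C w) y) ν
      (b - (e * y + ∑ i ∈ Icc 1 N, A i * y ^ p ^ i + B.eval w))) :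
    ∃ (b₀ : Ω) (x : ℕ → Ω) (S : ℕ) (y' : ℕ → Ω),
      AF p v C (cadj v (cadj v C w) y) ν b b₀ w ρ x S y s y' N ∧
      x 0 = e₂ ∧ y' 0 = e ∧ (∀ i ∈ Icc 1 N, y' i = A i) ∧
      ¬ PG p v C (ν - p ^ N * s) (y' N) := by
  classical
  have hlev : ∀ l : ℕ, l ≠ 0 → p ∣ l →
      LP p v (cadj v C w) (ν - l * ρ) ((hasseDeriv l B).eval w) := by
    intro l hl hpl
    have h1 := hN.lev_high h.tl (l := l) (by rw [mul_zero]; exact Nat.pos_of_ne_zero hl)
    have e1 : hasseDeriv l (fth p e A N B 0) = hasseDeriv l B := by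
      rw [fth]
      have h2 : ∑ i ∈ Icc 1 N, Polynomial.C (A i) * (0 : Polynomial Ω) ^ p ^ i = 0 :=
        sum_eq_zero fun i _ => by rw [zero_pow (Nat.pow_pos hp.out.pos).ne', mul_zero]
      rw [h2, mul_zero, zero_add, zero_add]
    rwa [e1] at h1
  obtain ⟨b₀, x, S, hb₀, hx0, hxC, hxl, hrel⟩ := add_form h hinf hN.BC hN.BX he₂ hlev
  set y' : ℕ → Ω := fun i => if i = 0 then e else if i ≤ N then A i else 0 with hy'
  have hy0 : y' 0 = e := by simp [hy']
  have hyi : ∀ i ∈ Icc 1 N, y' i = A i := by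
    intro i hi
    obtain ⟨h1, h2⟩ := mem_Icc.1 hi
    have h3 : i ≠ 0 := by omega
    simp [hy', h3, h2]
  have hyN : y' N = A N := hyi N (mem_Icc.2 ⟨hN.N1, le_rfl⟩)
  have hpar : Par v C (cadj v (cadj v C w) y) w ρ y s := Par.mk' h.tl hy hN.lim0 rfl
  refine ⟨b₀, x, S, y', ⟨hpar, ⟨hxC, ?_, hxl⟩, ⟨?_, ?_, ?_⟩, hb₀, ?_⟩, hx0, hy0, hyi, ?_⟩
  · rw [hx0]
    have h1 := hN.B1
    rwa [he₂, eval_C] at h1
  · intro i
    rcases eq_or_ne i 0 with rfl | hi
    · rw [hy0]
      exact hN.eC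
    · by_cases hiN : i ≤ N
      · rw [hyi i (mem_Icc.2 ⟨by omega, hiN⟩)]
        exact hN.AC i (mem_Icc.2 ⟨by omega, hiN⟩)
      · have h1 : y' i = 0 := by simp [hy', hi, hiN]
        rw [h1]
        exact zero_mem _
  · rw [hy0]
    exact hN.ege
  · intro i hi
    by_cases hiN : i ≤ N
    · have hm : i ∈ Icc 1 N := mem_Icc.2 ⟨by omega, hiN⟩
      rw [hyi i hm]
      exact TWII.LP.down h.tl (hN.AC i hm) (hN.Alp i hm)
    · have h1 : y' i = 0 := by simp [hy', hi, hiN]
      rw [h1]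
      exact lp_of_ge RVal.Ge.zero
  · have e1 : col p y' y N = e * y + ∑ i ∈ Icc 1 N, A i * y ^ p ^ i := by
      rw [col, range_eq_Ico, sum_eq_sum_Ico_succ_bot (Nat.succ_pos N), hy0, pow_zero, pow_one]
      congr 1
      have e2 : Ico (0 + 1) (N + 1) = Icc 1 N := by
        ext i
        simp only [mem_Ico, mem_Icc]
        omega
      rw [e2]
      exact sum_congr rfl fun i hi => by rw [hyi i hi]
    have e2 : b - (b₀ + col p x w S + col p y' y N) =
        (b - (e * y + ∑ i ∈ Icc 1 N, A i * y ^ p ^ i + B.eval w)) +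
          (B.eval w - (b₀ + col p x w S)) := by
      rw [e1]
      ring
    rw [e2]
    exact hb.add (PG.of_le' (le_cadj v _ y) hrel)
  · rw [hyN]
    exact fun h1 => hN.top (TWII.PG.up h1)

end Pool.Agent.TWN1
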