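import Pool.Agent.Lib.TWN1.Base
import Pool.Agent.Lib.TWN1.Chain0

/-!
# TANK W, text N1, (2.5): the records between the normal form and the chain

* `fth p e A N B θ = e θ + ∑ A i θ ^ p ^ i + B` (polynomials over `C`);
* `Dt`: the coefficients of a critical socle element of kind A, all in `C`;
* `Adm`: the admissible polynomials `R`;
* `Nrm`: the normal form with `R`; `θ ∈ R + (degree ≤ J)`;
* `Mar`: the margins of the coefficients along the arc.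
-/

set_option autoImplicit false

open Polynomial Finset

namespace Pool.Agent.TWN1

open Pool.Agent.H15JM (RVal)
open Pool.Agent.TWM
open Pool.Agent.TWII (PG)
open Pool.Agent.TWLM (HSd Oi)

universe u

variable {k Ω : Type u} [Field k] [Field Ω] [Algebra k Ω]

/-- `e θ + ∑ A i θ ^ p ^ i + B`. -/
noncomputable def fth (p : ℕ) (e : Ω) (A : ℕ → Ω) (N : ℕ) (B θ : Polynomial Ω) : Polynomial Ω :=
  C e * θ + ∑ i ∈ Icc 1 N, C (A i) * θ ^ p ^ i + B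

/-- The coefficients: level `ν`, radius `s` of `y`. -/
structure Dt (p : ℕ) (v : RVal Ω) (K F : IntermediateField k Ω) (s ν : ℝ) (e : Ω) (A : ℕ → Ω)
    (N : ℕ) : Prop where
  N1 : 1 ≤ N
  eC : e ∈ K
  ege : v.Ge (ν - s) e
  AC : ∀ i ∈ Icc 1 N, A i ∈ K
  Alp : ∀ i ∈ Icc 1 N, TWII.LP p v F (ν - p ^ i * s) (A i)
  top : ¬ PG p v F (ν - p ^ N * s) (A N)

/-- Admissible polynomials. -/
structure Adm (p : ℕ) (v : RVal Ω) (K : IntermediateField k Ω) (ρ s : ℝ) (e : Ω) (J : ℕ)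
    (R : Polynomial Ω) : Prop where
  mem : R ∈ PI K
  low : ∀ j ∈ R.support, J < j
  bin : ∀ j ∈ R.support, ∀ i, J < i → i < j → p ∣ j.choose i
  pdv : e ≠ 0 → ∀ j ∈ R.support, p ∣ j
  siz : ∀ j : ℕ, v.Ge (s - j * ρ) (R.coeff j)

/-- The normal form (2.5). -/
structure Nrm (p : ℕ) (v : RVal Ω) (K : IntermediateField k Ω) (w y : Ω) (ρ s ν : ℝ) (e : Ω)
    (A : ℕ → Ω) (N : ℕ) (B : Polynomial Ω) (J : ℕ) (R : Polynomial Ω) : Prop
    extends Dt p v K (cadj v K w) s ν e A N, Adm p v K ρ s e J R where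
  BC : B ∈ PI K
  BX : ∀ l, 2 ≤ l → ¬ p ∣ l → hasseDeriv l B = 0
  B1 : v.Ge (ν - ρ) ((hasseDeriv 1 B).eval w)
  eB : e = 0 ∨ hasseDeriv 1 B = 0
  fam : ∀ ε : ℝ, 0 < ε → ∃ θ ∈ PI K, (∀ i, J < i → θ.coeff i = R.coeff i) ∧
    (e ≠ 0 → ∀ l, ¬ p ∣ l → hasseDeriv l θ = 0) ∧ v.Ge (s - ε) (y - θ.eval w) ∧
    TWII.LP p v (cadj v K w) (ν - ε) ((fth p e A N B θ).eval w)

/-- The margins along the arc. -/
structure Mar (p : ℕ) (v : RVal Ω) (K : IntermediateField k Ω) (Φ : ℕ → Ω → Ω) (σ s ν : ℝ) (e : Ω)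
    (A : ℕ → Ω) (N : ℕ) (μ : ℝ) : Prop where
  pos : 0 < μ
  em : ∀ m : ℕ, m ≠ 0 → v.Ge (ν - s - m * σ + μ) (Φ m e)
  Am : ∀ i ∈ Icc 1 N, ∀ m : ℕ, m ≠ 0 → PC p v K (ν - p ^ i * s - m * σ + μ) (Φ m (A i))

end Pool.Agent.TWN1
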