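import Pool.Agent.Lib.TWN1.Chain
import Pool.Agent.Lib.TWN1.Oc

/-!
# TANK W, Theorem N1: lemmas for RAT

Dominance, the calculus of `fth`, points of `K` near `w`, OC for all the Hasse derivatives.
-/

set_option autoImplicit false

open Polynomial Finset

namespace Pool.Agent.TWN1

open Pool.Agent.H15JM (RVal)
open Pool.Agent.TWM
open Pool.Agent.TWII (PG LP)
open Pool.Agent.TWLM (HSd Oi)

universe u

/-! ### Generalities -/

theorem rt_min {ι : Type*} (S : Finset ι) (P : ι → ℝ → Prop)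
    (hP : ∀ i, ∀ a b : ℝ, a ≤ b → P i b → P i a) (h : ∀ i ∈ S, ∃ μ : ℝ, 0 < μ ∧ P i μ) :
    ∃ μ : ℝ, 0 < μ ∧ ∀ i ∈ S, P i μ := by
  classical
  induction S using Finset.induction_on with
  | empty => exact ⟨1, one_pos, fun i hi => absurd hi (notMem_empty i)⟩
  | insert i S hi ih =>
    obtain ⟨μ, hμ, h1⟩ := ih fun j hj => h j (mem_insert_of_mem hj)
    obtain ⟨μ', hμ', h2⟩ := h i (mem_insert_self i S)
    refine ⟨min μ μ', lt_min hμ hμ', fun j hj => ?_⟩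
    rcases mem_insert.1 hj with rfl | hj
    · exact hP _ _ _ (min_le_right μ μ') h2
    · exact hP _ _ _ (min_le_left μ μ') (h1 j hj)

theorem rt_max {ι : Type*} (S : Finset ι) (P : ι → ℕ → Prop)
    (h : ∀ i ∈ S, ∃ n₀ : ℕ, ∀ n, n₀ ≤ n → P i n) : ∃ n₀ : ℕ, ∀ n, n₀ ≤ n → ∀ i ∈ S, P i n := by
  classical
  induction S using Finset.induction_on with
  | empty => exact ⟨0, fun n _ i hi => absurd hi (notMem_empty i)⟩
  | insert i S hi ih =>
    obtain ⟨n₀, h1⟩ := ih fun j hj => h j (mem_insert_of_mem hj)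
    obtain ⟨n₁, h2⟩ := h i (mem_insert_self i S)
    refine ⟨max n₀ n₁, fun n hn j hj => ?_⟩
    rcases mem_insert.1 hj with rfl | hj
    · exact h2 n ((le_max_right _ _).trans hn)
    · exact h1 n ((le_max_left _ _).trans hn) j hj

section A

variable {k Ω : Type u} [Field k] [Field Ω] [Algebra k Ω] {v : RVal Ω}
  {K : IntermediateField k Ω} {Φ : ℕ → Ω → Ω} {w : Ω} {Z : PowerSeries Ω} {κ : ℕ → ℝ} {ρ σ : ℝ}
  {p : ℕ} [hp : Fact p.Prime] [CharP Ω p] {e : Ω} {A : ℕ → Ω} {N J : ℕ}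
  {B θ θ₀ : Polynomial Ω} {s ν : ℝ} {c : ℝ}

omit [CharP Ω p] in
/-- Dominance. -/
theorem rt_dom {F : IntermediateField k Ω} {a x : Ω} {b : ℝ} {N : ℕ} (hN : 1 ≤ N)
    (ha : ¬ PG p v F c a) (hx : x ∈ F) (h : LP p v F (c + p ^ N * b) (a * x ^ p ^ N)) :
    v.Ge b x := by
  by_contra hb
  have hx0 : x ≠ 0 := by
    rintro rfl
    exact hb RVal.Ge.zero
  have hlt : v x < b := by
    by_contra h1
    exact hb fun _ => not_lt.1 h1
  apply ha
  obtain ⟨M, rfl⟩ : ∃ M, N = M + 1 := ⟨N - 1, by omega⟩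
  have e1 : x ^ p ^ (M + 1) = (x ^ p ^ M) ^ p := by rw [← pow_mul, ← pow_succ]
  refine PG.of_mul_pow (pow_mem hx (p ^ M)) (pow_ne_zero _ hx0) ?_
  rw [← e1, v.map_pow hx0]
  have h2 : (p : ℝ) * ((p ^ M : ℕ) * v x) = p ^ (M + 1) * v x := by
    push_cast
    ring
  have hp0 : (0 : ℝ) < p ^ (M + 1) := by
    have : (0 : ℝ) < p := by exact_mod_cast hp.out.pos
    positivity
  rw [h2]
  exact (LP.pc h (c' := c + p ^ (M + 1) * ((v x + b) / 2)) (by nlinarith)).pg (by nlinarith)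

variable [IsAlgClosed Ω]

theorem rt_hasse_pow (f : Polynomial Ω) (n : ℕ) :
    hasseDeriv n (f ^ p) = if p ∣ n then (hasseDeriv (n / p) f) ^ p else 0 := by
  refine Polynomial.funext fun x => ?_
  rw [hasse_pow]
  split_ifs
  · rw [eval_pow]
  · rw [eval_zero]

theorem rt_hasse_ppow (f : Polynomial Ω) (i n : ℕ) :
    hasseDeriv n (f ^ p ^ i) = if p ^ i ∣ n then (hasseDeriv (n / p ^ i) f) ^ p ^ i else 0 := by
  induction i generalizing n with
  | zero => simp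
  | succ i ih =>
    rw [pow_succ p i, pow_mul, rt_hasse_pow, ih]
    by_cases h1 : p ∣ n
    · obtain ⟨m, rfl⟩ := h1
      rw [if_pos (dvd_mul_right p m), Nat.mul_div_cancel_left _ hp.out.pos, mul_comm (p ^ i) p]
      by_cases h2 : p ^ i ∣ m
      · rw [if_pos h2, if_pos (Nat.mul_dvd_mul_left p h2), Nat.mul_div_mul_left _ _ hp.out.pos,
          ← pow_mul, mul_comm p (p ^ i)]
      · rw [if_neg h2, if_neg (fun h3 => h2 (Nat.dvd_of_mul_dvd_mul_left hp.out.pos h3)),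
          zero_pow hp.out.ne_zero]
    · rw [if_neg h1, if_neg (fun h3 => h1 ((Dvd.intro_left (p ^ i) rfl).trans h3))]

omit hp [CharP Ω p] [IsAlgClosed Ω] in
theorem rt_fth_mem (he : e ∈ K) (hA : ∀ i ∈ Icc 1 N, A i ∈ K) (hB : B ∈ PI K) (hθ : θ ∈ PI K) :
    fth p e A N B θ ∈ PI K :=
  add_mem (add_mem (mul_mem (C_mem_PI he) hθ)
    (sum_mem fun i hi => mul_mem (C_mem_PI (hA i hi)) (pow_mem hθ _))) hB

omit [IsAlgClosed Ω] in
theorem rt_fth_add (θ g : Polynomial Ω) : fth p e A N B (θ + g) =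
    C e * θ + ∑ i ∈ Icc 1 N, C (A i) * θ ^ p ^ i + fth p e A N B g := by
  have h1 : ∀ i, (θ + g) ^ p ^ i = θ ^ p ^ i + g ^ p ^ i := fun i => add_pow_char_pow ..
  simp only [fth, h1, mul_add, sum_add_distrib]
  ring

omit [IsAlgClosed Ω] in
theorem rt_fth_fth (θ g : Polynomial Ω) :
    fth p e A N (fth p e A N B g) θ = fth p e A N B (θ + g) := by
  rw [rt_fth_add]
  rfl

omit [IsAlgClosed Ω] in
theorem rt_fth_sub (θ θ₀ : Polynomial Ω) : fth p e A N B θ = fth p e A N B θ₀ +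
    (C e * (θ - θ₀) + ∑ i ∈ Icc 1 N, C (A i) * (θ - θ₀) ^ p ^ i) := by
  have h1 := rt_fth_add (p := p) (e := e) (A := A) (N := N) (B := B) (θ - θ₀) θ₀
  rw [sub_add_cancel] at h1
  rw [h1]
  ring

theorem rt_fth_hasse {l : ℕ} (hl : ¬ p ∣ l) (θ : Polynomial Ω) :
    hasseDeriv l (fth p e A N B θ) = C e * hasseDeriv l θ + hasseDeriv l B := by
  have h1 : ∀ i ∈ Icc 1 N, hasseDeriv l (C (A i) * θ ^ p ^ i) = 0 := by
    intro i hi
    rw [← smul_eq_C_mul, map_smul, rt_hasse_ppow, if_neg, smul_zero]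
    intro h2
    exact hl ((dvd_pow_self p (by have := (mem_Icc.1 hi).1; omega)).trans h2)
  rw [fth, map_add, map_add, map_sum, sum_eq_zero h1, add_zero, ← smul_eq_C_mul, map_smul,
    smul_eq_C_mul]

omit [IsAlgClosed Ω] in
theorem rt_fth_hi (hJ : (θ - θ₀).natDegree ≤ J) {l : ℕ}
    (hl : p ^ N * J < l) :
    hasseDeriv l (fth p e A N B θ) = hasseDeriv l (fth p e A N B θ₀) := by
  rw [rt_fth_sub θ θ₀, map_add, map_add, map_sum]
  have h0 : ∀ i ≤ N, l > p ^ i * J := fun i hi =>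
    lt_of_le_of_lt (Nat.mul_le_mul_right J (Nat.pow_le_pow_right hp.out.pos hi)) hl
  have h1 : ∀ i ∈ Icc 1 N, hasseDeriv l (C (A i) * (θ - θ₀) ^ p ^ i) = 0 := by
    intro i hi
    rw [← smul_eq_C_mul, map_smul, hasseDeriv_eq_zero_of_lt_natDegree, smul_zero]
    exact lt_of_le_of_lt (natDegree_pow_le.trans (Nat.mul_le_mul_left _ hJ))
      (h0 i (mem_Icc.1 hi).2)
  have h2 : hasseDeriv l (C e * (θ - θ₀)) = 0 := by
    rw [← smul_eq_C_mul, map_smul, hasseDeriv_eq_zero_of_lt_natDegree, smul_zero]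
    have := h0 0 (Nat.zero_le _)
    rw [pow_zero, one_mul] at this
    exact hJ.trans_lt this
  rw [h2, sum_eq_zero h1, add_zero, add_zero]

theorem rt_fth_top (hN : 1 ≤ N) (hJ : (θ - θ₀).natDegree ≤ J) (hJ0 : J ≠ 0) :
    hasseDeriv (p ^ N * J) (fth p e A N B θ) = hasseDeriv (p ^ N * J) (fth p e A N B θ₀) +
      C (A N * (θ - θ₀).coeff J ^ p ^ N) := by
  have hcJ : hasseDeriv J (θ - θ₀) = C ((θ - θ₀).coeff J) := by
    ext m
    rw [hasseDeriv_coeff, coeff_C]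
    split_ifs with hm
    · rw [hm, zero_add, Nat.choose_self, Nat.cast_one, one_mul]
    · rw [coeff_eq_zero_of_natDegree_lt (by omega), mul_zero]
  rw [rt_fth_sub θ θ₀, map_add, map_add, map_sum]
  have hlt : ∀ i < N, p ^ N * J > p ^ i * J := fun i hi =>
    Nat.mul_lt_mul_of_pos_right (Nat.pow_lt_pow_right hp.out.one_lt hi) (by omega)
  have h1 : ∀ i ∈ Icc 1 N, i ≠ N → hasseDeriv (p ^ N * J) (C (A i) * (θ - θ₀) ^ p ^ i) = 0 := by
    intro i hi hiN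
    rw [← smul_eq_C_mul, map_smul, hasseDeriv_eq_zero_of_lt_natDegree, smul_zero]
    have h2 : i < N := lt_of_le_of_ne (mem_Icc.1 hi).2 hiN
    exact lt_of_le_of_lt (natDegree_pow_le.trans (Nat.mul_le_mul_left _ hJ)) (hlt i h2)
  have h2 : hasseDeriv (p ^ N * J) (C e * (θ - θ₀)) = 0 := by
    rw [← smul_eq_C_mul, map_smul, hasseDeriv_eq_zero_of_lt_natDegree, smul_zero]
    have := hlt 0 (by omega)
    rw [pow_zero, one_mul] at this
    omega
  rw [h2, sum_eq_single N h1 (fun h3 => absurd (mem_Icc.2 ⟨hN, le_rfl⟩) h3), zero_add,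
    ← smul_eq_C_mul, map_smul, rt_hasse_ppow, if_pos (dvd_mul_right _ _),
    Nat.mul_div_cancel_left _ (pow_pos hp.out.pos N), hcJ, smul_eq_C_mul, ← C_pow, ← C_mul]

/-! ### Points of `K` near `w` -/

omit [Algebra k Ω] [IsAlgClosed Ω] in
theorem rt_taylor {f : Polynomial Ω} {D : ℕ} (hD : f.natDegree ≤ D) (w ψ : Ω) :
    f.eval ψ = ∑ j ∈ range (D + 1), (hasseDeriv j f).eval w * (ψ - w) ^ j := by
  have h1 : (taylor w f).natDegree < D + 1 := by
    rw [natDegree_taylor]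
    omega
  rw [← taylor_eval_sub w f ψ, eval_eq_sum_range' h1]
  exact sum_congr rfl fun j _ => by rw [taylor_coeff]

omit [IsAlgClosed Ω] in
theorem rt_point {f : Polynomial Ω}
    (h0 : ∀ j, j ≠ 0 → ¬ p ∣ j → hasseDeriv j f = 0)
    (h1 : ∀ j : ℕ, j ≠ 0 → p ∣ j → PG p v (cadj v K w) (c - j * ρ) ((hasseDeriv j f).eval w)) :
    ∃ δ : ℝ, 0 < δ ∧ ∀ ψ ∈ K, v.Ge (ρ - δ) (w - ψ) →
      PG p v (cadj v K w) c (f.eval w - f.eval ψ) := by
  set D := f.natDegree with hD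
  obtain ⟨μ, hμ, h2⟩ := rt_min (range D)
    (fun j μ => p ∣ j + 1 → PC p v (cadj v K w) (c - (j + 1 : ℕ) * ρ + μ)
      ((hasseDeriv (j + 1) f).eval w)) (fun i a b hab hb hd => (hb hd).mono (by linarith))
    (fun j _ => by
      by_cases hj : p ∣ j + 1
      · obtain ⟨μ, hμ, h3⟩ := PG.exists_pc (h1 (j + 1) (Nat.succ_ne_zero j) hj)
        exact ⟨μ, hμ, fun _ => h3⟩
      · exact ⟨1, one_pos, fun h3 => absurd h3 hj⟩)
  refine ⟨μ / (D + 1), by positivity, fun ψ hψ hwψ => ?_⟩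
  have e1 : f.eval w - f.eval ψ =
      -∑ j ∈ range D, (hasseDeriv (j + 1) f).eval w * (ψ - w) ^ (j + 1) := by
    rw [rt_taylor hD.ge w ψ, sum_range_succ', hasseDeriv_zero', pow_zero, mul_one]
    ring
  rw [e1]
  refine PG.neg (PG.sum _ _ fun j hj => ?_)
  by_cases hpj : p ∣ j + 1
  · obtain ⟨m, hm⟩ := hpj
    rw [mul_comm] at hm
    have e2 : (ψ - w) ^ (j + 1) = ((ψ - w) ^ m) ^ p := by rw [← pow_mul, hm]
    rw [e2]
    have hwψ' : v.Ge (ρ - μ / (D + 1)) (ψ - w) := ge_sub_comm hwψ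
    have h3 : v.Ge ((m * p : ℕ) * (ρ - μ / (D + 1))) (((ψ - w) ^ m) ^ p) := by
      rw [← pow_mul]
      exact ge_pow hwψ' (m * p)
    have h4 := (h2 j hj (hm ▸ dvd_mul_left p m)).mul_pow
      (pow_mem (sub_mem (le_cadj v K w hψ) (self_mem_cadj v K w)) m) h3
    refine h4.pg ?_
    rw [← hm]
    have h5 : ((j + 1 : ℕ) : ℝ) ≤ D := by
      have := mem_range.1 hj
      exact_mod_cast this
    have h6 : ((j + 1 : ℕ) : ℝ) * (μ / (D + 1)) < μ := by
      have h7 : (0 : ℝ) < D + 1 := by positivity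
      rw [mul_div_assoc', div_lt_iff₀ h7]
      nlinarith
    linarith
  · rw [h0 (j + 1) (Nat.succ_ne_zero j) hpj, eval_zero, zero_mul]
    exact PG.of_gt Gt.zero

/-! ### OC for the Hasse derivatives -/

omit hp [CharP Ω p] [IsAlgClosed Ω] in
theorem rt_phS_zero (n' n : ℕ) : PhS Φ w Z n' n 0 = 0 := by
  rw [PhS, Ph, EV_zero, map_zero]

theorem rt_hoc (h : Set0 v K Φ w Z κ ρ σ) {f : Polynomial Ω} (hf : f ∈ PI K) {L : ℕ} (hL : p ∣ L)
    (hL0 : L ≠ 0) (hX : ∀ l, 2 ≤ l → ¬ p ∣ l → hasseDeriv l f = 0)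
    (hn : ∀ l : ℕ, L < l → p ∣ l →
      PG p v (cadj v K w) (ν - l * ρ) ((hasseDeriv l f).eval w)) :
    ∃ m₁ : ℕ, ∀ n' : ℕ, m₁ ≤ n' → ∀ i n : ℕ, n ≠ 0 → p ∣ i → L * n' + m₁ ≤ n + i * n' →
      PG p v (cadj v K w) (ν - i * ρ - n * σ) (PhS Φ w Z n' n (hasseDeriv i f)) := by
  have hL2 : 2 ≤ L := hp.out.two_le.trans (Nat.le_of_dvd (by omega) hL)
  have hcomp : ∀ l i : ℕ, hasseDeriv l (hasseDeriv i f) =
      C (((l + i).choose l : ℕ) : Ω) * hasseDeriv (l + i) f := by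
    intro l i
    have h1 := LinearMap.congr_fun (hasseDeriv_comp (R := Ω) l i) f
    rw [LinearMap.comp_apply] at h1
    rw [h1, LinearMap.smul_apply, nsmul_eq_mul, ← C_eq_natCast]
  have hz : ∀ i l : ℕ, p ∣ i → L < l + i → ¬ p ∣ l → hasseDeriv l (hasseDeriv i f) = 0 := by
    intro i l hi hl hpl
    rw [hcomp, hX (l + i) (by omega) (fun h1 => hpl ((Nat.dvd_add_left hi).1 h1)), mul_zero]
  have hg : ∀ i l : ℕ, p ∣ i → L < l + i → p ∣ l →
      PG p v (cadj v K w) (ν - i * ρ - l * ρ) ((hasseDeriv l (hasseDeriv i f)).eval w) := by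
    intro i l hi hl hpl
    rw [hcomp, eval_mul, eval_C]
    refine PG.natCast_mul ((hn (l + i) (by omega) (dvd_add hpl hi)).mono (le_of_eq ?_)) _
    push_cast
    ring
  obtain ⟨m, hm⟩ := rt_max (range (max L f.natDegree + 1))
    (fun i m => p ∣ i → ∀ n' : ℕ, m ≤ n' → ∀ n : ℕ, n ≠ 0 → L * n' + m ≤ n + i * n' →
      PG p v (cadj v K w) (ν - i * ρ - n * σ) (PhS Φ w Z n' n (hasseDeriv i f)))
    (fun i _ => by
      by_cases hi : p ∣ i
      swap
      · exact ⟨0, fun _ _ h1 => absurd h1 hi⟩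
      by_cases hiL : i ≤ L
      · obtain ⟨m₁, -, n₀, h1⟩ := h.oc_two (ν := ν - i * ρ) (l₀ := L - i) (hasse_mem_PI hf i)
          (Nat.dvd_sub hL hi) (fun l hl hpl => hz i l hi (by omega) hpl)
          (fun l hl hpl => hg i l hi (by omega) hpl)
        refine ⟨max m₁ n₀, fun m hm _ n' hn' n hn0 hle => ?_⟩
        refine h1 n' (by omega) n ?_
        have h2 : L * n' = (L - i) * n' + i * n' := by rw [← add_mul, Nat.sub_add_cancel hiL]
        omega
      · obtain ⟨n₀, h1⟩ := h.oc_one (ν := ν - i * ρ) (l₀ := 0) (hasse_mem_PI hf i)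
          (dvd_zero p) (fun l hl hpl => hz i l hi (by omega) hpl)
          (fun l hl hpl => hg i l hi (by omega) hpl)
          (LP.of_pg (hg i 0 hi (by omega) (dvd_zero p)))
        exact ⟨n₀, fun m hm _ n' hn' n hn0 _ => h1 n' (by omega) n hn0 (by omega)⟩)
  refine ⟨m, fun n' hn' i n hn0 hi hle => ?_⟩
  by_cases hiD : i ≤ max L f.natDegree
  · exact hm m le_rfl i (mem_range.2 (by omega)) hi n' hn' n hn0 hle
  · rw [hasseDeriv_eq_zero_of_lt_natDegree f i (by omega), rt_phS_zero]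
    exact PG.of_gt Gt.zero

end A

end Pool.Agent.TWN1
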