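import Pool.Agent.Lib.TWN1.RtA

/-!
# TANK W, Theorem N1, (G3): the correction term

`corr`: the part of the expansion of `w ^ J` times a coefficient which OC does not kill.
-/

set_option autoImplicit false

open Polynomial Finset

namespace Pool.Agent.TWN1

open Pool.Agent.H15JM (RVal)
open Pool.Agent.TWM
open Pool.Agent.TWII (PG LP)
open Pool.Agent.TWLM (HSd Oi)

universe u

section B

variable {k Ω : Type u} [Field k] [Field Ω] [Algebra k Ω] {v : RVal Ω}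
  {K : IntermediateField k Ω} {Φ : ℕ → Ω → Ω} {w ψ : Ω} {Z : PowerSeries Ω} {κ : ℕ → ℝ} {ρ σ : ℝ}
  {p : ℕ} [hp : Fact p.Prime] [CharP Ω p] {N J m₁ n' n : ℕ} {s ν δ M η b e₀ ε μ : ℝ} {c a bf : Ω}

/-- The correction term. -/
noncomputable def corr (p N m₁ : ℕ) (Φ : ℕ → Ω → Ω) (w : Ω) (Z : PowerSeries Ω) (n' : ℕ) (ψ : Ω)
    (J n : ℕ) (c : Ω) : Ω :=
  ∑ x ∈ antidiagonal n with x.1 ≠ 0 ∧ p ^ N * x.1 < m₁,
    Φ x.1 c * PowerSeries.coeff x.2 (Tn Φ w Z n' ψ ^ J)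

omit hp [CharP Ω p] in
theorem rt_Tn_eq (h : Set0 v K Φ w Z κ ρ σ) (hψ : ψ ∈ K) :
    Tn Φ w Z n' ψ = EV Φ (X - C ψ) (PowerSeries.C w + Sn Z n') := by
  rw [EV_sub h.hsd (X_mem_PI) (C_mem_PI hψ), EV_X h.hsd, EV_C h.hsd hψ]
  rfl

theorem rt_Tn_mem (h : Set0 v K Φ w Z κ ρ σ) (hψ : ψ ∈ K) (n : ℕ) :
    PowerSeries.coeff n (Tn Φ w Z n' ψ) ∈ cadj v K w := by
  rw [rt_Tn_eq h hψ]
  exact h.phS_mem (sub_mem (X_mem_PI) (C_mem_PI hψ)) n' n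

theorem rt_Tn_pow (h : Set0 v K Φ w Z κ ρ σ) (hψ : ψ ∈ K) (J n : ℕ) :
    PowerSeries.coeff n (Tn Φ w Z n' ψ ^ J) = PhS Φ w Z n' n ((X - C ψ) ^ J) := by
  rw [PhS, Ph, EV_pow h.hsd (sub_mem (X_mem_PI) (C_mem_PI hψ)), rt_Tn_eq h hψ]

/-- The jets of a power. -/
theorem rt_hasse_lin [IsAlgClosed Ω] (ψ : Ω) (J i : ℕ) :
    hasseDeriv i ((X - C ψ) ^ J) = C ((J.choose i : ℕ) : Ω) * (X - C ψ) ^ (J - i) := by
  refine Polynomial.funext fun x => ?_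
  rw [← taylor_coeff, taylor_pow, map_sub, taylor_X, taylor_C, add_sub_assoc, ← C_sub,
    coeff_X_add_C_pow, eval_mul, eval_C, eval_pow, eval_sub, eval_X, eval_C, mul_comm]

theorem rt_phS_natCast (h : Set0 v K Φ w Z κ ρ σ) {f : Polynomial Ω} (hf : f ∈ PI K) (m n : ℕ) :
    PhS Φ w Z n' n (C (m : Ω) * f) = m * PhS Φ w Z n' n f := by
  induction m with
  | zero => rw [Nat.cast_zero, C_0, zero_mul, zero_mul, rt_phS_zero]
  | succ m ih =>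
    have e1 : (C ((m + 1 : ℕ) : Ω) * f : Polynomial Ω) = C (m : Ω) * f + f := by
      rw [Nat.cast_succ, C_add, C_1]
      ring
    rw [e1, PhS, ph_add h.hsd (mul_mem (C_mem_PI (natCast_mem K m)) hf) hf]
    rw [PhS] at ih
    rw [ih, Nat.cast_succ, add_mul, one_mul]
    rfl

omit hp [CharP Ω p] in
/-- The correction is a polynomial in `w`. -/
theorem rt_corr_poly [IsAlgClosed Ω] (h : Set0 v K Φ w Z κ ρ σ) (hψ : ψ ∈ K) (hc : c ∈ K) :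
    ∃ P ∈ PI K, P.eval w = corr p N m₁ Φ w Z n' ψ J n c ∧ ∀ i, (hasseDeriv i P).eval w =
      ∑ x ∈ antidiagonal n with x.1 ≠ 0 ∧ p ^ N * x.1 < m₁,
        Φ x.1 c * (((J.choose i : ℕ) : Ω) *
          PowerSeries.coeff x.2 (Tn Φ w Z n' ψ ^ (J - i))) := by
  have hX : (X - C ψ : Polynomial Ω) ∈ PI K := sub_mem (X_mem_PI) (C_mem_PI hψ)
  choose P hP hPd hPj using fun n => h.phS_poly (pow_mem hX J) n' n
  have h1 : ∀ i, (hasseDeriv i (∑ x ∈ antidiagonal n with x.1 ≠ 0 ∧ p ^ N * x.1 < m₁,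
      C (Φ x.1 c) * P x.2)).eval w =
      ∑ x ∈ antidiagonal n with x.1 ≠ 0 ∧ p ^ N * x.1 < m₁,
        Φ x.1 c * (((J.choose i : ℕ) : Ω) *
          PowerSeries.coeff x.2 (Tn Φ w Z n' ψ ^ (J - i))) := by
    intro i
    rw [map_sum, eval_finsetSum]
    refine sum_congr rfl fun x _ => ?_
    rw [← smul_eq_C_mul, map_smul, eval_smul, smul_eq_mul, hPj, rt_hasse_lin, rt_Tn_pow h hψ,
      rt_phS_natCast h (pow_mem hX _)]
  refine ⟨_, sum_mem fun x _ => mul_mem (C_mem_PI (h.hsd.mem _ _ hc)) (hP x.2), ?_, h1⟩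
  have h2 := h1 0
  rw [hasseDeriv_zero'] at h2
  rw [h2, corr]
  exact sum_congr rfl fun x _ => by rw [Nat.choose_zero_right, Nat.cast_one, one_mul, Nat.sub_zero]

omit hp [CharP Ω p] in
theorem rt_phi_ge (h : Set0 v K Φ w Z κ ρ σ) (hc : c ∈ K) (hb : v.Ge b c) (m : ℕ) :
    v.Ge (b - m * σ) (Φ m c) := by
  by_cases hm : m = 0
  · rw [hm, h.hsd.c0 c hc]
    exact hb.mono (by simp)
  · exact (h.str m hm c hc b hb).mono (by linarith [h.kpos m])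

omit hp [CharP Ω p] in
theorem rt_corr_sub (h : Set0 v K Φ w Z κ ρ σ) {c c' : Ω} (hc : c ∈ K) (hc' : c' ∈ K) :
    corr p N m₁ Φ w Z n' ψ J n (c - c') =
      corr p N m₁ Φ w Z n' ψ J n c - corr p N m₁ Φ w Z n' ψ J n c' := by
  rw [corr, corr, corr, ← sum_sub_distrib]
  exact sum_congr rfl fun x _ => by rw [h.hsd.sub x.1 hc hc', sub_mul]

omit hp [CharP Ω p] in
/-- The size of the correction. -/
theorem rt_corr_ge (h : Set0 v K Φ w Z κ ρ σ) (hc : c ∈ K) (hb : v.Ge b c)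
    (hT : ∀ n : ℕ, v.Ge (ρ - δ - n * σ) (PowerSeries.coeff n (Tn Φ w Z n' ψ)))
    (hη : ∀ m : ℕ, m ≠ 0 → p ^ N * m < m₁ → η ≤ κ m) :
    v.Ge (b + J * (ρ - δ) - n * σ + η) (corr p N m₁ Φ w Z n' ψ J n c) := by
  refine RVal.Ge.sum _ _ fun x hx => ?_
  obtain ⟨h1, h2, h3⟩ := mem_filter.1 hx
  have h4 : x.1 + x.2 = n := by simpa using h1
  refine ((h.str x.1 h2 c hc b hb).mul (pow_ge hT J x.2)).mono ?_
  rw [← h4]
  push_cast
  linarith [hη x.1 h2 h3]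

omit hp [CharP Ω p] in
/-- The jets of the correction are very small. -/
theorem rt_corr_jet (h : Set0 v K Φ w Z κ ρ σ) (hc : c ∈ K) (hb : v.Ge b c)
    (hT : ∀ n : ℕ, v.Ge (ρ - δ - n * σ) (PowerSeries.coeff n (Tn Φ w Z n' ψ)))
    (hM : ∀ n : ℕ, n' ≤ n → v.Ge (M - n * σ) (PowerSeries.coeff n (Tn Φ w Z n' ψ)))
    (hp1 : 1 ≤ p) {i : ℕ} (hi : i ≠ 0) (hn' : m₁ ≤ n') (hn0 : n' ≠ 0) {t : ℝ}
    (ht : ∀ l : ℕ, l < J → t ≤ M + (l : ℝ) * (ρ - δ)) (hJ : J ≠ 0) (hn : n = J * n') :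
    v.Ge (b + t - n * σ) (∑ x ∈ antidiagonal n with x.1 ≠ 0 ∧ p ^ N * x.1 < m₁,
        Φ x.1 c * (((J.choose i : ℕ) : Ω) *
          PowerSeries.coeff x.2 (Tn Φ w Z n' ψ ^ (J - i)))) := by
  refine RVal.Ge.sum _ _ fun x hx => ?_
  obtain ⟨h1, h2, h3⟩ := mem_filter.1 hx
  have h4 : x.1 + x.2 = n := by simpa using h1
  have h5 : x.1 < m₁ := lt_of_le_of_lt (Nat.le_mul_of_pos_left _ (pow_pos (by omega) N)) h3
  have hJ1 : 1 * n' ≤ J * n' := Nat.mul_le_mul_right n' (by omega)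
  rcases lt_trichotomy i J with hiJ | hiJ | hiJ
  · have h6 : (J - i) * n' ≤ x.2 := by
      have h7 : J * n' = (J - i) * n' + i * n' := by rw [← add_mul, Nat.sub_add_cancel hiJ.le]
      have h8 : 1 * n' ≤ i * n' := Nat.mul_le_mul_right n' (by omega)
      omega
    have h7 := pow_ge_far hT hM (l := J - i) (by omega) h6
    refine ((rt_phi_ge h hc hb x.1).mul ((ge_natCast v (J.choose i)).mul h7)).mono ?_
    have h8 := ht (J - i - 1) (by omega)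
    have h9 : (((J - i - 1 : ℕ) : ℝ)) = ((J - i : ℕ) : ℝ) - 1 := by
      rw [Nat.cast_sub (by omega), Nat.cast_one]
    rw [h9] at h8
    rw [← h4]
    push_cast
    linarith
  · rw [hiJ, Nat.sub_self, pow_zero, PowerSeries.coeff_one, if_neg (by omega), mul_zero, mul_zero]
    exact RVal.Ge.zero
  · rw [Nat.choose_eq_zero_of_lt hiJ, Nat.cast_zero, zero_mul, mul_zero]
    exact RVal.Ge.zero

/-- Multiplication by the coefficients of a power of `T`. -/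
theorem rt_mul_coeff (h : Set0 v K Φ w Z κ ρ σ) (hψ : ψ ∈ K)
    (hT : ∀ n : ℕ, v.Ge (ρ - δ - n * σ) (PowerSeries.coeff n (Tn Φ w Z n' ψ))) {L : ℕ}
    (hL : p ∣ L) {x : Ω} {t : ℝ} (hx : PC p v (cadj v K w) t x) (j : ℕ) :
    PC p v (cadj v K w) (t + (L * (ρ - δ) - j * σ))
      (x * PowerSeries.coeff j (Tn Φ w Z n' ψ ^ L)) := by
  have h1 := pow_ge hT L j
  obtain ⟨L', rfl⟩ := hL
  rw [coeff_pow_mul] at h1 ⊢
  split_ifs at h1 ⊢
  · exact hx.mul_pow (pow_coeff_mem _ (rt_Tn_mem h hψ) _ _) h1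
  · rw [mul_zero]
    exact PC.of_ge RVal.Ge.zero

/-- The coefficients along the arc of a limit of `p`-th powers of `K`. -/
theorem rt_phi_lp (h : Set0 v K Φ w Z κ ρ σ) {t : ℝ} (hc : c ∈ K) (hl : LP p v K t c)
    {m : ℕ} (hm : m ≠ 0) (hε : 0 < ε) : PC p v K (t - ε - m * σ + κ m) (Φ m c) := by
  obtain ⟨g, hg, h3⟩ := hl ε hε
  have h4 := h.str m hm _ (sub_mem hc (pow_mem hg p)) _ h3
  rw [h.hsd.sub m hc (pow_mem hg p)] at h4
  have e : Φ m c = (Φ m c - Φ m (g ^ p)) + Φ m (g ^ p) := by ring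
  rw [e]
  refine (PC.of_ge h4).add ?_
  by_cases hpN : p ∣ m
  · obtain ⟨N', rfl⟩ := hpN
    have h5 := h.hsd.pow_mul p hg 1 N'
    rw [pow_one] at h5
    rw [h5]
    exact PC.of_pow (h.hsd.mem N' g hg)
  · have h5 := h.hsd.pow_zero p hg 1 m (by rwa [pow_one])
    rw [pow_one] at h5
    rw [h5]
    exact PC.of_ge RVal.Ge.zero

/-- The powers of exponent `p ^ N` along the arc. -/
theorem rt_phi_pow (h : Set0 v K Φ w Z κ ρ σ) (hc : c ∈ K) (hb : v.Ge b c) (hN : 1 ≤ N) (m : ℕ) :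
    ∃ d ∈ K, Φ m (c ^ p ^ N) = d ^ p ∧ v.Ge (p ^ N * b - m * σ) (d ^ p) := by
  by_cases hm : p ^ N ∣ m
  · obtain ⟨m', rfl⟩ := hm
    refine ⟨(Φ m' c) ^ p ^ (N - 1), pow_mem (h.hsd.mem m' c hc) _, ?_, ?_⟩
    · rw [h.hsd.pow_mul p hc N m', ← pow_mul, ← pow_succ, Nat.sub_add_cancel hN]
    · rw [← pow_mul, ← pow_succ, Nat.sub_add_cancel hN]
      refine (ge_pow (rt_phi_ge h hc hb m') (p ^ N)).mono (le_of_eq ?_)
      push_cast
      ring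
  · refine ⟨0, K.zero_mem, ?_, ?_⟩
    · rw [h.hsd.pow_zero p hc N m hm, zero_pow hp.out.ne_zero]
    · rw [zero_pow hp.out.ne_zero]
      exact RVal.Ge.zero

/-- The `p ^ N`-th power of the correction. -/
theorem rt_corr_pow (h : Set0 v K Φ w Z κ ρ σ) (hc : c ∈ K) :
    ∑ x ∈ antidiagonal (p ^ N * n) with x.1 ≠ 0 ∧ x.1 < m₁,
      Φ x.1 (c ^ p ^ N) * PowerSeries.coeff x.2 (Tn Φ w Z n' ψ ^ (p ^ N * J)) =
      corr p N m₁ Φ w Z n' ψ J n c ^ p ^ N := by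
  classical
  set u : PowerSeries Ω :=
    PowerSeries.mk fun m => if m ≠ 0 ∧ p ^ N * m < m₁ then Φ m c else 0 with hu
  have e1 : corr p N m₁ Φ w Z n' ψ J n c =
      PowerSeries.coeff n (u * Tn Φ w Z n' ψ ^ J) := by
    rw [PowerSeries.coeff_mul, corr, sum_filter]
    refine sum_congr rfl fun x _ => ?_
    rw [hu, PowerSeries.coeff_mk]
    split_ifs <;> simp
  have e2 : ∀ m, PowerSeries.coeff m (u ^ p ^ N) =
      if m ≠ 0 ∧ m < m₁ then Φ m (c ^ p ^ N) else 0 := by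
    intro m
    by_cases hm : p ^ N ∣ m
    · obtain ⟨m', rfl⟩ := hm
      rw [TWLM.coeff_ps_pow_pow, hu, PowerSeries.coeff_mk, h.hsd.pow_mul p hc N m']
      have h1 : p ^ N ≠ 0 := pow_ne_zero _ hp.out.ne_zero
      by_cases h2 : m' = 0
      · rw [h2, if_neg (by simp), if_neg (by simp), zero_pow h1]
      · by_cases h3 : p ^ N * m' < m₁
        · rw [if_pos ⟨h2, h3⟩, if_pos ⟨Nat.mul_ne_zero h1 h2, h3⟩]
        · rw [if_neg (fun h4 => h3 h4.2), if_neg (fun h4 => h3 h4.2), zero_pow h1]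
    · rw [TWLM.coeff_ps_pow_zero p _ _ _ hm, h.hsd.pow_zero p hc N m hm, ite_self]
  rw [e1, ← TWLM.coeff_ps_pow_pow, _root_.mul_pow, PowerSeries.coeff_mul, sum_filter]
  refine sum_congr rfl fun x _ => ?_
  rw [e2, ← pow_mul, mul_comm J (p ^ N)]
  split_ifs <;> simp

/-- The main congruence. -/
theorem rt_corr_null (h : Set0 v K Φ w Z κ ρ σ) (hψ : ψ ∈ K) (hc : c ∈ K) (ha : a ∈ K)
    (hbf : bf ∈ K) (hN : 1 ≤ N)
    (hlb : LP p v K (ν - (p ^ N * J : ℕ) * ρ - ε) bf) (hcb : v.Ge (s - e₀ - J * ρ) c)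
    (haΦ : ∀ m : ℕ, m ≠ 0 → PC p v K (ν - p ^ N * s - m * σ + μ) (Φ m a))
    (hT : ∀ n : ℕ, v.Ge (ρ - δ - n * σ) (PowerSeries.coeff n (Tn Φ w Z n' ψ)))
    (hη : ∀ m : ℕ, m ≠ 0 → m < m₁ → η ≤ κ m) (h1 : ε + (p ^ N * J : ℕ) * δ < η)
    (h2 : p ^ N * e₀ + (p ^ N * J : ℕ) * δ < μ) :
    PG p v (cadj v K w) (ν - (p ^ N * n : ℕ) * σ)
      (∑ x ∈ antidiagonal (p ^ N * n) with x.1 ≠ 0 ∧ x.1 < m₁,
        Φ x.1 (bf - a * c ^ p ^ N) * PowerSeries.coeff x.2 (Tn Φ w Z n' ψ ^ (p ^ N * J)) +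
      a * corr p N m₁ Φ w Z n' ψ J n c ^ p ^ N) := by
  have hL : p ∣ p ^ N * J := (dvd_pow_self p (by omega)).trans (dvd_mul_right _ _)
  rw [← rt_corr_pow h hc, mul_sum, ← sum_add_distrib]
  refine PG.sum _ _ fun x hx => ?_
  obtain ⟨g1, g2, g3⟩ := mem_filter.1 hx
  have g4 : x.1 + x.2 = p ^ N * n := by simpa using g1
  have g4' : ((p ^ N * n : ℕ) : ℝ) = x.1 + x.2 := by rw [← g4]; push_cast; ring
  have hcQ : c ^ p ^ N ∈ K := pow_mem hc _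
  rw [h.hsd.sub x.1 hbf (mul_mem ha hcQ), h.hsd.mul x.1 a ha _ hcQ]
  have e1 : ∑ i ∈ antidiagonal x.1, Φ i.1 a * Φ i.2 (c ^ p ^ N) = a * Φ x.1 (c ^ p ^ N) +
      ∑ i ∈ antidiagonal x.1 with i.1 ≠ 0, Φ i.1 a * Φ i.2 (c ^ p ^ N) := by
    rw [← sum_filter_add_sum_filter_not (antidiagonal x.1) (fun i => i.1 ≠ 0), add_comm]
    congr 1
    rw [sum_eq_single (0, x.1)]
    · rw [h.hsd.c0 a ha]
    · intro i hi hne
      obtain ⟨hi1, hi2⟩ := mem_filter.1 hi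
      have hi3 : i.1 + i.2 = x.1 := by simpa using hi1
      exact absurd (Prod.ext (not_not.1 hi2) (by rw [not_not.1 hi2] at hi3; simpa using hi3)) hne
    · intro hh
      exact absurd (mem_filter.2 ⟨by simp, by simp⟩) hh
  rw [e1]
  have e2 : ∀ A1 A2 A3 A4 : Ω, (A1 - (A2 + A3)) * A4 + (A2 * A4) = A1 * A4 - A3 * A4 :=
    fun A1 A2 A3 A4 => by ring
  rw [← mul_assoc, e2]
  refine PG.sub ?_ ?_
  · have h3 := rt_phi_lp h hbf hlb g2
      (ε := (η - ε - (p ^ N * J : ℕ) * δ) / 2) (by linarith)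
    refine (rt_mul_coeff h hψ hT hL h3.up x.2).pg ?_
    rw [g4']
    have := hη x.1 g2 g3
    linarith
  · rw [sum_mul]
    refine PG.sum _ _ fun i hi => ?_
    obtain ⟨hi1, hi2⟩ := mem_filter.1 hi
    have hi3 : i.1 + i.2 = x.1 := by simpa using hi1
    have hi3' : ((x.1 : ℕ) : ℝ) = i.1 + i.2 := by rw [← hi3]; push_cast; ring
    obtain ⟨d, hd, hd1, hd2⟩ := rt_phi_pow h hc hcb hN i.2
    rw [hd1]
    refine (rt_mul_coeff h hψ hT hL ((haΦ i.1 hi2).mul_pow hd hd2).up x.2).pg ?_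
    rw [g4', hi3']
    push_cast at h2 ⊢
    linarith

end B

end Pool.Agent.TWN1
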