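import Pool.Agent.Lib.TWN1.Trunc
import Pool.Agent.Lib.TWII.Hit

/-!
# TANK W, Theorem N1: finite shape and irrational radius

`FSh v F Φ y ρ σ`: the jets of large order of `y` along the arc `Φ` of `F` are not visible.
`IrrV v F σ`: no multiple of `σ` is the value of an element of `F`.

* `exists_gt`: finite shape and irrational radius: the jets of large order are null;
* `exists_trunc_fin`: then the arc of `F` extends to a strict overconvergent arc of the closure of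
  `F(y)`, along which `y` has finitely many jets;
* `exists_trunc_fin₂`: two floors, both shapes with respect to the arc of the base.
-/

set_option autoImplicit false

open Polynomial Finset

namespace Pool.Agent.TWN1

open Pool.Agent.H15JM (RVal)
open Pool.Agent.TWM
open Pool.Agent.TWLM (HSd Oi Arc)

universe u

variable {k Ω : Type u} [Field k] [Field Ω] [Algebra k Ω] {v : RVal Ω}
  {C F : IntermediateField k Ω} {Φ Ψ : ℕ → Ω → Ω} {w y z : Ω} {Z : PowerSeries Ω} {κ : ℕ → ℝ}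
  {ρ σ r : ℝ}

/-- Finite visible shape. -/
def FSh (v : RVal Ω) (F : IntermediateField k Ω) (Φ : ℕ → Ω → Ω) (y : Ω) (ρ σ : ℝ) : Prop :=
  ∃ L : ℕ, ∀ l : ℕ, L < l → TWII.Nr v F ρ y fun θ => v.Ge (ρ - l * σ) (Φ l θ)

/-- No multiple of `σ` is the value of an element of `F`. -/
def IrrV (v : RVal Ω) (F : IntermediateField k Ω) (σ : ℝ) : Prop :=
  ∀ n : ℕ, n ≠ 0 → ∀ x ∈ F, x ≠ 0 → v x ≠ n * σ

theorem IrrV.imm (h : IrrV v C σ) (hi : Imm v C F) : IrrV v F σ := by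
  intro n hn x hx hx0
  obtain ⟨a, ha, h1⟩ := hi.imm x hx hx0
  obtain ⟨h2, h3⟩ := Gt.val_eq hx0 h1
  rw [← h3]
  exact h n hn a ha h2

/-- Finite shape and irrational radius: the jets of large order are null. -/
theorem Set0.exists_gt (h : Set0 v C Φ w Z κ ρ σ) (hirr : IrrV v C σ) (hf : FSh v C Φ w ρ σ) :
    ∃ n₀ : ℕ, ∀ n : ℕ, n₀ ≤ n → Gt v (ρ - n * σ) (PowerSeries.coeff n Z) := by
  obtain ⟨L, hL⟩ := hf
  have h1 : ∀ n : ℕ, L < n → v.Ge (ρ - n * σ) (PowerSeries.coeff n Z) := by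
    intro n hn
    have hκ := h.kpos n
    obtain ⟨c, hc, h2, h3⟩ := ((hL n hn).and (TWII.Nr.near (half_pos hκ))).exists h.tl.lim
    have h4 := h.near n (by omega) c hc _ h3
    have e : PowerSeries.coeff n Z = (PowerSeries.coeff n Z - Φ n c) + Φ n c := by ring
    rw [e]
    refine (h4.mono ?_).add h2
    have : ρ ≤ min (ρ - κ n / 2 + κ n) (ρ + κ n / 2) := le_min (by linarith) (by linarith)
    linarith
  have h2 : ∀ n : ℕ, L < n → ¬ Gt v (ρ - n * σ) (PowerSeries.coeff n Z) →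
      PowerSeries.coeff n Z ≠ 0 ∧ v (PowerSeries.coeff n Z) = ρ - n * σ := by
    intro n hn h3
    unfold Gt at h3
    push Not at h3
    exact ⟨h3.1, le_antisymm h3.2 (h1 n hn h3.1)⟩
  by_cases h3 : ∃ n : ℕ, L < n ∧ ¬ Gt v (ρ - n * σ) (PowerSeries.coeff n Z)
  · obtain ⟨n, hn, h4⟩ := h3
    refine ⟨n + 1, fun m hm => ?_⟩
    by_contra h5
    obtain ⟨h6, h7⟩ := h2 n hn h4
    obtain ⟨h8, h9⟩ := h2 m (by omega) h5
    refine hirr (m - n) (by omega) (PowerSeries.coeff n Z / PowerSeries.coeff m Z)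
      (div_mem (h.zmem n) (h.zmem m)) (div_ne_zero h6 h8) ?_
    rw [div_eq_mul_inv, v.map_mul h6 (inv_ne_zero h8), v.map_inv h8, h7, h9,
      Nat.cast_sub (by omega)]
    ring
  · push Not at h3
    exact ⟨L + 1, fun m hm => h3 m (by omega)⟩

/-- The setting of N1 from a strict arc. -/
theorem exists_set0_arc (hΦ : Arc v C σ Φ) (ho : Oi v C σ Φ) (hw : TL v C w ρ) :
    ∃ (Z : PowerSeries Ω) (κ : ℕ → ℝ), Set0 v C Φ w Z κ ρ σ := by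
  refine exists_set0 hΦ.toHSd ho (fun n hn => ?_) hw
  obtain ⟨m, hm, h1⟩ := hΦ.str n hn
  exact ⟨n * σ - m, by linarith, fun x hx b hb => (h1 x hx b hb).mono (by linarith)⟩

/-- **Truncation**: a floor of finite shape, irrational radius of the arc. -/
theorem exists_trunc_fin [IsAlgClosed Ω] (hΩ : CompleteV v) (hΦ : Arc v F σ Φ) (ho : Oi v F σ Φ)
    (hy : TL v F y ρ) (hirr : IrrV v F σ) (hf : FSh v F Φ y ρ σ) :
    ∃ (Ψ : ℕ → Ω → Ω) (n₀ : ℕ), Arc v (cadj v F y) σ Ψ ∧ Oi v (cadj v F y) σ Ψ ∧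
      (∀ n : ℕ, ∀ x ∈ F, Ψ n x = Φ n x) ∧ (∀ n : ℕ, n ≠ 0 → Ψ n y ∈ F) ∧
      ∀ n : ℕ, n ≠ 0 → n₀ ≤ n → Ψ n y = 0 := by
  obtain ⟨Z, κ, h⟩ := exists_set0_arc hΦ ho hy
  obtain ⟨n₀, h1⟩ := h.exists_gt hirr hf
  obtain ⟨Ψ, h2, h3, -, h4, h5⟩ := h.exists_trunc hΩ h1
  refine ⟨Ψ, n₀, h2, h3, h4, fun n hn => ?_, fun n hn hn' => ?_⟩
  · rw [h5 n hn]
    split_ifs
    exacts [h.zmem n, zero_mem _]
  · rw [h5 n hn, if_neg (by omega)]

/-- The shape of an element which is a limit of the base. -/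
theorem FSh.up (hΨ : Arc v F σ Ψ) (hCF : C ≤ F) (hext : ∀ n : ℕ, ∀ x ∈ C, Ψ n x = Φ n x)
    (hz : Lim v C r z) (hf : FSh v C Φ z r σ) : FSh v F Ψ z r σ := by
  obtain ⟨L, hL⟩ := hf
  refine ⟨L, fun l hl => ?_⟩
  obtain ⟨m, hm, h1⟩ := hΨ.str l (by omega)
  refine ⟨l * σ - m, by linarith, fun θ hθ h2 => ?_⟩
  obtain ⟨c, hc, h3, h4⟩ := ((hL l hl).and (TWII.Nr.near (sub_pos.2 hm))).exists hz
  have h5 : v.Ge (r - (l * σ - m)) (θ - c) := by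
    have e : θ - c = (z - c) - (z - θ) := by ring
    rw [e]
    exact h4.sub h2
  have h6 := h1 _ (sub_mem hθ (hCF hc)) _ h5
  have e : Ψ l θ = Ψ l (θ - c) + Φ l c := by
    rw [hΨ.sub l hθ (hCF hc), hext l c hc]
    ring
  rw [e]
  exact (h6.mono (by linarith)).add h3

/-- **Truncation, two floors**, the shapes with respect to the arc of the base. -/
theorem exists_trunc_fin₂ [IsAlgClosed Ω] (hΩ : CompleteV v) (hΦ : Arc v C σ Φ) (ho : Oi v C σ Φ)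
    (hirr : IrrV v C σ) (hy : TL v C y ρ) (hz : TL v (cadj v C y) z r) (hzC : Lim v C r z)
    (hfy : FSh v C Φ y ρ σ) (hfz : FSh v C Φ z r σ) :
    ∃ (Ψ : ℕ → Ω → Ω) (n₀ : ℕ), Arc v (cadj v (cadj v C y) z) σ Ψ ∧
      Oi v (cadj v (cadj v C y) z) σ Ψ ∧ (∀ n : ℕ, ∀ x ∈ C, Ψ n x = Φ n x) ∧
      (∀ n : ℕ, n ≠ 0 → Ψ n y ∈ C) ∧ (∀ n : ℕ, n ≠ 0 → Ψ n z ∈ cadj v C y) ∧
      ∀ n : ℕ, n ≠ 0 → n₀ ≤ n → Ψ n y = 0 ∧ Ψ n z = 0 := by
  obtain ⟨Ψ₁, n₁, h1, h2, h3, h4, h5⟩ := exists_trunc_fin hΩ hΦ ho hy hirr hfy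
  obtain ⟨Ψ, n₂, g1, g2, g3, g4, g5⟩ := exists_trunc_fin hΩ h1 h2 hz (hirr.imm hy.imm)
    (hfz.up h1 (le_cadj v C y) h3 hzC)
  have hyF : y ∈ cadj v C y := self_mem_cadj v C y
  refine ⟨Ψ, max n₁ n₂, g1, g2, fun n x hx => ?_, fun n hn => ?_, g4, fun n hn hn' => ⟨?_, ?_⟩⟩
  · rw [g3 n x (le_cadj v C y hx), h3 n x hx]
  · rw [g3 n y hyF]
    exact h4 n hn
  · rw [g3 n y hyF]
    exact h5 n hn (by omega)
  · exact g5 n hn (by omega)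

/-- **A floor which is hit**: the strict arc of `F` extends to a strict overconvergent arc of the
closure of `F(y)`. -/
theorem exists_trunc_hit [IsAlgClosed Ω] (p : ℕ) [Fact p.Prime] [CharP Ω p] (hΩ : CompleteV v)
    (hΦ : Arc v F σ Φ) (ho : Oi v F σ Φ) (hirr : IrrV v F σ) {ν : ℝ} (hy : TL v F y ρ)
    {D : ℕ → Ω → Ω}
    (hD : ∀ j : ℕ, ∀ x ∈ cadj v F y, ∀ b : ℝ, ∃ f ∈ PI F, v.Ge b (x - f.eval y) ∧
      v.Ge b (D j x - (hasseDeriv j f).eval y)) {a : Ω} (ha : a ∈ cadj v F y)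
    (hlim : TWII.LP p v (cadj v F y) ν a)
    (hhit : ∃ l : ℕ, p ∣ l ∧ l ≠ 0 ∧ ¬ TWII.PG p v (cadj v F y) (ν - l * ρ) (D l a)) :
    ∃ (Ψ : ℕ → Ω → Ω) (n₀ : ℕ), Arc v (cadj v F y) σ Ψ ∧ Oi v (cadj v F y) σ Ψ ∧
      (∀ n : ℕ, ∀ x ∈ F, Ψ n x = Φ n x) ∧ (∀ n : ℕ, n ≠ 0 → Ψ n y ∈ F) ∧
      ∀ n : ℕ, n ≠ 0 → n₀ ≤ n → Ψ n y = 0 :=
  exists_trunc_fin hΩ hΦ ho hy hirr (TWII.fin_shape' p hΦ ho hy hD ha hlim hhit)

end Pool.Agent.TWN1
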